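import Mathlib

/-!
Combinatorial core of the truncation of `exp T`: connected sets of polymers and the coefficients of
the quotient of a truncated product by the full product.
-/

set_option autoImplicit false

open scoped BigOperators

namespace Pool.Agent.WP.Mayer

open Classical in
/-- every nonempty part of `U` which does not meet `N` has a neighbour in the rest of `U` -/
def Reach {I : Type*} (r : I → I → Prop) (N U : Finset I) : Prop :=
  ∀ A ⊆ U, A.Nonempty → Disjoint A N → ∃ a ∈ A, ∃ b ∈ U \ A, r a b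

section reach

variable {I : Type*} [Fintype I]

open Classical in
/-- the neighbours of `q` -/
noncomputable def nbr (r : I → I → Prop) (q : I) : Finset I := Finset.univ.filter fun x => r x q

open Classical in
/-- weighted sum over the subsets of `Λ` which are reached from `N` -/
noncomputable def G (r : I → I → Prop) (b : I → ℝ) (N Λ : Finset I) : ℝ :=
  ∑ U ∈ Λ.powerset, if Reach r N U then ∏ x ∈ U, b x else 0

open Classical in
theorem G_le (r : I → I → Prop) (b f : I → ℝ) (hb : ∀ x, 0 ≤ b x)
    (hf : ∀ p, ∑ q ∈ nbr r p, b q * Real.exp (f q) ≤ f p) (Λ : Finset I) :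
    ∀ N : Finset I, G r b N Λ ≤ Real.exp (∑ p ∈ N, b p * Real.exp (f p)) := by
  induction Λ using Finset.strongInduction with
  | H Λ ih =>
    intro N
    have hpos : ∀ (M : Finset I), 0 ≤ ∑ p ∈ M, b p * Real.exp (f p) := fun M =>
      Finset.sum_nonneg fun p _ => mul_nonneg (hb p) (Real.exp_pos _).le
    by_cases hN : ∃ q, q ∈ N ∧ q ∈ Λ
    · obtain ⟨q, hqN, hqΛ⟩ := hN
      have hΛ : Λ = insert q (Λ.erase q) := (Finset.insert_erase hqΛ).symm
      have hss : Λ.erase q ⊂ Λ := Finset.erase_ssubset hqΛ
      have key : G r b N Λ ≤ G r b (N.erase q) (Λ.erase q) +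
          b q * G r b (N.erase q ∪ nbr r q) (Λ.erase q) := by
        unfold G
        conv_lhs => rw [hΛ]
        rw [Finset.sum_powerset_insert (Finset.notMem_erase q Λ), Finset.mul_sum]
        apply add_le_add
        · apply Finset.sum_le_sum
          intro U hU
          have hqU : q ∉ U := fun h => Finset.notMem_erase q Λ (Finset.mem_powerset.1 hU h)
          by_cases h1 : Reach r N U
          · have h2 : Reach r (N.erase q) U := by
              intro A hA hne hdis
              refine h1 A hA hne ?_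
              rw [Finset.disjoint_left] at hdis ⊢
              intro x hx hxN
              refine hdis hx (Finset.mem_erase.2 ⟨?_, hxN⟩)
              rintro rfl
              exact hqU (hA hx)
            rw [if_pos h1, if_pos h2]
          · rw [if_neg h1]
            split_ifs
            · exact Finset.prod_nonneg fun x _ => hb x
            · exact le_rfl
        · apply Finset.sum_le_sum
          intro U hU
          have hqU : q ∉ U := fun h => Finset.notMem_erase q Λ (Finset.mem_powerset.1 hU h)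
          by_cases h1 : Reach r N (insert q U)
          · have h2 : Reach r (N.erase q ∪ nbr r q) U := by
              intro A hA hne hdis
              rw [Finset.disjoint_union_right] at hdis
              have hqA : q ∉ A := fun h => hqU (hA h)
              obtain ⟨a, ha, c, hc, hac⟩ := h1 A (hA.trans (Finset.subset_insert _ _)) hne (by
                rw [Finset.disjoint_left]
                intro x hx hxN
                refine Finset.disjoint_left.1 hdis.1 hx (Finset.mem_erase.2 ⟨?_, hxN⟩)
                rintro rfl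
                exact hqA hx)
              refine ⟨a, ha, c, ?_, hac⟩
              rw [Finset.mem_sdiff, Finset.mem_insert] at hc
              rw [Finset.mem_sdiff]
              refine ⟨?_, hc.2⟩
              rcases hc.1 with h | h
              · exfalso
                subst h
                exact Finset.disjoint_left.1 hdis.2 ha
                  (Finset.mem_filter.2 ⟨Finset.mem_univ _, hac⟩)
              · exact h
            rw [if_pos h1, if_pos h2, Finset.prod_insert hqU]
          · rw [if_neg h1]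
            refine mul_nonneg (hb q) ?_
            split_ifs
            · exact Finset.prod_nonneg fun x _ => hb x
            · exact le_rfl
      have i1 := ih _ hss (N.erase q)
      have i2 := ih _ hss (N.erase q ∪ nbr r q)
      have i3 : ∑ p ∈ N.erase q ∪ nbr r q, b p * Real.exp (f p) ≤
          (∑ p ∈ N.erase q, b p * Real.exp (f p)) + f q := by
        refine le_trans ?_ (add_le_add (le_refl _) (hf q))
        rw [← Finset.sum_union_inter]
        exact le_add_of_nonneg_right (hpos _)
      have i4 : Real.exp (∑ p ∈ N.erase q ∪ nbr r q, b p * Real.exp (f p)) ≤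
          Real.exp (∑ p ∈ N.erase q, b p * Real.exp (f p)) * Real.exp (f q) := by
        rw [← Real.exp_add]
        exact Real.exp_le_exp.2 i3
      have i5 : ∑ p ∈ N, b p * Real.exp (f p) =
          b q * Real.exp (f q) + ∑ p ∈ N.erase q, b p * Real.exp (f p) :=
        (Finset.add_sum_erase N (fun p => b p * Real.exp (f p)) hqN).symm
      rw [i5, Real.exp_add]
      have i6 : 1 + b q * Real.exp (f q) ≤ Real.exp (b q * Real.exp (f q)) := by
        rw [add_comm]
        exact Real.add_one_le_exp _
      calc G r b N Λ ≤ Real.exp (∑ p ∈ N.erase q, b p * Real.exp (f p)) +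
            b q * (Real.exp (∑ p ∈ N.erase q, b p * Real.exp (f p)) * Real.exp (f q)) :=
          key.trans (add_le_add i1 (mul_le_mul_of_nonneg_left (i2.trans i4) (hb q)))
        _ = (1 + b q * Real.exp (f q)) * Real.exp (∑ p ∈ N.erase q, b p * Real.exp (f p)) := by ring
        _ ≤ _ := mul_le_mul_of_nonneg_right i6 (Real.exp_pos _).le
    · push Not at hN
      have h1 : G r b N Λ = 1 := by
        unfold G
        rw [Finset.sum_eq_single ∅]
        · have : Reach r N ∅ := by
            intro A hA hne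
            rw [Finset.subset_empty] at hA
            rw [hA] at hne
            exact absurd hne Finset.not_nonempty_empty
          rw [if_pos this, Finset.prod_empty]
        · intro U hU hne
          apply if_neg
          intro h
          obtain ⟨a, _, c, hc, _⟩ := h U (Finset.Subset.refl _) (Finset.nonempty_iff_ne_empty.2 hne) (by
            rw [Finset.disjoint_left]
            intro x hx hxN
            exact hN x hxN (Finset.mem_powerset.1 hU hx))
          rw [Finset.sdiff_self] at hc
          exact absurd hc (Finset.notMem_empty _)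
        · intro h
          exact absurd (Finset.empty_mem_powerset Λ) h
      rw [h1]
      exact Real.one_le_exp (hpos N)

end reach

section coeff

variable {I : Type*}

open Classical in
/-- the coefficients of (sum over the sets with `P`) divided by (the product of all `1 + z x`) -/
noncomputable def c (P : Finset I → Prop) (U : Finset I) : ℤ :=
  ∑ S ∈ U.powerset, if P S then (-1) ^ (U \ S).card else 0

open Classical in
theorem c_empty {P : Finset I → Prop} (h : P ∅) : c P ∅ = 1 := by
  unfold c
  rw [Finset.powerset_empty, Finset.sum_singleton, if_pos h]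
  simp

open Classical in
theorem c_eq_zero {P : Finset I → Prop} (hP : ∀ S T, S ⊆ T → P T → P S) {U : Finset I} (hU : P U)
    (hne : U.Nonempty) : c P U = 0 := by
  unfold c
  have h1 : ∀ S ∈ U.powerset, (if P S then (-1 : ℤ) ^ (U \ S).card else 0) =
      (-1) ^ U.card * (-1) ^ S.card := by
    intro S hS
    rw [Finset.mem_powerset] at hS
    rw [if_pos (hP S U hS hU), ← pow_add, Finset.card_sdiff_of_subset hS]
    have h2 := Finset.card_le_card hS
    obtain ⟨k, hk⟩ := Nat.exists_eq_add_of_le h2
    rw [hk, Nat.add_sub_cancel_left, show S.card + k + S.card = k + 2 * S.card by ring, pow_add,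
      pow_mul]
    norm_num
  rw [Finset.sum_congr rfl h1, ← Finset.mul_sum,
    Finset.sum_powerset_neg_one_pow_card_of_nonempty hne, mul_zero]

open Classical in
theorem abs_c_le (P : Finset I → Prop) (U : Finset I) : |c P U| ≤ 2 ^ U.card := by
  unfold c
  refine (Finset.abs_sum_le_sum_abs _ _).trans ?_
  have h1 : ∀ S ∈ U.powerset, |(if P S then (-1 : ℤ) ^ (U \ S).card else 0)| ≤ 1 := by
    intro S _
    split_ifs
    · rw [abs_pow, abs_neg, abs_one, one_pow]
    · simp
  refine (Finset.sum_le_sum h1).trans ?_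
  rw [Finset.sum_const, Finset.card_powerset, nsmul_eq_mul, mul_one]
  push_cast
  exact le_rfl

open Classical in
theorem c_mul {P : Finset I → Prop} {A B : Finset I} (hd : Disjoint A B)
    (hP : ∀ S ⊆ A, ∀ T ⊆ B, (P (S ∪ T) ↔ P S ∧ P T)) : c P (A ∪ B) = c P A * c P B := by
  unfold c
  rw [Finset.sum_mul_sum, ← Finset.sum_product']
  symm
  refine Finset.sum_nbij' (fun p => p.1 ∪ p.2) (fun S => (S ∩ A, S ∩ B)) ?_ ?_ ?_ ?_ ?_
  · rintro ⟨S, T⟩ h
    rw [Finset.mem_product, Finset.mem_powerset, Finset.mem_powerset] at h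
    rw [Finset.mem_powerset]
    exact Finset.union_subset_union h.1 h.2
  · intro S _
    rw [Finset.mem_product, Finset.mem_powerset, Finset.mem_powerset]
    exact ⟨Finset.inter_subset_right, Finset.inter_subset_right⟩
  · rintro ⟨S, T⟩ h
    rw [Finset.mem_product, Finset.mem_powerset, Finset.mem_powerset] at h
    have h1 : S ⊆ A := h.1
    have h2 : T ⊆ B := h.2
    have e1 : (S ∪ T) ∩ A = S := by
      ext x
      simp only [Finset.mem_inter, Finset.mem_union]
      constructor
      · rintro ⟨h3 | h3, h4⟩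
        · exact h3
        · exact absurd (h2 h3) (Finset.disjoint_left.1 hd h4)
      · intro h3
        exact ⟨Or.inl h3, h1 h3⟩
    have e2 : (S ∪ T) ∩ B = T := by
      ext x
      simp only [Finset.mem_inter, Finset.mem_union]
      constructor
      · rintro ⟨h3 | h3, h4⟩
        · exact absurd h4 (Finset.disjoint_left.1 hd (h1 h3))
        · exact h3
      · intro h3
        exact ⟨Or.inr h3, h2 h3⟩
    simp only [e1, e2]
  · intro S hS
    rw [Finset.mem_powerset] at hS
    simp only
    rw [← Finset.inter_union_distrib_left]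
    exact Finset.inter_eq_left.2 hS
  · rintro ⟨S, T⟩ h
    rw [Finset.mem_product, Finset.mem_powerset, Finset.mem_powerset] at h
    have h1 : S ⊆ A := h.1
    have h2 : T ⊆ B := h.2
    have h3 := hP S h1 T h2
    have e1 : (A ∪ B) \ (S ∪ T) = (A \ S) ∪ (B \ T) := by
      ext x
      simp only [Finset.mem_sdiff, Finset.mem_union, not_or]
      constructor
      · rintro ⟨h4 | h4, h5, h6⟩
        · exact Or.inl ⟨h4, h5⟩
        · exact Or.inr ⟨h4, h6⟩
      · rintro (⟨h4, h5⟩ | ⟨h4, h5⟩)
        · exact ⟨Or.inl h4, h5, fun h6 => Finset.disjoint_left.1 hd h4 (h2 h6)⟩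
        · exact ⟨Or.inr h4, fun h6 => Finset.disjoint_left.1 hd (h1 h6) h4, h5⟩
    have e2 : Disjoint (A \ S) (B \ T) :=
      Finset.disjoint_of_subset_left Finset.sdiff_subset
        (Finset.disjoint_of_subset_right Finset.sdiff_subset hd)
    simp only
    rw [e1, Finset.card_union_of_disjoint e2, pow_add]
    by_cases p1 : P S
    · by_cases p2 : P T
      · rw [if_pos p1, if_pos p2, if_pos (h3.2 ⟨p1, p2⟩)]
      · rw [if_neg p2, if_neg (fun h => p2 (h3.1 h).2), mul_zero]
    · rw [if_neg p1, if_neg (fun h => p1 (h3.1 h).1), zero_mul]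

open Classical in
/-- (product of all `1 + z x`) times (the series of the `c`) is the truncated product -/
theorem prod_mul_series {R : Type*} [CommRing R] [Fintype I] (P : Finset I → Prop) (z : I → R)
    (hz : ∀ x, z x * z x = 0) :
    (∏ x, (1 + z x)) * ∑ U : Finset I, (c P U : R) * ∏ x ∈ U, z x =
      ∑ S : Finset I, if P S then ∏ x ∈ S, z x else 0 := by
  have h1 : ∑ U : Finset I, (c P U : R) * ∏ x ∈ U, z x =
      ∑ S : Finset I, if P S then (∏ x ∈ S, z x) * ∏ x ∈ Sᶜ, (1 - z x) else 0 := by
    have e1 : ∀ U : Finset I, (c P U : R) * ∏ x ∈ U, z x =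
        ∑ S ∈ U.powerset, if P S then (-1) ^ (U \ S).card * ∏ x ∈ U, z x else 0 := by
      intro U
      unfold c
      push_cast
      rw [Finset.sum_mul]
      refine Finset.sum_congr rfl fun S _ => ?_
      split_ifs
      · rfl
      · rw [zero_mul]
    rw [Finset.sum_congr rfl (fun U _ => e1 U)]
    have e2 : ∀ U : Finset I, (∑ S ∈ U.powerset,
        if P S then (-1) ^ (U \ S).card * ∏ x ∈ U, z x else 0 : R) =
        ∑ S : Finset I, if S ⊆ U then (if P S then (-1) ^ (U \ S).card * ∏ x ∈ U, z x else 0)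
          else 0 := by
      intro U
      rw [← Finset.sum_filter (fun S => S ⊆ U)]
      refine Finset.sum_congr ?_ fun _ _ => rfl
      ext S
      simp
    rw [Finset.sum_congr rfl (fun U _ => e2 U), Finset.sum_comm]
    refine Finset.sum_congr rfl fun S _ => ?_
    by_cases hS : P S
    · rw [if_pos hS]
      have e3 : ∏ x ∈ Sᶜ, (1 - z x) = ∑ V ∈ (Sᶜ).powerset, (-1) ^ V.card * ∏ x ∈ V, z x := by
        have e4 : ∀ x ∈ Sᶜ, (1 - z x) = (-z x) + 1 := fun x _ => by ring
        rw [Finset.prod_congr rfl e4, Finset.prod_add]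
        refine Finset.sum_congr rfl fun V _ => ?_
        rw [Finset.prod_const_one, mul_one, Finset.prod_neg]
      rw [e3, Finset.mul_sum, ← Finset.sum_filter]
      refine Finset.sum_nbij' (fun U => U \ S) (fun V => S ∪ V) ?_ ?_ ?_ ?_ ?_
      · intro U _
        rw [Finset.mem_powerset]
        intro x hx
        rw [Finset.mem_compl]
        exact (Finset.mem_sdiff.1 hx).2
      · intro V _
        rw [Finset.mem_filter]
        exact ⟨Finset.mem_univ _, Finset.subset_union_left⟩
      · intro U hU
        rw [Finset.mem_filter] at hU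
        exact Finset.union_sdiff_of_subset hU.2
      · intro V hV
        rw [Finset.mem_powerset] at hV
        ext x
        rw [Finset.mem_sdiff, Finset.mem_union]
        constructor
        · rintro ⟨h | h, h'⟩
          · exact absurd h h'
          · exact h
        · intro h
          exact ⟨Or.inr h, Finset.mem_compl.1 (hV h)⟩
      · intro U hU
        rw [Finset.mem_filter] at hU
        rw [if_pos hS]
        have e5 : ∏ x ∈ U, z x = (∏ x ∈ U \ S, z x) * ∏ x ∈ S, z x :=
          (Finset.prod_sdiff hU.2).symm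
        rw [e5]
        ring
    · rw [if_neg hS]
      refine Finset.sum_eq_zero fun U _ => ?_
      split_ifs
      all_goals rfl
  rw [h1, Finset.mul_sum]
  refine Finset.sum_congr rfl fun S _ => ?_
  split_ifs
  · have e1 : ∏ x, (1 + z x) = (∏ x ∈ S, (1 + z x)) * ∏ x ∈ Sᶜ, (1 + z x) :=
      (Finset.prod_mul_prod_compl S _).symm
    rw [e1]
    have e2 : (∏ x ∈ S, (1 + z x)) * ∏ x ∈ S, z x = ∏ x ∈ S, z x := by
      rw [← Finset.prod_mul_distrib]
      refine Finset.prod_congr rfl fun x _ => ?_
      rw [add_mul, one_mul, hz, add_zero]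
    have e3 : (∏ x ∈ Sᶜ, (1 + z x)) * ∏ x ∈ Sᶜ, (1 - z x) = 1 := by
      rw [← Finset.prod_mul_distrib]
      refine Finset.prod_eq_one fun x _ => ?_
      have := hz x
      linear_combination -this
    calc (∏ x ∈ S, (1 + z x)) * (∏ x ∈ Sᶜ, (1 + z x)) * ((∏ x ∈ S, z x) * ∏ x ∈ Sᶜ, (1 - z x)) =
        ((∏ x ∈ S, (1 + z x)) * ∏ x ∈ S, z x) *
          ((∏ x ∈ Sᶜ, (1 + z x)) * ∏ x ∈ Sᶜ, (1 - z x)) := by ring
      _ = _ := by rw [e2, e3, mul_one]
  · rw [mul_zero]

end coeff

section qbound

variable {I V : Type*}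

open Classical in
/-- the sets of polymers whose total size at every site is at most `K` -/
def Allowed (Y : I → Finset V) (m : I → ℕ) (K : ℕ) (S : Finset I) : Prop :=
  ∀ w : V, ∑ x ∈ S.filter (fun x => w ∈ Y x), m x ≤ K

/-- two polymers touch -/
def Touch (Y : I → Finset V) (x y : I) : Prop := ¬ Disjoint (Y x) (Y y)

theorem allowed_empty (Y : I → Finset V) (m : I → ℕ) (K : ℕ) : Allowed Y m K ∅ := by
  intro w
  simp

theorem Allowed.mono {Y : I → Finset V} {m : I → ℕ} {K : ℕ} (S T : Finset I) (hST : S ⊆ T)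
    (hT : Allowed Y m K T) : Allowed Y m K S := by
  classical
  intro w
  exact (Finset.sum_le_sum_of_subset (Finset.filter_subset_filter _ hST)).trans (hT w)

open Classical in
theorem allowed_union {Y : I → Finset V} {m : I → ℕ} {K : ℕ} {A B : Finset I}
    (h : ∀ x ∈ A, ∀ y ∈ B, ¬ Touch Y x y) :
    ∀ S ⊆ A, ∀ T ⊆ B, (Allowed Y m K (S ∪ T) ↔ Allowed Y m K S ∧ Allowed Y m K T) := by
  intro S hS T hT
  constructor
  · intro h1
    exact ⟨h1.mono _ _ Finset.subset_union_left, h1.mono _ _ Finset.subset_union_right⟩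
  · rintro ⟨h1, h2⟩ w
    by_cases hw : ∃ x ∈ S, w ∈ Y x
    · obtain ⟨x, hx, hwx⟩ := hw
      have e1 : (S ∪ T).filter (fun x => w ∈ Y x) = S.filter (fun x => w ∈ Y x) := by
        rw [Finset.filter_union]
        have e2 : T.filter (fun x => w ∈ Y x) = ∅ := by
          rw [Finset.filter_eq_empty_iff]
          intro y hy hwy
          apply h x (hS hx) y (hT hy)
          intro hd
          exact Finset.disjoint_left.1 hd hwx hwy
        rw [e2, Finset.union_empty]
      have e3 := h1 w
      rw [← e1] at e3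
      exact e3
    · push Not at hw
      have e1 : (S ∪ T).filter (fun x => w ∈ Y x) = T.filter (fun x => w ∈ Y x) := by
        rw [Finset.filter_union]
        have e2 : S.filter (fun x => w ∈ Y x) = ∅ := by
          rw [Finset.filter_eq_empty_iff]
          intro y hy hwy
          exact hw y hy hwy
        rw [e2, Finset.empty_union]
      have e3 := h2 w
      rw [← e1] at e3
      exact e3

theorem touch_symm {Y : I → Finset V} {x y : I} (h : Touch Y x y) : Touch Y y x :=
  fun h' => h h'.symm

open Classical in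
/-- the component of `p` in `U` -/
theorem exists_component (Y : I → Finset V) {U : Finset I} {p : I} (hp : p ∈ U) :
    ∃ C ⊆ U, p ∈ C ∧ Reach (Touch Y) {p} C ∧ ∀ a ∈ C, ∀ b ∈ U \ C, ¬ Touch Y a b := by
  have hne : (U.powerset.filter fun C => p ∈ C ∧ Reach (Touch Y) {p} C).Nonempty := by
    refine ⟨{p}, Finset.mem_filter.2 ⟨?_, Finset.mem_singleton_self p, ?_⟩⟩
    · rw [Finset.mem_powerset, Finset.singleton_subset_iff]
      exact hp
    · intro A hA hne hd
      exfalso
      obtain ⟨a, ha⟩ := hne
      exact Finset.disjoint_left.1 hd ha (hA ha)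
  obtain ⟨C, hC, hmax⟩ := Finset.exists_max_image _ Finset.card hne
  rw [Finset.mem_filter, Finset.mem_powerset] at hC
  refine ⟨C, hC.1, hC.2.1, hC.2.2, ?_⟩
  intro a ha b hb hab
  rw [Finset.mem_sdiff] at hb
  have h1 : insert b C ∈ U.powerset.filter fun C => p ∈ C ∧ Reach (Touch Y) {p} C := by
    rw [Finset.mem_filter, Finset.mem_powerset]
    refine ⟨Finset.insert_subset hb.1 hC.1, Finset.mem_insert_of_mem hC.2.1, ?_⟩
    intro A hA hne hd
    by_cases hbA : b ∈ A
    · by_cases haA : a ∈ A
      · obtain ⟨a', ha', b', hb', hab'⟩ := hC.2.2 (A ∩ C) Finset.inter_subset_right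
          ⟨a, Finset.mem_inter.2 ⟨haA, ha⟩⟩ (Finset.disjoint_of_subset_left
            Finset.inter_subset_left hd)
        rw [Finset.mem_inter] at ha'
        rw [Finset.mem_sdiff, Finset.mem_inter] at hb'
        exact ⟨a', ha'.1, b', Finset.mem_sdiff.2 ⟨Finset.mem_insert_of_mem hb'.1,
          fun h => hb'.2 ⟨h, hb'.1⟩⟩, hab'⟩
      · exact ⟨b, hbA, a, Finset.mem_sdiff.2 ⟨Finset.mem_insert_of_mem ha, haA⟩, touch_symm hab⟩
    · have hAC : A ⊆ C := by
        intro x hx
        rcases Finset.mem_insert.1 (hA hx) with h | h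
        · exact absurd (h ▸ hx) hbA
        · exact h
      obtain ⟨a', ha', b', hb', hab'⟩ := hC.2.2 A hAC hne hd
      rw [Finset.mem_sdiff] at hb'
      exact ⟨a', ha', b', Finset.mem_sdiff.2 ⟨Finset.mem_insert_of_mem hb'.1, hb'.2⟩, hab'⟩
  have h2 := hmax _ h1
  rw [Finset.card_insert_of_notMem hb.2] at h2
  omega

open Classical in
theorem qbound [Fintype I] [Fintype V] (Y : I → Finset V) (hY : ∀ x, (Y x).Nonempty) (m : I → ℕ)
    (hm : ∀ x, (Y x).card ≤ m x) (K : ℕ) (t : I → ℝ) (ht : ∀ x, 0 ≤ t x) (γ : ℝ) (hγ : 0 ≤ γ)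
    (hsum : ∀ w : V, ∑ x ∈ Finset.univ.filter (fun x => w ∈ Y x),
      2 * t x * Real.exp (γ * m x) * Real.exp (m x) ≤ 1)
    (hK : (Fintype.card V : ℝ) * Real.exp (1 - γ * K) ≤ 1 / 2) :
    ∑ U ∈ (Finset.univ : Finset (Finset I)).erase ∅,
      |(c (Allowed Y m K) U : ℝ)| * ∏ x ∈ U, t x ≤
        2 * (Fintype.card V : ℝ) * Real.exp (1 - γ * K) := by
  obtain ⟨W, hW⟩ : ∃ W : Finset I → ℝ,
      W = fun U => |(c (Allowed Y m K) U : ℝ)| * ∏ x ∈ U, t x := ⟨_, rfl⟩
  have hW0 : ∀ U, 0 ≤ W U := by
    intro U
    rw [hW]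
    exact mul_nonneg (abs_nonneg _) (Finset.prod_nonneg fun x _ => ht x)
  have hgoal : ∑ U ∈ (Finset.univ : Finset (Finset I)).erase ∅,
      |(c (Allowed Y m K) U : ℝ)| * ∏ x ∈ U, t x =
      ∑ U ∈ (Finset.univ : Finset (Finset I)).erase ∅, W U := by rw [hW]
  rw [hgoal]
  obtain ⟨N, hN⟩ : ∃ N : V → Finset I, N = fun w => Finset.univ.filter (fun x => w ∈ Y x) :=
    ⟨_, rfl⟩
  obtain ⟨bad, hbad⟩ : ∃ bad : V → Finset (Finset I), bad = fun w =>
      Finset.univ.filter (fun C => Reach (Touch Y) (N w) C ∧ ¬ Allowed Y m K C) := ⟨_, rfl⟩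
  -- decomposition
  have hdec : ∀ U : Finset I, U ≠ ∅ → W U ≠ 0 → ∃ (w : V) (C : Finset I), C ⊆ U ∧ C ∈ bad w ∧
      W U = W C * W (U \ C) := by
    intro U hU hWU
    obtain ⟨p, hp⟩ := Finset.nonempty_iff_ne_empty.2 hU
    obtain ⟨C, hCU, hpC, hreach, hsep⟩ := exists_component Y hp
    obtain ⟨w, hw⟩ := hY p
    have h1 : c (Allowed Y m K) U = c (Allowed Y m K) C * c (Allowed Y m K) (U \ C) := by
      rw [← c_mul Finset.disjoint_sdiff (allowed_union hsep), Finset.union_sdiff_of_subset hCU]
    have h2 : W U = W C * W (U \ C) := by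
      rw [hW]
      simp only
      rw [h1]
      push_cast
      rw [abs_mul, ← Finset.prod_sdiff hCU]
      ring
    refine ⟨w, C, hCU, ?_, h2⟩
    rw [hbad]
    refine Finset.mem_filter.2 ⟨Finset.mem_univ _, ?_, ?_⟩
    · intro A hA hne hd
      refine hreach A hA hne ?_
      rw [Finset.disjoint_left] at hd ⊢
      intro x hx hxp
      rw [Finset.mem_singleton] at hxp
      rw [hxp] at hx
      refine hd hx ?_
      rw [hN]
      exact Finset.mem_filter.2 ⟨Finset.mem_univ _, hw⟩
    · intro hall
      apply hWU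
      rw [h2, hW]
      simp only
      rw [c_eq_zero (fun S T => Allowed.mono S T) hall ⟨p, hpC⟩]
      simp
  -- one component
  have hη : ∀ w, ∑ C ∈ bad w, W C ≤ Real.exp (1 - γ * K) := by
    intro w
    obtain ⟨b, hb⟩ : ∃ b : I → ℝ, b = fun x => 2 * t x * Real.exp (γ * m x) := ⟨_, rfl⟩
    have hb0 : ∀ x, 0 ≤ b x := by
      intro x
      rw [hb]
      have := ht x
      positivity
    have hs : ∀ w : V, ∑ x ∈ N w, b x * Real.exp (m x) ≤ 1 := by
      intro w
      rw [hN, hb]
      exact hsum w
    have h1 : ∀ C ∈ bad w, W C ≤ Real.exp (-(γ * K)) * ∏ x ∈ C, b x := by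
      intro C hC
      rw [hbad] at hC
      obtain ⟨_, _, hC⟩ := Finset.mem_filter.1 hC
      unfold Allowed at hC
      push Not at hC
      obtain ⟨v, hv⟩ := hC
      have h2 : K ≤ ∑ x ∈ C, m x :=
        hv.le.trans (Finset.sum_le_sum_of_subset (Finset.filter_subset _ _))
      have h3 : |(c (Allowed Y m K) C : ℝ)| ≤ 2 ^ C.card := by
        have := abs_c_le (Allowed Y m K) C
        rw [← Int.cast_abs]
        exact_mod_cast this
      rw [hW, hb]
      simp only
      rw [Finset.prod_mul_distrib, Finset.prod_mul_distrib, Finset.prod_const, ← Real.exp_sum]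
      have h4 : (1 : ℝ) ≤ Real.exp (-(γ * K)) * Real.exp (∑ x ∈ C, γ * m x) := by
        rw [← Real.exp_add]
        apply Real.one_le_exp
        rw [← Finset.mul_sum]
        have h5 : (K : ℝ) ≤ ∑ x ∈ C, (m x : ℝ) := by exact_mod_cast h2
        nlinarith
      have h6 : 0 ≤ ∏ x ∈ C, t x := Finset.prod_nonneg fun x _ => ht x
      calc |(c (Allowed Y m K) C : ℝ)| * ∏ x ∈ C, t x ≤ 2 ^ C.card * ∏ x ∈ C, t x :=
            mul_le_mul_of_nonneg_right h3 h6
        _ = (2 ^ C.card * ∏ x ∈ C, t x) * 1 := by ring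
        _ ≤ (2 ^ C.card * ∏ x ∈ C, t x) *
            (Real.exp (-(γ * K)) * Real.exp (∑ x ∈ C, γ * m x)) :=
            mul_le_mul_of_nonneg_left h4 (mul_nonneg (by positivity) h6)
        _ = _ := by ring
    have h2 : ∑ C ∈ bad w, ∏ x ∈ C, b x ≤ G (Touch Y) b (N w) Finset.univ := by
      unfold G
      rw [← Finset.sum_filter]
      apply Finset.sum_le_sum_of_subset_of_nonneg
      · intro C hC
        rw [hbad] at hC
        obtain ⟨_, hC, _⟩ := Finset.mem_filter.1 hC
        exact Finset.mem_filter.2 ⟨Finset.mem_powerset.2 (Finset.subset_univ _), hC⟩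
      · intro C _ _
        exact Finset.prod_nonneg fun x _ => hb0 x
    have h3 : ∀ p, ∑ q ∈ nbr (Touch Y) p, b q * Real.exp (m q) ≤ m p := by
      intro p
      have e1 : ∑ q ∈ nbr (Touch Y) p, b q * Real.exp (m q) ≤
          ∑ q, ∑ w ∈ Y p, if w ∈ Y q then b q * Real.exp (m q) else 0 := by
        unfold nbr
        rw [Finset.sum_filter]
        apply Finset.sum_le_sum
        intro q _
        have hnn : ∀ w ∈ Y p, (0 : ℝ) ≤ if w ∈ Y q then b q * Real.exp (m q) else 0 := by
          intro w _
          split_ifs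
          · exact mul_nonneg (hb0 q) (Real.exp_pos _).le
          · exact le_rfl
        split_ifs with h
        · unfold Touch at h
          rw [Finset.not_disjoint_iff] at h
          obtain ⟨w, hwq, hwp⟩ := h
          refine le_trans ?_ (Finset.single_le_sum hnn hwp)
          rw [if_pos hwq]
        · exact Finset.sum_nonneg hnn
      refine e1.trans ?_
      rw [Finset.sum_comm]
      have e2 : ∀ w ∈ Y p, (∑ q, if w ∈ Y q then b q * Real.exp (m q) else 0) ≤ 1 := by
        intro w _
        rw [← Finset.sum_filter]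
        have := hs w
        rw [hN] at this
        exact this
      refine (Finset.sum_le_sum e2).trans ?_
      rw [Finset.sum_const, nsmul_eq_mul, mul_one]
      exact_mod_cast hm p
    have h4 := G_le (Touch Y) b (fun x => (m x : ℝ)) hb0 h3 Finset.univ (N w)
    have h5 : Real.exp (∑ p ∈ N w, b p * Real.exp (m p)) ≤ Real.exp 1 :=
      Real.exp_le_exp.2 (hs w)
    calc ∑ C ∈ bad w, W C ≤ ∑ C ∈ bad w, Real.exp (-(γ * K)) * ∏ x ∈ C, b x :=
          Finset.sum_le_sum h1
      _ = Real.exp (-(γ * K)) * ∑ C ∈ bad w, ∏ x ∈ C, b x := by rw [Finset.mul_sum]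
      _ ≤ Real.exp (-(γ * K)) * Real.exp 1 :=
          mul_le_mul_of_nonneg_left (h2.trans (h4.trans h5)) (Real.exp_pos _).le
      _ = Real.exp (1 - γ * K) := by
          rw [← Real.exp_add]
          congr 1
          ring
  -- summation
  obtain ⟨Q, hQ⟩ : ∃ Q : ℝ, Q = ∑ U ∈ (Finset.univ : Finset (Finset I)).erase ∅, W U := ⟨_, rfl⟩
  have hQ0 : 0 ≤ Q := by
    rw [hQ]
    exact Finset.sum_nonneg fun U _ => hW0 U
  have hall : ∑ U, W U = 1 + Q := by
    rw [hQ, ← Finset.add_sum_erase _ _ (Finset.mem_univ (∅ : Finset I))]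
    congr 1
    rw [hW]
    simp only
    rw [c_empty (allowed_empty Y m K)]
    simp
  have hmain : Q ≤ (Fintype.card V : ℝ) * Real.exp (1 - γ * K) * (1 + Q) := by
    have e0 : Q = ∑ U ∈ ((Finset.univ : Finset (Finset I)).erase ∅).filter (fun U => W U ≠ 0),
        W U := by
      rw [hQ, Finset.sum_filter_ne_zero]
    obtain ⟨s, hs⟩ : ∃ s, s = ((Finset.univ : Finset (Finset I)).erase ∅).filter
        (fun U => W U ≠ 0) := ⟨_, rfl⟩
    have hs' : ∀ U ∈ s, U ≠ ∅ ∧ W U ≠ 0 := by
      intro U hU
      rw [hs] at hU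
      obtain ⟨h1, h2⟩ := Finset.mem_filter.1 hU
      exact ⟨(Finset.mem_erase.1 h1).1, h2⟩
    have hQs : Q = ∑ U ∈ s, W U := by rw [hs]; exact e0
    rcases s.eq_empty_or_nonempty with hse | ⟨U₀, hU₀⟩
    · rw [hse, Finset.sum_empty] at hQs
      rw [hQs]
      positivity
    have hVne : Nonempty V := by
      obtain ⟨w, _⟩ := hdec U₀ (hs' U₀ hU₀).1 (hs' U₀ hU₀).2
      exact ⟨w⟩
    choose! w C hCU hCb hWU using hdec
    obtain ⟨e, he⟩ : ∃ e : Finset I → (Σ _ : V, Finset I × Finset I),
        e = fun U => ⟨w U, (C U, U \ C U)⟩ := ⟨_, rfl⟩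
    have hinj : Set.InjOn e s := by
      intro U hU U' hU' h
      rw [he] at h
      simp only [Sigma.mk.injEq, heq_eq_eq, Prod.mk.injEq] at h
      have h1 := hs' U hU
      have h2 := hs' U' hU'
      have h3 := Finset.union_sdiff_of_subset (hCU U h1.1 h1.2)
      have h4 := Finset.union_sdiff_of_subset (hCU U' h2.1 h2.2)
      rw [← h3, ← h4, h.2.2, h.2.1]
    have e1 : ∑ U ∈ s, W U = ∑ y ∈ s.image e, W y.2.1 * W y.2.2 := by
      rw [Finset.sum_image hinj]
      refine Finset.sum_congr rfl fun U hU => ?_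
      have h1 := hs' U hU
      rw [he]
      exact hWU U h1.1 h1.2
    have e2 : ∑ y ∈ s.image e, W y.2.1 * W y.2.2 ≤
        ∑ y ∈ (Finset.univ : Finset V).sigma (fun v => bad v ×ˢ (Finset.univ : Finset (Finset I))),
          W y.2.1 * W y.2.2 := by
      apply Finset.sum_le_sum_of_subset_of_nonneg
      · intro y hy
        obtain ⟨U, hU, rfl⟩ := Finset.mem_image.1 hy
        have h1 := hs' U hU
        rw [he, Finset.mem_sigma, Finset.mem_product]
        exact ⟨Finset.mem_univ _, hCb U h1.1 h1.2, Finset.mem_univ _⟩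
      · intro y _ _
        exact mul_nonneg (hW0 _) (hW0 _)
    have e3 : ∑ y ∈ (Finset.univ : Finset V).sigma
        (fun v => bad v ×ˢ (Finset.univ : Finset (Finset I))), W y.2.1 * W y.2.2 =
        ∑ v : V, (∑ C ∈ bad v, W C) * ∑ U, W U := by
      rw [Finset.sum_sigma]
      refine Finset.sum_congr rfl fun v _ => ?_
      rw [Finset.sum_product, Finset.sum_mul_sum]
    have e4 : ∑ v : V, (∑ C ∈ bad v, W C) * ∑ U, W U ≤
        ∑ _v : V, Real.exp (1 - γ * K) * (1 + Q) := by
      apply Finset.sum_le_sum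
      intro v _
      rw [hall]
      exact mul_le_mul_of_nonneg_right (hη v) (by linarith)
    calc Q = ∑ y ∈ s.image e, W y.2.1 * W y.2.2 := by rw [← e1]; exact hQs
      _ ≤ ∑ v : V, (∑ C ∈ bad v, W C) * ∑ U, W U := by rw [← e3]; exact e2
      _ ≤ ∑ _v : V, Real.exp (1 - γ * K) * (1 + Q) := e4
      _ = (Fintype.card V : ℝ) * Real.exp (1 - γ * K) * (1 + Q) := by
          rw [Finset.sum_const, Finset.card_univ, nsmul_eq_mul]
          ring
  rw [← hQ]
  obtain ⟨κ, hκ⟩ : ∃ κ : ℝ, κ = (Fintype.card V : ℝ) * Real.exp (1 - γ * K) := ⟨_, rfl⟩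
  have hκ0 : 0 ≤ κ := by rw [hκ]; positivity
  rw [mul_assoc, ← hκ]
  rw [← hκ] at hmain hK
  nlinarith

end qbound

end Pool.Agent.WP.Mayer
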