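import Pool.Agent.WP.LemmaA
import Pool.Agent.WP.Mayer

/-!
Truncation of `∏ (1 + z x)` to the allowed sets: `a = (∏ (1 + z x)) * ∑ c_U ∏_U z x`, with
multiplicative coefficients `c_U`.
-/

set_option autoImplicit false

open scoped BigOperators Classical

namespace Pool.Agent.WP

/-- `c_U = ∑_{V ⊆ U} (-1)^{|U \ V|} 1[A V]` -/
noncomputable def cU {ι : Type} (A : Finset ι → Prop) (U : Finset ι) : ℤ :=
  ∑ V ∈ U.powerset, if A V then (-1) ^ (U.card + V.card) else 0

theorem sign_sdiff {ι : Type} [DecidableEq ι] {U V : Finset ι} (h : V ⊆ U) :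
    (-1 : ℤ) ^ (U.card + V.card) = (-1) ^ (U \ V).card := by
  have h1 : (U \ V).card = U.card - V.card := Finset.card_sdiff_of_subset h
  obtain ⟨k, hk⟩ := Nat.exists_eq_add_of_le (Finset.card_le_card h)
  rw [h1, hk, Nat.add_sub_cancel_left, show V.card + k + V.card = k + 2 * V.card by ring, pow_add,
    pow_mul]
  norm_num

theorem cU_eq_c {ι : Type} (A : Finset ι → Prop) (U : Finset ι) : cU A U = Mayer.c A U := by
  unfold cU Mayer.c
  refine Finset.sum_congr rfl fun V hV => ?_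
  rw [sign_sdiff (Finset.mem_powerset.1 hV)]

theorem trunc_identity {ι R : Type} [DecidableEq ι] [CommRing R] (X : Finset ι) (z : ι → R)
    (hz : ∀ x ∈ X, z x * z x = 0) (A : Finset ι → Prop) :
    ∑ U ∈ X.powerset.filter A, ∏ x ∈ U, z x =
      (∏ x ∈ X, (1 + z x)) * ∑ U ∈ X.powerset, (cU A U : R) * ∏ x ∈ U, z x := by
  have h1 : ∑ U ∈ X.powerset, (cU A U : R) * ∏ x ∈ U, z x =
      ∑ S ∈ X.powerset, if A S then (∏ x ∈ S, z x) * ∏ x ∈ X \ S, (1 - z x) else 0 := by
    have e1 : ∀ U ∈ X.powerset, (cU A U : R) * ∏ x ∈ U, z x =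
        ∑ S ∈ X.powerset, if S ⊆ U then (if A S then (-1) ^ (U \ S).card * ∏ x ∈ U, z x else 0)
          else 0 := by
      intro U hU
      rw [Finset.mem_powerset] at hU
      unfold cU
      push_cast
      rw [Finset.sum_mul, ← Finset.sum_filter]
      have e2 : U.powerset = X.powerset.filter (fun S => S ⊆ U) := by
        ext S
        rw [Finset.mem_filter, Finset.mem_powerset, Finset.mem_powerset]
        exact ⟨fun h => ⟨h.trans hU, h⟩, fun h => h.2⟩
      rw [e2]
      refine Finset.sum_congr rfl fun S hS => ?_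
      have hSU : S ⊆ U := (Finset.mem_filter.1 hS).2
      split_ifs
      · have e3 : ((-1 : R)) ^ (U.card + S.card) = (-1) ^ (U \ S).card := by
          have := sign_sdiff hSU
          have e4 := congrArg (fun n : ℤ => (n : R)) this
          push_cast at e4
          exact e4
        rw [e3]
      · rw [zero_mul]
    rw [Finset.sum_congr rfl e1, Finset.sum_comm]
    refine Finset.sum_congr rfl fun S hSX => ?_
    rw [Finset.mem_powerset] at hSX
    by_cases hS : A S
    · rw [if_pos hS]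
      have e3 : ∏ x ∈ X \ S, (1 - z x) =
          ∑ V ∈ (X \ S).powerset, (-1) ^ V.card * ∏ x ∈ V, z x := by
        have e4 : ∀ x ∈ X \ S, (1 - z x) = (-z x) + 1 := fun x _ => by ring
        rw [Finset.prod_congr rfl e4, Finset.prod_add]
        refine Finset.sum_congr rfl fun V _ => ?_
        rw [Finset.prod_const_one, mul_one, Finset.prod_neg]
      rw [e3, Finset.mul_sum, ← Finset.sum_filter]
      refine Finset.sum_nbij' (fun U => U \ S) (fun V => S ∪ V) ?_ ?_ ?_ ?_ ?_
      · intro U hU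
        rw [Finset.mem_filter, Finset.mem_powerset] at hU
        rw [Finset.mem_powerset]
        exact Finset.sdiff_subset_sdiff hU.1 (Finset.Subset.refl S)
      · intro V hV
        rw [Finset.mem_powerset] at hV
        rw [Finset.mem_filter, Finset.mem_powerset]
        exact ⟨Finset.union_subset hSX (hV.trans Finset.sdiff_subset), Finset.subset_union_left⟩
      · intro U hU
        rw [Finset.mem_filter] at hU
        exact Finset.union_sdiff_of_subset hU.2
      · intro V hV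
        rw [Finset.mem_powerset] at hV
        ext x
        rw [Finset.mem_sdiff, Finset.mem_union]
        constructor
        · rintro ⟨h | h, h'⟩
          · exact absurd h h'
          · exact h
        · intro h
          exact ⟨Or.inr h, (Finset.mem_sdiff.1 (hV h)).2⟩
      · intro U hU
        rw [Finset.mem_filter] at hU
        rw [if_pos hS]
        have e5 : ∏ x ∈ U, z x = (∏ x ∈ U \ S, z x) * ∏ x ∈ S, z x :=
          (Finset.prod_sdiff hU.2).symm
        rw [e5]
        ring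
    · rw [if_neg hS]
      refine Finset.sum_eq_zero fun U _ => ?_
      split_ifs
      all_goals rfl
  rw [h1, Finset.mul_sum, Finset.sum_filter]
  refine Finset.sum_congr rfl fun S hSX => ?_
  rw [Finset.mem_powerset] at hSX
  split_ifs
  · have e1 : ∏ x ∈ X, (1 + z x) = (∏ x ∈ X \ S, (1 + z x)) * ∏ x ∈ S, (1 + z x) :=
      (Finset.prod_sdiff hSX).symm
    rw [e1]
    have e2 : (∏ x ∈ S, (1 + z x)) * ∏ x ∈ S, z x = ∏ x ∈ S, z x := by
      rw [← Finset.prod_mul_distrib]
      refine Finset.prod_congr rfl fun x hx => ?_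
      rw [add_mul, one_mul, hz x (hSX hx), add_zero]
    have e3 : (∏ x ∈ X \ S, (1 + z x)) * ∏ x ∈ X \ S, (1 - z x) = 1 := by
      rw [← Finset.prod_mul_distrib]
      refine Finset.prod_eq_one fun x hx => ?_
      have := hz x (Finset.mem_sdiff.1 hx).1
      linear_combination -this
    calc ∏ x ∈ S, z x = ((∏ x ∈ S, (1 + z x)) * ∏ x ∈ S, z x) *
          ((∏ x ∈ X \ S, (1 + z x)) * ∏ x ∈ X \ S, (1 - z x)) := by rw [e2, e3, mul_one]
      _ = _ := by ring
  · rw [mul_zero]

theorem cU_empty {ι : Type} (A : Finset ι → Prop) (h : A ∅) : cU A (∅ : Finset ι) = 1 := by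
  rw [cU_eq_c]
  exact Mayer.c_empty h

theorem abs_cU_le {ι : Type} (A : Finset ι → Prop) (U : Finset ι) : |cU A U| ≤ 2 ^ U.card := by
  rw [cU_eq_c]
  exact Mayer.abs_c_le A U

/-- `c_U = 0` for nonempty `U` all of whose subsets are allowed -/
theorem cU_eq_zero {ι : Type} (A : Finset ι → Prop) (U : Finset ι) (hU : U.Nonempty)
    (h : ∀ V ⊆ U, A V) : cU A U = 0 := by
  unfold cU
  have h1 : ∀ V ∈ U.powerset, (if A V then (-1 : ℤ) ^ (U.card + V.card) else 0) =
      (-1) ^ U.card * (-1) ^ V.card := by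
    intro V hV
    rw [Finset.mem_powerset] at hV
    rw [if_pos (h V hV), ← pow_add]
  rw [Finset.sum_congr rfl h1, ← Finset.mul_sum,
    Finset.sum_powerset_neg_one_pow_card_of_nonempty hU, mul_zero]

theorem cU_mul {ι : Type} [DecidableEq ι] (A : Finset ι → Prop) (U₁ U₂ : Finset ι)
    (hd : Disjoint U₁ U₂) (h : ∀ V₁ ⊆ U₁, ∀ V₂ ⊆ U₂, (A (V₁ ∪ V₂) ↔ A V₁ ∧ A V₂)) :
    cU A (U₁ ∪ U₂) = cU A U₁ * cU A U₂ := by
  have hc : ∀ V₁ V₂ : Finset ι, V₁ ∪ V₂ =
      @Union.union _ (@Finset.instUnion ι (fun a b => Classical.propDecidable (a = b))) V₁ V₂ := by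
    intro V₁ V₂
    have hinst : (fun a b : ι => Classical.propDecidable (a = b)) = ‹DecidableEq ι› :=
      Subsingleton.elim _ _
    rw [hinst]
  rw [cU_eq_c, cU_eq_c, cU_eq_c, hc]
  refine Mayer.c_mul hd ?_
  intro V₁ h₁ V₂ h₂
  rw [← hc]
  exact h V₁ h₁ V₂ h₂

theorem allowed_mono' {ι S : Type} [DecidableEq S] {Y : ι → Finset S} {m : ι → ℕ} {K : ℕ}
    {U V : Finset ι} (h : U ⊆ V) (hV : Allowed Y m K V) : Allowed Y m K U := by
  intro w
  exact (Finset.sum_le_sum_of_subset (Finset.filter_subset_filter _ h)).trans (hV w)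

theorem allowed_union' {ι S : Type} [DecidableEq ι] [DecidableEq S] {Y : ι → Finset S} {m : ι → ℕ}
    {K : ℕ} {A B : Finset ι} (h : ∀ x ∈ A, ∀ y ∈ B, Disjoint (Y x) (Y y)) :
    ∀ U ⊆ A, ∀ T ⊆ B, (Allowed Y m K (U ∪ T) ↔ Allowed Y m K U ∧ Allowed Y m K T) := by
  intro U hU T hT
  constructor
  · intro h1
    exact ⟨allowed_mono' Finset.subset_union_left h1, allowed_mono' Finset.subset_union_right h1⟩
  · rintro ⟨h1, h2⟩ w
    by_cases hw : ∃ x ∈ U, w ∈ Y x
    · obtain ⟨x, hx, hwx⟩ := hw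
      have e2 : T.filter (fun x => w ∈ Y x) = ∅ := by
        rw [Finset.filter_eq_empty_iff]
        intro y hy hwy
        exact Finset.disjoint_left.1 (h x (hU hx) y (hT hy)) hwx hwy
      rw [Finset.filter_union, e2, Finset.union_empty]
      exact h1 w
    · push Not at hw
      have e2 : U.filter (fun x => w ∈ Y x) = ∅ := by
        rw [Finset.filter_eq_empty_iff]
        intro y hy hwy
        exact hw y hy hwy
      rw [Finset.filter_union, e2, Finset.empty_union]
      exact h2 w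

/-- The total weight of the coefficients.  `r x y` means that the hulls `Y x`, `Y y` meet. -/
theorem trunc_bound {ι S : Type} [DecidableEq ι] [Fintype S] [DecidableEq S] (X : Finset ι)
    (Y : ι → Finset S) (hY : ∀ x ∈ X, (Y x).Nonempty) (m : ι → ℕ) (K : ℕ) (t : ι → ℝ)
    (ht : ∀ x ∈ X, 0 ≤ t x) (η : ℝ)
    (hη : ∀ w : S, ∑ U ∈ X.powerset.filter (fun U => RConn (fun x y => ¬ Disjoint (Y x) (Y y)) U ∧
      (∃ x ∈ U, w ∈ Y x) ∧ K < ∑ x ∈ U, m x), ∏ x ∈ U, (2 * t x) ≤ η)
    (hsmall : (Fintype.card S : ℝ) * η ≤ 1 / 2) :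
    ∑ U ∈ X.powerset.erase ∅, |(cU (Allowed Y m K) U : ℝ)| * ∏ x ∈ U, t x ≤
      2 * (Fintype.card S * η) := by
  obtain ⟨W, hW⟩ : ∃ W : Finset ι → ℝ,
      W = fun U => |(cU (Allowed Y m K) U : ℝ)| * ∏ x ∈ U, t x := ⟨_, rfl⟩
  have hprod : ∀ U ⊆ X, 0 ≤ ∏ x ∈ U, t x := fun U hU =>
    Finset.prod_nonneg fun x hx => ht x (hU hx)
  have hW0 : ∀ U ⊆ X, 0 ≤ W U := by
    intro U hU
    rw [hW]
    exact mul_nonneg (abs_nonneg _) (hprod U hU)
  have hgoal : ∑ U ∈ X.powerset.erase ∅, |(cU (Allowed Y m K) U : ℝ)| * ∏ x ∈ U, t x =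
      ∑ U ∈ X.powerset.erase ∅, W U := by rw [hW]
  rw [hgoal]
  obtain ⟨bad, hbad⟩ : ∃ bad : S → Finset (Finset ι), bad = fun w =>
      X.powerset.filter (fun U => RConn (fun x y => ¬ Disjoint (Y x) (Y y)) U ∧
      (∃ x ∈ U, w ∈ Y x) ∧ K < ∑ x ∈ U, m x) := ⟨_, rfl⟩
  have hbadX : ∀ w, ∀ C ∈ bad w, C ⊆ X := by
    intro w C hC
    rw [hbad] at hC
    exact Finset.mem_powerset.1 (Finset.mem_filter.1 hC).1
  -- decomposition
  have hdec : ∀ U : Finset ι, U ≠ ∅ → U ⊆ X → W U ≠ 0 → ∃ (w : S) (C : Finset ι), C ⊆ U ∧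
      C ∈ bad w ∧ W U = W C * W (U \ C) := by
    intro U hU hUX hWU
    obtain ⟨p, hp⟩ := Finset.nonempty_iff_ne_empty.2 hU
    obtain ⟨w, hw⟩ := hY p (hUX hp)
    obtain ⟨C, hCU, hpC, hconn, hsep⟩ := exists_component
      (fun x y => ¬ Disjoint (Y x) (Y y)) (fun a b h h' => h h'.symm) U {p}
      (Finset.singleton_nonempty p) (Finset.singleton_subset_iff.2 hp) (by
        intro a ha b hb
        rw [Finset.mem_singleton] at ha hb
        rw [ha, hb, Finset.not_disjoint_iff]
        exact ⟨w, hw, hw⟩)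
    have hpC' : p ∈ C := hpC (Finset.mem_singleton_self p)
    have h1 : cU (Allowed Y m K) U =
        cU (Allowed Y m K) C * cU (Allowed Y m K) (U \ C) := by
      rw [← cU_mul _ _ _ Finset.disjoint_sdiff (allowed_union' fun x hx y hy => by
        by_contra hne
        exact hsep x hx y hy hne), Finset.union_sdiff_of_subset hCU]
    have h2 : W U = W C * W (U \ C) := by
      rw [hW]
      simp only
      rw [h1]
      push_cast
      rw [abs_mul, ← Finset.prod_sdiff hCU]
      ring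
    have h3 : ¬ Allowed Y m K C := by
      intro hall
      apply hWU
      rw [h2, hW]
      simp only
      rw [cU_eq_zero _ C ⟨p, hpC'⟩ (fun V hV => allowed_mono' hV hall)]
      simp
    refine ⟨w, C, hCU, ?_, h2⟩
    rw [hbad]
    refine Finset.mem_filter.2 ⟨Finset.mem_powerset.2 (hCU.trans hUX), hconn, ⟨p, hpC', hw⟩, ?_⟩
    unfold Allowed at h3
    push Not at h3
    obtain ⟨v, hv⟩ := h3
    exact hv.trans_le (Finset.sum_le_sum_of_subset (Finset.filter_subset _ _))
  -- one component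
  have hη' : ∀ w, ∑ C ∈ bad w, W C ≤ η := by
    intro w
    refine le_trans (Finset.sum_le_sum fun C hC => ?_) (by have := hη w; rw [hbad]; exact this)
    have hCX := hbadX w C hC
    have h3 : |(cU (Allowed Y m K) C : ℝ)| ≤ 2 ^ C.card := by
      have := abs_cU_le (Allowed Y m K) C
      rw [← Int.cast_abs]
      exact_mod_cast this
    rw [hW]
    simp only
    rw [Finset.prod_mul_distrib, Finset.prod_const]
    exact mul_le_mul_of_nonneg_right h3 (hprod C hCX)
  -- summation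
  obtain ⟨Q, hQ⟩ : ∃ Q : ℝ, Q = ∑ U ∈ X.powerset.erase ∅, W U := ⟨_, rfl⟩
  have hQ0 : 0 ≤ Q := by
    rw [hQ]
    exact Finset.sum_nonneg fun U hU => hW0 U (Finset.mem_powerset.1 (Finset.mem_erase.1 hU).2)
  have hall : ∑ U ∈ X.powerset, W U = 1 + Q := by
    rw [hQ, ← Finset.add_sum_erase _ _ (Finset.empty_mem_powerset X)]
    congr 1
    rw [hW]
    simp only
    rw [cU_empty _ (by intro w; simp)]
    simp
  have hη0 : ∀ w : S, 0 ≤ η := by
    intro w
    refine le_trans (Finset.sum_nonneg fun C hC => ?_) (hη' w)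
    exact hW0 C (hbadX w C hC)
  have hmain : Q ≤ (Fintype.card S : ℝ) * η * (1 + Q) := by
    have e0 : Q = ∑ U ∈ (X.powerset.erase ∅).filter (fun U => W U ≠ 0), W U := by
      rw [hQ, Finset.sum_filter_ne_zero]
    obtain ⟨s, hs⟩ : ∃ s, s = (X.powerset.erase ∅).filter (fun U => W U ≠ 0) := ⟨_, rfl⟩
    have hs' : ∀ U ∈ s, U ≠ ∅ ∧ U ⊆ X ∧ W U ≠ 0 := by
      intro U hU
      rw [hs] at hU
      obtain ⟨h1, h2⟩ := Finset.mem_filter.1 hU
      exact ⟨(Finset.mem_erase.1 h1).1, Finset.mem_powerset.1 (Finset.mem_erase.1 h1).2, h2⟩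
    have hQs : Q = ∑ U ∈ s, W U := by rw [hs]; exact e0
    rcases s.eq_empty_or_nonempty with hse | ⟨U₀, hU₀⟩
    · rw [hse, Finset.sum_empty] at hQs
      rw [hQs]
      rcases isEmpty_or_nonempty S with hS | ⟨⟨w⟩⟩
      · rw [Fintype.card_eq_zero]
        simp
      · have := hη0 w
        positivity
    have hVne : Nonempty S := by
      obtain ⟨w, _⟩ := hdec U₀ (hs' U₀ hU₀).1 (hs' U₀ hU₀).2.1 (hs' U₀ hU₀).2.2
      exact ⟨w⟩
    choose! w C hCU hCb hWU using hdec
    obtain ⟨e, he⟩ : ∃ e : Finset ι → (Σ _ : S, Finset ι × Finset ι),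
        e = fun U => ⟨w U, (C U, U \ C U)⟩ := ⟨_, rfl⟩
    have hinj : Set.InjOn e s := by
      intro U hU U' hU' h
      rw [he] at h
      simp only [Sigma.mk.injEq, heq_eq_eq, Prod.mk.injEq] at h
      have h1 := hs' U hU
      have h2 := hs' U' hU'
      have h3 := Finset.union_sdiff_of_subset (hCU U h1.1 h1.2.1 h1.2.2)
      have h4 := Finset.union_sdiff_of_subset (hCU U' h2.1 h2.2.1 h2.2.2)
      rw [← h3, ← h4, h.2.2, h.2.1]
    have e1 : ∑ U ∈ s, W U = ∑ y ∈ s.image e, W y.2.1 * W y.2.2 := by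
      rw [Finset.sum_image hinj]
      refine Finset.sum_congr rfl fun U hU => ?_
      have h1 := hs' U hU
      rw [he]
      exact hWU U h1.1 h1.2.1 h1.2.2
    have e2 : ∑ y ∈ s.image e, W y.2.1 * W y.2.2 ≤
        ∑ y ∈ (Finset.univ : Finset S).sigma (fun v => bad v ×ˢ X.powerset),
          W y.2.1 * W y.2.2 := by
      apply Finset.sum_le_sum_of_subset_of_nonneg
      · intro y hy
        obtain ⟨U, hU, rfl⟩ := Finset.mem_image.1 hy
        have h1 := hs' U hU
        rw [he, Finset.mem_sigma, Finset.mem_product]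
        exact ⟨Finset.mem_univ _, hCb U h1.1 h1.2.1 h1.2.2,
          Finset.mem_powerset.2 (Finset.sdiff_subset.trans h1.2.1)⟩
      · intro y hy _
        rw [Finset.mem_sigma, Finset.mem_product] at hy
        exact mul_nonneg (hW0 _ (hbadX _ _ hy.2.1)) (hW0 _ (Finset.mem_powerset.1 hy.2.2))
    have e3 : ∑ y ∈ (Finset.univ : Finset S).sigma (fun v => bad v ×ˢ X.powerset),
        W y.2.1 * W y.2.2 = ∑ v : S, (∑ C ∈ bad v, W C) * ∑ U ∈ X.powerset, W U := by
      rw [Finset.sum_sigma]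
      refine Finset.sum_congr rfl fun v _ => ?_
      rw [Finset.sum_product, Finset.sum_mul_sum]
    have e4 : ∑ v : S, (∑ C ∈ bad v, W C) * ∑ U ∈ X.powerset, W U ≤
        ∑ _v : S, η * (1 + Q) := by
      apply Finset.sum_le_sum
      intro v _
      rw [hall]
      exact mul_le_mul_of_nonneg_right (hη' v) (by linarith)
    calc Q = ∑ y ∈ s.image e, W y.2.1 * W y.2.2 := by rw [← e1]; exact hQs
      _ ≤ ∑ v : S, (∑ C ∈ bad v, W C) * ∑ U ∈ X.powerset, W U := by rw [← e3]; exact e2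
      _ ≤ ∑ _v : S, η * (1 + Q) := e4
      _ = (Fintype.card S : ℝ) * η * (1 + Q) := by
          rw [Finset.sum_const, Finset.card_univ, nsmul_eq_mul]
          ring
  rw [← hQ]
  obtain ⟨κ, hκ⟩ : ∃ κ : ℝ, κ = (Fintype.card S : ℝ) * η := ⟨_, rfl⟩
  rw [← hκ] at hmain hsmall ⊢
  have hκ0 : 0 ≤ κ := by
    rw [hκ]
    rcases isEmpty_or_nonempty S with hS | ⟨⟨w⟩⟩
    · rw [Fintype.card_eq_zero]
      simp
    · have := hη0 w
      positivity
  nlinarith

end Pool.Agent.WP
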