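import Pool.Agent.WP.Defs

/-!
`ℓ²` estimate for the product of the algebra.
-/

set_option autoImplicit false

open scoped BigOperators

namespace Pool.Agent.WP

open Alg

variable {S : Type} [Fintype S] [DecidableEq S] {d : ℕ} [NeZero d]

theorem l2_join_inj {a b c : S → Fin d} (hb : Disj a b) (hc : Disj a c) (h : join a b = join a c) : b = c := by
  funext v
  have hv := congrFun h v
  unfold join at hv
  by_cases h0 : a v = 0
  · simpa [h0] using hv
  · rcases hb v with h1 | h1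
    · exact absurd h1 h0
    · rcases hc v with h2 | h2
      · exact absurd h2 h0
      · rw [h1, h2]

theorem l2_shift (a : S → Fin d) (g : Alg S d) :
    ∑ y, ‖∑ b : S → Fin d, (if Disj a b ∧ join a b = y then g b else 0 : ℂ)‖ ^ 2 ≤ ∑ x, ‖g x‖ ^ 2 := by
  have h1 : ∀ y : S → Fin d, ‖∑ b : S → Fin d, (if Disj a b ∧ join a b = y then g b else 0 : ℂ)‖ ^ 2 ≤
      ∑ b : S → Fin d, if Disj a b ∧ join a b = y then ‖g b‖ ^ 2 else 0 := by
    intro y
    by_cases h : ∃ b : S → Fin d, Disj a b ∧ join a b = y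
    · obtain ⟨b0, hb0⟩ := h
      have hz : ∀ b : S → Fin d, b ≠ b0 → ¬ (Disj a b ∧ join a b = y) := by
        intro b hb hc
        exact hb (l2_join_inj hc.1 hb0.1 (hc.2.trans hb0.2.symm))
      rw [Finset.sum_eq_single b0 (fun b _ hb => if_neg (hz b hb)) (by simp),
        Finset.sum_eq_single b0 (fun b _ hb => if_neg (hz b hb)) (by simp), if_pos hb0, if_pos hb0]
    · push Not at h
      have hz : ∀ b : S → Fin d, ¬ (Disj a b ∧ join a b = y) := fun b hb => h b hb.1 hb.2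
      rw [Finset.sum_eq_zero (fun b _ => if_neg (hz b)), Finset.sum_eq_zero (fun b _ => if_neg (hz b))]
      simp
  refine (Finset.sum_le_sum fun y _ => h1 y).trans ?_
  rw [Finset.sum_comm]
  refine Finset.sum_le_sum fun b _ => ?_
  by_cases hb : Disj a b
  · simp only [hb, true_and]
    rw [Finset.sum_ite_eq]
    simp
  · simp only [hb, false_and, if_false, Finset.sum_const_zero]
    positivity

/-- `‖f * g‖₂ ≤ ‖f‖₁ ‖g‖₂` -/
theorem l2_mul_le (f g : Alg S d) :
    ∑ x, ‖(f * g) x‖ ^ 2 ≤ (wn (fun _ => 1) f) ^ 2 * ∑ x, ‖g x‖ ^ 2 := by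
  have hw : wn (fun _ => 1) f = ∑ a, ‖f a‖ := by simp [wn]
  rw [hw]
  set N : ℝ := ∑ a, ‖f a‖ with hN
  have hN0 : 0 ≤ N := Finset.sum_nonneg fun _ _ => norm_nonneg _
  set H : (S → Fin d) → (S → Fin d) → ℂ := fun a y =>
    ∑ b : S → Fin d, (if Disj a b ∧ join a b = y then g b else 0 : ℂ) with hH
  have h1 : ∀ y : S → Fin d, (f * g) y = ∑ a, f a * H a y := by
    intro y
    rw [mul_apply]
    refine Finset.sum_congr rfl fun a _ => ?_
    rw [hH, Finset.mul_sum]
    refine Finset.sum_congr rfl fun b _ => ?_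
    split_ifs <;> simp
  have h2 : ∀ y : S → Fin d, ‖(f * g) y‖ ^ 2 ≤ N * ∑ a, ‖f a‖ * ‖H a y‖ ^ 2 := by
    intro y
    rw [h1 y]
    have h3 : ‖∑ a, f a * H a y‖ ≤ ∑ a, Real.sqrt ‖f a‖ * (Real.sqrt ‖f a‖ * ‖H a y‖) := by
      refine (norm_sum_le _ _).trans (Finset.sum_le_sum fun a _ => ?_)
      rw [norm_mul, ← mul_assoc, Real.mul_self_sqrt (norm_nonneg _)]
    have h4 := Finset.sum_mul_sq_le_sq_mul_sq Finset.univ (fun a => Real.sqrt ‖f a‖)
      (fun a => Real.sqrt ‖f a‖ * ‖H a y‖)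
    have h5 : ∀ a, Real.sqrt ‖f a‖ ^ 2 = ‖f a‖ := fun a => Real.sq_sqrt (norm_nonneg _)
    simp only [mul_pow, h5] at h4
    exact (pow_le_pow_left₀ (norm_nonneg _) h3 2).trans h4
  refine (Finset.sum_le_sum fun y _ => h2 y).trans ?_
  rw [← Finset.mul_sum, Finset.sum_comm]
  have h6 : ∑ a, ∑ y, ‖f a‖ * ‖H a y‖ ^ 2 ≤ N * ∑ x, ‖g x‖ ^ 2 := by
    rw [hN, Finset.sum_mul]
    refine Finset.sum_le_sum fun a _ => ?_
    rw [← Finset.mul_sum]
    exact mul_le_mul_of_nonneg_left (l2_shift a g) (norm_nonneg _)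
  calc N * ∑ a, ∑ y, ‖f a‖ * ‖H a y‖ ^ 2 ≤ N * (N * ∑ x, ‖g x‖ ^ 2) := mul_le_mul_of_nonneg_left h6 hN0
    _ = N ^ 2 * ∑ x, ‖g x‖ ^ 2 := by ring

/-- the `ℓ¹` norm of a product is at most the product of the `ℓ¹` norms -/
theorem l1_mul_le (f g : Alg S d) :
    wn (fun _ => 1) (f * g) ≤ wn (fun _ => 1) f * wn (fun _ => 1) g := by
  unfold wn
  simp only [one_mul]
  have h1 : ∀ y : S → Fin d, ‖(f * g) y‖ ≤ ∑ a : S → Fin d, ∑ b : S → Fin d,
      if Disj a b ∧ join a b = y then ‖f a‖ * ‖g b‖ else 0 := by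
    intro y
    rw [mul_apply]
    refine (norm_sum_le _ _).trans (Finset.sum_le_sum fun a _ => ?_)
    refine (norm_sum_le _ _).trans (Finset.sum_le_sum fun b _ => ?_)
    split_ifs <;> simp
  refine (Finset.sum_le_sum fun y _ => h1 y).trans ?_
  rw [Finset.sum_comm, Finset.sum_mul]
  refine Finset.sum_le_sum fun a _ => ?_
  rw [Finset.sum_comm, Finset.mul_sum]
  refine Finset.sum_le_sum fun b _ => ?_
  by_cases hb : Disj a b
  · simp only [hb, true_and]
    rw [Finset.sum_ite_eq]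
    simp
  · simp only [hb, false_and, if_false, Finset.sum_const_zero]
    positivity

theorem l1_smul_e (a : ℂ) (x : S → Fin d) : wn (fun _ => 1) (a • e x : Alg S d) = ‖a‖ := by
  unfold wn
  rw [Finset.sum_eq_single x]
  · simp [e_apply]
  · intro b _ hb
    simp [e_apply, hb]
  · simp

/-- `ℓ¹` norm of a product of multiples of basis elements -/
theorem l1_prod_le (U : Finset (S → Fin d)) (T : (S → Fin d) → ℂ) :
    wn (fun _ => 1) (∏ x ∈ U, (T x • e x) : Alg S d) ≤ ∏ x ∈ U, ‖T x‖ := by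
  classical
  induction U using Finset.induction_on with
  | empty =>
    rw [Finset.prod_empty, Finset.prod_empty]
    have h := l1_smul_e (S := S) (d := d) 1 0
    rw [one_smul, e_zero, norm_one] at h
    exact h.le
  | insert x U hx ih =>
    rw [Finset.prod_insert hx, Finset.prod_insert hx]
    refine (l1_mul_le _ _).trans ?_
    rw [l1_smul_e]
    exact mul_le_mul_of_nonneg_left ih (norm_nonneg _)

end Pool.Agent.WP
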