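import Pool.Agent.WP.Defs
import Pool.Agent.Hhelper96.PEPS.SitePeps

/-!
The truncated product is exactly a PEPS (with site-dependent tensors).
-/

set_option autoImplicit false
set_option linter.unusedSectionVars false

open scoped BigOperators Classical
open Pool.Agent.Hhelper96.PEPS

namespace Pool.Agent.WP

open Alg

section cr

variable {S : Type} [Fintype S] [DecidableEq S] {d : ℕ} [NeZero d]

/-- exactly the value `t` is created at `w` by the configurations of `U` -/
noncomputable def cr (U : Finset (S → Fin d)) (w : S) (t : Fin d) : ℂ :=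
  if (∀ x ∈ U, x w ≠ 0 → x w = t) ∧ (U.filter (fun x => x w ≠ 0)).card = (if t = 0 then 0 else 1)
    then 1 else 0

theorem cr_empty (w : S) (t : Fin d) :
    cr (∅ : Finset (S → Fin d)) w t = if t = 0 then 1 else 0 := by
  unfold cr
  by_cases ht : t = 0 <;> simp [ht]

theorem cr_insert {U : Finset (S → Fin d)} {x : S → Fin d} (hx : x ∉ U) (w : S) (t : Fin d) :
    cr (insert x U) w t = (if x w ≠ 0 → t = x w then 1 else 0) *
      cr U w (if x w = 0 then t else 0) := by
  unfold cr
  by_cases h : x w = 0
  · have e1 : (insert x U).filter (fun x => x w ≠ 0) = U.filter (fun x => x w ≠ 0) := by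
      rw [Finset.filter_insert, if_neg (by simpa using h)]
    rw [e1]
    simp [h]
  · have e1 : ((insert x U).filter (fun x => x w ≠ 0)).card =
        (U.filter (fun x => x w ≠ 0)).card + 1 := by
      rw [Finset.filter_insert, if_pos h, Finset.card_insert_of_notMem]
      simp [hx]
    rw [e1]
    by_cases ht : t = x w
    · subst ht
      simp only [Finset.mem_insert, forall_eq_or_imp, ne_eq, h, not_false_eq_true,
        true_and, forall_const, if_true, if_false, one_mul]
      congr 1
      rw [eq_iff_iff]
      constructor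
      · rintro ⟨_, h2⟩
        have h3 : (U.filter (fun x => ¬ x w = 0)).card = 0 := by omega
        refine ⟨fun y hy hy0 => ?_, by simpa using h3⟩
        rw [Finset.card_eq_zero] at h3
        have : y ∈ U.filter (fun x => ¬ x w = 0) := Finset.mem_filter.2 ⟨hy, hy0⟩
        rw [h3] at this
        simp at this
      · rintro ⟨h1, h2⟩
        refine ⟨fun y hy hy0 => absurd (h1 y hy hy0) hy0, ?_⟩
        simp at h2 ⊢
        exact h2
    · have h4 : ¬ (¬ x w = 0 → t = x w) := fun h5 => ht (h5 h)
      simp only [ne_eq, h4, if_false, zero_mul]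
      rw [if_neg]
      rintro ⟨h1, _⟩
      exact ht (h1 x (Finset.mem_insert_self _ _) h).symm

theorem e_mul_apply_eq (x y : S → Fin d) (f : Alg S d) :
    (e x * f) y = (if ∀ w, x w ≠ 0 → y w = x w then 1 else 0) *
      f (fun w => if x w = 0 then y w else 0) := by
  rw [e_mul_apply]
  by_cases h : ∀ w, x w ≠ 0 → y w = x w
  · rw [if_pos h, one_mul, Finset.sum_eq_single (fun w => if x w = 0 then y w else 0)]
    · rw [if_pos]
      refine ⟨fun w => ?_, ?_⟩
      · by_cases hw : x w = 0
        · exact Or.inl hw
        · exact Or.inr (by simp [hw])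
      · funext w
        unfold join
        by_cases hw : x w = 0
        · simp [hw]
        · simp [hw, h w hw]
    · intro b _ hb
      rw [if_neg]
      rintro ⟨h1, h2⟩
      apply hb
      funext w
      have h3 := congrFun h2 w
      unfold join at h3
      by_cases hw : x w = 0
      · simp only [hw, if_true] at h3 ⊢
        exact h3
      · rcases h1 w with h4 | h4
        · exact absurd h4 hw
        · simp [hw, h4]
    · simp
  · rw [if_neg h, zero_mul]
    apply Finset.sum_eq_zero
    intro b _
    rw [if_neg]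
    rintro ⟨h1, h2⟩
    apply h
    intro w hw
    rw [← h2]
    unfold join
    rw [if_neg hw]

theorem prod_e_apply (U : Finset (S → Fin d)) (s : S → Fin d) :
    (∏ x ∈ U, e x : Alg S d) s = ∏ w, cr U w (s w) := by
  induction U using Finset.induction_on generalizing s with
  | empty =>
    rw [Finset.prod_empty, one_apply]
    simp only [cr_empty]
    rw [Finset.prod_ite_zero]
    simp [funext_iff]
  | insert x U hx ih =>
    rw [Finset.prod_insert hx, e_mul_apply_eq, ih]
    simp only [cr_insert hx]
    rw [Finset.prod_mul_distrib, Finset.prod_ite_zero]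
    simp

theorem prod_smul_e (U : Finset (S → Fin d)) (T : (S → Fin d) → ℂ) :
    (∏ x ∈ U, (T x • e x : Alg S d)) = (∏ x ∈ U, T x) • ∏ x ∈ U, (e x : Alg S d) := by
  induction U using Finset.induction_on with
  | empty => simp
  | insert x U hx ih =>
    rw [Finset.prod_insert hx, Finset.prod_insert hx, Finset.prod_insert hx, ih]
    rw [smul_mul_assoc, mul_smul_comm, smul_smul]

theorem cr_filter (U : Finset (S → Fin d)) (w : S) (t : Fin d) (Y : (S → Fin d) → Finset S)
    (h : ∀ x ∈ U, x w ≠ 0 → w ∈ Y x) :
    cr (U.filter (fun x => w ∈ Y x)) w t = cr U w t := by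
  unfold cr
  have e1 : (U.filter (fun x => w ∈ Y x)).filter (fun x => x w ≠ 0) =
      U.filter (fun x => x w ≠ 0) := by
    ext x
    simp only [Finset.mem_filter]
    constructor
    · rintro ⟨⟨h1, _⟩, h2⟩; exact ⟨h1, h2⟩
    · rintro ⟨h1, h2⟩; exact ⟨⟨h1, h x h1 h2⟩, h2⟩
  have e2 : (∀ x ∈ U.filter (fun x => w ∈ Y x), x w ≠ 0 → x w = t) ↔
      (∀ x ∈ U, x w ≠ 0 → x w = t) := by
    constructor
    · intro h1 x hx hx0
      exact h1 x (Finset.mem_filter.2 ⟨hx, h x hx hx0⟩) hx0
    · intro h1 x hx hx0
      exact h1 x (Finset.mem_filter.1 hx).1 hx0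
  rw [e1]
  simp only [e2]

end cr

/-- The sum over the allowed sets `U` of `∏_{x ∈ U} T x a_x |0>` is a PEPS whose bond dimension is the
largest number of sets of configurations with hull through a given site and total size `≤ K`.
The label of the bond from `w` to `w'` is the set of the `x ∈ U` with `w, w' ∈ Y x`; the tensor at
`w` sums over the sets `P` of configurations with hull through `w` and total size `≤ K` compatible
with the labels of the four bonds, such that exactly the value `s w` is created at `w` (by at most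
one element of `P`), with the weight `T x` for the elements `x` with anchor `w` (one chosen site of
`Y x`).  As the hulls are connected, compatible families of sets `P w` come from one `U`. -/
theorem exists_sitePeps (L : ℕ) [NeZero L] (d : ℕ) [NeZero d] (X : Finset (Site L → Fin d))
    (h0 : (0 : Site L → Fin d) ∉ X) (Y : (Site L → Fin d) → Finset (Site L))
    (hY : ∀ x ∈ X, RConn (tadj L) (Y x)) (hs : ∀ x ∈ X, supp x ⊆ Y x)
    (m : (Site L → Fin d) → ℕ) (K D : ℕ) (T : (Site L → Fin d) → ℂ)
    (hD : ∀ w : Site L, ((X.filter (fun x => w ∈ Y x)).powerset.filter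
      (fun P => ∑ x ∈ P, m x ≤ K)).card ≤ D) :
    ∃ B : Site L → Fin d → Fin D → Fin D → Fin D → Fin D → ℂ, ∀ s : Site L → Fin d,
      sitePepsVec L B s = (∑ U ∈ X.powerset.filter (Allowed Y m K), ∏ x ∈ U, (T x • e x : Alg (Site L) d)) s := by
  set F : Site L → Finset (Finset (Site L → Fin d)) := fun w =>
    (X.filter (fun x => w ∈ Y x)).powerset.filter (fun P => ∑ x ∈ P, m x ≤ K) with hFdef
  have hF : ∀ (v : Site L) (Q : Finset (Site L → Fin d)), Q ∈ F v ↔
      (∀ x ∈ Q, x ∈ X ∧ v ∈ Y x) ∧ ∑ x ∈ Q, m x ≤ K := by
    intro v Q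
    rw [hFdef]
    simp only [Finset.mem_filter, Finset.mem_powerset, Finset.subset_iff]
  have hFsub : ∀ (v w : Site L) (Q R : Finset (Site L → Fin d)), Q ∈ F w → R ⊆ Q →
      (∀ x ∈ R, v ∈ Y x) → R ∈ F v := by
    intro v w Q R hQ hR hv
    rw [hF] at hQ ⊢
    exact ⟨fun x hx => ⟨(hQ.1 x (hR hx)).1, hv x hx⟩,
      (Finset.sum_le_sum_of_subset hR).trans hQ.2⟩
  -- the encoding of the labels
  have henc : ∀ v : Site L, ∃ f : Finset (Site L → Fin d) → Fin D, ∀ P ∈ F v, ∀ Q ∈ F v,
      f P = f Q → P = Q := by
    intro v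
    have hempty : (∅ : Finset (Site L → Fin d)) ∈ F v := by
      rw [hF]; simp
    have hD0 : 0 < D := lt_of_lt_of_le (Finset.card_pos.2 ⟨_, hempty⟩) (hD v)
    have hcard : Fintype.card (F v) ≤ Fintype.card (Fin D) := by
      rw [Fintype.card_coe, Fintype.card_fin]
      exact hD v
    obtain ⟨g⟩ := Function.Embedding.nonempty_of_card_le hcard
    refine ⟨fun P => if h : P ∈ F v then g ⟨P, h⟩ else ⟨0, hD0⟩, ?_⟩
    intro P hP Q hQ h
    simp only [hP, hQ, dif_pos] at h
    have := g.injective h
    simpa using this
  choose enc hinj using henc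
  -- the anchors
  have hanch : ∀ x : Site L → Fin d, ∃ v : Site L, x ∈ X → v ∈ Y x := by
    intro x
    by_cases hx : x ∈ X
    · obtain ⟨v, hv⟩ := (hY x hx).1
      exact ⟨v, fun _ => hv⟩
    · exact ⟨0, fun h => absurd h hx⟩
  choose an han using hanch
  set W : Site L → Finset (Site L → Fin d) → Fin d → ℂ := fun v P t =>
    (∏ x ∈ P.filter (fun x => an x = v), T x) * cr P v t with hW
  set C : Site L → Finset (Site L → Fin d) → Fin D → Fin D → Fin D → Fin D → Prop :=
    fun v P l r dn u =>
      l = enc (v - (1, 0)) (P.filter (fun x => v - (1, 0) ∈ Y x)) ∧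
      r = enc v (P.filter (fun x => v + (1, 0) ∈ Y x)) ∧
      dn = enc (v - (0, 1)) (P.filter (fun x => v - (0, 1) ∈ Y x)) ∧
      u = enc v (P.filter (fun x => v + (0, 1) ∈ Y x)) with hC
  refine ⟨fun v t l r dn u => ∑ P ∈ F v, (if C v P l r dn u then 1 else 0) * W v P t, fun s => ?_⟩
  set Cp : (Site L → Finset (Site L → Fin d)) → Prop := fun P => ∀ v,
    ((P v).filter (fun x => v + (1, 0) ∈ Y x) = (P (v + (1, 0))).filter (fun x => v ∈ Y x)) ∧
    ((P v).filter (fun x => v + (0, 1) ∈ Y x) = (P (v + (0, 1))).filter (fun x => v ∈ Y x)) with hCp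
  -- step 1: expansion
  have step1 : sitePepsVec L (fun v t l r dn u => ∑ P ∈ F v, (if C v P l r dn u then 1 else 0) *
      W v P t) s = ∑ P ∈ Fintype.piFinset F, (if Cp P then 1 else 0) * ∏ v, W v (P v) (s v) := by
    unfold sitePepsVec
    have e1 : ∀ a b : Site L → Fin D,
        ∏ v : Site L, ∑ P ∈ F v, (if C v P (a (v - (1, 0))) (a v) (b (v - (0, 1))) (b v)
          then (1 : ℂ) else 0) * W v P (s v) =
        ∑ P ∈ Fintype.piFinset F, (if ∀ v, C v (P v) (a (v - (1, 0))) (a v) (b (v - (0, 1))) (b v)
          then (1 : ℂ) else 0) * ∏ v, W v (P v) (s v) := by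
      intro a b
      rw [Finset.prod_univ_sum]
      refine Finset.sum_congr rfl fun P _ => ?_
      rw [Finset.prod_mul_distrib, Finset.prod_ite_zero]
      simp
    simp only [e1]
    rw [Finset.sum_congr rfl (fun a _ => Finset.sum_comm), Finset.sum_comm]
    refine Finset.sum_congr rfl fun P hP => ?_
    simp only [← Finset.sum_mul]
    congr 1
    have hP' : ∀ v, P v ∈ F v := fun v => Fintype.mem_piFinset.1 hP v
    have hin1 : ∀ v (k : Site L), (P v).filter (fun x => v + k ∈ Y x) ∈ F v := by
      intro v k
      refine hFsub v v (P v) _ (hP' v) (Finset.filter_subset _ _) ?_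
      intro x hx
      exact (((hF v (P v)).1 (hP' v)).1 x (Finset.mem_filter.1 hx).1).2
    have hin2 : ∀ v (k : Site L), (P (v + k)).filter (fun x => v ∈ Y x) ∈ F v := by
      intro v k
      refine hFsub v (v + k) (P (v + k)) _ (hP' _) (Finset.filter_subset _ _) ?_
      intro x hx
      exact (Finset.mem_filter.1 hx).2
    by_cases hc : Cp P
    · rw [if_pos hc, Finset.sum_eq_single (fun v => enc v ((P v).filter (fun x => v + (1, 0) ∈ Y x))),
        Finset.sum_eq_single (fun v => enc v ((P v).filter (fun x => v + (0, 1) ∈ Y x)))]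
      · rw [if_pos]
        intro v
        refine ⟨?_, rfl, ?_, rfl⟩
        · have := (hc (v - (1, 0))).1
          rw [sub_add_cancel] at this
          simp only [sub_add_cancel]
          rw [this]
        · have := (hc (v - (0, 1))).2
          rw [sub_add_cancel] at this
          simp only [sub_add_cancel]
          rw [this]
      · intro b _ hb
        rw [if_neg]
        intro h
        apply hb
        funext v
        exact (h v).2.2.2
      · simp
      · intro a _ ha
        apply Finset.sum_eq_zero
        intro b _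
        rw [if_neg]
        intro h
        apply ha
        funext v
        exact (h v).2.1
      · simp
    · rw [if_neg hc]
      apply Finset.sum_eq_zero
      intro a _
      apply Finset.sum_eq_zero
      intro b _
      rw [if_neg]
      intro h
      apply hc
      intro v
      constructor
      · apply hinj v _ (hin1 v _) _ (hin2 v _)
        have h1 := (h v).2.1
        have h2 := (h (v + (1, 0))).1
        rw [add_sub_cancel_right] at h2
        rw [← h1, ← h2]
      · apply hinj v _ (hin1 v _) _ (hin2 v _)
        have h1 := (h v).2.2.2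
        have h2 := (h (v + (0, 1))).2.2.1
        rw [add_sub_cancel_right] at h2
        rw [← h1, ← h2]
  -- step 2: the compatible families
  have hprop : ∀ P ∈ Fintype.piFinset F, Cp P → ∀ (v w : Site L) (x : Site L → Fin d),
      x ∈ P v → w ∈ Y x → x ∈ P w := by
    intro P hP hc v w x hxv hw
    have hP' : ∀ v, P v ∈ F v := fun v => Fintype.mem_piFinset.1 hP v
    have hx := ((hF v (P v)).1 (hP' v)).1 x hxv
    have hr := (hY x hx.1).2 v hx.2 w hw
    induction hr with
    | refl => exact hxv
    | tail hab hbc ih =>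
      rename_i b c
      have hb := ih hbc.1
      rcases hbc.2.2 with h | h | h | h
      · subst h
        have : x ∈ (P b).filter (fun x => b + (1, 0) ∈ Y x) := Finset.mem_filter.2 ⟨hb, hbc.2.1⟩
        rw [(hc b).1] at this
        exact (Finset.mem_filter.1 this).1
      · subst h
        have : x ∈ (P (c + (1, 0))).filter (fun x => c ∈ Y x) := Finset.mem_filter.2 ⟨hb, hbc.2.1⟩
        rw [← (hc c).1] at this
        exact (Finset.mem_filter.1 this).1
      · subst h
        have : x ∈ (P b).filter (fun x => b + (0, 1) ∈ Y x) := Finset.mem_filter.2 ⟨hb, hbc.2.1⟩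
        rw [(hc b).2] at this
        exact (Finset.mem_filter.1 this).1
      · subst h
        have : x ∈ (P (c + (0, 1))).filter (fun x => c ∈ Y x) := Finset.mem_filter.2 ⟨hb, hbc.2.1⟩
        rw [← (hc c).2] at this
        exact (Finset.mem_filter.1 this).1
  have hback : ∀ P ∈ Fintype.piFinset F, Cp P → ∀ v : Site L,
      (Finset.univ.biUnion P).filter (fun x => v ∈ Y x) = P v := by
    intro P hP hc v
    have hP' : ∀ v, P v ∈ F v := fun v => Fintype.mem_piFinset.1 hP v
    ext x
    simp only [Finset.mem_filter, Finset.mem_biUnion, Finset.mem_univ, true_and]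
    constructor
    · rintro ⟨⟨w, hw⟩, hv⟩
      exact hprop P hP hc w v x hw hv
    · intro hx
      exact ⟨⟨v, hx⟩, (((hF v (P v)).1 (hP' v)).1 x hx).2⟩
  have hweight : ∀ U ∈ X.powerset.filter (Allowed Y m K),
      ∏ v, W v (U.filter (fun x => v ∈ Y x)) (s v) =
        (∏ x ∈ U, (T x • e x : Alg (Site L) d)) s := by
    intro U hU
    have hUX : U ⊆ X := Finset.mem_powerset.1 (Finset.mem_filter.1 hU).1
    rw [prod_smul_e, smul_apply, prod_e_apply]
    simp only [hW]
    rw [Finset.prod_mul_distrib]
    congr 1
    · have e1 : ∀ v : Site L, (U.filter (fun x => v ∈ Y x)).filter (fun x => an x = v) =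
          U.filter (fun x => an x = v) := by
        intro v
        ext x
        simp only [Finset.mem_filter]
        constructor
        · rintro ⟨⟨h1, _⟩, h2⟩; exact ⟨h1, h2⟩
        · rintro ⟨h1, h2⟩; exact ⟨⟨h1, h2 ▸ han x (hUX h1)⟩, h2⟩
      simp only [e1]
      exact Finset.prod_fiberwise U an T
    · refine Finset.prod_congr rfl fun v _ => ?_
      apply cr_filter
      intro x hx hxv
      exact hs x (hUX hx) (mem_supp.2 hxv)
  rw [step1, Alg.sum_apply]
  simp only [ite_mul, one_mul, zero_mul]
  rw [← Finset.sum_filter]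
  refine Finset.sum_bij' (fun P _ => Finset.univ.biUnion P)
    (fun U _ => fun v => U.filter (fun x => v ∈ Y x)) ?_ ?_ ?_ ?_ ?_
  · intro P hP
    rw [Finset.mem_filter] at hP
    have hP' : ∀ v, P v ∈ F v := fun v => Fintype.mem_piFinset.1 hP.1 v
    rw [Finset.mem_filter, Finset.mem_powerset]
    constructor
    · intro x hx
      simp only [Finset.mem_biUnion, Finset.mem_univ, true_and] at hx
      obtain ⟨v, hv⟩ := hx
      exact (((hF v (P v)).1 (hP' v)).1 x hv).1
    · intro v
      rw [hback P hP.1 hP.2 v]
      exact ((hF v (P v)).1 (hP' v)).2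
  · intro U hU
    rw [Finset.mem_filter, Finset.mem_powerset] at hU
    rw [Finset.mem_filter, Fintype.mem_piFinset]
    refine ⟨fun v => ?_, fun v => ⟨?_, ?_⟩⟩
    · rw [hF]
      refine ⟨fun x hx => ?_, hU.2 v⟩
      rw [Finset.mem_filter] at hx
      exact ⟨hU.1 hx.1, hx.2⟩
    · ext x
      simp only [Finset.mem_filter]
      tauto
    · ext x
      simp only [Finset.mem_filter]
      tauto
  · intro P hP
    rw [Finset.mem_filter] at hP
    funext v
    exact hback P hP.1 hP.2 v
  · intro U hU
    rw [Finset.mem_filter, Finset.mem_powerset] at hU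
    ext x
    simp only [Finset.mem_biUnion, Finset.mem_univ, true_and, Finset.mem_filter]
    constructor
    · rintro ⟨_, h, _⟩; exact h
    · intro h
      obtain ⟨v, hv⟩ := (hY x (hU.1 h)).1
      exact ⟨v, h, hv⟩
  · intro P hP
    rw [Finset.mem_filter] at hP
    have hP' : ∀ v, P v ∈ F v := fun v => Fintype.mem_piFinset.1 hP.1 v
    rw [← hweight]
    · refine Finset.prod_congr rfl fun v _ => ?_
      rw [hback P hP.1 hP.2 v]
    · rw [Finset.mem_filter, Finset.mem_powerset]
      constructor
      · intro x hx
        simp only [Finset.mem_biUnion, Finset.mem_univ, true_and] at hx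
        obtain ⟨v, hv⟩ := hx
        exact (((hF v (P v)).1 (hP' v)).1 x hv).1
      · intro v
        rw [hback P hP.1 hP.2 v]
        exact ((hF v (P v)).1 (hP' v)).2

end Pool.Agent.WP
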