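import Pool.Agent.WP.Eta
import Pool.Agent.WP.CU
import Pool.Agent.WP.L2
import Pool.Agent.WP.PepsRep

/-!
PEPS approximation on one torus: `a_K = ∏ (1 + T x a_x) * ∑ c_U ∏_U T x a_x` (`trunc_identity`), so
`a_K - ψ = ψ * (∑_{U ≠ ∅} c_U ∏_U T x a_x)`, whose `ℓ¹` norm is at most `2 L² e^{-c' K}` by
`trunc_bound`, `eta_le`; then `l2_mul_le` and `exists_sitePeps`, `label_count`.
-/

set_option autoImplicit false

open scoped BigOperators Classical
open Pool.Agent.Hhelper96.PEPS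

namespace Pool.Agent.WP

private theorem global_wn_zero {S : Type} [Fintype S] [DecidableEq S] {d : ℕ} [NeZero d]
    (w : (S → Fin d) → ℝ) : wn w (0 : Alg S d) = 0 := by
  simp [wn]

private theorem global_wn_add {S : Type} [Fintype S] [DecidableEq S] {d : ℕ} [NeZero d]
    (f g : Alg S d) : wn (fun _ => 1) (f + g) ≤ wn (fun _ => 1) f + wn (fun _ => 1) g := by
  unfold wn
  rw [← Finset.sum_add_distrib]
  refine Finset.sum_le_sum (fun x _ => ?_)
  rw [Alg.add_apply]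
  have := norm_add_le (f x) (g x)
  linarith

private theorem global_wn_sum {S : Type} [Fintype S] [DecidableEq S] {d : ℕ} [NeZero d]
    {ι : Type} (s : Finset ι) (f : ι → Alg S d) :
    wn (fun _ => 1) (∑ i ∈ s, f i) ≤ ∑ i ∈ s, wn (fun _ => 1) (f i) := by
  classical
  induction s using Finset.induction_on with
  | empty => simp [global_wn_zero]
  | insert a s ha ih =>
    rw [Finset.sum_insert ha, Finset.sum_insert ha]
    exact (global_wn_add _ _).trans (by linarith)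

private theorem global_wn_int {S : Type} [Fintype S] [DecidableEq S] {d : ℕ} [NeZero d] (n : ℤ) :
    wn (fun _ => 1) ((n : Alg S d)) = |(n : ℝ)| := by
  have h : ((n : ℤ) : Alg S d) = ((n : ℂ)) • Alg.e 0 := by
    rw [Alg.e_zero, ← Algebra.algebraMap_eq_smul_one]
    simp
  rw [h, l1_smul_e]
  simp

private theorem global_wn_nonneg {S : Type} [Fintype S] [DecidableEq S] {d : ℕ} [NeZero d]
    (f : Alg S d) : 0 ≤ wn (fun _ => 1) f := by
  unfold wn
  positivity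

theorem exists_approx (L : ℕ) [NeZero L] (d : ℕ) [NeZero d] (T : (Site L → Fin d) → ℂ)
    (hT : ∀ u x, T (tr u x) = T x) (c c' : ℝ) (hc' : 0 ≤ c') (hcc : c' + 5 ≤ c)
    (hN : NT (tadj L) c T ≤ 1) (K D : ℕ) (hK : (L : ℝ) ^ 2 * Real.exp (-(c' * K)) ≤ 1 / 2)
    (hD : 2 * (14 * d : ℝ) ^ K ≤ D) :
    ∃ B : Site L → Fin d → Fin D → Fin D → Fin D → Fin D → ℂ,
      ∑ s, ‖sitePepsVec L B s - (EP X0 T : Alg (Site L) d) s‖ ^ 2 ≤
        (2 * ((L : ℝ) ^ 2 * Real.exp (-(c' * K)))) ^ 2 * ∑ s, ‖(EP X0 T : Alg (Site L) d) s‖ ^ 2 := by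
  have hex : ∀ x : Site L → Fin d, ∃ V : Finset (Site L), RConn (tadj L) V ∧ supp x ⊆ V ∧
      V.card = msz (tadj L) (supp x) := fun x => exists_hull (exists_conn L (supp x))
  choose Y hY1 hY2 hY3 using hex
  have hY : ∀ x ∈ (X0 : Finset (Site L → Fin d)), RConn (tadj L) (Y x) := fun x _ => hY1 x
  have hs : ∀ x ∈ (X0 : Finset (Site L → Fin d)), supp x ⊆ Y x := fun x _ => hY2 x
  have hm : ∀ x ∈ (X0 : Finset (Site L → Fin d)), (Y x).card = msz (tadj L) (supp x) :=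
    fun x _ => hY3 x
  set m : (Site L → Fin d) → ℕ := fun x => msz (tadj L) (supp x) with hmdef
  have hlab : ∀ w : Site L, (((X0 : Finset (Site L → Fin d)).filter (fun x => w ∈ Y x)).powerset.filter
      (fun P => ∑ x ∈ P, m x ≤ K)).card ≤ D := by
    intro w
    have h := label_count L d Y m hY hs hm K w
    have h2 := h.trans hD
    exact_mod_cast h2
  have h0 : (0 : Site L → Fin d) ∉ (X0 : Finset (Site L → Fin d)) := by simp [X0]
  obtain ⟨B, hB⟩ := exists_sitePeps L d X0 h0 Y hY hs m K D T hlab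
  refine ⟨B, ?_⟩
  set z : (Site L → Fin d) → Alg (Site L) d := fun x => T x • Alg.e x with hz
  have hz2 : ∀ x ∈ (X0 : Finset (Site L → Fin d)), z x * z x = 0 := by
    intro x hx
    have hx0 : x ≠ 0 := by
      rintro rfl
      exact h0 hx
    rw [hz]
    simp only [smul_mul_smul_comm, Alg.e_sq hx0, smul_zero]
  have htr := trunc_identity (X0 : Finset (Site L → Fin d)) z hz2 (Allowed Y m K)
  set G : Alg (Site L) d := ∑ U ∈ (X0 : Finset (Site L → Fin d)).powerset,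
    ((cU (Allowed Y m K) U : ℤ) : Alg (Site L) d) * ∏ x ∈ U, z x with hG
  have hEP : (EP X0 T : Alg (Site L) d) = ∏ x ∈ (X0 : Finset (Site L → Fin d)), (1 + z x) := rfl
  have hA0 : Allowed Y m K ∅ := by
    intro w
    simp
  have hG1 : G - 1 = ∑ U ∈ (X0 : Finset (Site L → Fin d)).powerset.erase ∅,
      ((cU (Allowed Y m K) U : ℤ) : Alg (Site L) d) * ∏ x ∈ U, z x := by
    rw [hG, ← Finset.add_sum_erase _ _ (Finset.empty_mem_powerset _), cU_empty _ hA0]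
    simp
  set η : ℝ := Real.exp (-(c' * K)) with hη
  have hcard : (Fintype.card (Site L) : ℝ) = (L : ℝ) ^ 2 := by
    have : Fintype.card (Site L) = L * L := by
      show Fintype.card (ZMod L × ZMod L) = L * L
      rw [Fintype.card_prod, ZMod.card]
    rw [this]
    push_cast
    ring
  have hYne : ∀ x ∈ (X0 : Finset (Site L → Fin d)), (Y x).Nonempty := fun x _ => (hY1 x).1
  have hηw : ∀ w : Site L, ∑ U ∈ (X0 : Finset (Site L → Fin d)).powerset.filter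
      (fun U => RConn (fun x y => ¬ Disjoint (Y x) (Y y)) U ∧
      (∃ x ∈ U, w ∈ Y x) ∧ K < ∑ x ∈ U, m x), ∏ x ∈ U, (2 * ‖T x‖) ≤ η := by
    intro w
    exact eta_le L d Y hY hs hm T hT c c' hc' hcc hN K w
  have htb := trunc_bound (X0 : Finset (Site L → Fin d)) Y hYne m K (fun x => ‖T x‖)
    (fun x _ => norm_nonneg _) η hηw (by rw [hcard]; exact hK)
  have hG2 : wn (fun _ => 1) (G - 1) ≤ 2 * ((L : ℝ) ^ 2 * η) := by
    rw [hG1]
    refine (global_wn_sum _ _).trans ?_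
    rw [hcard] at htb
    refine le_trans (Finset.sum_le_sum (fun U _ => ?_)) htb
    refine (l1_mul_le _ _).trans ?_
    rw [global_wn_int]
    exact mul_le_mul_of_nonneg_left (l1_prod_le U T) (abs_nonneg _)
  have hdiff : ∀ s, sitePepsVec L B s - (EP X0 T : Alg (Site L) d) s =
      ((G - 1) * (EP X0 T : Alg (Site L) d)) s := by
    intro s
    rw [hB s]
    have h1 : (G - 1) * (EP X0 T : Alg (Site L) d) =
        ∑ U ∈ (X0 : Finset (Site L → Fin d)).powerset.filter (Allowed Y m K), ∏ x ∈ U, z x -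
          EP X0 T := by
      rw [htr, hEP]
      ring
    rw [h1, Alg.sub_apply]
  calc ∑ s, ‖sitePepsVec L B s - (EP X0 T : Alg (Site L) d) s‖ ^ 2
      = ∑ s, ‖((G - 1) * (EP X0 T : Alg (Site L) d)) s‖ ^ 2 := by
        refine Finset.sum_congr rfl (fun s _ => ?_)
        rw [hdiff s]
    _ ≤ (wn (fun _ => 1) (G - 1)) ^ 2 * ∑ s, ‖(EP X0 T : Alg (Site L) d) s‖ ^ 2 := l2_mul_le _ _
    _ ≤ _ := by
        refine mul_le_mul_of_nonneg_right ?_ (by positivity)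
        exact pow_le_pow_left₀ (global_wn_nonneg _) hG2 2

/-- choice of the truncation: `K = ⌊(δ / 2) log (n + 1) / log (14 d)⌋`, `D = ⌊(n + 1) ^ δ⌋`,
`c' = (2 log (14 d) / δ) (3 + 1 / δ)` -/
theorem exists_scale (d : ℕ) [NeZero d] (δ : ℝ) (hδ : 0 < δ) :
    ∃ c' : ℝ, 0 ≤ c' ∧ ∀ᶠ n : ℕ in Filter.atTop, ∃ K D : ℕ, 2 * (14 * d : ℝ) ^ K ≤ D ∧
      (D : ℝ) ≤ ((n + 1 : ℕ) : ℝ) ^ δ ∧ ((n + 1 : ℕ) : ℝ) ^ 2 * Real.exp (-(c' * K)) ≤ 1 / 2 ∧
      2 * (((n + 1 : ℕ) : ℝ) ^ 2 * Real.exp (-(c' * K))) ≤ ((n + 1 : ℕ) : ℝ) ^ (-(1 / δ)) := by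
  have hd1 : (1 : ℝ) ≤ d := by exact_mod_cast Nat.one_le_iff_ne_zero.2 (NeZero.ne d)
  have hb : (1 : ℝ) < 14 * d := by linarith
  have hb0 : (0 : ℝ) < 14 * d := by linarith
  set a : ℝ := Real.log (14 * d) with ha
  have ha0 : 0 < a := Real.log_pos hb
  set e : ℝ := 3 + 1 / δ with he
  have he0 : 0 < e := by positivity
  set C : ℝ := e * (2 * a / δ) with hC
  refine ⟨(2 * a / δ) * e, by positivity, ?_⟩
  have h1 : Filter.Tendsto (fun n : ℕ => (((n + 1 : ℕ) : ℝ)) ^ (δ / 2)) Filter.atTop Filter.atTop :=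
    (tendsto_rpow_atTop (by positivity)).comp
      (tendsto_natCast_atTop_atTop.comp (Filter.tendsto_add_atTop_nat 1))
  have h2 : Filter.Tendsto (fun n : ℕ => (((n + 1 : ℕ) : ℝ))) Filter.atTop Filter.atTop :=
    (tendsto_natCast_atTop_atTop.comp (Filter.tendsto_add_atTop_nat 1))
  filter_upwards [h1.eventually_ge_atTop 3, h2.eventually_ge_atTop (2 * Real.exp C)] with n hn1 hn2
  have hN1 : (1 : ℝ) ≤ ((n + 1 : ℕ) : ℝ) := by push_cast; linarith [(Nat.cast_nonneg n : (0 : ℝ) ≤ n)]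
  generalize ((n + 1 : ℕ) : ℝ) = N at hn1 hn2 hN1 ⊢
  have hN0 : 0 < N := by linarith
  have hlog : 0 ≤ Real.log N := Real.log_nonneg hN1
  set x : ℝ := δ / 2 * Real.log N / a with hx
  have hx0 : 0 ≤ x := by positivity
  have hK1 : ((⌊x⌋₊ : ℕ) : ℝ) ≤ x := Nat.floor_le hx0
  have hK2 : x - 1 ≤ ((⌊x⌋₊ : ℕ) : ℝ) := by linarith [Nat.lt_floor_add_one x]
  have hNδ : 0 ≤ N ^ δ := Real.rpow_nonneg hN0.le _
  have hsq : N ^ δ = N ^ (δ / 2) * N ^ (δ / 2) := by
    rw [← Real.rpow_add hN0]; congr 1; ring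
  have key : N ^ 2 * Real.exp (-((2 * a / δ) * e * ((⌊x⌋₊ : ℕ) : ℝ))) ≤ N ^ (-(1 / δ)) * (Real.exp C / N) := by
    have e1 : N ^ (-(1 / δ)) = Real.exp (Real.log N * (-(1 / δ))) := by rw [Real.rpow_def_of_pos hN0]
    have e2 : N = Real.exp (Real.log N) := (Real.exp_log hN0).symm
    have e3 : N ^ 2 * Real.exp (-((2 * a / δ) * e * ((⌊x⌋₊ : ℕ) : ℝ))) =
        Real.exp (2 * Real.log N - (2 * a / δ) * e * ((⌊x⌋₊ : ℕ) : ℝ)) := by
      rw [sub_eq_add_neg, Real.exp_add]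
      congr 1
      rw [two_mul, Real.exp_add, Real.exp_log hN0]
      ring
    have e4 : N ^ (-(1 / δ)) * (Real.exp C / N) = Real.exp (Real.log N * (-(1 / δ)) + C - Real.log N) := by
      rw [e1, Real.exp_sub, Real.exp_add, Real.exp_log hN0]
      ring
    rw [e3, e4]
    apply Real.exp_le_exp.2
    have h5 : (2 * a / δ) * e * (x - 1) ≤ (2 * a / δ) * e * ((⌊x⌋₊ : ℕ) : ℝ) :=
      mul_le_mul_of_nonneg_left hK2 (by positivity)
    have h6 : (2 * a / δ) * e * (x - 1) = e * Real.log N - C := by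
      rw [hx, hC]
      field_simp
    have h7 : e * Real.log N = 3 * Real.log N + 1 / δ * Real.log N := by rw [he]; ring
    linarith
  have hone : N ^ (-(1 / δ)) ≤ 1 := Real.rpow_le_one_of_one_le_of_nonpos hN1 (by
    have : 0 < 1 / δ := by positivity
    linarith)
  have hpos : 0 < N ^ (-(1 / δ)) := Real.rpow_pos_of_pos hN0 _
  have hCN : Real.exp C / N ≤ 1 / 2 := by
    rw [div_le_iff₀ hN0]
    linarith
  have hCN0 : 0 ≤ Real.exp C / N := by positivity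
  refine ⟨⌊x⌋₊, ⌊N ^ δ⌋₊, ?_, Nat.floor_le hNδ, ?_, ?_⟩
  · have h8 : (14 * d : ℝ) ^ ⌊x⌋₊ ≤ N ^ (δ / 2) := by
      rw [← Real.rpow_natCast, Real.rpow_def_of_pos hb0, Real.rpow_def_of_pos hN0]
      apply Real.exp_le_exp.2
      rw [← ha]
      calc a * ((⌊x⌋₊ : ℕ) : ℝ) ≤ a * x := mul_le_mul_of_nonneg_left hK1 ha0.le
        _ = Real.log N * (δ / 2) := by rw [hx]; field_simp
    have h9 : N ^ δ - 1 ≤ ((⌊N ^ δ⌋₊ : ℕ) : ℝ) := by linarith [Nat.lt_floor_add_one (N ^ δ)]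
    nlinarith
  · calc _ ≤ N ^ (-(1 / δ)) * (Real.exp C / N) := key
      _ ≤ 1 * (1 / 2) := mul_le_mul hone hCN hCN0 zero_le_one
      _ = 1 / 2 := by ring
  · calc 2 * (N ^ 2 * Real.exp (-((2 * a / δ) * e * ((⌊x⌋₊ : ℕ) : ℝ)))) ≤
        2 * (N ^ (-(1 / δ)) * (Real.exp C / N)) := by linarith
      _ ≤ 2 * (N ^ (-(1 / δ)) * (1 / 2)) := by
        have := mul_le_mul_of_nonneg_left hCN hpos.le
        linarith
      _ = N ^ (-(1 / δ)) := by ring

end Pool.Agent.WP
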