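import Pool.Agent.Hhelper96.PEPS.AvgErr

/-!
Closeness in Hilbert norm gives closeness of the reduced density matrices, with a constant which does
not depend on the torus.
-/

set_option autoImplicit false
set_option linter.unusedSectionVars false

open scoped BigOperators
open Pool.Agent.Hhelper96.PEPS

namespace Pool.Agent.WP

section cs

variable {S T : Type} [Fintype S] [DecidableEq S] [Fintype T] [DecidableEq T] {d : ℕ}

/-- the matching of the partial trace -/
def NC (ι : T → S) (a b : T → Fin d) (s s' : S → Fin d) : Prop :=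
  s ∘ ι = a ∧ s' ∘ ι = b ∧ ∀ u, (∀ t, ι t ≠ u) → s u = s' u

theorem nc_unique {ι : T → S} {a b : T → Fin d} {s s' s'' : S → Fin d} (h : NC ι a b s s')
    (h' : NC ι a b s s'') : s' = s'' := by
  funext u
  by_cases hu : ∃ t, ι t = u
  · obtain ⟨t, rfl⟩ := hu
    have e1 := congrFun h.2.1 t
    have e2 := congrFun h'.2.1 t
    simp only [Function.comp_apply] at e1 e2
    rw [e1, e2]
  · push Not at hu
    rw [← h.2.2 u hu, ← h'.2.2 u hu]

theorem nc_unique' {ι : T → S} {a b : T → Fin d} {s s' s'' : S → Fin d} (h : NC ι a b s s')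
    (h' : NC ι a b s'' s') : s = s'' := by
  funext u
  by_cases hu : ∃ t, ι t = u
  · obtain ⟨t, rfl⟩ := hu
    have e1 := congrFun h.1 t
    have e2 := congrFun h'.1 t
    simp only [Function.comp_apply] at e1 e2
    rw [e1, e2]
  · push Not at hu
    rw [h.2.2 u hu, h'.2.2 u hu]

open Classical in
theorem nc_cs (ι : T → S) (a b : T → Fin d) (u w : (S → Fin d) → ℝ) :
    ∑ s, ∑ s', (if NC ι a b s s' then u s * w s' else 0) ≤
      √(∑ s, u s ^ 2) * √(∑ s, w s ^ 2) := by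
  have h1 : ∑ s, ∑ s', (if NC ι a b s s' then u s * w s' else 0) =
      ∑ p : (S → Fin d) × (S → Fin d), (if NC ι a b p.1 p.2 then u p.1 else 0) *
        (if NC ι a b p.1 p.2 then w p.2 else 0) := by
    rw [← Fintype.sum_prod_type']
    refine Finset.sum_congr rfl fun p _ => ?_
    split_ifs <;> simp
  rw [h1]
  refine (Real.sum_mul_le_sqrt_mul_sqrt _ _ _).trans ?_
  apply mul_le_mul _ _ (Real.sqrt_nonneg _) (Real.sqrt_nonneg _)
  · apply Real.sqrt_le_sqrt
    rw [Fintype.sum_prod_type]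
    refine Finset.sum_le_sum fun s _ => ?_
    by_cases hx : ∃ s', NC ι a b s s'
    · obtain ⟨s', hs'⟩ := hx
      rw [Finset.sum_eq_single s']
      · simp only; rw [if_pos hs']
      · intro s'' _ hne
        simp only
        rw [if_neg (fun h => hne (nc_unique h hs'))]
        simp
      · simp
    · push Not at hx
      simp only [hx, if_false]
      simp only [ne_eq, OfNat.ofNat_ne_zero, not_false_eq_true, zero_pow, Finset.sum_const_zero]
      positivity
  · apply Real.sqrt_le_sqrt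
    rw [Fintype.sum_prod_type, Finset.sum_comm]
    refine Finset.sum_le_sum fun s _ => ?_
    by_cases hx : ∃ s', NC ι a b s' s
    · obtain ⟨s', hs'⟩ := hx
      rw [Finset.sum_eq_single s']
      · simp only; rw [if_pos hs']
      · intro s'' _ hne
        simp only
        rw [if_neg (fun h => hne (nc_unique' h hs'))]
        simp
      · simp
    · push Not at hx
      simp only [hx, if_false]
      simp only [ne_eq, OfNat.ofNat_ne_zero, not_false_eq_true, zero_pow, Finset.sum_const_zero]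
      positivity

end cs

theorem l2_triangle {n : Type} [Fintype n] (f g : n → ℂ) :
    √(∑ i, ‖f i + g i‖ ^ 2) ≤ √(∑ i, ‖f i‖ ^ 2) + √(∑ i, ‖g i‖ ^ 2) := by
  have h := norm_add_le (WithLp.toLp 2 f : EuclideanSpace ℂ n) (WithLp.toLp 2 g)
  simpa [EuclideanSpace.norm_eq] using h

theorem l2_smul {n : Type} [Fintype n] (c : ℂ) (f : n → ℂ) :
    √(∑ i, ‖c * f i‖ ^ 2) = ‖c‖ * √(∑ i, ‖f i‖ ^ 2) := by
  simp only [norm_mul, mul_pow, ← Finset.mul_sum]
  rw [Real.sqrt_mul (by positivity), Real.sqrt_sq (norm_nonneg c)]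

theorem marg_close (d : ℕ) (R : Finset (ℤ × ℤ)) : ∃ C : ℝ, 0 ≤ C ∧ ∀ (L : ℕ) [NeZero L]
    (φ ψ : (Site L → Fin d) → ℂ) (ε : ℝ), 0 ≤ ε → ε ≤ 1 / 2 → ψ ≠ 0 →
    ∑ s, ‖φ s - ψ s‖ ^ 2 ≤ ε ^ 2 * ∑ s, ‖ψ s‖ ^ 2 →
    φ ≠ 0 ∧ ∀ v : Site L, traceNorm (reduced L R v ψ - reduced L R v φ) ≤ C * ε := by
  classical
  refine ⟨∑ a : R → Fin d, ∑ b : R → Fin d, 4, by positivity, ?_⟩
  intro L _ φ ψ ε hε hε2 hψ hclose
  obtain ⟨A, hA⟩ : ∃ A, A = √(∑ s, ‖ψ s‖ ^ 2) := ⟨_, rfl⟩
  obtain ⟨B, hB⟩ : ∃ B, B = √(∑ s, ‖φ s‖ ^ 2) := ⟨_, rfl⟩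
  have hA0 : 0 < A := by
    rw [hA]
    apply Real.sqrt_pos.2
    obtain ⟨s, hs⟩ := Function.ne_iff.1 hψ
    refine Finset.sum_pos' (fun i _ => by positivity) ⟨s, Finset.mem_univ _, ?_⟩
    have : 0 < ‖ψ s‖ := norm_pos_iff.2 hs
    positivity
  have hd : √(∑ s, ‖φ s - ψ s‖ ^ 2) ≤ ε * A := by
    have := Real.sqrt_le_sqrt hclose
    rwa [Real.sqrt_mul (by positivity), Real.sqrt_sq hε, ← hA] at this
  have hd' : √(∑ s, ‖ψ s - φ s‖ ^ 2) ≤ ε * A := by
    have : ∀ s, ‖ψ s - φ s‖ = ‖φ s - ψ s‖ := fun s => norm_sub_rev _ _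
    simpa only [this] using hd
  have hBA : A ≤ B + ε * A := by
    have h1 := l2_triangle φ (fun s => ψ s - φ s)
    simp only [add_sub_cancel] at h1
    rw [← hA, ← hB] at h1
    linarith
  have hAB : B ≤ A + ε * A := by
    have h1 := l2_triangle ψ (fun s => φ s - ψ s)
    simp only [add_sub_cancel] at h1
    rw [← hA, ← hB] at h1
    linarith
  have hB0 : 0 < B := by nlinarith
  have hφ : φ ≠ 0 := by
    intro h0
    rw [h0] at hB
    simp at hB
    linarith
  refine ⟨hφ, fun v => ?_⟩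
  -- unit vectors
  obtain ⟨ψ', hψ'⟩ : ∃ ψ' : (Site L → Fin d) → ℂ, ψ' = fun s => ((A⁻¹ : ℝ) : ℂ) * ψ s := ⟨_, rfl⟩
  obtain ⟨φ', hφ'⟩ : ∃ φ' : (Site L → Fin d) → ℂ, φ' = fun s => ((B⁻¹ : ℝ) : ℂ) * φ s := ⟨_, rfl⟩
  have nψ : √(∑ s, ‖ψ' s‖ ^ 2) = 1 := by
    rw [hψ', l2_smul, ← hA, Complex.norm_real, Real.norm_of_nonneg (by positivity),
      inv_mul_cancel₀ hA0.ne']
  have nφ : √(∑ s, ‖φ' s‖ ^ 2) = 1 := by
    rw [hφ', l2_smul, ← hB, Complex.norm_real, Real.norm_of_nonneg (by positivity),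
      inv_mul_cancel₀ hB0.ne']
  have nd : √(∑ s, ‖ψ' s - φ' s‖ ^ 2) ≤ 2 * ε := by
    have h1 := l2_triangle (fun s => ((A⁻¹ : ℝ) : ℂ) * (ψ s - φ s))
      (fun s => ((A⁻¹ - B⁻¹ : ℝ) : ℂ) * φ s)
    have h2 : ∀ s, ((A⁻¹ : ℝ) : ℂ) * (ψ s - φ s) + ((A⁻¹ - B⁻¹ : ℝ) : ℂ) * φ s = ψ' s - φ' s := by
      intro s
      rw [hψ', hφ']
      push_cast
      ring
    simp only [h2] at h1
    rw [l2_smul, l2_smul, ← hB, Complex.norm_real, Complex.norm_real,
      Real.norm_of_nonneg (by positivity), Real.norm_eq_abs] at h1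
    have h3 : A⁻¹ * √(∑ s, ‖ψ s - φ s‖ ^ 2) ≤ ε := by
      rw [inv_mul_le_iff₀ hA0]
      linarith
    have h4 : |A⁻¹ - B⁻¹| * B ≤ ε := by
      have e1 : (A⁻¹ - B⁻¹) * B = (B - A) / A := by field_simp
      have e2 : |A⁻¹ - B⁻¹| * B = |(A⁻¹ - B⁻¹) * B| := by rw [abs_mul, abs_of_pos hB0]
      rw [e2, e1, abs_div, abs_of_pos hA0, div_le_iff₀ hA0, abs_le]
      constructor <;> linarith
    linarith
  have hsqA : ((∑ t, ‖ψ t‖ ^ 2 : ℝ)) = A ^ 2 := by
    rw [hA, Real.sq_sqrt (Finset.sum_nonneg fun t _ => by positivity)]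
  have hsqB : ((∑ t, ‖φ t‖ ^ 2 : ℝ)) = B ^ 2 := by
    rw [hB, Real.sq_sqrt (Finset.sum_nonneg fun t _ => by positivity)]
  have hAc : (A : ℂ) ≠ 0 := by exact_mod_cast hA0.ne'
  have hBc : (B : ℂ) ≠ 0 := by exact_mod_cast hB0.ne'
  have hdψ : ∀ s s', density ψ s s' = ψ' s * star (ψ' s') := by
    intro s s'
    unfold density
    rw [hsqA, hψ']
    simp only [star_mul', Complex.star_def, Complex.conj_ofReal]
    push_cast
    field_simp
  have hdφ : ∀ s s', density φ s s' = φ' s * star (φ' s') := by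
    intro s s'
    unfold density
    rw [hsqB, hφ']
    simp only [star_mul', Complex.star_def, Complex.conj_ofReal]
    push_cast
    field_simp
  refine (traceNorm_le_sum _).trans ?_
  have hent : ∀ a b : R → Fin d, ‖(reduced L R v ψ - reduced L R v φ) a b‖ ≤ 4 * ε := by
    intro a b
    obtain ⟨ι, hι⟩ : ∃ ι : R → Site L, ι = fun p : R => place L v p := ⟨_, rfl⟩
    have e1 : (reduced L R v ψ - reduced L R v φ) a b = ∑ s, ∑ s',
        (if NC ι a b s s' then ψ' s * star (ψ' s') - φ' s * star (φ' s') else 0) := by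
      rw [Matrix.sub_apply]
      unfold reduced ptrace NC
      rw [← hι]
      simp only [← Finset.sum_sub_distrib]
      refine Finset.sum_congr rfl fun s _ => Finset.sum_congr rfl fun s' _ => ?_
      split_ifs with hc
      · rw [hdψ, hdφ]
      · simp
    rw [e1]
    have e2 : ‖∑ s, ∑ s', (if NC ι a b s s' then ψ' s * star (ψ' s') - φ' s * star (φ' s') else 0)‖ ≤
        ∑ s, ∑ s', ((if NC ι a b s s' then ‖ψ' s - φ' s‖ * ‖ψ' s'‖ else 0) +
          (if NC ι a b s s' then ‖φ' s‖ * ‖ψ' s' - φ' s'‖ else 0)) := by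
      refine (norm_sum_le _ _).trans (Finset.sum_le_sum fun s _ => ?_)
      refine (norm_sum_le _ _).trans (Finset.sum_le_sum fun s' _ => ?_)
      split_ifs with hc
      · have e3 : ψ' s * star (ψ' s') - φ' s * star (φ' s') =
            (ψ' s - φ' s) * star (ψ' s') + φ' s * star (ψ' s' - φ' s') := by
          rw [star_sub]; ring
        rw [e3]
        refine (norm_add_le _ _).trans (le_of_eq ?_)
        rw [norm_mul, norm_mul, norm_star, norm_star]
      · simp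
    refine e2.trans ?_
    simp only [Finset.sum_add_distrib]
    have e4 := nc_cs ι a b (fun s => ‖ψ' s - φ' s‖) (fun s => ‖ψ' s‖)
    have e5 := nc_cs ι a b (fun s => ‖φ' s‖) (fun s => ‖ψ' s - φ' s‖)
    rw [nψ] at e4
    rw [nφ] at e5
    linarith
  rw [Finset.sum_mul]
  refine Finset.sum_le_sum fun a _ => ?_
  rw [Finset.sum_mul]
  exact Finset.sum_le_sum fun b _ => hent a b

end Pool.Agent.WP
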