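import Pool.Agent.WP.EnergyBox
import Pool.Agent.Hhelper96.PEPS.ConvFinal

/-!
Rate of convergence of the marginals of the ground states when the gap is stable.

PROOF.  With `e_n(s)` the energy density on the torus `n + 1`: `|e_n(s) - e_j(s)| ≤ C / (n + 1)` for
`n ≤ j` (from `energy_box` and `energy_core`: for `n ≤ j` take `i` huge, `e_j ≤ e_i + C / j` and
`e_i ≤ e_n + C / n`).  As in `stable_converges` (`chain`, variance bound):
`|g_n - (e_n(t) - e_n(0)) / t| ≤ C t` for `0 < t ≤ η`, `g_n = enf k (reduced (n + 1) R 0 (ψ n))`.  So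
`|g_n - g_j| ≤ 2 C t + 2 C / (t (n + 1))`; take `t = (n + 1) ^ (-1/2)`.
-/

set_option autoImplicit false

open scoped BigOperators Topology ComplexOrder
open Matrix Filter

namespace Pool.Agent.Hhelper96.PEPS

/-- the difference quotients of the energy density approximate the expectation values -/
theorem tangent_bound {d : ℕ} {F R W : Finset (ℤ × ℤ)} (hFW : F ⊆ W) (hRW : R ⊆ W)
    {r : ℕ} (a b : ℤ) (hW : ∀ p ∈ W, a ≤ p.1 ∧ p.1 < a + r ∧ b ≤ p.2 ∧ p.2 < b + r)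
    {h : Matrix (F → Fin d) (F → Fin d) ℂ} {k : Matrix (R → Fin d) (R → Fin d) ℂ}
    (hh : h.IsHermitian) (hk : k.IsHermitian) {Δ : ℝ} (hΔ : 0 < Δ)
    (ψ : ∀ n : ℕ, (Site (n + 1) → Fin d) → ℂ)
    (hψ : ∀ᶠ n in atTop, IsGappedGround (hamiltonian (n + 1) F h) Δ (ψ n))
    {η Δ' : ℝ} (hΔ' : 0 < Δ')
    (hst : ∀ᶠ n in atTop, ∀ s ∈ Set.Icc (0 : ℝ) η, ∃ φ : (Site (n + 1) → Fin d) → ℂ,
      IsGappedGround (hamiltonian (n + 1) F h + (s : ℂ) • hamiltonian (n + 1) R k) Δ' φ) :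
    ∃ C : ℝ, 0 ≤ C ∧ ∀ᶠ n : ℕ in atTop, ∀ t ∈ Set.Ioc (0 : ℝ) η,
      ∀ φ : (Site (n + 1) → Fin d) → ℂ,
      IsGappedGround (hamiltonian (n + 1) F h + (t : ℂ) • hamiltonian (n + 1) R k) Δ' φ →
      |enf k (reduced (n + 1) R 0 (ψ n)) - (ltot hFW hRW h k t (reduced (n + 1) W 0 φ) -
        ltot hFW hRW h k 0 (reduced (n + 1) W 0 (ψ n))) / t| ≤ C * t := by
  classical
  have hinj : ∀ n : ℕ, r ≤ n + 1 → ∀ v : Site (n + 1),
      Function.Injective (fun p : W => place (n + 1) v p) :=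
    fun n hn v => place_injective hn W a b hW v
  have hinjF : ∀ n : ℕ, r ≤ n + 1 → ∀ v : Site (n + 1),
      Function.Injective (fun p : F => place (n + 1) v p) :=
    fun n hn v => place_injective hn F a b (fun p hp => hW p (hFW hp)) v
  have hinjR : ∀ n : ℕ, r ≤ n + 1 → ∀ v : Site (n + 1),
      Function.Injective (fun p : R => place (n + 1) v p) :=
    fun n hn v => place_injective hn R a b (fun p hp => hW p (hRW hp)) v
  -- the common gap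
  obtain ⟨Δm, hΔm⟩ : ∃ Δm, Δm = min Δ Δ' := ⟨_, rfl⟩
  have hΔm0 : 0 < Δm := by rw [hΔm]; exact lt_min hΔ hΔ'
  -- the constant
  obtain ⟨M, hM⟩ : ∃ M : ℝ, M = (4 * (locBd k * locBd h * locBd k)) *
    (F.card * R.card * (R.card * R.card + R.card * F.card)) := ⟨_, rfl⟩
  have hM0 : 0 ≤ M := by
    rw [hM]
    have := locBd_nonneg k
    have := locBd_nonneg h
    positivity
  obtain ⟨C, hC⟩ : ∃ C : ℝ, C = M / Δm ^ 2 := ⟨_, rfl⟩
  have hC0 : 0 ≤ C := by rw [hC]; positivity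
  refine ⟨C, hC0, ?_⟩
  filter_upwards [hψ, hst, eventually_ge_atTop r] with n h1 h2 h4 t ht φ h3
  -- notation
  obtain ⟨H, hH⟩ : ∃ H, H = hamiltonian (n + 1) F h := ⟨_, rfl⟩
  obtain ⟨K, hK⟩ : ∃ K, K = hamiltonian (n + 1) R k := ⟨_, rfl⟩
  have hHh : H.IsHermitian := by rw [hH]; exact hamiltonian_isHermitian hh
  have hKh : K.IsHermitian := by rw [hK]; exact hamiltonian_isHermitian hk
  obtain ⟨V, hV⟩ : ∃ V : ℝ, V = M * ((n + 1 : ℕ) : ℝ) ^ 2 / (2 * Δm) := ⟨_, rfl⟩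
  have hV0 : 0 ≤ V := by rw [hV]; positivity
  -- variance bound
  have hvar : ∀ (s E : ℝ) (χ : (Site (n + 1) → Fin d) → ℂ), GS (H + (s : ℂ) • K) Δm E χ →
      sqn (K.mulVec χ - ((ex K χ : ℝ) : ℂ) • χ) ≤ V := by
    intro s E χ hgs
    have hHs : (H + (s : ℂ) • K).IsHermitian := by
      rw [hH, hK]; exact isHermitian_total hh hk s
    have e1 := variance_le hHs hKh hgs
    have e2 : (H + (s : ℂ) • K) * K - K * (H + (s : ℂ) • K) = H * K - K * H := by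
      rw [add_mul, mul_add, smul_mul_assoc, mul_smul_comm]
      abel
    rw [e2, hH, hK] at e1
    have e3 := dcomm_le F R h k (hinjF n (by omega)) (hinjR n (by omega)) χ
    rw [hgs.1, mul_one, ← hM] at e3
    rw [← hH, ← hK] at e1 e3
    rw [hV, le_div_iff₀ (by positivity)]
    nlinarith
  -- bound on K
  obtain ⟨B, hB⟩ : ∃ B : ℝ, B = ((n + 1 : ℕ) : ℝ) ^ 2 * locBd k := ⟨_, rfl⟩
  have hB0 : 0 ≤ B := by rw [hB]; exact mul_nonneg (by positivity) (locBd_nonneg k)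
  have hKB : ∀ χ, |ex K χ| ≤ B * sqn χ := by
    intro χ
    rw [hK]
    unfold hamiltonian
    rw [ex_sum]
    refine (Finset.abs_sum_le_sum_abs _ _).trans ?_
    have e1 : ∀ v : Site (n + 1), |ex (localTerm (n + 1) R k v) χ| ≤ locBd k * sqn χ := by
      intro v
      rw [localTerm_eq_opAt]
      exact (bd_opAt (hinjR n (by omega) v) k).abs_ex_le χ
    refine (Finset.sum_le_sum (fun v _ => e1 v)).trans ?_
    rw [Finset.sum_const, Finset.card_univ, Fintype.card_prod, ZMod.card, nsmul_eq_mul, hB]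
    push_cast
    apply le_of_eq
    ring
  -- ground states on the segment
  have hseg : ∀ s ∈ Set.Icc (0 : ℝ) t, ∃ E χ, GS (H + (s : ℂ) • K) Δm E χ ∧
      sqn (K.mulVec χ - ((ex K χ : ℝ) : ℂ) • χ) ≤ V := by
    intro s hs
    obtain ⟨φs, hφs⟩ := h2 s ⟨hs.1, hs.2.trans ht.2⟩
    obtain ⟨E, c, _, hgs⟩ := gs_of_gapped (isHermitian_total hh hk s) hΔ' hφs
    rw [← hH, ← hK] at hgs
    have hgs' := hgs.mono (Δ' := Δm) (by rw [hΔm]; exact min_le_right _ _)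
    exact ⟨E, _, hgs', hvar s E _ hgs'⟩
  -- at zero
  have h1' : IsGappedGround (hamiltonian (n + 1) F h + ((0 : ℝ) : ℂ) • hamiltonian (n + 1) R k) Δ
      (ψ n) := by simpa using h1
  obtain ⟨E₀, c₀, hc₀, hgs₀⟩ := gs_of_gapped (isHermitian_total hh hk 0) hΔ h1'
  have hE₀ := energy_eq hFW hRW (hinj n (by omega)) 0 hΔ h1' hc₀ hgs₀
  rw [← hH, ← hK] at hgs₀
  have hgs₀' := hgs₀.mono (Δ' := Δm) (by rw [hΔm]; exact min_le_left _ _)
  have hgs₀'' : GS H Δm E₀ (c₀ • ψ n) := by simpa using hgs₀'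
  -- at t
  obtain ⟨E₁, c₁, hc₁, hgs₁⟩ := gs_of_gapped (isHermitian_total hh hk t) hΔ' h3
  have hE₁ := energy_eq hFW hRW (hinj n (by omega)) t hΔ' h3 hc₁ hgs₁
  rw [← hH, ← hK] at hgs₁
  have hgs₁' := hgs₁.mono (Δ' := Δm) (by rw [hΔm]; exact min_le_right _ _)
  -- expectation of K
  have hne : c₀ • ψ n ≠ 0 := smul_ne_zero hc₀ h1.1
  have hgK : ex K (c₀ • ψ n) = ((n + 1 : ℕ) : ℝ) ^ 2 * enf k (reduced (n + 1) R 0 (ψ n)) := by
    rw [hK]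
    unfold hamiltonian
    rw [ex_sum]
    have e1 : ∀ v : Site (n + 1), ex (localTerm (n + 1) R k v) (c₀ • ψ n) =
        enf k (reduced (n + 1) R 0 (ψ n)) := by
      intro v
      rw [ex_localTerm R k v hne, hgs₀.1, one_mul, reduced_smul R v hc₀,
        reduced_eq_of_gapped F h hΔ h1 R v]
    rw [Finset.sum_congr rfl (fun v _ => e1 v), Finset.sum_const, Finset.card_univ,
      Fintype.card_prod, ZMod.card, nsmul_eq_mul]
    push_cast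
    ring
  have hchain := chain hHh hKh hΔm0 hV0 ht.1 hB0 hKB hseg hgs₀''
    (hvar 0 E₀ _ hgs₀') hgs₁'
  have hHt : (H + (t : ℂ) • K).IsHermitian := by
    rw [hH, hK]; exact isHermitian_total hh hk t
  have hup := hgs₁'.le hHt hΔm0.le (c₀ • ψ n)
  rw [hgs₀.1, mul_one, ex_add, ex_smul, hgs₀''.ex_eq] at hup
  rw [hgK] at hchain hup
  -- divide by the volume
  obtain ⟨q, hq⟩ : ∃ q : ℝ, q = ((n + 1 : ℕ) : ℝ) ^ 2 := ⟨_, rfl⟩
  have hq0 : 0 < q := by rw [hq]; positivity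
  rw [← hq] at hE₀ hE₁ hchain hup hV
  obtain ⟨g, hg⟩ : ∃ g, g = enf k (reduced (n + 1) R 0 (ψ n)) := ⟨_, rfl⟩
  obtain ⟨x0, hx0⟩ : ∃ x0, x0 = ltot hFW hRW h k 0 (reduced (n + 1) W 0 (ψ n)) := ⟨_, rfl⟩
  obtain ⟨x1, hx1⟩ : ∃ x1, x1 = ltot hFW hRW h k t (reduced (n + 1) W 0 φ) := ⟨_, rfl⟩
  rw [← hg] at hchain hup ⊢
  rw [← hx0] at hE₀ ⊢
  rw [← hx1] at hE₁ ⊢
  have ht0 := ht.1
  have hu : x1 ≤ x0 + t * g := by
    have : q * x1 ≤ q * (x0 + t * g) := by rw [← hE₁]; rw [hE₀] at hup; linarith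
    exact le_of_mul_le_mul_left this hq0
  have hl : x0 + t * g - t ^ 2 * C ≤ x1 := by
    have e1 : 2 * t ^ 2 * V / Δm = q * (t ^ 2 * C) := by
      rw [hV, hC]
      field_simp
    rw [e1, hE₀, hE₁] at hchain
    have : q * (x0 + t * g - t ^ 2 * C) ≤ q * x1 := by linarith
    exact le_of_mul_le_mul_left this hq0
  have h7 : |g - (x1 - x0) / t| ≤ C * t := by
    rw [abs_le]
    constructor
    · have : (x1 - x0) / t ≤ g := by
        rw [div_le_iff₀ ht0]; linarith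
      have h8 : 0 ≤ C * t := by positivity
      linarith
    · have : g - C * t ≤ (x1 - x0) / t := by
        rw [le_div_iff₀ ht0]
        nlinarith
      linarith
  exact h7

/-- the energy densities on two tori differ by at most `C / (n + 1)` -/
theorem energy_rate {d : ℕ} {F R W : Finset (ℤ × ℤ)} (hFW : F ⊆ W) (hRW : R ⊆ W)
    {r : ℕ} (hr : 1 ≤ r) (a b : ℤ)
    (hW : ∀ p ∈ W, a ≤ p.1 ∧ p.1 < a + r ∧ b ≤ p.2 ∧ p.2 < b + r)
    {h : Matrix (F → Fin d) (F → Fin d) ℂ} {k : Matrix (R → Fin d) (R → Fin d) ℂ}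
    (hh : h.IsHermitian) (hk : k.IsHermitian) :
    ∃ C : ℝ, 0 ≤ C ∧ ∃ m₀ : ℕ, ∀ s ∈ Set.Icc (0 : ℝ) 1, ∀ Δ > 0,
      (∀ᶠ i : ℕ in atTop, ∃ χ : (Site (i + 1) → Fin d) → ℂ,
        IsGappedGround (hamiltonian (i + 1) F h + (s : ℂ) • hamiltonian (i + 1) R k) Δ χ) →
      ∀ n j : ℕ, m₀ ≤ n → n ≤ j → ∀ (φ : (Site (n + 1) → Fin d) → ℂ)
        (ψ : (Site (j + 1) → Fin d) → ℂ),
        IsGappedGround (hamiltonian (n + 1) F h + (s : ℂ) • hamiltonian (n + 1) R k) Δ φ →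
        IsGappedGround (hamiltonian (j + 1) F h + (s : ℂ) • hamiltonian (j + 1) R k) Δ ψ →
        |ltot hFW hRW h k s (reduced (n + 1) W 0 φ) - ltot hFW hRW h k s (reduced (j + 1) W 0 ψ)| ≤
          C / ((n : ℝ) + 1) := by
  obtain ⟨C₁, hC₁, h1⟩ := energy_box hFW hRW hr a b hW hh hk
  obtain ⟨C₂, hC₂, m₀, h2⟩ := energy_core hFW hRW hr a b hW hh hk
  refine ⟨C₁ + C₂, by positivity, max m₀ r, fun s hs Δ hΔ hev n j hn hnj φ ψ hφ hψ => ?_⟩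
  have hn1 : m₀ ≤ n := (le_max_left _ _).trans hn
  have hn2 : r ≤ n := (le_max_right _ _).trans hn
  have hn0 : (0 : ℝ) < (n : ℝ) + 1 := by positivity
  have hnj' : ((n : ℝ) + 1) ≤ (j : ℝ) + 1 := by
    have : (n : ℝ) ≤ j := by exact_mod_cast hnj
    linarith
  obtain ⟨i, ⟨χ, hχ⟩, hi1, hi2, hi3⟩ := (hev.and ((eventually_ge_atTop j).and
    ((eventually_ge_atTop ((2 * (n + 1) + 2) ^ 2)).and
      (eventually_ge_atTop ((2 * (n + 1) + 3) * W.card))))).exists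
  have e1 := h1 s hs (n + 1) (j + 1) (by omega) (by omega) Δ Δ hΔ hΔ φ ψ hφ hψ
  have e2 := h1 s hs (j + 1) (i + 1) (by omega) (by omega) Δ Δ hΔ hΔ ψ χ hψ hχ
  have e3 := h2 s hs (n + 1) (i + 1) (by omega) (by omega) (by omega) Δ Δ hΔ hΔ φ χ hφ hχ
  push_cast at e1 e2 e3
  have e4 : C₁ / ((j : ℝ) + 1) ≤ C₁ / ((n : ℝ) + 1) :=
    div_le_div_of_nonneg_left hC₁ hn0 hnj'
  have e5 : 0 ≤ C₂ / ((n : ℝ) + 1) := by positivity
  have e6 : (C₁ + C₂) / ((n : ℝ) + 1) = C₁ / ((n : ℝ) + 1) + C₂ / ((n : ℝ) + 1) := add_div _ _ _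
  rw [e6, abs_le]
  constructor <;> linarith

/-- rate for one observable -/
theorem enf_rate {d : ℕ} {F R : Finset (ℤ × ℤ)}
    {h : Matrix (F → Fin d) (F → Fin d) ℂ} {k : Matrix (R → Fin d) (R → Fin d) ℂ}
    (hh : h.IsHermitian) (hk : k.IsHermitian) {Δ : ℝ} (hΔ : 0 < Δ)
    (ψ : ∀ n : ℕ, (Site (n + 1) → Fin d) → ℂ)
    (hψ : ∀ᶠ n in atTop, IsGappedGround (hamiltonian (n + 1) F h) Δ (ψ n))
    {η Δ' : ℝ} (hη : 0 < η) (hΔ' : 0 < Δ')
    (hst : ∀ᶠ n in atTop, ∀ s ∈ Set.Icc (0 : ℝ) η, ∃ φ : (Site (n + 1) → Fin d) → ℂ,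
      IsGappedGround (hamiltonian (n + 1) F h + (s : ℂ) • hamiltonian (n + 1) R k) Δ' φ) :
    ∃ C : ℝ, 0 ≤ C ∧ ∀ᶠ n : ℕ in atTop, ∀ j ≥ n,
      |enf k (reduced (n + 1) R 0 (ψ n)) - enf k (reduced (j + 1) R 0 (ψ j))| ≤
        C / Real.sqrt ((n : ℝ) + 1) := by
  classical
  obtain ⟨W, hWd⟩ : ∃ W, W = F ∪ R := ⟨_, rfl⟩
  have hFW : F ⊆ W := by rw [hWd]; exact Finset.subset_union_left
  have hRW : R ⊆ W := by rw [hWd]; exact Finset.subset_union_right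
  obtain ⟨r, a, b, hr, hW⟩ := exists_box W
  obtain ⟨C₁, hC₁, h1⟩ := tangent_bound hFW hRW a b hW hh hk hΔ ψ hψ hΔ' hst
  obtain ⟨C₂, hC₂, m₀, h2⟩ := energy_rate hFW hRW hr a b hW hh hk
  refine ⟨2 * C₁ + 2 * C₂, by positivity, ?_⟩
  have hsq : Tendsto (fun n : ℕ => 1 / Real.sqrt ((n : ℝ) + 1)) atTop (𝓝 0) := by
    have e1 : Tendsto (fun n : ℕ => Real.sqrt ((n : ℝ) + 1)) atTop atTop := by
      apply Real.tendsto_sqrt_atTop.comp
      exact tendsto_atTop_add_const_right _ _ tendsto_natCast_atTop_atTop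
    have e2 := e1.inv_tendsto_atTop
    refine e2.congr (fun n => ?_)
    simp [one_div]
  have hev0 : ∀ᶠ i : ℕ in atTop, ∃ χ : (Site (i + 1) → Fin d) → ℂ,
        IsGappedGround (hamiltonian (i + 1) F h + ((0 : ℝ) : ℂ) • hamiltonian (i + 1) R k) Δ χ := by
    filter_upwards [hψ] with i hi
    exact ⟨ψ i, by simpa using hi⟩
  have hall : ∀ᶠ n : ℕ in atTop, ∀ j ≥ n, (∀ t ∈ Set.Ioc (0 : ℝ) η,
      ∀ φ : (Site (j + 1) → Fin d) → ℂ,
      IsGappedGround (hamiltonian (j + 1) F h + (t : ℂ) • hamiltonian (j + 1) R k) Δ' φ →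
      |enf k (reduced (j + 1) R 0 (ψ j)) - (ltot hFW hRW h k t (reduced (j + 1) W 0 φ) -
        ltot hFW hRW h k 0 (reduced (j + 1) W 0 (ψ j))) / t| ≤ C₁ * t) ∧
      IsGappedGround (hamiltonian (j + 1) F h) Δ (ψ j) ∧
      (∀ s ∈ Set.Icc (0 : ℝ) η, ∃ φ : (Site (j + 1) → Fin d) → ℂ,
      IsGappedGround (hamiltonian (j + 1) F h + (s : ℂ) • hamiltonian (j + 1) R k) Δ' φ) := by
    obtain ⟨N, hN⟩ := eventually_atTop.1 (h1.and (hψ.and hst))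
    filter_upwards [eventually_ge_atTop N] with n hn j hj
    exact hN j (hn.trans hj)
  filter_upwards [hall, eventually_ge_atTop m₀, hsq.eventually_lt_const (lt_min hη one_pos)]
    with n hn1 hn2 hn3 j hj
  obtain ⟨t, ht⟩ : ∃ t, t = 1 / Real.sqrt ((n : ℝ) + 1) := ⟨_, rfl⟩
  have hn0 : (0 : ℝ) < (n : ℝ) + 1 := by positivity
  have hs0 : 0 < Real.sqrt ((n : ℝ) + 1) := Real.sqrt_pos.2 hn0
  have ht0 : 0 < t := by rw [ht]; positivity
  rw [← ht] at hn3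
  have htη : t ≤ η := hn3.le.trans (min_le_left _ _)
  have ht1 : t ≤ 1 := hn3.le.trans (min_le_right _ _)
  obtain ⟨a1, a2, a3⟩ := hn1 n le_rfl
  obtain ⟨b1, b2, b3⟩ := hn1 j hj
  obtain ⟨φ, hφ⟩ := a3 t ⟨ht0.le, htη⟩
  obtain ⟨χ, hχ⟩ := b3 t ⟨ht0.le, htη⟩
  have hevt : ∀ᶠ i : ℕ in atTop, ∃ χ : (Site (i + 1) → Fin d) → ℂ,
        IsGappedGround (hamiltonian (i + 1) F h + (t : ℂ) • hamiltonian (i + 1) R k) Δ' χ := by
    filter_upwards [hst] with i hi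
    exact hi t ⟨ht0.le, htη⟩
  have c1 := a1 t ⟨ht0, htη⟩ φ hφ
  have c2 := b1 t ⟨ht0, htη⟩ χ hχ
  have c3 := h2 t ⟨ht0.le, ht1⟩ Δ' hΔ' hevt n j hn2 hj φ χ hφ hχ
  have c4 := h2 0 ⟨le_rfl, zero_le_one⟩ Δ hΔ hev0 n j hn2 hj (ψ n) (ψ j)
    (by simpa using a2) (by simpa using b2)
  obtain ⟨x, hx⟩ : ∃ x, x = ltot hFW hRW h k t (reduced (n + 1) W 0 φ) := ⟨_, rfl⟩
  obtain ⟨x', hx'⟩ : ∃ x, x = ltot hFW hRW h k t (reduced (j + 1) W 0 χ) := ⟨_, rfl⟩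
  obtain ⟨y, hy⟩ : ∃ x, x = ltot hFW hRW h k 0 (reduced (n + 1) W 0 (ψ n)) := ⟨_, rfl⟩
  obtain ⟨y', hy'⟩ : ∃ x, x = ltot hFW hRW h k 0 (reduced (j + 1) W 0 (ψ j)) := ⟨_, rfl⟩
  obtain ⟨g, hg⟩ : ∃ x, x = enf k (reduced (n + 1) R 0 (ψ n)) := ⟨_, rfl⟩
  obtain ⟨g', hg'⟩ : ∃ x, x = enf k (reduced (j + 1) R 0 (ψ j)) := ⟨_, rfl⟩
  rw [← hx, ← hx'] at c3
  rw [← hy, ← hy'] at c4
  rw [← hx, ← hy, ← hg] at c1
  rw [← hx', ← hy', ← hg'] at c2
  rw [← hg, ← hg']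
  have d1 : |(x - y) / t - (x' - y') / t| ≤ 2 * C₂ / ((n : ℝ) + 1) / t := by
    rw [← sub_div, abs_div, abs_of_pos ht0]
    apply div_le_div_of_nonneg_right _ ht0.le
    have : x - y - (x' - y') = (x - x') - (y - y') := by ring
    rw [this]
    refine (abs_sub _ _).trans ?_
    have e : 2 * C₂ / ((n : ℝ) + 1) = C₂ / ((n : ℝ) + 1) + C₂ / ((n : ℝ) + 1) := by ring
    rw [e]
    exact add_le_add c3 c4
  have d2 : 2 * C₂ / ((n : ℝ) + 1) / t = 2 * C₂ / Real.sqrt ((n : ℝ) + 1) := by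
    rw [ht]
    have hss : Real.sqrt ((n : ℝ) + 1) * Real.sqrt ((n : ℝ) + 1) = (n : ℝ) + 1 :=
      Real.mul_self_sqrt hn0.le
    rw [div_div, div_eq_div_iff (by positivity) (by positivity)]
    nth_rewrite 2 [← hss]
    field_simp
  have d3 : C₁ * t = C₁ / Real.sqrt ((n : ℝ) + 1) := by rw [ht]; ring
  have d4 : (2 * C₁ + 2 * C₂) / Real.sqrt ((n : ℝ) + 1) =
      C₁ / Real.sqrt ((n : ℝ) + 1) + C₁ / Real.sqrt ((n : ℝ) + 1) +
        2 * C₂ / Real.sqrt ((n : ℝ) + 1) := by ring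
  rw [d4]
  rw [d2] at d1
  rw [d3] at c1 c2
  rw [abs_le] at c1 c2 d1 ⊢
  constructor <;> linarith [c1.1, c1.2, c2.1, c2.2, d1.1, d1.2]

/-- rate for the marginals in trace norm: all Hermitian `k` from a finite basis -/
theorem marg_rate {d : ℕ} {F R : Finset (ℤ × ℤ)} {h : Matrix (F → Fin d) (F → Fin d) ℂ}
    (hh : h.IsHermitian) {Δ : ℝ} (hΔ : 0 < Δ) (ψ : ∀ n : ℕ, (Site (n + 1) → Fin d) → ℂ)
    (hψ : ∀ᶠ n in atTop, IsGappedGround (hamiltonian (n + 1) F h) Δ (ψ n))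
    (hst : ∀ k : Matrix (R → Fin d) (R → Fin d) ℂ, k.IsHermitian → ∃ η > 0, ∃ Δ' > 0,
      ∀ᶠ n in atTop, ∀ s ∈ Set.Icc (0 : ℝ) η, ∃ φ : (Site (n + 1) → Fin d) → ℂ,
        IsGappedGround (hamiltonian (n + 1) F h + (s : ℂ) • hamiltonian (n + 1) R k) Δ' φ) :
    ∃ C : ℝ, 0 ≤ C ∧ ∀ᶠ n : ℕ in atTop, ∀ j ≥ n,
      traceNorm (reduced (j + 1) R 0 (ψ j) - reduced (n + 1) R 0 (ψ n)) ≤
        C / Real.sqrt ((n : ℝ) + 1) := by
  classical
  obtain ⟨r, a, b, hr, hR⟩ := exists_box R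
  have key : ∀ k : Matrix (R → Fin d) (R → Fin d) ℂ, k.IsHermitian →
      ∃ C : ℝ, 0 ≤ C ∧ ∀ᶠ n : ℕ in atTop, ∀ j ≥ n,
      |enf k (reduced (n + 1) R 0 (ψ n)) - enf k (reduced (j + 1) R 0 (ψ j))| ≤
        C / Real.sqrt ((n : ℝ) + 1) := by
    intro k hk
    obtain ⟨η, hη, Δ', hΔ', hst'⟩ := hst k hk
    exact enf_rate hh hk hΔ ψ hψ hη hΔ' hst'
  choose Ca ha0 ha using fun (p : (R → Fin d) × (R → Fin d)) =>
    key _ (isHermitian_single_add p.1 p.2)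
  choose Cb hb0 hb using fun (p : (R → Fin d) × (R → Fin d)) =>
    key _ (isHermitian_single_sub p.1 p.2)
  have ha' := eventually_all.2 ha
  have hb' := eventually_all.2 hb
  refine ⟨∑ i, ∑ j, (Ca (i, j) + Cb (i, j)), Finset.sum_nonneg (fun i _ => Finset.sum_nonneg
    (fun j _ => add_nonneg (ha0 _) (hb0 _))), ?_⟩
  obtain ⟨N, hN⟩ := eventually_atTop.1 hψ
  filter_upwards [ha', hb', eventually_ge_atTop N, eventually_ge_atTop r] with n h1 h2 h3 h4 j hj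
  have hs0 : 0 < Real.sqrt ((n : ℝ) + 1) := Real.sqrt_pos.2 (by positivity)
  have hX : (reduced (n + 1) R 0 (ψ n)).IsHermitian :=
    (posSemidef_reduced (by omega : r ≤ n + 1) R a b hR 0 (hN n h3).1).1.isHermitian
  have hX' : (reduced (j + 1) R 0 (ψ j)).IsHermitian :=
    (posSemidef_reduced (by omega : r ≤ j + 1) R a b hR 0 (hN j (h3.trans hj)).1).1.isHermitian
  refine (traceNorm_le_sum _).trans ?_
  rw [Finset.sum_div]
  refine Finset.sum_le_sum (fun p _ => ?_)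
  rw [Finset.sum_div]
  refine Finset.sum_le_sum (fun q _ => ?_)
  have e1 := h1 (p, q) j hj
  have e2 := h2 (p, q) j hj
  simp only at e1 e2
  rw [enf_single_add hX, enf_single_add hX'] at e1
  rw [enf_single_sub hX, enf_single_sub hX'] at e2
  rw [Matrix.sub_apply, add_div]
  refine (Complex.norm_le_abs_re_add_abs_im _).trans ?_
  rw [Complex.sub_re, Complex.sub_im]
  have f1 : |(reduced (j + 1) R 0 (ψ j) p q).re - (reduced (n + 1) R 0 (ψ n) p q).re| ≤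
      Ca (p, q) / Real.sqrt ((n : ℝ) + 1) := by
    rw [abs_le] at e1 ⊢
    have := abs_nonneg ((reduced (j + 1) R 0 (ψ j) p q).re - (reduced (n + 1) R 0 (ψ n) p q).re)
    have h0 : 0 ≤ Ca (p, q) / Real.sqrt ((n : ℝ) + 1) := div_nonneg (ha0 _) hs0.le
    constructor <;> linarith [e1.1, e1.2]
  have f2 : |(reduced (j + 1) R 0 (ψ j) p q).im - (reduced (n + 1) R 0 (ψ n) p q).im| ≤
      Cb (p, q) / Real.sqrt ((n : ℝ) + 1) := by
    rw [abs_le] at e2 ⊢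
    have h0 : 0 ≤ Cb (p, q) / Real.sqrt ((n : ℝ) + 1) := div_nonneg (hb0 _) hs0.le
    constructor <;> linarith [e2.1, e2.2]
  exact add_le_add f1 f2

end Pool.Agent.Hhelper96.PEPS
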