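import Pool.Agent.WP.Ground
import Pool.Agent.WP.Global
import Pool.Agent.WP.NormToMarg
import Pool.Agent.WP.Rate
import Pool.Agent.Hhelper96.PEPS.GlobalToLocal

/-!
Weak perturbations of classical Hamiltonians: global PEPS of bond dimension `L ^ δ` and local
translation invariant PEPS of polynomial bond dimension.
-/

set_option autoImplicit false

open scoped BigOperators Topology
open Filter
open Pool.Agent.Hhelper96.PEPS

namespace Pool.Agent.WP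

theorem supp_card_eq {S : Type} [Fintype S] [DecidableEq S] {d : ℕ} [NeZero d] (x : S → Fin d) :
    (supp x).card = (Finset.univ.filter (fun u => x u ≠ 0)).card := rfl

/-- statement at one exponent -/
theorem main_one (d : ℕ) [NeZero d] (F : Finset (ℤ × ℤ)) (h0 : (F → Fin d) → ℝ)
    (hP : ∀ᶠ n : ℕ in atTop, ∀ x : Site (n + 1) → Fin d,
      ((n + 1 : ℕ) : ℝ) ^ 2 * h0 0 + (Finset.univ.filter (fun u => x u ≠ 0)).card ≤
        ∑ v : Site (n + 1), h0 (fun p => x (place (n + 1) v p)))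
    (δ : ℝ) (hδ : 0 < δ) :
    ∃ lam > 0, ∀ h : Matrix (F → Fin d) (F → Fin d) ℂ, h.IsHermitian →
      (∀ a b, ‖h a b - Matrix.diagonal (fun x => (h0 x : ℂ)) a b‖ ≤ lam) →
      ∃ ψ : ∀ n : ℕ, (Site (n + 1) → Fin d) → ℂ,
        (∀ᶠ n in atTop, IsGappedGround (hamiltonian (n + 1) F h) (1 / 2) (ψ n)) ∧
        (∀ᶠ n in atTop, ∃ D : ℕ, (D : ℝ) ≤ ((n + 1 : ℕ) : ℝ) ^ δ ∧
          ∃ B : Site (n + 1) → Fin d → Fin D → Fin D → Fin D → Fin D → ℂ,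
            ∑ s, ‖sitePepsVec (n + 1) B s - ψ n s‖ ^ 2 ≤
              (((n + 1 : ℕ) : ℝ) ^ (-(1 / δ))) ^ 2 * ∑ s, ‖ψ n s‖ ^ 2) ∧
        ∀ (R : Finset (ℤ × ℤ)) (k : Matrix (R → Fin d) (R → Fin d) ℂ), k.IsHermitian →
          ∃ η > 0, ∃ Δ' > 0, ∀ᶠ n in atTop, ∀ s ∈ Set.Icc (0 : ℝ) η,
            ∃ φ : (Site (n + 1) → Fin d) → ℂ,
              IsGappedGround (hamiltonian (n + 1) F h + (s : ℂ) • hamiltonian (n + 1) R k) Δ' φ := by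
  obtain ⟨c', hc', hscale⟩ := exists_scale d δ hδ
  obtain ⟨lam, hlam, hground⟩ := exists_ground d F h0 (c' + 5) 1 (by linarith) one_pos
  refine ⟨lam, hlam, fun h hh hhl => ?_⟩
  obtain ⟨η₀, hη₀, hg₀⟩ := hground ∅ 0 Matrix.isHermitian_zero
  have key : ∀ n : ℕ, ∃ ψ : (Site (n + 1) → Fin d) → ℂ, (∀ x : Site (n + 1) → Fin d,
      ((n + 1 : ℕ) : ℝ) ^ 2 * h0 0 + (Finset.univ.filter (fun u => x u ≠ 0)).card ≤
        ∑ v : Site (n + 1), h0 (fun p => x (place (n + 1) v p))) →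
      IsGappedGround (hamiltonian (n + 1) F h) (1 / 2) ψ ∧
      ∃ T : (Site (n + 1) → Fin d) → ℂ, (∀ u x, T (tr u x) = T x) ∧
        NT (tadj (n + 1)) (c' + 5) T ≤ 1 ∧ ψ = fun x => (EP X0 T : Alg (Site (n + 1)) d) x := by
    intro n
    by_cases hx : (∀ x : Site (n + 1) → Fin d,
      ((n + 1 : ℕ) : ℝ) ^ 2 * h0 0 + (Finset.univ.filter (fun u => x u ≠ 0)).card ≤
        ∑ v : Site (n + 1), h0 (fun p => x (place (n + 1) v p)))
    · obtain ⟨T, hT1, hT2, hT3⟩ := hg₀ (n + 1) h 0 hh hhl (by simpa using hη₀.le) hx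
      refine ⟨fun x => (EP X0 T : Alg (Site (n + 1)) d) x, fun _ => ⟨?_, T, hT1, hT2, rfl⟩⟩
      simpa using hT3
    · exact ⟨0, fun hx' => absurd hx' hx⟩
  choose ψ hψ using key
  refine ⟨ψ, ?_, ?_, ?_⟩
  · filter_upwards [hP] with n hn
    exact (hψ n hn).1
  · filter_upwards [hP, hscale] with n hn hs
    obtain ⟨_, T, hT1, hT2, hT3⟩ := hψ n hn
    obtain ⟨K, D, h1, h2, h3, h4⟩ := hs
    obtain ⟨B, hB⟩ := exists_approx (n + 1) d T hT1 (c' + 5) c' hc' le_rfl hT2 K D h3 h1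
    refine ⟨D, h2, B, ?_⟩
    rw [hT3]
    refine hB.trans ?_
    apply mul_le_mul_of_nonneg_right _ (Finset.sum_nonneg (fun s _ => by positivity))
    exact pow_le_pow_left₀ (by positivity) h4 2
  · intro R k hk
    obtain ⟨η, hη, hg⟩ := hground R k hk
    refine ⟨η, hη, 1 / 2, by norm_num, ?_⟩
    filter_upwards [hP] with n hn s hs
    obtain ⟨T, -, -, hT3⟩ := hg (n + 1) h s hh hhl (by rw [abs_of_nonneg hs.1]; exact hs.2) hn
    exact ⟨_, hT3⟩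

/-- choice of the scale `n` for a given accuracy -/
theorem choose_scale (δ' Ce : ℝ) (hδ' : 0 < δ') (n₀ : ℕ) :
    ∃ C : ℝ, ∀ ε : ℝ, 0 < ε → ε ≤ 1 → ∃ n : ℕ, n₀ ≤ n ∧ Ce / Real.sqrt ((n : ℝ) + 1) ≤ ε ∧
      32 * ((n : ℝ) + 1) ^ (2 + 6 * δ') ≤ C * ε ^ (-(4 + 12 * δ')) := by
  refine ⟨32 * ((n₀ : ℝ) + Ce ^ 2 + 2) ^ (2 + 6 * δ'), fun ε hε hε1 => ?_⟩
  obtain ⟨M, hM⟩ : ∃ M : ℝ, M = (n₀ : ℝ) + Ce ^ 2 + 2 := ⟨_, rfl⟩
  have hM0 : 0 < M := by rw [hM]; positivity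
  refine ⟨max n₀ ⌈(Ce / ε) ^ 2⌉₊, le_max_left _ _, ?_, ?_⟩
  · obtain ⟨n, hn⟩ : ∃ n, n = max n₀ ⌈(Ce / ε) ^ 2⌉₊ := ⟨_, rfl⟩
    rw [← hn]
    have h1 : (Ce / ε) ^ 2 ≤ (n : ℝ) + 1 := by
      have h2 : (⌈(Ce / ε) ^ 2⌉₊ : ℝ) ≤ n := by
        rw [hn]; exact_mod_cast le_max_right _ _
      have h3 := Nat.le_ceil ((Ce / ε) ^ 2)
      linarith
    have h4 : Ce / ε ≤ Real.sqrt ((n : ℝ) + 1) := Real.le_sqrt_of_sq_le h1
    have h5 : 0 < Real.sqrt ((n : ℝ) + 1) := Real.sqrt_pos.2 (by positivity)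
    rw [div_le_iff₀ h5]
    rw [div_le_iff₀ hε] at h4
    linarith
  · have h1 : ((max n₀ ⌈(Ce / ε) ^ 2⌉₊ : ℕ) : ℝ) + 1 ≤ M * ε ^ (-(2 : ℝ)) := by
      have e1 : ε ^ (-(2 : ℝ)) = 1 / ε ^ 2 := by
        rw [Real.rpow_neg hε.le, one_div]
        norm_num
      have e2 : 1 ≤ 1 / ε ^ 2 := by
        rw [le_div_iff₀ (by positivity)]
        nlinarith
      have e3 : (⌈(Ce / ε) ^ 2⌉₊ : ℝ) ≤ Ce ^ 2 * (1 / ε ^ 2) + 1 := by
        have := (Nat.ceil_lt_add_one (by positivity : 0 ≤ (Ce / ε) ^ 2)).le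
        rw [div_pow] at this ⊢
        linarith [this, (by ring : Ce ^ 2 * (1 / ε ^ 2) = Ce ^ 2 / ε ^ 2)]
      have e4 : ((max n₀ ⌈(Ce / ε) ^ 2⌉₊ : ℕ) : ℝ) ≤ n₀ + ⌈(Ce / ε) ^ 2⌉₊ := by
        exact_mod_cast max_le (Nat.le_add_right _ _) (Nat.le_add_left _ _)
      rw [e1, hM]
      have e5 : (n₀ : ℝ) ≤ n₀ * (1 / ε ^ 2) := le_mul_of_one_le_right (Nat.cast_nonneg _) e2
      nlinarith
    have h2 : (((max n₀ ⌈(Ce / ε) ^ 2⌉₊ : ℕ) : ℝ) + 1) ^ (2 + 6 * δ') ≤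
        (M * ε ^ (-(2 : ℝ))) ^ (2 + 6 * δ') :=
      Real.rpow_le_rpow (by positivity) h1 (by positivity)
    rw [Real.mul_rpow hM0.le (by positivity), ← Real.rpow_mul hε.le] at h2
    have h3 : -(2 : ℝ) * (2 + 6 * δ') = -(4 + 12 * δ') := by ring
    rw [h3] at h2
    rw [← hM]
    nlinarith

theorem main (d : ℕ) [NeZero d] (F : Finset (ℤ × ℤ)) (h0 : (F → Fin d) → ℝ)
    (hP : ∀ᶠ n : ℕ in atTop, ∀ x : Site (n + 1) → Fin d,
      ((n + 1 : ℕ) : ℝ) ^ 2 * h0 0 + (Finset.univ.filter (fun u => x u ≠ 0)).card ≤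
        ∑ v : Site (n + 1), h0 (fun p => x (place (n + 1) v p)))
    (δ : ℝ) (hδ : 0 < δ) :
    ∃ lam > 0, ∀ h : Matrix (F → Fin d) (F → Fin d) ℂ, h.IsHermitian →
      (∀ a b, ‖h a b - Matrix.diagonal (fun x => (h0 x : ℂ)) a b‖ ≤ lam) →
      ∃ ψ : ∀ n : ℕ, (Site (n + 1) → Fin d) → ℂ,
        (∀ᶠ n in atTop, IsGappedGround (hamiltonian (n + 1) F h) (1 / 2) (ψ n)) ∧
        (∀ᶠ n in atTop, ∃ D : ℕ, (D : ℝ) ≤ ((n + 1 : ℕ) : ℝ) ^ δ ∧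
          ∃ B : Site (n + 1) → Fin d → Fin D → Fin D → Fin D → Fin D → ℂ,
            √(∑ s, ‖sitePepsVec (n + 1) B s - ψ n s‖ ^ 2) ≤
              ((n + 1 : ℕ) : ℝ) ^ (-(1 / δ)) * √(∑ s, ‖ψ n s‖ ^ 2)) ∧
        ∀ R : Finset (ℤ × ℤ), ∃ C : ℝ, ∀ ε : ℝ, 0 < ε → ε ≤ 1 →
          ∃ D : ℕ, (D : ℝ) ≤ C * ε ^ (-(4 + δ)) ∧
          ∃ A : Fin d → Fin D → Fin D → Fin D → Fin D → ℂ,
            (∀ᶠ n in atTop, pepsVec (n + 1) A ≠ 0) ∧
            ∀ᶠ n in atTop, ∀ v : Site (n + 1),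
              traceNorm (reduced (n + 1) R v (ψ n) - reduced (n + 1) R v (pepsVec (n + 1) A)) ≤
                ε := by
  obtain ⟨δ', hδ'⟩ : ∃ δ', δ' = min (δ / 12) 1 := ⟨_, rfl⟩
  have hδ0 : 0 < δ' := by rw [hδ']; exact lt_min (by linarith) one_pos
  have hδ1 : δ' ≤ δ := by rw [hδ']; exact (min_le_left _ _).trans (by linarith)
  have hδ2 : 12 * δ' ≤ δ := by
    have : δ' ≤ δ / 12 := by rw [hδ']; exact min_le_left _ _
    linarith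
  have hδ3 : δ' ≤ 1 := by rw [hδ']; exact min_le_right _ _
  obtain ⟨lam, hlam, hmain⟩ := main_one d F h0 hP δ' hδ0
  refine ⟨lam, hlam, fun h hh hhl => ?_⟩
  obtain ⟨ψ, h1, h2, h3⟩ := hmain h hh hhl
  refine ⟨ψ, h1, ?_, ?_⟩
  · filter_upwards [h2] with n hn
    obtain ⟨D, hD, B, hB⟩ := hn
    have hn1 : (1 : ℝ) ≤ ((n + 1 : ℕ) : ℝ) := by
      push_cast
      linarith [(Nat.cast_nonneg n : (0 : ℝ) ≤ n)]
    refine ⟨D, hD.trans (Real.rpow_le_rpow_of_exponent_le hn1 hδ1), B, ?_⟩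
    have e1 : ((n + 1 : ℕ) : ℝ) ^ (-(1 / δ')) ≤ ((n + 1 : ℕ) : ℝ) ^ (-(1 / δ)) := by
      apply Real.rpow_le_rpow_of_exponent_le hn1
      exact neg_le_neg (one_div_le_one_div_of_le hδ0 hδ1)
    have e2 := Real.sqrt_le_sqrt hB
    rw [Real.sqrt_mul (by positivity), Real.sqrt_sq (by positivity)] at e2
    exact e2.trans (mul_le_mul_of_nonneg_right e1 (Real.sqrt_nonneg _))
  · intro R
    obtain ⟨r, a, b, hr, hR⟩ := exists_box R
    obtain ⟨Cm, hCm, hmarg⟩ := marg_close d R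
    obtain ⟨Cr, hCr, hrate⟩ := marg_rate (R := R) hh (by norm_num : (0 : ℝ) < 1 / 2) ψ h1 (h3 R)
    -- the bond dimensions
    have hsmall : ∀ᶠ n : ℕ in atTop, ((n + 1 : ℕ) : ℝ) ^ (-(1 / δ')) ≤ 1 / 2 := by
      have e1 : Tendsto (fun n : ℕ => ((n + 1 : ℕ) : ℝ) ^ (-(1 / δ'))) atTop (𝓝 0) := by
        apply (tendsto_rpow_neg_atTop (by positivity : 0 < 1 / δ')).comp
        exact (tendsto_natCast_atTop_atTop).comp (tendsto_add_atTop_nat 1)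
      exact (e1.eventually_lt_const (by norm_num : (0 : ℝ) < 1 / 2)).mono fun n hn => hn.le
    have hglob : ∀ᶠ n : ℕ in atTop, ∃ D : ℕ, (D : ℝ) ≤ ((n + 1 : ℕ) : ℝ) ^ δ' ∧
        ∃ B : Site (n + 1) → Fin d → Fin D → Fin D → Fin D → Fin D → ℂ,
          sitePepsVec (n + 1) B ≠ 0 ∧ ∀ v : Site (n + 1),
            traceNorm (reduced (n + 1) R v (ψ n) - reduced (n + 1) R v (sitePepsVec (n + 1) B)) ≤
              Cm * ((n + 1 : ℕ) : ℝ) ^ (-(1 / δ')) := by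
      filter_upwards [h1, h2, hsmall] with n e1 e2 e3
      obtain ⟨D, hD, B, hB⟩ := e2
      have e4 := hmarg (n + 1) (sitePepsVec (n + 1) B) (ψ n) _ (by positivity) e3 e1.1 hB
      exact ⟨D, hD, B, e4.1, e4.2⟩
    have hf : ∀ n : ℕ, ∃ D : ℕ, (∃ D : ℕ, (D : ℝ) ≤ ((n + 1 : ℕ) : ℝ) ^ δ' ∧
        ∃ B : Site (n + 1) → Fin d → Fin D → Fin D → Fin D → Fin D → ℂ,
          sitePepsVec (n + 1) B ≠ 0 ∧ ∀ v : Site (n + 1),
            traceNorm (reduced (n + 1) R v (ψ n) - reduced (n + 1) R v (sitePepsVec (n + 1) B)) ≤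
              Cm * ((n + 1 : ℕ) : ℝ) ^ (-(1 / δ'))) → (D : ℝ) ≤ ((n + 1 : ℕ) : ℝ) ^ δ' ∧
        ∃ B : Site (n + 1) → Fin d → Fin D → Fin D → Fin D → Fin D → ℂ,
          sitePepsVec (n + 1) B ≠ 0 ∧ ∀ v : Site (n + 1),
            traceNorm (reduced (n + 1) R v (ψ n) - reduced (n + 1) R v (sitePepsVec (n + 1) B)) ≤
              Cm * ((n + 1 : ℕ) : ℝ) ^ (-(1 / δ')) := by
      intro n
      by_cases hx : (∃ D : ℕ, (D : ℝ) ≤ ((n + 1 : ℕ) : ℝ) ^ δ' ∧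
        ∃ B : Site (n + 1) → Fin d → Fin D → Fin D → Fin D → Fin D → ℂ,
          sitePepsVec (n + 1) B ≠ 0 ∧ ∀ v : Site (n + 1),
            traceNorm (reduced (n + 1) R v (ψ n) - reduced (n + 1) R v (sitePepsVec (n + 1) B)) ≤
              Cm * ((n + 1 : ℕ) : ℝ) ^ (-(1 / δ')))
      · obtain ⟨D, hD⟩ := hx
        exact ⟨D, fun _ => hD⟩
      · exact ⟨0, fun hx' => absurd hx' hx⟩
    choose f hf using hf
    have hg : ∀ᶠ n in atTop, ∃ B : Site (n + 1) → Fin d → Fin (f n) → Fin (f n) → Fin (f n) →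
        Fin (f n) → ℂ, sitePepsVec (n + 1) B ≠ 0 ∧ ∀ v : Site (n + 1),
        traceNorm (reduced (n + 1) R v (ψ n) - reduced (n + 1) R v (sitePepsVec (n + 1) B)) ≤
          Cm * ((n + 1 : ℕ) : ℝ) ^ (-(1 / δ')) := by
      filter_upwards [hglob] with n hn
      exact (hf n hn).2
    have hconv : ∀ᶠ n in atTop, ∀ᶠ k in atTop,
        traceNorm (reduced (k + 1) R 0 (ψ k) - reduced (n + 1) R 0 (ψ n)) ≤
          Cr / Real.sqrt ((n : ℝ) + 1) := by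
      filter_upwards [hrate] with n hn
      filter_upwards [eventually_ge_atTop n] with k hk
      exact hn k hk
    have hall := GlobalToLocal.result d F h hh (1 / 2) (by norm_num) ψ h1 R r hr a b hR f
      (fun n => Cm * ((n + 1 : ℕ) : ℝ) ^ (-(1 / δ'))) (fun n => Cr / Real.sqrt ((n : ℝ) + 1)) hg hconv
    obtain ⟨n₀, hn₀⟩ := eventually_atTop.1 (hall.and hglob)
    obtain ⟨Ce, hCe⟩ : ∃ Ce : ℝ, Ce = 4 * ((r : ℝ) + 2) + Cm + Cr := ⟨_, rfl⟩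
    obtain ⟨C, hC⟩ := choose_scale δ' Ce hδ0 n₀
    have hCnn : 0 ≤ C := by
      obtain ⟨n, -, -, hn⟩ := hC 1 one_pos le_rfl
      rw [Real.one_rpow, mul_one] at hn
      have : 0 ≤ 32 * ((n : ℝ) + 1) ^ (2 + 6 * δ') := by positivity
      linarith
    refine ⟨C, fun ε hε hε1 => ?_⟩
    obtain ⟨n, hn1, hn2, hn3⟩ := hC ε hε hε1
    obtain ⟨⟨D, hD, A, hA1, hA2⟩, hgl⟩ := hn₀ n hn1
    have hn0 : (0 : ℝ) ≤ n := Nat.cast_nonneg n
    have hfn : (f n : ℝ) ≤ ((n + 1 : ℕ) : ℝ) ^ δ' := (hf n hgl).1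
    refine ⟨D, ?_, A, hA1, ?_⟩
    · have e1 : (D : ℝ) ≤ ((n : ℝ) + 4) ^ 2 * ((f n : ℝ) ^ 6 + 1) := by exact_mod_cast hD
      have e2 : (f n : ℝ) ^ 6 ≤ ((n : ℝ) + 1) ^ (6 * δ') := by
        have e3 : (f n : ℝ) ^ 6 ≤ (((n + 1 : ℕ) : ℝ) ^ δ') ^ 6 :=
          pow_le_pow_left₀ (Nat.cast_nonneg _) hfn 6
        refine e3.trans (le_of_eq ?_)
        rw [← Real.rpow_natCast, ← Real.rpow_mul (by positivity)]
        push_cast
        ring_nf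
      have e4 : (1 : ℝ) ≤ ((n : ℝ) + 1) ^ (6 * δ') := Real.one_le_rpow (by linarith) (by positivity)
      have e5 : ((n : ℝ) + 4) ^ 2 ≤ 16 * ((n : ℝ) + 1) ^ 2 := by nlinarith
      have e6 : ((n : ℝ) + 1) ^ (2 + 6 * δ') = ((n : ℝ) + 1) ^ 2 * ((n : ℝ) + 1) ^ (6 * δ') := by
        rw [Real.rpow_add (by positivity)]
        norm_num
      have e7 : (D : ℝ) ≤ 32 * ((n : ℝ) + 1) ^ (2 + 6 * δ') := by
        rw [e6]
        calc (D : ℝ) ≤ ((n : ℝ) + 4) ^ 2 * ((f n : ℝ) ^ 6 + 1) := e1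
          _ ≤ (16 * ((n : ℝ) + 1) ^ 2) * (((n : ℝ) + 1) ^ (6 * δ') + ((n : ℝ) + 1) ^ (6 * δ')) := by
            gcongr
          _ = _ := by ring
      have e8 : ε ^ (-(4 + 12 * δ')) ≤ ε ^ (-(4 + δ)) :=
        Real.rpow_le_rpow_of_exponent_ge hε hε1 (by linarith)
      exact e7.trans (hn3.trans (mul_le_mul_of_nonneg_left e8 hCnn))
    · filter_upwards [hA2] with k hk v
      refine (hk v).trans ?_
      refine le_trans ?_ hn2
      have hs0 : 0 < Real.sqrt ((n : ℝ) + 1) := Real.sqrt_pos.2 (by positivity)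
      have hs1 : Real.sqrt ((n : ℝ) + 1) ≤ (n : ℝ) + 1 := by
        rw [Real.sqrt_le_left (by positivity)]
        nlinarith
      have e1 : 4 * ((r : ℝ) + 2) / ((n : ℝ) + 3) ≤ 4 * ((r : ℝ) + 2) / Real.sqrt ((n : ℝ) + 1) :=
        div_le_div_of_nonneg_left (by positivity) hs0 (by linarith)
      have e2 : ((n + 1 : ℕ) : ℝ) ^ (-(1 / δ')) ≤ 1 / Real.sqrt ((n : ℝ) + 1) := by
        have e3 : ((n + 1 : ℕ) : ℝ) ^ (-(1 / δ')) ≤ ((n + 1 : ℕ) : ℝ) ^ (-(1 : ℝ)) := by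
          apply Real.rpow_le_rpow_of_exponent_le
          · push_cast; linarith
          · exact neg_le_neg ((one_le_div hδ0).2 hδ3)
        refine e3.trans ?_
        rw [Real.rpow_neg_one, ← one_div]
        push_cast
        exact one_div_le_one_div_of_le hs0 hs1
      have e4 : Cm * ((n + 1 : ℕ) : ℝ) ^ (-(1 / δ')) ≤ Cm / Real.sqrt ((n : ℝ) + 1) := by
        have e5 := mul_le_mul_of_nonneg_left e2 hCm
        rw [mul_one_div] at e5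
        exact e5
      rw [hCe, add_div, add_div]
      linarith

end Pool.Agent.WP
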