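import Mathlib

/-!
The commutative algebra of functions on configurations `S → Fin d` with the product
`e x * e y = e (x ∪ y)` if the supports are disjoint and `0` otherwise.
-/

set_option autoImplicit false
set_option linter.unusedSectionVars false

open scoped BigOperators

namespace Pool.Agent.WP

variable {S : Type} [Fintype S] [DecidableEq S] {d : ℕ} [NeZero d]

/-- the support of a configuration -/
def supp (x : S → Fin d) : Finset S := Finset.univ.filter (fun v => x v ≠ 0)

/-- disjoint supports -/
def Disj (x y : S → Fin d) : Prop := ∀ v, x v = 0 ∨ y v = 0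

instance (x y : S → Fin d) : Decidable (Disj x y) := by unfold Disj; infer_instance

/-- superposition of configurations -/
def join (x y : S → Fin d) : S → Fin d := fun v => if x v = 0 then y v else x v

theorem mem_supp {x : S → Fin d} {v : S} : v ∈ supp x ↔ x v ≠ 0 := by simp [supp]

theorem supp_zero : supp (0 : S → Fin d) = ∅ := by ext; simp [supp]

theorem supp_eq_empty {x : S → Fin d} : supp x = ∅ ↔ x = 0 := by
  constructor
  · intro h
    funext v
    by_contra hv
    have : v ∈ supp x := mem_supp.2 hv
    rw [h] at this
    simp at this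
  · rintro rfl; exact supp_zero

theorem supp_join (x y : S → Fin d) : supp (join x y) = supp x ∪ supp y := by
  ext v
  simp only [mem_supp, Finset.mem_union, join]
  split_ifs with h <;> simp [h]

theorem disj_iff {x y : S → Fin d} : Disj x y ↔ Disjoint (supp x) (supp y) := by
  unfold Disj
  rw [Finset.disjoint_left]
  constructor
  · intro h v hx hy
    rcases h v with h1 | h1
    · exact mem_supp.1 hx h1
    · exact mem_supp.1 hy h1
  · intro h v
    by_contra hc
    push Not at hc
    exact h (mem_supp.2 hc.1) (mem_supp.2 hc.2)

theorem Disj.symm {x y : S → Fin d} (h : Disj x y) : Disj y x := fun v => (h v).symm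

theorem disj_comm {x y : S → Fin d} : Disj x y ↔ Disj y x := ⟨Disj.symm, Disj.symm⟩

theorem join_comm {x y : S → Fin d} (h : Disj x y) : join x y = join y x := by
  funext v
  unfold join
  rcases h v with h1 | h1
  · rw [if_pos h1]
    split_ifs with h2
    · rw [h1, h2]
    · rfl
  · rw [if_pos h1]
    split_ifs with h2
    · rw [h1, h2]
    · rfl

theorem join_assoc (x y z : S → Fin d) : join (join x y) z = join x (join y z) := by
  funext v
  unfold join
  by_cases h1 : x v = 0 <;> simp [h1]

theorem disj_zero (x : S → Fin d) : Disj x 0 := fun _ => Or.inr rfl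
theorem zero_disj (x : S → Fin d) : Disj 0 x := fun _ => Or.inl rfl
theorem join_zero (x : S → Fin d) : join x 0 = x := by funext v; simp +contextual [join]
theorem zero_join (x : S → Fin d) : join 0 x = x := by funext v; simp [join]

theorem disj_assoc (x y z : S → Fin d) :
    (Disj x y ∧ Disj (join x y) z) ↔ (Disj y z ∧ Disj x (join y z)) := by
  simp only [disj_iff, supp_join, Finset.disjoint_union_left, Finset.disjoint_union_right]
  tauto

variable (S d) in
/-- functions on configurations, as an algebra -/
def Alg : Type := (S → Fin d) → ℂ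

namespace Alg

instance : AddCommGroup (Alg S d) := inferInstanceAs (AddCommGroup ((S → Fin d) → ℂ))
instance : Module ℂ (Alg S d) := inferInstanceAs (Module ℂ ((S → Fin d) → ℂ))
instance : FunLike (Alg S d) (S → Fin d) ℂ where
  coe f := f
  coe_injective _ _ h := h

omit [Fintype S] [DecidableEq S] [NeZero d] in
@[ext] theorem ext {f g : Alg S d} (h : ∀ x, f x = g x) : f = g := funext h

omit [Fintype S] [DecidableEq S] [NeZero d] in
@[simp] theorem zero_apply (x : S → Fin d) : (0 : Alg S d) x = 0 := rfl
omit [Fintype S] [DecidableEq S] [NeZero d] in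
@[simp] theorem add_apply (f g : Alg S d) (x : S → Fin d) : (f + g) x = f x + g x := rfl
omit [Fintype S] [DecidableEq S] [NeZero d] in
@[simp] theorem neg_apply (f : Alg S d) (x : S → Fin d) : (-f) x = -f x := rfl
omit [Fintype S] [DecidableEq S] [NeZero d] in
@[simp] theorem sub_apply (f g : Alg S d) (x : S → Fin d) : (f - g) x = f x - g x := rfl
omit [Fintype S] [DecidableEq S] [NeZero d] in
@[simp] theorem smul_apply (c : ℂ) (f : Alg S d) (x : S → Fin d) : (c • f) x = c * f x := rfl

/-- evaluation as a linear map -/
def coeff (x : S → Fin d) : Alg S d →ₗ[ℂ] ℂ where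
  toFun f := f x
  map_add' _ _ := rfl
  map_smul' _ _ := rfl

omit [Fintype S] [DecidableEq S] [NeZero d] in
@[simp] theorem coeff_apply (x : S → Fin d) (f : Alg S d) : coeff x f = f x := rfl

omit [Fintype S] [DecidableEq S] [NeZero d] in
@[simp] theorem sum_apply {ι : Type*} (s : Finset ι) (f : ι → Alg S d) (x : S → Fin d) :
    (∑ i ∈ s, f i) x = ∑ i ∈ s, f i x := by
  have h := map_sum (coeff (S := S) (d := d) x) f s
  simpa only [coeff_apply] using h

/-- the basis vector of a configuration -/
def e (x : S → Fin d) : Alg S d := fun y => if y = x then 1 else 0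

theorem e_apply (x y : S → Fin d) : e x y = if y = x then 1 else 0 := rfl

instance : Mul (Alg S d) where
  mul f g := fun y => ∑ a : S → Fin d, ∑ b : S → Fin d,
    if Disj a b ∧ join a b = y then f a * g b else 0

instance : One (Alg S d) where
  one := e 0

theorem mul_apply (f g : Alg S d) (y : S → Fin d) :
    (f * g) y = ∑ a : S → Fin d, ∑ b : S → Fin d, if Disj a b ∧ join a b = y then f a * g b else 0 := rfl

theorem one_def : (1 : Alg S d) = e 0 := rfl

theorem one_apply (x : S → Fin d) : (1 : Alg S d) x = if x = 0 then 1 else 0 := rfl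

protected theorem mul_comm (f g : Alg S d) : f * g = g * f := by
  ext y
  rw [mul_apply, mul_apply, Finset.sum_comm]
  refine Finset.sum_congr rfl (fun a _ => Finset.sum_congr rfl (fun b _ => ?_))
  by_cases h : Disj b a
  · rw [join_comm h]
    simp only [h, h.symm, true_and]
    split_ifs <;> ring
  · have h' : ¬ Disj a b := fun h' => h h'.symm
    simp [h, h']

theorem mul_apply' (f g : Alg S d) (y : S → Fin d) :
    (f * g) y = ∑ a : S → Fin d, ∑ b : S → Fin d,
      (if Disj a b then 1 else 0) * (if join a b = y then 1 else 0) * (f a * g b) := by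
  rw [mul_apply]
  refine Finset.sum_congr rfl (fun a _ => Finset.sum_congr rfl (fun b _ => ?_))
  by_cases h : Disj a b <;> by_cases h2 : join a b = y <;> simp [h, h2]

protected theorem mul_assoc (f g h : Alg S d) : f * g * h = f * (g * h) := by
  ext y
  have h1 : (f * g * h) y = ∑ a : S → Fin d, ∑ b : S → Fin d, ∑ c : S → Fin d,
      (if Disj a b ∧ Disj (join a b) c then 1 else 0) *
        (if join (join a b) c = y then 1 else 0) * (f a * g b * h c) := by
    rw [mul_apply', Finset.sum_comm]
    have h2 : ∀ c p : S → Fin d, (if Disj p c then 1 else 0) * (if join p c = y then 1 else 0) *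
        ((f * g) p * h c) = ∑ a : S → Fin d, ∑ b : S → Fin d, (if join a b = p then
          (if Disj a b ∧ Disj (join a b) c then 1 else 0) *
        (if join (join a b) c = y then 1 else 0) * (f a * g b * h c) else 0) := by
      intro c p
      rw [mul_apply', Finset.sum_mul, Finset.mul_sum]
      refine Finset.sum_congr rfl (fun a _ => ?_)
      rw [Finset.sum_mul, Finset.mul_sum]
      refine Finset.sum_congr rfl (fun b _ => ?_)
      by_cases hp : join a b = p
      · subst hp
        by_cases hab : Disj a b <;> by_cases hc : Disj (join a b) c <;> simp [hab, hc]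
      · simp [hp]
    rw [Finset.sum_congr rfl (fun c _ => Finset.sum_congr rfl (fun p _ => h2 c p))]
    have h3 : ∀ c : S → Fin d, ∑ p : S → Fin d, ∑ a : S → Fin d, ∑ b : S → Fin d,
        (if join a b = p then (if Disj a b ∧ Disj (join a b) c then 1 else 0) *
        (if join (join a b) c = y then 1 else 0) * (f a * g b * h c) else 0) =
        ∑ a : S → Fin d, ∑ b : S → Fin d, (if Disj a b ∧ Disj (join a b) c then 1 else 0) *
        (if join (join a b) c = y then 1 else 0) * (f a * g b * h c) := by
      intro c
      rw [Finset.sum_comm]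
      refine Finset.sum_congr rfl (fun a _ => ?_)
      rw [Finset.sum_comm]
      refine Finset.sum_congr rfl (fun b _ => ?_)
      rw [Finset.sum_ite_eq]
      simp
    rw [Finset.sum_congr rfl (fun c _ => h3 c), Finset.sum_comm]
    refine Finset.sum_congr rfl (fun a _ => ?_)
    rw [Finset.sum_comm]
  have h4 : (f * (g * h)) y = ∑ a : S → Fin d, ∑ b : S → Fin d, ∑ c : S → Fin d,
      (if Disj b c ∧ Disj a (join b c) then 1 else 0) *
        (if join a (join b c) = y then 1 else 0) * (f a * g b * h c) := by
    rw [mul_apply']
    refine Finset.sum_congr rfl (fun a _ => ?_)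
    have h2 : ∀ p : S → Fin d, (if Disj a p then 1 else 0) * (if join a p = y then 1 else 0) *
        (f a * (g * h) p) = ∑ b : S → Fin d, ∑ c : S → Fin d, (if join b c = p then
          (if Disj b c ∧ Disj a (join b c) then 1 else 0) *
        (if join a (join b c) = y then 1 else 0) * (f a * g b * h c) else 0) := by
      intro p
      rw [mul_apply', Finset.mul_sum, Finset.mul_sum]
      refine Finset.sum_congr rfl (fun b _ => ?_)
      rw [Finset.mul_sum, Finset.mul_sum]
      refine Finset.sum_congr rfl (fun c _ => ?_)
      by_cases hp : join b c = p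
      · subst hp
        by_cases hab : Disj b c <;> by_cases hc : Disj a (join b c) <;> simp [hab, hc, mul_assoc]
      · simp [hp]
    rw [Finset.sum_congr rfl (fun p _ => h2 p)]
    rw [Finset.sum_comm]
    refine Finset.sum_congr rfl (fun b _ => ?_)
    rw [Finset.sum_comm]
    refine Finset.sum_congr rfl (fun c _ => ?_)
    rw [Finset.sum_ite_eq]
    simp
  rw [h1, h4]
  refine Finset.sum_congr rfl (fun a _ => Finset.sum_congr rfl (fun b _ =>
    Finset.sum_congr rfl (fun c _ => ?_)))
  rw [join_assoc, if_congr (disj_assoc a b c) rfl rfl]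

protected theorem one_mul (f : Alg S d) : 1 * f = f := by
  ext y
  rw [mul_apply, Finset.sum_eq_single 0]
  · simp only [one_apply, if_true, zero_disj, zero_join, true_and, _root_.one_mul]
    rw [Finset.sum_ite_eq' Finset.univ y f]
    simp
  · intro b _ hb
    simp [one_apply, hb]
  · simp

protected theorem add_mul (f g h : Alg S d) : (f + g) * h = f * h + g * h := by
  ext y
  simp only [mul_apply', add_apply, add_mul, mul_add, Finset.sum_add_distrib]

protected theorem zero_mul (f : Alg S d) : 0 * f = 0 := by
  ext y
  simp [mul_apply]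

protected theorem smul_mul (c : ℂ) (f g : Alg S d) : (c • f) * g = c • (f * g) := by
  ext y
  simp only [mul_apply', smul_apply, Finset.mul_sum]
  refine Finset.sum_congr rfl (fun a _ => Finset.sum_congr rfl (fun b _ => ?_))
  ring

instance : CommRing (Alg S d) :=
  { (inferInstance : AddCommGroup (Alg S d)) with
    mul_assoc := Alg.mul_assoc
    mul_comm := Alg.mul_comm
    one_mul := Alg.one_mul
    mul_one := fun f => by rw [Alg.mul_comm, Alg.one_mul]
    left_distrib := fun f g h => by rw [Alg.mul_comm, Alg.add_mul, Alg.mul_comm g, Alg.mul_comm h]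
    right_distrib := Alg.add_mul
    zero_mul := Alg.zero_mul
    mul_zero := fun f => by rw [Alg.mul_comm, Alg.zero_mul] }

instance : Algebra ℂ (Alg S d) :=
  Algebra.ofModule Alg.smul_mul (fun c f g => by rw [mul_comm, Alg.smul_mul, mul_comm g])

theorem e_mul_e (x y : S → Fin d) : e x * e y = if Disj x y then e (join x y) else 0 := by
  ext z
  rw [mul_apply, Finset.sum_eq_single x, Finset.sum_eq_single y]
  · by_cases h : Disj x y
    · by_cases h2 : join x y = z
      · simp [e_apply, h, h2]
      · simp [e_apply, h, h2, Ne.symm h2]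
    · simp [h]
  · intro b _ hb; simp [e_apply, hb]
  · simp
  · intro b _ hb; simp [e_apply, hb]
  · simp

theorem eq_sum (f : Alg S d) : f = ∑ x : S → Fin d, f x • e x := by
  ext y
  simp only [sum_apply, smul_apply, e_apply, mul_ite, mul_one, mul_zero]
  rw [Finset.sum_ite_eq Finset.univ y f]
  simp

theorem e_zero : e (0 : S → Fin d) = 1 := rfl

theorem disj_self {x : S → Fin d} : Disj x x ↔ x = 0 := by
  rw [disj_iff, disjoint_self, Finset.bot_eq_empty, supp_eq_empty]

theorem e_sq {x : S → Fin d} (hx : x ≠ 0) : e x * e x = 0 := by
  rw [e_mul_e, if_neg (fun h => hx (disj_self.1 h))]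

/-- the coefficient of `e x * f` -/
theorem e_mul_apply (x y : S → Fin d) (f : Alg S d) :
    (e x * f) y = ∑ b : S → Fin d, if Disj x b ∧ join x b = y then f b else 0 := by
  rw [mul_apply, Finset.sum_eq_single x]
  · simp [e_apply]
  · intro b _ hb; simp [e_apply, hb]
  · simp

end Alg

end Pool.Agent.WP
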