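import Pool.Agent.WP.Defs

/-!
Connected sets and the size function `msz`.
-/

set_option autoImplicit false
set_option linter.unusedSectionVars false

open scoped BigOperators
open Pool.Agent.Hhelper96.PEPS

namespace Pool.Agent.WP

section general

variable {S T : Type} [DecidableEq S] [DecidableEq T] {r : S → S → Prop}

theorem msz_le {X V : Finset S} (hV : RConn r V) (h : X ⊆ V) : msz r X ≤ V.card :=
  Nat.sInf_le ⟨V, hV, h, rfl⟩

/-- a minimal connected set containing `X` -/
theorem exists_hull {X : Finset S} (h : ∃ V, RConn r V ∧ X ⊆ V) :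
    ∃ V, RConn r V ∧ X ⊆ V ∧ V.card = msz r X := by
  obtain ⟨V, hV, hX⟩ := h
  exact Nat.sInf_mem (s := {n | ∃ V : Finset S, RConn r V ∧ X ⊆ V ∧ V.card = n})
    ⟨V.card, V, hV, hX, rfl⟩

theorem card_le_msz {X : Finset S} (h : ∃ V, RConn r V ∧ X ⊆ V) : X.card ≤ msz r X := by
  obtain ⟨V, -, hX, hc⟩ := exists_hull h
  rw [← hc]
  exact Finset.card_le_card hX

theorem msz_mono {X Y : Finset S} (hXY : X ⊆ Y) (h : ∃ V, RConn r V ∧ Y ⊆ V) :
    msz r X ≤ msz r Y := by
  obtain ⟨V, hV, hY, hc⟩ := exists_hull h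
  rw [← hc]
  exact msz_le hV (hXY.trans hY)

private theorem rtg_mono {U W : Finset S} (h : U ⊆ W) {x y : S}
    (hp : Relation.ReflTransGen (fun a b => a ∈ U ∧ b ∈ U ∧ r a b) x y) :
    Relation.ReflTransGen (fun a b => a ∈ W ∧ b ∈ W ∧ r a b) x y := by
  induction hp with
  | refl => exact Relation.ReflTransGen.refl
  | tail _ hbc ih => exact ih.tail ⟨h hbc.1, h hbc.2.1, hbc.2.2⟩

private theorem rtg_symm {A : Type} {q : A → A → Prop} (hq : ∀ a b, q a b → q b a) {x y : A}
    (hp : Relation.ReflTransGen q x y) : Relation.ReflTransGen q y x := by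
  induction hp with
  | refl => exact Relation.ReflTransGen.refl
  | tail _ hbc ih => exact Relation.ReflTransGen.head (hq _ _ hbc) ih

theorem RConn.union {U V : Finset S} (hU : RConn r U) (hV : RConn r V) (h : ¬ Disjoint U V) :
    RConn r (U ∪ V) := by
  obtain ⟨z, hzU, hzV⟩ := Finset.not_disjoint_iff.1 h
  refine ⟨⟨z, Finset.mem_union_left _ hzU⟩, ?_⟩
  have key : ∀ x ∈ U ∪ V,
      Relation.ReflTransGen (fun a b => a ∈ U ∪ V ∧ b ∈ U ∪ V ∧ r a b) x z ∧
      Relation.ReflTransGen (fun a b => a ∈ U ∪ V ∧ b ∈ U ∪ V ∧ r a b) z x := by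
    intro x hx
    rcases Finset.mem_union.1 hx with hx | hx
    · exact ⟨rtg_mono Finset.subset_union_left (hU.2 x hx z hzU),
        rtg_mono Finset.subset_union_left (hU.2 z hzU x hx)⟩
    · exact ⟨rtg_mono Finset.subset_union_right (hV.2 x hx z hzV),
        rtg_mono Finset.subset_union_right (hV.2 z hzV x hx)⟩
  intro x hx y hy
  exact (key x hx).1.trans (key y hy).2

theorem msz_union_le {X Y : Finset S} (h : ¬ Disjoint X Y) (hX : ∃ V, RConn r V ∧ X ⊆ V)
    (hY : ∃ V, RConn r V ∧ Y ⊆ V) : msz r (X ∪ Y) ≤ msz r X + msz r Y := by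
  obtain ⟨U, hU, hXU, hcU⟩ := exists_hull hX
  obtain ⟨V, hV, hYV, hcV⟩ := exists_hull hY
  have hd : ¬ Disjoint U V := fun hd => h (Finset.disjoint_of_subset_left hXU
    (Finset.disjoint_of_subset_right hYV hd))
  calc msz r (X ∪ Y) ≤ (U ∪ V).card := msz_le (hU.union hV hd) (Finset.union_subset_union hXU hYV)
    _ ≤ U.card + V.card := Finset.card_union_le _ _
    _ = msz r X + msz r Y := by rw [hcU, hcV]

/-- images under maps which send related points to related or equal points -/
theorem RConn.image {r' : T → T → Prop} {U : Finset S} (hU : RConn r U) (f : S → T)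
    (hf : ∀ a b, r a b → r' (f a) (f b) ∨ f a = f b) : RConn r' (U.image f) := by
  refine ⟨hU.1.image f, ?_⟩
  intro x hx y hy
  obtain ⟨a, ha, rfl⟩ := Finset.mem_image.1 hx
  obtain ⟨b, hb, rfl⟩ := Finset.mem_image.1 hy
  have hp := hU.2 a ha b hb
  clear hb
  induction hp with
  | refl => exact Relation.ReflTransGen.refl
  | tail _ hbc ih =>
    obtain ⟨hc, he, hr⟩ := hbc
    have ih' := ih (Finset.mem_image_of_mem f hc)
    rcases hf _ _ hr with h1 | h1
    · exact ih'.tail ⟨Finset.mem_image_of_mem f hc, Finset.mem_image_of_mem f he, h1⟩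
    · rw [← h1]; exact ih'

end general

theorem tadj_symm (L : ℕ) {u v : Site L} (h : tadj L u v) : tadj L v u := by
  rcases h with h | h | h | h
  · exact Or.inr (Or.inl h)
  · exact Or.inl h
  · exact Or.inr (Or.inr (Or.inr h))
  · exact Or.inr (Or.inr (Or.inl h))

/-- the torus is connected -/
theorem rconn_univ (L : ℕ) [NeZero L] : RConn (tadj L) (Finset.univ : Finset (Site L)) := by
  refine ⟨Finset.univ_nonempty, ?_⟩
  have h1 : ∀ (x : Site L) (n : ℕ), Relation.ReflTransGen
      (fun a b => a ∈ (Finset.univ : Finset (Site L)) ∧ b ∈ (Finset.univ : Finset (Site L)) ∧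
        tadj L a b) x (x + ((n : ZMod L), 0)) := by
    intro x n
    induction n with
    | zero =>
      have e : x + (((0 : ℕ) : ZMod L), (0 : ZMod L)) = x := by ext <;> simp
      rw [e]
    | succ n ih =>
      refine ih.tail ⟨Finset.mem_univ _, Finset.mem_univ _, Or.inl ?_⟩
      ext <;> simp [add_assoc]
  have h2 : ∀ (x : Site L) (n : ℕ), Relation.ReflTransGen
      (fun a b => a ∈ (Finset.univ : Finset (Site L)) ∧ b ∈ (Finset.univ : Finset (Site L)) ∧
        tadj L a b) x (x + (0, (n : ZMod L))) := by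
    intro x n
    induction n with
    | zero =>
      have e : x + ((0 : ZMod L), ((0 : ℕ) : ZMod L)) = x := by ext <;> simp
      rw [e]
    | succ n ih =>
      refine ih.tail ⟨Finset.mem_univ _, Finset.mem_univ _, Or.inr (Or.inr (Or.inl ?_))⟩
      ext <;> simp [add_assoc]
  intro x _ y _
  have h3 := (h1 x (y - x).1.val).trans (h2 _ (y - x).2.val)
  have h4 : x + (((y - x).1.val : ZMod L), (0 : ZMod L)) + ((0 : ZMod L), ((y - x).2.val : ZMod L)) = y := by
    rw [ZMod.natCast_zmod_val, ZMod.natCast_zmod_val]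
    ext <;> simp
  rwa [h4] at h3

/-- every set of sites of the torus lies in a connected set -/
theorem exists_conn (L : ℕ) [NeZero L] (X : Finset (Site L)) : ∃ V, RConn (tadj L) V ∧ X ⊆ V :=
  ⟨Finset.univ, rconn_univ L, Finset.subset_univ X⟩

private theorem tadj_add (L : ℕ) {u v : Site L} (w : Site L) (h : tadj L u v) :
    tadj L (u + w) (v + w) := by
  rcases h with h | h | h | h
  · exact Or.inl (by rw [h]; abel)
  · exact Or.inr (Or.inl (by rw [h]; abel))
  · exact Or.inr (Or.inr (Or.inl (by rw [h]; abel)))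
  · exact Or.inr (Or.inr (Or.inr (by rw [h]; abel)))

private theorem msz_translate_le (L : ℕ) [NeZero L] (X : Finset (Site L)) (u : Site L) :
    msz (tadj L) (X.image (fun w => w + u)) ≤ msz (tadj L) X := by
  obtain ⟨V, hV, hX, hc⟩ := exists_hull (exists_conn L X)
  have h1 : RConn (tadj L) (V.image (fun w => w + u)) :=
    hV.image (fun w => w + u) (fun a b hab => Or.inl (tadj_add L u hab))
  calc msz (tadj L) (X.image (fun w => w + u)) ≤ (V.image (fun w => w + u)).card :=
        msz_le h1 (Finset.image_subset_image hX)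
    _ ≤ V.card := Finset.card_image_le
    _ = msz (tadj L) X := hc

theorem msz_translate (L : ℕ) [NeZero L] (X : Finset (Site L)) (u : Site L) :
    msz (tadj L) (X.image (fun w => w + u)) = msz (tadj L) X := by
  apply le_antisymm (msz_translate_le L X u)
  have h := msz_translate_le L (X.image (fun w => w + u)) (-u)
  rw [Finset.image_image] at h
  have h1 : ((fun w : Site L => w + -u) ∘ fun w => w + u) = id := by
    funext w
    simp
  rwa [h1, Finset.image_id] at h

private def zadj (u v : ℤ × ℤ) : Prop :=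
  v = u + (1, 0) ∨ u = v + (1, 0) ∨ v = u + (0, 1) ∨ u = v + (0, 1)

private theorem zadj_symm {u v : ℤ × ℤ} (h : zadj u v) : zadj v u := by
  rcases h with h | h | h | h
  · exact Or.inr (Or.inl h)
  · exact Or.inl h
  · exact Or.inr (Or.inr (Or.inr h))
  · exact Or.inr (Or.inr (Or.inl h))

private noncomputable def bx (N : ℕ) : Finset (ℤ × ℤ) := Finset.Icc (-(N : ℤ)) N ×ˢ Finset.Icc (-(N : ℤ)) N

private theorem mem_bx {N : ℕ} {a b : ℤ} :
    (a, b) ∈ bx N ↔ (-(N : ℤ) ≤ a ∧ a ≤ N) ∧ (-(N : ℤ) ≤ b ∧ b ≤ N) := by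
  unfold bx
  rw [Finset.mem_product, Finset.mem_Icc, Finset.mem_Icc]

private theorem bx_conn (N : ℕ) : RConn zadj (bx N) := by
  refine ⟨⟨(0, 0), mem_bx.2 ⟨⟨by omega, by omega⟩, by omega, by omega⟩⟩, ?_⟩
  have h1 : ∀ (n : ℕ), (n : ℤ) ≤ 2 * N → Relation.ReflTransGen
      (fun a b => a ∈ bx N ∧ b ∈ bx N ∧ zadj a b) (-(N : ℤ), -(N : ℤ)) (-(N : ℤ) + n, -(N : ℤ)) := by
    intro n
    induction n with
    | zero => intro _; simp; exact Relation.ReflTransGen.refl
    | succ n ih =>
      intro hn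
      push_cast at hn
      refine (ih (by linarith)).tail ⟨mem_bx.2 ⟨⟨by omega, by omega⟩, by omega, by omega⟩,
        mem_bx.2 ⟨⟨by push_cast; omega, by push_cast; omega⟩, by omega, by omega⟩, Or.inl ?_⟩
      ext <;> simp [add_assoc]
  have h2 : ∀ (a : ℤ), -(N : ℤ) ≤ a → a ≤ N → ∀ (n : ℕ), (n : ℤ) ≤ 2 * N → Relation.ReflTransGen
      (fun a b => a ∈ bx N ∧ b ∈ bx N ∧ zadj a b) (a, -(N : ℤ)) (a, -(N : ℤ) + n) := by
    intro a ha1 ha2 n
    induction n with
    | zero => intro _; simp; exact Relation.ReflTransGen.refl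
    | succ n ih =>
      intro hn
      push_cast at hn
      refine (ih (by linarith)).tail ⟨mem_bx.2 ⟨⟨by omega, by omega⟩, by omega, by omega⟩,
        mem_bx.2 ⟨⟨by omega, by omega⟩, by push_cast; omega, by push_cast; omega⟩,
        Or.inr (Or.inr (Or.inl ?_))⟩
      ext <;> simp [add_assoc]
  have h3 : ∀ p ∈ bx N, Relation.ReflTransGen
      (fun a b => a ∈ bx N ∧ b ∈ bx N ∧ zadj a b) (-(N : ℤ), -(N : ℤ)) p := by
    rintro ⟨a, b⟩ hp
    obtain ⟨⟨ha1, ha2⟩, hb1, hb2⟩ := mem_bx.1 hp
    have e1 : (-(N : ℤ) + ((a + N).toNat : ℤ)) = a := by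
      rw [Int.toNat_of_nonneg (by linarith)]; ring
    have e2 : (-(N : ℤ) + ((b + N).toNat : ℤ)) = b := by
      rw [Int.toNat_of_nonneg (by linarith)]; ring
    have q1 := h1 (a + N).toNat (by rw [Int.toNat_of_nonneg (by linarith)]; linarith)
    have q2 := h2 a ha1 ha2 (b + N).toNat (by rw [Int.toNat_of_nonneg (by linarith)]; linarith)
    rw [e1] at q1
    rw [e2] at q2
    exact q1.trans q2
  intro x hx y hy
  exact (rtg_symm (fun a b hab => ⟨hab.2.1, hab.1, zadj_symm hab.2.2⟩) (h3 x hx)).trans (h3 y hy)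

/-- translates of a finite region of the lattice have bounded `msz`, uniformly in the torus:
the region lies in a box `[a, a+n] × [b, b+n]`, which is connected in `ℤ²` -/
theorem msz_place_le (F : Finset (ℤ × ℤ)) :
    ∃ C : ℕ, ∀ (L : ℕ) [NeZero L] (v : Site L), msz (tadj L) (F.image (place L v)) ≤ C := by
  obtain ⟨N, hN⟩ : ∃ N : ℕ, F ⊆ bx N := by
    refine ⟨∑ p ∈ F, (p.1.natAbs + p.2.natAbs), ?_⟩
    rintro ⟨a, b⟩ hp
    have h := Finset.single_le_sum (f := fun p : ℤ × ℤ => p.1.natAbs + p.2.natAbs)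
      (fun _ _ => Nat.zero_le _) hp
    simp only at h
    exact mem_bx.2 ⟨⟨by omega, by omega⟩, by omega, by omega⟩
  refine ⟨(bx N).card, ?_⟩
  intro L _ v
  have h1 : RConn (tadj L) ((bx N).image (place L v)) := by
    refine (bx_conn N).image (place L v) ?_
    have hp : ∀ (p t : ℤ × ℤ), place L v (p + t) = place L v p + ((t.1 : ZMod L), (t.2 : ZMod L)) := by
      intro p t
      unfold place
      ext <;> simp [add_assoc]
    rintro p q (h | h | h | h)
    · left; left
      rw [h, hp]; simp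
    · left; right; left
      rw [h, hp]; simp
    · left; right; right; left
      rw [h, hp]; simp
    · left; right; right; right
      rw [h, hp]; simp
  exact (msz_le h1 (Finset.image_subset_image hN)).trans Finset.card_image_le

end Pool.Agent.WP
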