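import Pool.Agent.WP.LemmaA
import Pool.Agent.WP.MSize

/-!
Lattice animals on the torus and the number of labels.
-/

set_option autoImplicit false

open scoped BigOperators Classical
open Pool.Agent.Hhelper96.PEPS

namespace Pool.Agent.WP

private theorem Animals.sum_biUnion_le {α β : Type} [DecidableEq β] (s : Finset α)
    (t : α → Finset β)
    (f : β → ℝ) (hf : ∀ x, 0 ≤ f x) :
    ∑ x ∈ s.biUnion t, f x ≤ ∑ u ∈ s, ∑ x ∈ t u, f x := by
  induction s using Finset.induction_on with
  | empty => simp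
  | insert a s ha ih =>
    rw [Finset.biUnion_insert, Finset.sum_insert ha]
    have h1 := Finset.sum_union_inter (s₁ := t a) (s₂ := s.biUnion t) (f := f)
    have h2 : 0 ≤ ∑ x ∈ t a ∩ s.biUnion t, f x := Finset.sum_nonneg fun x _ => hf x
    linarith

private theorem Animals.nbr_card (L : ℕ) [NeZero L] (p : Site L) :
    ((Finset.univ : Finset (Site L)).filter (fun q => tadj L q p)).card ≤ 4 := by
  have h : (Finset.univ : Finset (Site L)).filter (fun q => tadj L q p) ⊆
      {p - (1, 0), p + (1, 0), p - (0, 1), p + (0, 1)} := by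
    intro q hq
    have hq' := (Finset.mem_filter.1 hq).2
    simp only [Finset.mem_insert, Finset.mem_singleton]
    rcases hq' with h | h | h | h
    · left; rw [h]; abel
    · right; left; exact h
    · right; right; left; rw [h]; abel
    · right; right; right; exact h
  exact (Finset.card_le_card h).trans Finset.card_le_four

private theorem Animals.sum_fib_le (L : ℕ) [NeZero L] (d : ℕ) [NeZero d]
    (Y : (Site L → Fin d) → Finset (Site L)) (hY : ∀ x ∈ X0, RConn (tadj L) (Y x))
    (g : (Site L → Fin d) → ℝ) {N : ℝ} (hN : 0 ≤ N)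
    (hg : ∀ V : Finset (Site L), ∑ x ∈ (X0 : Finset (Site L → Fin d)).filter (fun x => Y x = V), g x
      ≤ (1 / 14 : ℝ) ^ V.card * N)
    (hg0 : ∀ x, 0 ≤ g x)
    (w : Site L)
    (ha : ∑ V ∈ (Finset.univ : Finset (Finset (Site L))).filter
      (fun V => RConn (tadj L) V ∧ w ∈ V), (1 / 14 : ℝ) ^ V.card ≤ 1 / 5) :
    ∑ x ∈ (X0 : Finset (Site L → Fin d)).filter (fun x => w ∈ Y x), g x ≤ N / 5 := by
  have h1 : ∀ x ∈ (X0 : Finset (Site L → Fin d)).filter (fun x => w ∈ Y x),
      Y x ∈ (Finset.univ : Finset (Finset (Site L))).filter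
        (fun V => RConn (tadj L) V ∧ w ∈ V) := by
    intro x hx
    rw [Finset.mem_filter] at hx ⊢
    exact ⟨Finset.mem_univ _, hY x hx.1, hx.2⟩
  rw [← Finset.sum_fiberwise_of_maps_to h1]
  calc ∑ V ∈ (Finset.univ : Finset (Finset (Site L))).filter
        (fun V => RConn (tadj L) V ∧ w ∈ V),
        ∑ x ∈ ((X0 : Finset (Site L → Fin d)).filter (fun x => w ∈ Y x)).filter
          (fun x => Y x = V), g x
      ≤ ∑ V ∈ (Finset.univ : Finset (Finset (Site L))).filter
        (fun V => RConn (tadj L) V ∧ w ∈ V), (1 / 14 : ℝ) ^ V.card * N := by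
        refine Finset.sum_le_sum fun V _ => ?_
        refine le_trans (Finset.sum_le_sum_of_subset_of_nonneg ?_ ?_) (hg V)
        · intro x hx
          simp only [Finset.mem_filter] at hx ⊢
          exact ⟨hx.1.1, hx.2⟩
        · intro x _ _
          exact hg0 x
    _ = (∑ V ∈ (Finset.univ : Finset (Finset (Site L))).filter
        (fun V => RConn (tadj L) V ∧ w ∈ V), (1 / 14 : ℝ) ^ V.card) * N := by
        rw [Finset.sum_mul]
    _ ≤ (1 / 5) * N := mul_le_mul_of_nonneg_right ha hN
    _ = N / 5 := by ring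

private theorem Animals.card_supp (L : ℕ) [NeZero L] (d : ℕ) [NeZero d] (V : Finset (Site L)) :
    ((Finset.univ : Finset (Site L → Fin d)).filter (fun x => supp x ⊆ V)).card ≤ d ^ V.card := by
  have h : (Finset.univ : Finset (Site L → Fin d)).filter (fun x => supp x ⊆ V) ⊆
      Fintype.piFinset (fun v : Site L => if v ∈ V then (Finset.univ : Finset (Fin d)) else {0}) := by
    intro x hx
    have hx' := (Finset.mem_filter.1 hx).2
    rw [Fintype.mem_piFinset]
    intro v
    by_cases hv : v ∈ V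
    · simp [hv]
    · simp only [hv, if_false, Finset.mem_singleton]
      by_contra hc
      exact hv (hx' (mem_supp.2 hc))
  refine (Finset.card_le_card h).trans ?_
  rw [Fintype.card_piFinset]
  have h2 : ∀ v : Site L, (if v ∈ V then (Finset.univ : Finset (Fin d)) else {0}).card =
      if v ∈ V then d else 1 := by
    intro v
    by_cases hv : v ∈ V <;> simp [hv]
  simp only [h2]
  rw [Finset.prod_ite_mem]
  simp

/-- `sum_connected_le` with `β = 1/14`, `φ = 1`: at most four neighbours, `4 e / 14 ≤ 1`,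
`e / 14 ≤ 1/5` -/
theorem animals_le (L : ℕ) [NeZero L] (w : Site L) :
    ∑ V ∈ (Finset.univ : Finset (Finset (Site L))).filter (fun V => RConn (tadj L) V ∧ w ∈ V),
      (1 / 14 : ℝ) ^ V.card ≤ 1 / 5 := by
  have he : Real.exp 1 < 2.7182818286 := Real.exp_one_lt_d9
  have he0 : 0 < Real.exp 1 := Real.exp_pos 1
  have h := sum_connected_le (Finset.univ : Finset (Site L)) (tadj L) (fun a b => tadj_symm L)
    (fun _ => (1 / 14 : ℝ)) (fun _ => (1 : ℝ)) (fun _ _ => by norm_num) (by
      intro p _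
      rw [Finset.sum_const, nsmul_eq_mul]
      have hc := Animals.nbr_card L p
      have hc' : (((Finset.univ : Finset (Site L)).filter (fun q => tadj L q p)).card : ℝ) ≤ 4 := by
        exact_mod_cast hc
      have h3 : (((Finset.univ : Finset (Site L)).filter (fun q => tadj L q p)).card : ℝ) *
          (1 / 14 * Real.exp 1) ≤ 4 * (1 / 14 * Real.exp 1) :=
        mul_le_mul_of_nonneg_right hc' (by positivity)
      refine le_trans h3 ?_
      linarith) w (Finset.mem_univ w)
  rw [Finset.powerset_univ] at h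
  simp only [Finset.prod_const] at h
  refine le_trans h ?_
  linarith

/-- number of sets of configurations through `w` of total size at most `K` -/
theorem label_count (L : ℕ) [NeZero L] (d : ℕ) [NeZero d] (Y : (Site L → Fin d) → Finset (Site L))
    (m : (Site L → Fin d) → ℕ) (hY : ∀ x ∈ X0, RConn (tadj L) (Y x)) (hs : ∀ x ∈ X0, supp x ⊆ Y x)
    (hm : ∀ x ∈ X0, (Y x).card = m x) (K : ℕ) (w : Site L) :
    ((((X0 : Finset (Site L → Fin d)).filter (fun x => w ∈ Y x)).powerset.filter
      (fun P => ∑ x ∈ P, m x ≤ K)).card : ℝ) ≤ 2 * (14 * d : ℝ) ^ K := by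
  have hd1 : (1 : ℝ) ≤ d := by
    have : 1 ≤ d := Nat.one_le_iff_ne_zero.2 (NeZero.ne d)
    exact_mod_cast this
  set A : ℝ := 14 * d with hA
  have hA1 : 1 ≤ A := by rw [hA]; linarith
  have hA0 : 0 < A := by linarith
  set F : Finset (Site L → Fin d) := (X0 : Finset (Site L → Fin d)).filter (fun x => w ∈ Y x)
    with hF
  have hsum : ∑ x ∈ F, (A⁻¹) ^ (m x) ≤ 1 / 5 := by
    refine Animals.sum_fib_le L d Y hY (fun x => (A⁻¹) ^ (m x)) zero_le_one ?_ ?_ w
      (animals_le L w)
    · intro V
      have h1 : ∀ x ∈ (X0 : Finset (Site L → Fin d)).filter (fun x => Y x = V),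
          (A⁻¹) ^ (m x) = (A⁻¹) ^ V.card := by
        intro x hx
        rw [Finset.mem_filter] at hx
        rw [← hm x hx.1, hx.2]
      show ∑ x ∈ (X0 : Finset (Site L → Fin d)).filter (fun x => Y x = V), (A⁻¹) ^ (m x)
        ≤ (1 / 14 : ℝ) ^ V.card * 1
      rw [Finset.sum_congr rfl h1, Finset.sum_const, nsmul_eq_mul]
      have h2 : ((X0 : Finset (Site L → Fin d)).filter (fun x => Y x = V)).card ≤ d ^ V.card := by
        refine le_trans (Finset.card_le_card ?_) (Animals.card_supp L d V)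
        intro x hx
        rw [Finset.mem_filter] at hx
        rw [Finset.mem_filter]
        refine ⟨Finset.mem_univ _, ?_⟩
        rw [← hx.2]
        exact hs x hx.1
      have h3 : (((X0 : Finset (Site L → Fin d)).filter (fun x => Y x = V)).card : ℝ) ≤
          (d : ℝ) ^ V.card := by exact_mod_cast h2
      calc (((X0 : Finset (Site L → Fin d)).filter (fun x => Y x = V)).card : ℝ) * (A⁻¹) ^ V.card
          ≤ (d : ℝ) ^ V.card * (A⁻¹) ^ V.card :=
            mul_le_mul_of_nonneg_right h3 (by positivity)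
        _ = (d * A⁻¹) ^ V.card := by rw [mul_pow]
        _ = (1 / 14 : ℝ) ^ V.card * 1 := by
            rw [mul_one]
            congr 1
            rw [hA]
            have : (d : ℝ) ≠ 0 := by linarith
            field_simp
    · intro x
      positivity
  have hcard : ((F.powerset.filter (fun P => ∑ x ∈ P, m x ≤ K)).card : ℝ) ≤
      ∑ P ∈ F.powerset, A ^ K * ∏ x ∈ P, (A⁻¹) ^ (m x) := by
    rw [Finset.card_eq_sum_ones, Nat.cast_sum]
    refine le_trans (Finset.sum_le_sum (g := fun P => A ^ K * ∏ x ∈ P, (A⁻¹) ^ (m x)) ?_)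
      (Finset.sum_le_sum_of_subset_of_nonneg (Finset.filter_subset _ _) ?_)
    · intro P hP
      have hP' := (Finset.mem_filter.1 hP).2
      rw [Finset.prod_pow_eq_pow_sum, inv_pow, Nat.cast_one]
      rw [← div_eq_mul_inv, one_le_div (by positivity)]
      exact pow_le_pow_right₀ hA1 hP'
    · intro P _ _
      positivity
  refine le_trans hcard ?_
  rw [← Finset.mul_sum]
  have hprod : ∑ P ∈ F.powerset, ∏ x ∈ P, (A⁻¹) ^ (m x) = ∏ x ∈ F, (1 + (A⁻¹) ^ (m x)) := by
    rw [Finset.prod_one_add]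
  rw [hprod]
  have hexp : ∏ x ∈ F, (1 + (A⁻¹) ^ (m x)) ≤ Real.exp (∑ x ∈ F, (A⁻¹) ^ (m x)) := by
    rw [Real.exp_sum]
    refine Finset.prod_le_prod (fun x _ => by positivity) (fun x _ => ?_)
    rw [add_comm]
    exact Real.add_one_le_exp _
  have h5 : Real.exp (∑ x ∈ F, (A⁻¹) ^ (m x)) ≤ 2 := by
    refine le_trans (Real.exp_le_exp.2 hsum) ?_
    have h6 : Real.exp (1 / 5) ≤ 1 / (1 - 1 / 5) := by
      have := Real.one_sub_le_exp_neg (1 / 5)
      rw [Real.exp_neg] at this
      have h7 : (0 : ℝ) < 1 - 1 / 5 := by norm_num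
      rw [le_div_iff₀ h7]
      have h8 := Real.exp_pos (1 / 5)
      calc Real.exp (1 / 5) * (1 - 1 / 5) ≤ Real.exp (1 / 5) * (Real.exp (1 / 5))⁻¹ :=
            mul_le_mul_of_nonneg_left this h8.le
        _ = 1 := mul_inv_cancel₀ h8.ne'
    refine le_trans h6 (by norm_num)
  calc A ^ K * ∏ x ∈ F, (1 + (A⁻¹) ^ (m x)) ≤ A ^ K * 2 :=
        mul_le_mul_of_nonneg_left (hexp.trans h5) (by positivity)
    _ = 2 * A ^ K := by ring

/-- Let `f ≥ 0` with `∑_{x ∋ u} f x ≤ N` for all sites `u`.  Then the sum over the configurations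
whose hull contains `w`, with an additional factor `e^{-4 m(x)}`, is at most `N / 5`. -/
theorem sum_hull_le (L : ℕ) [NeZero L] (d : ℕ) [NeZero d] (Y : (Site L → Fin d) → Finset (Site L))
    (m : (Site L → Fin d) → ℕ) (hY : ∀ x ∈ X0, RConn (tadj L) (Y x)) (hs : ∀ x ∈ X0, supp x ⊆ Y x)
    (hm : ∀ x ∈ X0, (Y x).card = m x) (f : (Site L → Fin d) → ℝ) (hf : ∀ x, 0 ≤ f x) {N : ℝ}
    (hN : ∀ u : Site L, ∑ x ∈ (X0 : Finset (Site L → Fin d)).filter (fun x => u ∈ supp x), f x ≤ N)
    (w : Site L) :
    ∑ x ∈ (X0 : Finset (Site L → Fin d)).filter (fun x => w ∈ Y x),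
      Real.exp (-(4 * m x)) * f x ≤ N / 5 := by
  have hN0 : 0 ≤ N := le_trans (Finset.sum_nonneg fun x _ => hf x) (hN w)
  refine Animals.sum_fib_le L d Y hY (fun x => Real.exp (-(4 * m x)) * f x) hN0 ?_ ?_ w
    (animals_le L w)
  · intro V
    show ∑ x ∈ (X0 : Finset (Site L → Fin d)).filter (fun x => Y x = V),
      Real.exp (-(4 * m x)) * f x ≤ (1 / 14 : ℝ) ^ V.card * N
    have h1 : ∀ x ∈ (X0 : Finset (Site L → Fin d)).filter (fun x => Y x = V),
        Real.exp (-(4 * m x)) * f x = Real.exp (-(4 * V.card)) * f x := by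
      intro x hx
      rw [Finset.mem_filter] at hx
      rw [← hm x hx.1, hx.2]
    rw [Finset.sum_congr rfl h1, ← Finset.mul_sum]
    have h2 : ∑ x ∈ (X0 : Finset (Site L → Fin d)).filter (fun x => Y x = V), f x ≤
        V.card * N := by
      have h3 : (X0 : Finset (Site L → Fin d)).filter (fun x => Y x = V) ⊆
          V.biUnion (fun u => (X0 : Finset (Site L → Fin d)).filter (fun x => u ∈ supp x)) := by
        intro x hx
        rw [Finset.mem_filter] at hx
        have hx0 : x ≠ 0 := (Finset.mem_filter.1 hx.1).2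
        have hne : (supp x).Nonempty := by
          rw [Finset.nonempty_iff_ne_empty]
          intro h
          exact hx0 (supp_eq_empty.1 h)
        obtain ⟨u, hu⟩ := hne
        rw [Finset.mem_biUnion]
        refine ⟨u, ?_, Finset.mem_filter.2 ⟨hx.1, hu⟩⟩
        rw [← hx.2]
        exact hs x hx.1 hu
      calc ∑ x ∈ (X0 : Finset (Site L → Fin d)).filter (fun x => Y x = V), f x
          ≤ ∑ x ∈ V.biUnion (fun u => (X0 : Finset (Site L → Fin d)).filter
            (fun x => u ∈ supp x)), f x :=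
            Finset.sum_le_sum_of_subset_of_nonneg h3 (fun x _ _ => hf x)
        _ ≤ ∑ u ∈ V, ∑ x ∈ (X0 : Finset (Site L → Fin d)).filter (fun x => u ∈ supp x), f x :=
            Animals.sum_biUnion_le V _ f (fun x => hf x)
        _ ≤ ∑ u ∈ V, N := Finset.sum_le_sum fun u _ => hN u
        _ = V.card * N := by rw [Finset.sum_const, nsmul_eq_mul]
    have h4 : (V.card : ℝ) * Real.exp (-(4 * V.card)) ≤ (1 / 14 : ℝ) ^ V.card := by
      have h5 : (V.card : ℝ) ≤ 2 ^ V.card := by
        exact_mod_cast (Nat.lt_two_pow_self (n := V.card)).le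
      have h6 : Real.exp (-(4 * V.card)) = (Real.exp (-4)) ^ V.card := by
        rw [← Real.exp_nat_mul]; congr 1; ring
      have h7 : Real.exp (-4) ≤ 1 / 28 := by
        rw [Real.exp_neg, ← one_div]
        refine one_div_le_one_div_of_le (by norm_num) ?_
        have h8 : (2.7 : ℝ) < Real.exp 1 := lt_trans (by norm_num) Real.exp_one_gt_d9
        have h9 : Real.exp 4 = (Real.exp 1) ^ 4 := by
          rw [← Real.exp_nat_mul]; norm_num
        rw [h9]
        calc (28 : ℝ) ≤ 2.7 ^ 4 := by norm_num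
          _ ≤ Real.exp 1 ^ 4 := pow_le_pow_left₀ (by norm_num) h8.le 4
      rw [h6]
      calc (V.card : ℝ) * (Real.exp (-4)) ^ V.card ≤ 2 ^ V.card * (1 / 28) ^ V.card := by
            refine mul_le_mul h5 (pow_le_pow_left₀ (Real.exp_pos _).le h7 _) (by positivity)
              (by positivity)
        _ = (1 / 14 : ℝ) ^ V.card := by rw [← mul_pow]; norm_num
    calc Real.exp (-(4 * V.card)) *
          ∑ x ∈ (X0 : Finset (Site L → Fin d)).filter (fun x => Y x = V), f x
        ≤ Real.exp (-(4 * V.card)) * (V.card * N) :=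
          mul_le_mul_of_nonneg_left h2 (Real.exp_pos _).le
      _ = (V.card * Real.exp (-(4 * V.card))) * N := by ring
      _ ≤ (1 / 14 : ℝ) ^ V.card * N := mul_le_mul_of_nonneg_right h4 hN0
  · intro x
    exact mul_nonneg (Real.exp_pos _).le (hf x)

end Pool.Agent.WP
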