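import Pool.Agent.WP.Alg
import Pool.Agent.Hhelper96.PEPS.Defs

/-!
Definitions for project WP (weak perturbations of classical Hamiltonians, PEPS of polynomial bond
dimension).
-/

set_option autoImplicit false
set_option linter.unusedSectionVars false

open scoped BigOperators

namespace Pool.Agent.WP

open Alg

/-- nonempty finite sets connected for the relation `r` -/
def RConn {ι : Type} (r : ι → ι → Prop) (U : Finset ι) : Prop :=
  U.Nonempty ∧ ∀ x ∈ U, ∀ y ∈ U, Relation.ReflTransGen (fun a b => a ∈ U ∧ b ∈ U ∧ r a b) x y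

/-- least size of a connected set containing `X` (`0` if there is none) -/
noncomputable def msz {S : Type} (r : S → S → Prop) (X : Finset S) : ℕ :=
  sInf {n | ∃ V : Finset S, RConn r V ∧ X ⊆ V ∧ V.card = n}

/-- the neighbour relation of the `L × L` torus -/
def tadj (L : ℕ) (u v : Hhelper96.PEPS.Site L) : Prop :=
  v = u + (1, 0) ∨ u = v + (1, 0) ∨ v = u + (0, 1) ∨ u = v + (0, 1)

/-- truncation: no site is covered by the hulls `Y x` of total size more than `K` -/
def Allowed {ι S : Type} [DecidableEq S] (Y : ι → Finset S) (m : ι → ℕ) (K : ℕ) (U : Finset ι) :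
    Prop := ∀ w : S, ∑ x ∈ U.filter (fun x => w ∈ Y x), m x ≤ K

section alg

variable {S : Type} [Fintype S] [DecidableEq S] {d : ℕ} [NeZero d]

/-- weighted `ℓ¹` norm -/
noncomputable def wn (w : (S → Fin d) → ℝ) (f : Alg S d) : ℝ := ∑ x, w x * ‖f x‖

/-- nonzero configurations whose support meets `W` -/
def XW (W : Finset S) : Finset (S → Fin d) := Finset.univ.filter (fun x => ¬ Disjoint (supp x) W)

/-- nonzero configurations -/
def X0 : Finset (S → Fin d) := Finset.univ.filter (fun x => x ≠ 0)

/-- `∏ (1 + T x a_x)`, that is, `exp (∑ T x a_x)` -/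
noncomputable def EP (X : Finset (S → Fin d)) (T : (S → Fin d) → ℂ) : Alg S d :=
  ∏ x ∈ X, (1 + T x • e x)

/-- the linear part `∑ T x a_x` -/
noncomputable def LP (X : Finset (S → Fin d)) (T : (S → Fin d) → ℂ) : Alg S d :=
  ∑ x ∈ X, T x • e x

/-- `M` acts on the window `W`: it commutes with the creation operators off `W` -/
def ActsOn (W : Finset S) (M : Alg S d →ₗ[ℂ] Alg S d) : Prop :=
  ∀ x : S → Fin d, Disjoint (supp x) W → ∀ φ, M (e x * φ) = e x * M φ

/-- `e^{-T_W} M e^{T_W} |0>` -/
noncomputable def Pv (W : Finset S) (M : Alg S d →ₗ[ℂ] Alg S d) (T : (S → Fin d) → ℂ) : Alg S d :=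
  EP (XW W) (-T) * M (EP (XW W) T)

/-- translates of configurations -/
def tr [AddCommGroup S] (u : S) (x : S → Fin d) : S → Fin d := fun w => x (w - u)

/-- the averaged weighted norm: `(1/|S|) ∑ |supp x| e^{c m(x)} |T x|` -/
noncomputable def NT (r : S → S → Prop) (c : ℝ) (T : (S → Fin d) → ℂ) : ℝ :=
  (Fintype.card S : ℝ)⁻¹ * ∑ x : S → Fin d, (supp x).card * Real.exp (c * msz r (supp x)) * ‖T x‖

end alg

end Pool.Agent.WP
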