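import Pool.Agent.Hhelper96.PEPS.Stable

/-!
Comparison of the ground state energy densities of a smaller torus `m` and a larger torus `N`:
`e_m ≤ e_N + C / m`.

PROOF (variational).  Identify the sites of the torus `m` with the box `[0, m)²` of the torus `N`
(`ι : Site m → Site N`, representatives of `ZMod m` in `[0, m)`), let `ρ = ptrace ι (density ψ_N)`, a
positive matrix of trace one on the configurations of the torus `m`.  It is the sum over the
configurations `σ` outside the box of the rank one matrices of the vectors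
`χ_σ (x) = ψ_N (x ∪ σ) / ‖ψ_N‖`; `∑_σ sqn χ_σ = 1` and `E_m sqn χ_σ ≤ ex H_m χ_σ` (`GS.le`).  Summing
over `σ`: `E_m ≤ ∑_v Re tr (ρ τ_v)`, `τ_v` the local terms of the torus `m`.  If `place m v p` does not
wrap around for all `p ∈ W` (all but at most `4 r m` of the `m²` sites `v`, with `W` in an `r × r`
box), `tr (ρ τ_v)` is the energy per site `e_N` of `ψ_N` (translation invariance: `reduced_eq_of_TI`,
marginals of marginals); for the other `v` it is at most a constant `B` (`bd_opAt`, `locBd`), and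
`|e_N| ≤ B` too.  So `m² e_m ≤ m² e_N + 8 r m B`.
-/

set_option autoImplicit false

open scoped BigOperators
open Matrix

namespace Pool.Agent.Hhelper96.PEPS

section slice

variable {S T U : Type} [Fintype S] [DecidableEq S] [Fintype T] [DecidableEq T]
  [Fintype U] [DecidableEq U] {d : ℕ}

open Classical in
theorem eb_sum_sqn {ι : T → S} (hι : Function.Injective ι) (ψ : (S → Fin d) → ℂ) :
    ∑ σ : {u // ¬ u ∈ Set.range ι} → Fin d, sqn (fun x : T → Fin d => ψ (glue ι x σ)) = sqn ψ := by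
  have e : sqn ψ = ∑ p : (T → Fin d) × ({u // ¬ u ∈ Set.range ι} → Fin d),
      ‖ψ (glue ι p.1 p.2)‖ ^ 2 := by
    unfold sqn
    rw [← Equiv.sum_comp (glueEquiv ι hι)]
    rfl
  rw [e, Fintype.sum_prod_type_right]
  rfl

open Classical in
theorem eb_ptrace_outer {ι : T → S} (hι : Function.Injective ι) (ψ : (S → Fin d) → ℂ) :
    ptrace ι (outer ψ) = ∑ σ : {u // ¬ u ∈ Set.range ι} → Fin d,
      outer (fun x : T → Fin d => ψ (glue ι x σ)) := by
  ext a b
  rw [ptrace_eq_glue ι hι, Matrix.sum_apply]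
  rfl

open Classical in
theorem eb_sum_ex {ι : T → S} (hι : Function.Injective ι) (ψ : (S → Fin d) → ℂ)
    (κ : U → T) (p : Matrix (U → Fin d) (U → Fin d) ℂ) :
    ∑ σ : {u // ¬ u ∈ Set.range ι} → Fin d,
      ex (opAt κ p) (fun x : T → Fin d => ψ (glue ι x σ)) = ex (opAt (ι ∘ κ) p) ψ := by
  unfold ex
  rw [← Complex.re_sum]
  congr 1
  have h1 : ∀ σ : {u // ¬ u ∈ Set.range ι} → Fin d,
      star (fun x : T → Fin d => ψ (glue ι x σ)) ⬝ᵥ
        (opAt κ p).mulVec (fun x : T → Fin d => ψ (glue ι x σ)) =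
      ptf κ p (outer (fun x : T → Fin d => ψ (glue ι x σ))) := fun σ => form_opAt κ p _
  rw [Finset.sum_congr rfl (fun σ _ => h1 σ), ← map_sum, ← eb_ptrace_outer hι]
  change (ptrace κ (ptrace ι (outer ψ)) * p).trace = _
  rw [form_opAt, ← ptrace_comp _ _ hι]

end slice

section geometry

/-- identify the torus `m` with the box `[0, m)²` of the torus `N` -/
def eb_emb (m N : ℕ) [NeZero m] (v : Site m) : Site N := ((v.1.val : ZMod N), (v.2.val : ZMod N))

theorem eb_cast_inj {m N : ℕ} [NeZero m] [NeZero N] (hmN : m ≤ N) {x y : ZMod m}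
    (h : ((x.val : ℕ) : ZMod N) = ((y.val : ℕ) : ZMod N)) : x = y := by
  have h1 := congrArg ZMod.val h
  rw [ZMod.val_natCast, ZMod.val_natCast, Nat.mod_eq_of_lt ((ZMod.val_lt x).trans_le hmN),
    Nat.mod_eq_of_lt ((ZMod.val_lt y).trans_le hmN)] at h1
  exact ZMod.val_injective m h1

theorem eb_emb_injective {m N : ℕ} [NeZero m] [NeZero N] (hmN : m ≤ N) :
    Function.Injective (eb_emb m N) := by
  intro v w h
  have h1 := congrArg Prod.fst h
  have h2 := congrArg Prod.snd h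
  exact Prod.ext (eb_cast_inj hmN h1) (eb_cast_inj hmN h2)

/-- no wrap around -/
def eb_good (m r : ℕ) (a : ℤ) (x : ZMod m) : Prop := ((x.val : ℤ) + a) % m + r ≤ m

theorem eb_coord {m N r : ℕ} [NeZero m] {a : ℤ} {x : ZMod m} (hx : eb_good m r a x) :
    ∃ y : ZMod N, ∀ p : ℤ, a ≤ p → p < a + r →
      (((x + (p : ZMod m)).val : ℕ) : ZMod N) = y + (p : ZMod N) := by
  have hm : (0 : ℤ) < m := by exact_mod_cast Nat.pos_of_ne_zero (NeZero.ne m)
  refine ⟨(((x.val : ℤ) - m * (((x.val : ℤ) + a) / m) : ℤ) : ZMod N), fun p h1 h2 => ?_⟩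
  have e1 : (((x + (p : ZMod m)).val : ℕ) : ℤ) = (x.val : ℤ) + p - m * (((x.val : ℤ) + a) / m) := by
    have e2 : x + (p : ZMod m) = (((x.val : ℤ) + p : ℤ) : ZMod m) := by
      push_cast
      rw [ZMod.natCast_zmod_val]
    rw [e2, ZMod.val_intCast]
    have e3 := Int.emod_add_mul_ediv ((x.val : ℤ) + a) m
    have e4 := Int.emod_nonneg ((x.val : ℤ) + a) hm.ne'
    unfold eb_good at hx
    have e5 : (x.val : ℤ) + p = ((x.val : ℤ) + p - m * (((x.val : ℤ) + a) / m)) +
      m * (((x.val : ℤ) + a) / m) := by ring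
    rw [e5, Int.add_mul_emod_self_left]
    have e6 : ((x.val : ℤ) + p - m * (((x.val : ℤ) + a) / m)) + m * (((x.val : ℤ) + a) / m) -
      m * (((x.val : ℤ) + a) / m) = (x.val : ℤ) + p - m * (((x.val : ℤ) + a) / m) := by ring
    rw [e6]
    apply Int.emod_eq_of_lt
    · linarith
    · linarith
  have e7 : (((x + (p : ZMod m)).val : ℕ) : ZMod N) =
      ((((x + (p : ZMod m)).val : ℕ) : ℤ) : ZMod N) := by push_cast; rfl
  rw [e7, e1]
  push_cast
  ring

open Classical in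
theorem eb_card_bad {m r : ℕ} [NeZero m] (a : ℤ) (hr : r ≤ m) :
    (Finset.univ.filter (fun x : ZMod m => ¬ eb_good m r a x)).card ≤ r := by
  have hm : (0 : ℤ) < m := by exact_mod_cast Nat.pos_of_ne_zero (NeZero.ne m)
  have h1 : (Finset.univ.filter (fun x : ZMod m => ¬ eb_good m r a x)).card ≤
      (Finset.Ico (m - r) m).card := by
    apply Finset.card_le_card_of_injOn (fun x : ZMod m => (x + (a : ZMod m)).val)
    · intro x hx
      have hx := (Finset.mem_filter.1 (Finset.mem_coe.1 hx)).2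
      unfold eb_good at hx
      have e2 : x + (a : ZMod m) = (((x.val : ℤ) + a : ℤ) : ZMod m) := by
        push_cast
        rw [ZMod.natCast_zmod_val]
      have e3 : (((x + (a : ZMod m)).val : ℕ) : ℤ) = ((x.val : ℤ) + a) % m := by
        rw [e2, ZMod.val_intCast]
      simp only [Finset.coe_Ico, Set.mem_Ico]
      refine ⟨?_, ZMod.val_lt _⟩
      omega
    · intro x _ y _ h
      exact add_right_cancel (ZMod.val_injective m h)
  rw [Nat.card_Ico] at h1
  omega

end geometry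

section energies

variable {d : ℕ} {F R W : Finset (ℤ × ℤ)} (hFW : F ⊆ W) (hRW : R ⊆ W)

theorem eb_enf_le {L : ℕ} [NeZero L] {r : ℕ} {a b : ℤ} (hrL : r ≤ L)
    (hR : ∀ p ∈ R, a ≤ p.1 ∧ p.1 < a + r ∧ b ≤ p.2 ∧ p.2 < b + r)
    (k : Matrix (R → Fin d) (R → Fin d) ℂ) (v : Site L) {Φ : (Site L → Fin d) → ℂ} (hΦ : Φ ≠ 0) :
    |enf k (reduced L R v Φ)| ≤ locBd k := by
  have h1 := (bd_opAt (place_injective hrL R a b hR v) k).abs_ex_le Φ
  rw [← localTerm_eq_opAt, ex_localTerm R k v hΦ, abs_mul, abs_of_pos (sqn_pos hΦ), mul_comm] at h1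
  exact le_of_mul_le_mul_right h1 (sqn_pos hΦ)

theorem eb_ltot_eq {L : ℕ} [NeZero L] (v : Site L)
    (hW : Function.Injective (fun p : W => place L v p))
    (h : Matrix (F → Fin d) (F → Fin d) ℂ) (k : Matrix (R → Fin d) (R → Fin d) ℂ) (s : ℝ)
    (Φ : (Site L → Fin d) → ℂ) :
    ltot hFW hRW h k s (reduced L W v Φ) = enf h (reduced L F v Φ) + s * enf k (reduced L R v Φ) := by
  rw [reduced_incl hFW v hW, reduced_incl hRW v hW]
  rfl

end energies

theorem energy_box {d : ℕ} {F R W : Finset (ℤ × ℤ)} (hFW : F ⊆ W) (hRW : R ⊆ W)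
    {r : ℕ} (hr : 1 ≤ r) (a b : ℤ)
    (hW : ∀ p ∈ W, a ≤ p.1 ∧ p.1 < a + r ∧ b ≤ p.2 ∧ p.2 < b + r)
    {h : Matrix (F → Fin d) (F → Fin d) ℂ} {k : Matrix (R → Fin d) (R → Fin d) ℂ}
    (hh : h.IsHermitian) (hk : k.IsHermitian) :
    ∃ C : ℝ, 0 ≤ C ∧ ∀ s ∈ Set.Icc (0 : ℝ) 1, ∀ (m N : ℕ) [NeZero m] [NeZero N], r ≤ m → m ≤ N →
      ∀ (Δ Δ' : ℝ), 0 < Δ → 0 < Δ' → ∀ (φ : (Site m → Fin d) → ℂ) (ψ : (Site N → Fin d) → ℂ),
        IsGappedGround (hamiltonian m F h + (s : ℂ) • hamiltonian m R k) Δ φ →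
        IsGappedGround (hamiltonian N F h + (s : ℂ) • hamiltonian N R k) Δ' ψ →
        ltot hFW hRW h k s (reduced m W 0 φ) ≤ ltot hFW hRW h k s (reduced N W 0 ψ) + C / m := by
  classical
  obtain ⟨B, hB⟩ : ∃ B : ℝ, B = locBd h + locBd k := ⟨_, rfl⟩
  have hB0 : 0 ≤ B := by rw [hB]; exact add_nonneg (locBd_nonneg h) (locBd_nonneg k)
  refine ⟨4 * r * B, by positivity, ?_⟩
  intro s hs m N _ _ hrm hmN Δ Δ' hΔ hΔ' φ ψ hφ hψ
  have hm0 : (0 : ℝ) < m := by exact_mod_cast Nat.pos_of_ne_zero (NeZero.ne m)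
  have hrN : r ≤ N := hrm.trans hmN
  have hinjm : ∀ v : Site m, Function.Injective (fun p : W => place m v p) :=
    fun v => place_injective hrm W a b hW v
  have hinjN : ∀ v : Site N, Function.Injective (fun p : W => place N v p) :=
    fun v => place_injective hrN W a b hW v
  have hinjF : ∀ v : Site m, Function.Injective (fun p : F => place m v p) :=
    fun v => place_injective hrm F a b (fun p hp => hW p (hFW hp)) v
  have hinjR : ∀ v : Site m, Function.Injective (fun p : R => place m v p) :=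
    fun v => place_injective hrm R a b (fun p hp => hW p (hRW hp)) v
  have hψ0 : ψ ≠ 0 := hψ.1
  have hsq := sqn_pos hψ0
  obtain ⟨ι, hιd⟩ : ∃ ι : Site m → Site N, ι = eb_emb m N := ⟨_, rfl⟩
  have hι : Function.Injective ι := by rw [hιd]; exact eb_emb_injective hmN
  obtain ⟨E, c, hc, hgs⟩ := gs_of_gapped (isHermitian_total hh hk s) hΔ hφ
  have hE := energy_eq hFW hRW hinjm s hΔ hφ hc hgs
  obtain ⟨e, he⟩ : ∃ e : Site m → ℝ, e = fun v =>
      ex (opAt (ι ∘ (fun p : F => place m v p)) h) ψ +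
        s * ex (opAt (ι ∘ (fun p : R => place m v p)) k) ψ := ⟨_, rfl⟩
  -- the variational bound
  have hvar : E * sqn ψ ≤ ∑ v : Site m, e v := by
    rw [← eb_sum_sqn hι ψ, Finset.mul_sum]
    refine (Finset.sum_le_sum (fun σ _ =>
      hgs.le (isHermitian_total hh hk s) hΔ.le (fun x : Site m → Fin d => ψ (glue ι x σ)))).trans ?_
    apply le_of_eq
    simp_rw [ex_add, ex_smul]
    unfold hamiltonian
    simp_rw [ex_sum]
    rw [Finset.sum_add_distrib, ← Finset.mul_sum, he]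
    simp only
    rw [Finset.sum_add_distrib, ← Finset.mul_sum]
    congr 1
    · rw [Finset.sum_comm]
      refine Finset.sum_congr rfl (fun v _ => ?_)
      rw [← eb_sum_ex hι ψ]
      simp_rw [localTerm_eq_opAt]
    · congr 1
      rw [Finset.sum_comm]
      refine Finset.sum_congr rfl (fun v _ => ?_)
      rw [← eb_sum_ex hι ψ]
      simp_rw [localTerm_eq_opAt]
  obtain ⟨l, hl⟩ : ∃ l, l = ltot hFW hRW h k s (reduced N W 0 ψ) := ⟨_, rfl⟩
  -- the good sites
  have hgood : ∀ v : Site m, eb_good m r a v.1 → eb_good m r b v.2 → e v = sqn ψ * l := by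
    intro v h1 h2
    obtain ⟨y1, hy1⟩ := eb_coord (N := N) h1
    obtain ⟨y2, hy2⟩ := eb_coord (N := N) h2
    have hp : ∀ p ∈ W, ι (place m v p) = place N (y1, y2) p := by
      intro p hp
      obtain ⟨q1, q2, q3, q4⟩ := hW p hp
      rw [hιd]
      exact Prod.ext (hy1 p.1 q1 q2) (hy2 p.2 q3 q4)
    have hF : (ι ∘ (fun p : F => place m v p)) = fun p : F => place N (y1, y2) p := by
      funext p
      exact hp p (hFW p.2)
    have hR : (ι ∘ (fun p : R => place m v p)) = fun p : R => place N (y1, y2) p := by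
      funext p
      exact hp p (hRW p.2)
    rw [he]
    simp only
    rw [hF, hR, ← localTerm_eq_opAt, ← localTerm_eq_opAt, ex_localTerm F h _ hψ0,
      ex_localTerm R k _ hψ0, hl, eb_ltot_eq hFW hRW 0 (hinjN 0),
      reduced_eq_of_TI (sum_TI F R h k s) hΔ' hψ F (y1, y2),
      reduced_eq_of_TI (sum_TI F R h k s) hΔ' hψ R (y1, y2)]
    ring
  have hs0 := hs.1
  have hs1 := hs.2
  have hlB : |l| ≤ B := by
    rw [hl, eb_ltot_eq hFW hRW 0 (hinjN 0), hB]
    refine (abs_add_le _ _).trans (add_le_add ?_ ?_)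
    · exact eb_enf_le hrN (fun p hp => hW p (hFW hp)) h 0 hψ0
    · rw [abs_mul, abs_of_nonneg hs0]
      have h1 := eb_enf_le hrN (fun p hp => hW p (hRW hp)) k (0 : Site N) hψ0
      have h2 := abs_nonneg (enf k (reduced N R 0 ψ))
      nlinarith
  have heB : ∀ v : Site m, |e v| ≤ B * sqn ψ := by
    intro v
    rw [he, hB, add_mul]
    refine (abs_add_le _ _).trans (add_le_add ?_ ?_)
    · exact (bd_opAt (hι.comp (hinjF v)) h).abs_ex_le ψ
    · rw [abs_mul, abs_of_nonneg hs0]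
      have h1 := (bd_opAt (hι.comp (hinjR v)) k).abs_ex_le ψ
      have h2 := abs_nonneg (ex (opAt (ι ∘ (fun p : R => place m v p)) k) ψ)
      nlinarith
  -- counting the bad sites
  obtain ⟨bad, hbad⟩ : ∃ bad : Finset (Site m), bad =
      Finset.univ.filter (fun v : Site m => ¬ (eb_good m r a v.1 ∧ eb_good m r b v.2)) := ⟨_, rfl⟩
  have hcard : (bad.card : ℝ) ≤ 2 * r * m := by
    have h1 : bad ⊆ ((Finset.univ.filter (fun x : ZMod m => ¬ eb_good m r a x)) ×ˢ
        (Finset.univ : Finset (ZMod m))) ∪ ((Finset.univ : Finset (ZMod m)) ×ˢ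
          (Finset.univ.filter (fun x : ZMod m => ¬ eb_good m r b x))) := by
      intro v hv
      rw [hbad] at hv
      have hv := (Finset.mem_filter.1 hv).2
      rw [Finset.mem_union, Finset.mem_product, Finset.mem_product]
      by_cases h2 : eb_good m r a v.1
      · right
        refine ⟨Finset.mem_univ _, Finset.mem_filter.2 ⟨Finset.mem_univ _, fun h3 => hv ⟨h2, h3⟩⟩⟩
      · left
        exact ⟨Finset.mem_filter.2 ⟨Finset.mem_univ _, h2⟩, Finset.mem_univ _⟩
    have h2 := (Finset.card_le_card h1).trans (Finset.card_union_le _ _)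
    rw [Finset.card_product, Finset.card_product, Finset.card_univ, ZMod.card] at h2
    have h3 := eb_card_bad a hrm
    have h4 := eb_card_bad b hrm
    have h5 : bad.card ≤ 2 * r * m := by
      have h6 := Nat.mul_le_mul_right m h3
      have h7 := Nat.mul_le_mul_left m h4
      calc bad.card ≤ _ := h2
        _ ≤ r * m + m * r := add_le_add h6 h7
        _ = 2 * r * m := by ring
    exact_mod_cast h5
  have hsum : ∑ v : Site m, e v ≤ (m : ℝ) ^ 2 * (sqn ψ * l) + (2 * r * m) * (2 * (B * sqn ψ)) := by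
    have h1 : ∑ v : Site m, (e v - sqn ψ * l) ≤ ∑ v : Site m,
        if v ∈ bad then 2 * (B * sqn ψ) else 0 := by
      refine Finset.sum_le_sum (fun v _ => ?_)
      by_cases hv : v ∈ bad
      · rw [if_pos hv]
        have h2 := (abs_le.1 (heB v)).2
        have h3 := (abs_le.1 hlB).1
        nlinarith
      · rw [if_neg hv]
        have hv' : eb_good m r a v.1 ∧ eb_good m r b v.2 := by
          by_contra h2
          exact hv (by rw [hbad]; exact Finset.mem_filter.2 ⟨Finset.mem_univ _, h2⟩)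
        rw [hgood v hv'.1 hv'.2]
        linarith
    rw [Finset.sum_ite_mem, Finset.univ_inter, Finset.sum_const, nsmul_eq_mul,
      Finset.sum_sub_distrib, Finset.sum_const, Finset.card_univ, Fintype.card_prod, ZMod.card,
      nsmul_eq_mul] at h1
    push_cast at h1
    have h4 : (bad.card : ℝ) * (2 * (B * sqn ψ)) ≤ (2 * r * m) * (2 * (B * sqn ψ)) :=
      mul_le_mul_of_nonneg_right hcard (by positivity)
    nlinarith
  rw [hE] at hvar
  rw [← hl]
  obtain ⟨x, hx⟩ : ∃ x, x = ltot hFW hRW h k s (reduced m W 0 φ) := ⟨_, rfl⟩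
  rw [← hx] at hvar ⊢
  have h1 : ((m : ℝ) ^ 2 * x) * sqn ψ ≤ ((m : ℝ) ^ 2 * l + 4 * r * m * B) * sqn ψ := by
    refine hvar.trans (hsum.trans (le_of_eq ?_))
    ring
  have h2 := le_of_mul_le_mul_right h1 hsq
  have h3 : (m : ℝ) ^ 2 * (l + 4 * r * B / m) = (m : ℝ) ^ 2 * l + 4 * r * m * B := by
    field_simp
  rw [← h3] at h2
  exact le_of_mul_le_mul_left h2 (by positivity)

/-- the other direction, for much larger tori, with a rate (from `core_uniform` with
`ε = (4 r + 5) / (m - r - 1)`) -/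
theorem energy_core {d : ℕ} {F R W : Finset (ℤ × ℤ)} (hFW : F ⊆ W) (hRW : R ⊆ W)
    {r : ℕ} (hr : 1 ≤ r) (a b : ℤ)
    (hW : ∀ p ∈ W, a ≤ p.1 ∧ p.1 < a + r ∧ b ≤ p.2 ∧ p.2 < b + r)
    {h : Matrix (F → Fin d) (F → Fin d) ℂ} {k : Matrix (R → Fin d) (R → Fin d) ℂ}
    (hh : h.IsHermitian) (hk : k.IsHermitian) :
    ∃ C : ℝ, 0 ≤ C ∧ ∃ m₀ : ℕ, ∀ s ∈ Set.Icc (0 : ℝ) 1, ∀ (m N : ℕ) [NeZero m] [NeZero N],
      m₀ ≤ m → (2 * m + 2) ^ 2 ≤ N → (2 * m + 3) * W.card < N →
      ∀ (Δ Δ' : ℝ), 0 < Δ → 0 < Δ' → ∀ (φ : (Site m → Fin d) → ℂ) (ψ : (Site N → Fin d) → ℂ),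
        IsGappedGround (hamiltonian m F h + (s : ℂ) • hamiltonian m R k) Δ φ →
        IsGappedGround (hamiltonian N F h + (s : ℂ) • hamiltonian N R k) Δ' ψ →
        ltot hFW hRW h k s (reduced N W 0 ψ) ≤ ltot hFW hRW h k s (reduced m W 0 φ) + C / m := by
  obtain ⟨C₁, h10, hC₁⟩ := exists_functional_bound (ptf (fun p : F => (⟨p.1, hFW p.2⟩ : W)) h)
  obtain ⟨C₂, h20, hC₂⟩ := exists_functional_bound (ptf (fun p : R => (⟨p.1, hRW p.2⟩ : W)) k)
  obtain ⟨C, hCd⟩ : ∃ C : ℝ, C = C₁ + C₂ := ⟨_, rfl⟩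
  have hC0 : 0 ≤ C := by rw [hCd]; exact add_nonneg h10 h20
  refine ⟨C * (4 * r + 5), by positivity, r + 2, ?_⟩
  intro s hs m N _ _ hm hN1 hN2 Δ Δ' hΔ hΔ' φ ψ hφ hψ
  have hs0 := hs.1
  have hs1 := hs.2
  have hm0 : (0 : ℝ) < m := by exact_mod_cast Nat.pos_of_ne_zero (NeZero.ne m)
  have hrN : r ≤ N := by nlinarith
  have hinjN : ∀ v : Site N, Function.Injective (fun p : W => place N v p) :=
    fun v => place_injective hrN W a b hW v
  have hC : ∀ X Y : Matrix (W → Fin d) (W → Fin d) ℂ,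
      ltot hFW hRW h k s X ≤ ltot hFW hRW h k s Y + C * traceNorm (X - Y) := by
    intro X Y
    have e1 : ltot hFW hRW h k s X - ltot hFW hRW h k s Y =
        (ptf (fun p : F => (⟨p.1, hFW p.2⟩ : W)) h (X - Y)).re +
          s * (ptf (fun p : R => (⟨p.1, hRW p.2⟩ : W)) k (X - Y)).re := by
      unfold ltot
      rw [map_sub, map_sub, Complex.sub_re, Complex.sub_re]
      ring
    have e2 := (abs_le.1 (hC₁ (X - Y))).2
    have e3 := (abs_le.1 (hC₂ (X - Y))).2
    have e4 : s * (ptf (fun p : R => (⟨p.1, hRW p.2⟩ : W)) k (X - Y)).re ≤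
        s * (C₂ * traceNorm (X - Y)) := mul_le_mul_of_nonneg_left e3 hs0
    have e5 : s * (C₂ * traceNorm (X - Y)) ≤ 1 * (C₂ * traceNorm (X - Y)) :=
      mul_le_mul_of_nonneg_right hs1 (mul_nonneg h20 (traceNorm_nonneg (X - Y)))
    rw [hCd, add_mul]
    linarith
  obtain ⟨ε, hε⟩ : ∃ ε : ℝ, ε = (4 * r + 5) / ((m - r - 1 : ℕ) : ℝ) := ⟨_, rfl⟩
  have hmr : (0 : ℝ) < ((m - r - 1 : ℕ) : ℝ) := by exact_mod_cast (by omega : 0 < m - r - 1)
  have hε0 : 0 < ε := by rw [hε]; positivity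
  have hbox : boxSide r ε = m := by
    unfold boxSide
    have h1 : (4 * (r : ℝ) + 5) / ε = ((m - r - 1 : ℕ) : ℝ) := by
      rw [hε]
      field_simp
    rw [h1, Nat.ceil_natCast]
    omega
  obtain ⟨D, _, A, hA⟩ := core_uniform d r hr hε0 W a b hW m (by rw [hbox]) φ hφ.1
    (fun w => reduced_eq_of_TI (sum_TI F R h k s) hΔ hφ W w)
  rw [hbox] at hA
  obtain ⟨h7, h8⟩ := hA N hN1 hN2
  obtain ⟨Φ, hΦ⟩ : ∃ Φ, Φ = pepsVec N A := ⟨_, rfl⟩
  rw [← hΦ] at h7 h8
  obtain ⟨E, c, hc, hgs⟩ := gs_of_gapped (isHermitian_total hh hk s) hΔ' hψ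
  have h9 := energy_eq hFW hRW hinjN s hΔ' hψ hc hgs
  have h10 := hgs.le (isHermitian_total hh hk s) hΔ'.le Φ
  rw [ex_total hFW hRW h k s hinjN h7, mul_comm] at h10
  have h11 := le_of_mul_le_mul_left h10 (sqn_pos h7)
  have h12 : ∀ v : Site N, ltot hFW hRW h k s (reduced N W v Φ) ≤
      ltot hFW hRW h k s (reduced m W 0 φ) + C * (4 * r + 5) / m := by
    intro v
    refine (hC (reduced N W v Φ) (reduced m W 0 φ)).trans ?_
    have h14 : C * traceNorm (reduced N W v Φ - reduced m W 0 φ) ≤ C * ((4 * r + 5) / m) :=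
      mul_le_mul_of_nonneg_left (h8 v) hC0
    rw [mul_div_assoc]
    linarith
  have h15 : ∑ v : Site N, ltot hFW hRW h k s (reduced N W v Φ) ≤
      (N : ℝ) ^ 2 * (ltot hFW hRW h k s (reduced m W 0 φ) + C * (4 * r + 5) / m) := by
    refine (Finset.sum_le_sum (fun v _ => h12 v)).trans ?_
    rw [Finset.sum_const, Finset.card_univ, Fintype.card_prod, ZMod.card, nsmul_eq_mul]
    push_cast
    apply le_of_eq
    ring
  rw [h9] at h11
  have hN0 : (0 : ℝ) < N := by exact_mod_cast Nat.pos_of_ne_zero (NeZero.ne N)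
  exact le_of_mul_le_mul_left (h11.trans h15) (by positivity)

end Pool.Agent.Hhelper96.PEPS
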