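import Pool.Agent.WP.LocEst
import Pool.Agent.WP.MSize

/-!
Local terms on the torus as operators of the algebra.
-/

set_option autoImplicit false
set_option linter.unusedSectionVars false

open scoped BigOperators
open Pool.Agent.Hhelper96.PEPS

namespace Pool.Agent.WP

open Alg

section general

variable {S : Type} [Fintype S] [DecidableEq S] {d : ℕ} [NeZero d]

/-- a matrix as an operator of the algebra -/
noncomputable def opL (M : Matrix (S → Fin d) (S → Fin d) ℂ) : Alg S d →ₗ[ℂ] Alg S d where
  toFun f := (M.mulVec (fun x => f x) : (S → Fin d) → ℂ)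
  map_add' f g := by
    have : (fun x => (f + g) x) = (fun x => f x) + (fun x => g x) := by
      funext x; rfl
    rw [this, Matrix.mulVec_add]
    rfl
  map_smul' c f := by
    have : (fun x => (c • f) x) = c • (fun x => f x) := by
      funext x; rfl
    rw [this, Matrix.mulVec_smul]
    rfl

theorem opL_apply (M : Matrix (S → Fin d) (S → Fin d) ℂ) (f : Alg S d) (x : S → Fin d) :
    opL M f x = M.mulVec (fun y => f y) x := rfl

theorem opL_add (M N : Matrix (S → Fin d) (S → Fin d) ℂ) : opL (M + N) = opL M + opL N := by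
  refine LinearMap.ext fun f => Alg.ext fun x => ?_
  rw [opL_apply, Matrix.add_mulVec]
  rfl

theorem opL_smul (c : ℂ) (M : Matrix (S → Fin d) (S → Fin d) ℂ) : opL (c • M) = c • opL M := by
  refine LinearMap.ext fun f => Alg.ext fun x => ?_
  rw [opL_apply, Matrix.smul_mulVec]
  rfl

private theorem opL_zero : opL (0 : Matrix (S → Fin d) (S → Fin d) ℂ) = 0 := by
  refine LinearMap.ext fun f => Alg.ext fun x => ?_
  rw [opL_apply, Matrix.zero_mulVec]
  rfl

theorem opL_sum {ι : Type} (s : Finset ι) (M : ι → Matrix (S → Fin d) (S → Fin d) ℂ) :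
    opL (∑ i ∈ s, M i) = ∑ i ∈ s, opL (M i) := by
  classical
  induction s using Finset.induction_on with
  | empty => rw [Finset.sum_empty, Finset.sum_empty, opL_zero]
  | insert a s ha ih => rw [Finset.sum_insert ha, Finset.sum_insert ha, opL_add, ih]

theorem tr_zero [AddCommGroup S] (u : S) : tr u (0 : S → Fin d) = 0 := rfl

theorem supp_tr [AddCommGroup S] (u : S) (x : S → Fin d) :
    supp (tr u x) = (supp x).image (fun w => w + u) := by
  ext w
  rw [mem_supp, Finset.mem_image]
  constructor
  · intro h
    exact ⟨w - u, mem_supp.2 h, sub_add_cancel w u⟩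
  · rintro ⟨a, ha, rfl⟩
    show x (a + u - u) ≠ 0
    rw [add_sub_cancel_right]
    exact mem_supp.1 ha

private theorem mem_supp_tr [AddCommGroup S] {u : S} {x : S → Fin d} {w : S} :
    w ∈ supp (tr u x) ↔ w - u ∈ supp x := by
  rw [mem_supp, mem_supp]
  rfl

private theorem tr_tr_neg [AddCommGroup S] (u : S) (x : S → Fin d) : tr u (tr (-u) x) = x := by
  funext w
  show x (w - u - -u) = x w
  congr 1
  abel

private theorem tr_neg_tr [AddCommGroup S] (u : S) (x : S → Fin d) : tr (-u) (tr u x) = x := by
  funext w
  show x (w - -u - u) = x w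
  congr 1
  abel

/-- translation as a bijection -/
private def trE [AddCommGroup S] (u : S) : (S → Fin d) ≃ (S → Fin d) where
  toFun := tr u
  invFun := tr (-u)
  left_inv := tr_neg_tr u
  right_inv := tr_tr_neg u

private theorem trE_apply [AddCommGroup S] (u : S) (x : S → Fin d) : trE u x = tr u x := rfl

/-- for translation invariant `f`, the sum over the configurations through a site -/
theorem sum_through [AddCommGroup S] (f : (S → Fin d) → ℝ) (hf : ∀ u x, f (tr u x) = f x) (u : S) :
    ∑ x ∈ Finset.univ.filter (fun x : S → Fin d => u ∈ supp x), f x =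
      (Fintype.card S : ℝ)⁻¹ * ∑ x : S → Fin d, (supp x).card * f x := by
  have h1 : ∀ w : S, ∑ x ∈ Finset.univ.filter (fun x : S → Fin d => w ∈ supp x), f x =
      ∑ x ∈ Finset.univ.filter (fun x : S → Fin d => u ∈ supp x), f x := by
    intro w
    rw [Finset.sum_filter, Finset.sum_filter, ← Equiv.sum_comp (trE (d := d) (w - u))]
    refine Finset.sum_congr rfl fun x _ => ?_
    rw [trE_apply, hf]
    refine if_congr ?_ rfl rfl
    rw [mem_supp_tr, sub_sub_cancel]
  have h2 : ∑ x : S → Fin d, ((supp x).card : ℝ) * f x =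
      ∑ w : S, ∑ x ∈ Finset.univ.filter (fun x : S → Fin d => w ∈ supp x), f x := by
    have h3 : ∀ w : S, ∑ x ∈ Finset.univ.filter (fun x : S → Fin d => w ∈ supp x), f x =
        ∑ x : S → Fin d, if w ∈ supp x then f x else 0 := fun w => Finset.sum_filter _ _
    rw [Finset.sum_congr rfl fun w _ => h3 w, Finset.sum_comm]
    refine Finset.sum_congr rfl fun x _ => ?_
    rw [← Finset.sum_filter, Finset.sum_const, nsmul_eq_mul]
    congr 3
    ext w
    simp
  have hS : (Fintype.card S : ℝ) ≠ 0 := by
    have : 0 < Fintype.card S := Fintype.card_pos_iff.2 ⟨u⟩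
    positivity
  rw [h2, Finset.sum_congr rfl fun w _ => h1 w, Finset.sum_const, nsmul_eq_mul, Finset.card_univ,
    inv_mul_cancel_left₀ hS]

end general

variable (L : ℕ) [NeZero L] {d : ℕ} [NeZero d]

/-- the window of `τ_v` on the torus -/
noncomputable def Wn (G : Finset (ℤ × ℤ)) (v : Site L) : Finset (Site L) := G.image (place L v)

private theorem mem_Wn {G : Finset (ℤ × ℤ)} {v u : Site L} :
    u ∈ Wn L G v ↔ ∃ p : G, place L v p = u := by
  unfold Wn
  rw [Finset.mem_image]
  constructor
  · rintro ⟨a, ha, h⟩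
    exact ⟨⟨a, ha⟩, h⟩
  · rintro ⟨p, h⟩
    exact ⟨p, p.2, h⟩

private theorem notMem_Wn {G : Finset (ℤ × ℤ)} {v u : Site L} :
    u ∉ Wn L G v ↔ ∀ p : G, place L v p ≠ u := by
  rw [mem_Wn]
  push Not
  rfl

private theorem loc_eq (G : Finset (ℤ × ℤ)) (k : Matrix (G → Fin d) (G → Fin d) ℂ) (v : Site L)
    {s s' : Site L → Fin d} (h : ∀ u, u ∉ Wn L G v → s u = s' u) :
    localTerm L G k v s s' = k (fun p => s (place L v p)) (fun p => s' (place L v p)) := by
  unfold localTerm
  rw [if_pos]
  intro u hu
  exact h u ((notMem_Wn L).2 hu)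

private theorem loc_zero (G : Finset (ℤ × ℤ)) (k : Matrix (G → Fin d) (G → Fin d) ℂ) (v : Site L)
    {s s' : Site L → Fin d} (h : ¬ ∀ u, u ∉ Wn L G v → s u = s' u) :
    localTerm L G k v s s' = 0 := by
  unfold localTerm
  rw [if_neg]
  intro hc
  exact h fun u hu => hc u ((notMem_Wn L).1 hu)

private theorem opL_sumv {S : Type} [Fintype S] [DecidableEq S]
    (M : Matrix (S → Fin d) (S → Fin d) ℂ) (f : Alg S d) (x : S → Fin d) :
    opL M f x = ∑ y, M x y * f y := rfl

private theorem opL_e {S : Type} [Fintype S] [DecidableEq S]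
    (M : Matrix (S → Fin d) (S → Fin d) ℂ) (z y : S → Fin d) : opL M (e z) y = M y z := by
  rw [opL_sumv, Finset.sum_eq_single z]
  · rw [e_apply, if_pos rfl, mul_one]
  · intro b _ hb
    rw [e_apply, if_neg hb, mul_zero]
  · intro h
    exact absurd (Finset.mem_univ _) h

theorem actsOn_localTerm (G : Finset (ℤ × ℤ)) (k : Matrix (G → Fin d) (G → Fin d) ℂ) (v : Site L) :
    ActsOn (Wn L G v) (opL (localTerm L G k v)) := by
  intro x hx φ
  -- reduce to basis vectors
  have key : ∀ b : Site L → Fin d, opL (localTerm L G k v) (e x * e b) =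
      e x * opL (localTerm L G k v) (e b) := by
    intro b
    have hx0 : ∀ u, u ∈ Wn L G v → x u = 0 := by
      intro u hu
      by_contra h
      exact Finset.disjoint_left.1 hx (mem_supp.2 h) hu
    refine Alg.ext fun y => ?_
    rw [e_mul_e, e_mul_apply]
    by_cases hb : Disj x b
    · rw [if_pos hb, opL_e]
      by_cases hy : ∃ b' : Site L → Fin d, Disj x b' ∧ join x b' = y
      · obtain ⟨b', hb', rfl⟩ := hy
        rw [Finset.sum_eq_single b']
        · rw [if_pos ⟨hb', rfl⟩, opL_e]
          have h1 : (∀ u, u ∉ Wn L G v → join x b' u = join x b u) ↔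
              ∀ u, u ∉ Wn L G v → b' u = b u := by
            refine forall_congr' fun u => forall_congr' fun _ => ?_
            unfold join
            by_cases h2 : x u = 0
            · rw [if_pos h2, if_pos h2]
            · rw [if_neg h2, if_neg h2]
              have h3 := (hb u).resolve_left h2
              have h4 := (hb' u).resolve_left h2
              rw [h3, h4]
              exact ⟨fun _ => rfl, fun _ => rfl⟩
          by_cases h5 : ∀ u, u ∉ Wn L G v → b' u = b u
          · rw [loc_eq L G k v (h1.2 h5), loc_eq L G k v h5]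
            have h6 : ∀ c : Site L → Fin d, (fun p : G => join x c (place L v p)) =
                fun p : G => c (place L v p) := by
              intro c
              funext p
              unfold join
              rw [if_pos (hx0 _ ((mem_Wn L).2 ⟨p, rfl⟩))]
            rw [h6, h6]
          · rw [loc_zero L G k v (fun h => h5 (h1.1 h)), loc_zero L G k v h5]
        · intro c _ hc
          rw [if_neg]
          rintro ⟨h2, h3⟩
          apply hc
          funext u
          have h4 := congrFun h3 u
          unfold join at h4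
          by_cases h5 : x u = 0
          · rwa [if_pos h5, if_pos h5] at h4
          · rw [(h2 u).resolve_left h5, (hb' u).resolve_left h5]
        · intro h
          exact absurd (Finset.mem_univ _) h
      · rw [Finset.sum_eq_zero]
        · apply loc_zero
          intro hc
          apply hy
          refine ⟨fun u => if x u = 0 then y u else 0, fun u => ?_, ?_⟩
          · by_cases h5 : x u = 0
            · exact Or.inl h5
            · right
              show (if x u = 0 then y u else 0) = 0
              rw [if_neg h5]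
          · funext u
            unfold join
            by_cases h5 : x u = 0
            · rw [if_pos h5]
              show (if x u = 0 then y u else 0) = y u
              rw [if_pos h5]
            · rw [if_neg h5]
              have h6 : u ∉ Wn L G v := fun h => h5 (hx0 u h)
              have h7 := hc u h6
              rw [h7]
              unfold join
              rw [if_neg h5]
        · intro c _
          rw [if_neg]
          rintro ⟨h2, h3⟩
          exact hy ⟨c, h2, h3⟩
    · rw [if_neg hb, map_zero, zero_apply, Finset.sum_eq_zero]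
      intro c _
      by_cases h1 : Disj x c ∧ join x c = y
      · rw [if_pos h1, opL_e]
        apply loc_zero
        intro hc
        apply hb
        intro u
        by_cases h5 : x u = 0
        · exact Or.inl h5
        · right
          have h6 : u ∉ Wn L G v := fun h => h5 (hx0 u h)
          rw [← hc u h6]
          exact (h1.1 u).resolve_left h5
      · rw [if_neg h1]
  rw [eq_sum φ, Finset.mul_sum, map_sum, map_sum, Finset.mul_sum]
  refine Finset.sum_congr rfl fun b _ => ?_
  rw [mul_smul_comm, map_smul, map_smul, mul_smul_comm, key b]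

/-- weighted `ℓ¹` bound; the weight does not change when the configuration is changed in the window -/
theorem wn_localTerm_le (G : Finset (ℤ × ℤ)) (k : Matrix (G → Fin d) (G → Fin d) ℂ) (v : Site L)
    (w : (Site L → Fin d) → ℝ) (hw : ∀ x, 0 ≤ w x)
    (hW : ∀ x y : Site L → Fin d, (∀ u, u ∉ Wn L G v → x u = y u) → w x = w y) (κ : ℝ)
    (hκ : ∀ b, ∑ a, ‖k a b‖ ≤ κ) (φ : Alg (Site L) d) :
    wn w (opL (localTerm L G k v) φ) ≤ κ * wn w φ := by
  classical
  have h1 : ∀ s' : Site L → Fin d, ∑ s : Site L → Fin d, ‖localTerm L G k v s s'‖ ≤ κ := by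
    intro s'
    set A : Finset (Site L → Fin d) :=
      Finset.univ.filter fun s => ∀ u, u ∉ Wn L G v → s u = s' u with hA
    have h2 : ∑ s : Site L → Fin d, ‖localTerm L G k v s s'‖ =
        ∑ s ∈ A, ‖k (fun p => s (place L v p)) (fun p => s' (place L v p))‖ := by
      rw [hA, Finset.sum_filter]
      refine Finset.sum_congr rfl fun s _ => ?_
      by_cases h : ∀ u, u ∉ Wn L G v → s u = s' u
      · rw [if_pos h, loc_eq L G k v h]
      · rw [if_neg h, loc_zero L G k v h, norm_zero]
    have hinj : Set.InjOn (fun (s : Site L → Fin d) (p : G) => s (place L v p)) A := by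
      intro s hs t ht hst
      rw [Finset.mem_coe, hA, Finset.mem_filter] at hs ht
      funext u
      by_cases hu : u ∈ Wn L G v
      · obtain ⟨p, hp⟩ := (mem_Wn L).1 hu
        have h3 : s (place L v p) = t (place L v p) := congrFun hst p
        rwa [hp] at h3
      · rw [hs.2 u hu, ht.2 u hu]
    rw [h2]
    calc ∑ s ∈ A, ‖k (fun p => s (place L v p)) (fun p => s' (place L v p))‖
        = ∑ a ∈ A.image (fun (s : Site L → Fin d) (p : G) => s (place L v p)),
            ‖k a (fun p => s' (place L v p))‖ :=
          (Finset.sum_image (f := fun a => ‖k a (fun p => s' (place L v p))‖) hinj).symm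
      _ ≤ ∑ a, ‖k a (fun p => s' (place L v p))‖ :=
          Finset.sum_le_sum_of_subset_of_nonneg (Finset.subset_univ _)
            fun _ _ _ => norm_nonneg _
      _ ≤ κ := hκ _
  unfold wn
  calc ∑ s, w s * ‖opL (localTerm L G k v) φ s‖
      ≤ ∑ s, ∑ s' : Site L → Fin d, w s' * ‖φ s'‖ * ‖localTerm L G k v s s'‖ := by
        refine Finset.sum_le_sum fun s _ => ?_
        rw [opL_sumv]
        calc w s * ‖∑ s', localTerm L G k v s s' * φ s'‖
            ≤ w s * ∑ s', ‖localTerm L G k v s s' * φ s'‖ :=
              mul_le_mul_of_nonneg_left (norm_sum_le _ _) (hw s)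
          _ = ∑ s', w s' * ‖φ s'‖ * ‖localTerm L G k v s s'‖ := by
              rw [Finset.mul_sum]
              refine Finset.sum_congr rfl fun s' _ => ?_
              by_cases h : ∀ u, u ∉ Wn L G v → s u = s' u
              · rw [hW s s' h, norm_mul]
                ring
              · rw [loc_zero L G k v h]
                simp
    _ = ∑ s' : Site L → Fin d, w s' * ‖φ s'‖ * ∑ s, ‖localTerm L G k v s s'‖ := by
        rw [Finset.sum_comm]
        refine Finset.sum_congr rfl fun s' _ => ?_
        rw [Finset.mul_sum]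
    _ ≤ ∑ s' : Site L → Fin d, w s' * ‖φ s'‖ * κ := by
        refine Finset.sum_le_sum fun s' _ => ?_
        exact mul_le_mul_of_nonneg_left (h1 s') (mul_nonneg (hw s') (norm_nonneg _))
    _ = κ * ∑ s', w s' * ‖φ s'‖ := by
        rw [← Finset.sum_mul, mul_comm]

theorem localTerm_diagonal (G : Finset (ℤ × ℤ)) (g : (G → Fin d) → ℂ) (v : Site L)
    (x : Site L → Fin d) :
    opL (localTerm L G (Matrix.diagonal g) v) (e x) = g (fun p => x (place L v p)) • e x := by
  refine Alg.ext fun y => ?_
  rw [opL_e, smul_apply, e_apply]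
  by_cases hyx : y = x
  · subst hyx
    rw [loc_eq L G _ v (fun _ _ => rfl), Matrix.diagonal_apply_eq, if_pos rfl, mul_one]
  · rw [if_neg hyx, mul_zero]
    by_cases h : ∀ u, u ∉ Wn L G v → y u = x u
    · rw [loc_eq L G _ v h, Matrix.diagonal_apply_ne]
      intro hc
      apply hyx
      funext u
      by_cases hu : u ∈ Wn L G v
      · obtain ⟨p, hp⟩ := (mem_Wn L).1 hu
        have h3 : y (place L v p) = x (place L v p) := congrFun hc p
        rwa [hp] at h3
      · exact h u hu
    · exact loc_zero L G _ v h

section transl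

variable {S : Type} [Fintype S] [DecidableEq S] [AddCommGroup S]

private theorem disj_tr (u : S) (a b : S → Fin d) : Disj (tr u a) (tr u b) ↔ Disj a b := by
  constructor
  · intro h w
    have := h (w + u)
    unfold tr at this
    rwa [add_sub_cancel_right] at this
  · intro h w
    exact h (w - u)

private theorem join_tr (u : S) (a b : S → Fin d) : join (tr u a) (tr u b) = tr u (join a b) := rfl

/-- pull-back under a translation -/
private noncomputable def TrL (u : S) : Alg S d →ₗ[ℂ] Alg S d where
  toFun f := fun y => f (tr u y)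
  map_add' _ _ := rfl
  map_smul' _ _ := rfl

private theorem TrL_apply (u : S) (f : Alg S d) (y : S → Fin d) : TrL u f y = f (tr u y) := rfl

private theorem TrL_mul (u : S) (f g : Alg S d) : TrL u (f * g) = TrL u f * TrL u g := by
  refine Alg.ext fun y => ?_
  rw [TrL_apply, mul_apply, mul_apply, ← Equiv.sum_comp (trE (d := d) u)]
  refine Finset.sum_congr rfl fun a _ => ?_
  rw [← Equiv.sum_comp (trE (d := d) u)]
  refine Finset.sum_congr rfl fun b _ => ?_
  rw [trE_apply, trE_apply, TrL_apply, TrL_apply]
  have h1 : (Disj (tr u a) (tr u b) ∧ join (tr u a) (tr u b) = tr u y) ↔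
      (Disj a b ∧ join a b = y) := by
    rw [disj_tr, join_tr]
    refine and_congr_right fun _ => ⟨fun h => ?_, fun h => by rw [h]⟩
    exact (trE (d := d) u).injective h
  rw [if_congr h1 rfl rfl]

private theorem TrL_e (u : S) (z : S → Fin d) : TrL u (e z) = e (tr (-u) z) := by
  refine Alg.ext fun y => ?_
  rw [TrL_apply, e_apply, e_apply]
  refine if_congr ⟨fun h => ?_, fun h => ?_⟩ rfl rfl
  · rw [← h, tr_neg_tr]
  · rw [h, tr_tr_neg]

private theorem TrL_one (u : S) : TrL u (1 : Alg S d) = 1 := by
  rw [one_def, TrL_e]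
  rfl

private theorem TrL_prod (u : S) {ι : Type} (s : Finset ι) (f : ι → Alg S d) :
    TrL u (∏ i ∈ s, f i) = ∏ i ∈ s, TrL u (f i) := by
  classical
  induction s using Finset.induction_on with
  | empty => rw [Finset.prod_empty, Finset.prod_empty, TrL_one]
  | insert a s ha ih => rw [Finset.prod_insert ha, Finset.prod_insert ha, TrL_mul, ih]

private theorem TrL_EP (u : S) (X X' : Finset (S → Fin d))
    (hX : ∀ x, tr u x ∈ X ↔ x ∈ X') (T : (S → Fin d) → ℂ) (hT : ∀ x, T (tr u x) = T x) :
    TrL u (EP X T) = EP X' T := by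
  unfold EP
  rw [TrL_prod]
  have h1 : X = X'.image (tr u) := by
    ext x
    rw [Finset.mem_image]
    constructor
    · intro h
      exact ⟨tr (-u) x, (hX _).1 (by rwa [tr_tr_neg]), tr_tr_neg u x⟩
    · rintro ⟨a, ha, rfl⟩
      exact (hX a).2 ha
  rw [h1, Finset.prod_image (g := tr u) (fun a _ b _ h => (trE (d := d) u).injective h)]
  refine Finset.prod_congr rfl fun x _ => ?_
  rw [map_add, TrL_one, map_smul, TrL_e, tr_neg_tr, hT]

end transl

private theorem place_shift (v u : Site L) (p : ℤ × ℤ) : place L (v + u) p = place L v p + u := by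
  unfold place
  ext
  · show v.1 + u.1 + (p.1 : ZMod L) = v.1 + (p.1 : ZMod L) + u.1
    ring
  · show v.2 + u.2 + (p.2 : ZMod L) = v.2 + (p.2 : ZMod L) + u.2
    ring

private theorem mem_Wn_shift {G : Finset (ℤ × ℤ)} {v u w : Site L} :
    w + u ∈ Wn L G (v + u) ↔ w ∈ Wn L G v := by
  rw [mem_Wn, mem_Wn]
  refine exists_congr fun p => ?_
  rw [place_shift]
  exact add_left_inj u

private theorem loc_shift (G : Finset (ℤ × ℤ)) (k : Matrix (G → Fin d) (G → Fin d) ℂ)
    (v u : Site L) (y s : Site L → Fin d) :
    localTerm L G k (v + u) (tr u y) (tr u s) = localTerm L G k v y s := by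
  have h1 : (∀ w, w ∉ Wn L G (v + u) → tr u y w = tr u s w) ↔
      ∀ w, w ∉ Wn L G v → y w = s w := by
    constructor
    · intro h w hw
      have := h (w + u) (fun hc => hw ((mem_Wn_shift L).1 hc))
      unfold tr at this
      rwa [add_sub_cancel_right] at this
    · intro h w hw
      apply h
      intro hc
      apply hw
      have := (mem_Wn_shift L (u := u)).2 hc
      rwa [sub_add_cancel] at this
  by_cases h : ∀ w, w ∉ Wn L G v → y w = s w
  · rw [loc_eq L G k v h, loc_eq L G k (v + u) (h1.2 h)]
    have h2 : ∀ c : Site L → Fin d, (fun p : G => tr u c (place L (v + u) p)) =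
        fun p : G => c (place L v p) := by
      intro c
      funext p
      rw [place_shift]
      unfold tr
      rw [add_sub_cancel_right]
    rw [h2, h2]
  · rw [loc_zero L G k v h, loc_zero L G k (v + u) (fun hc => h (h1.1 hc))]

private theorem TrL_loc (G : Finset (ℤ × ℤ)) (k : Matrix (G → Fin d) (G → Fin d) ℂ)
    (v u : Site L) (f : Alg (Site L) d) :
    TrL u (opL (localTerm L G k (v + u)) f) = opL (localTerm L G k v) (TrL u f) := by
  refine Alg.ext fun y => ?_
  rw [TrL_apply, opL_sumv, opL_sumv, ← Equiv.sum_comp (trE (d := d) u)]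
  refine Finset.sum_congr rfl fun s _ => ?_
  rw [trE_apply, loc_shift]
  rfl

private theorem TrL_Pv (G : Finset (ℤ × ℤ)) (k : Matrix (G → Fin d) (G → Fin d) ℂ)
    (T : (Site L → Fin d) → ℂ) (hT : ∀ u x, T (tr u x) = T x) (v u : Site L) :
    TrL u (Pv (Wn L G (v + u)) (opL (localTerm L G k (v + u))) T) =
      Pv (Wn L G v) (opL (localTerm L G k v)) T := by
  have hX : ∀ x : Site L → Fin d, tr u x ∈ XW (Wn L G (v + u)) ↔ x ∈ XW (Wn L G v) := by
    intro x
    unfold XW
    rw [Finset.mem_filter, Finset.mem_filter, Finset.disjoint_left, Finset.disjoint_left]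
    refine and_congr (by simp) (not_congr ⟨fun h w hw hc => ?_, fun h w hw hc => ?_⟩)
    · refine h (a := w + u) (mem_supp_tr.2 ?_) ((mem_Wn_shift L).2 hc)
      rwa [add_sub_cancel_right]
    · refine h (a := w - u) (mem_supp_tr.1 hw) ((mem_Wn_shift L (u := u)).1 ?_)
      rwa [sub_add_cancel]
  unfold Pv
  rw [TrL_mul, TrL_loc, TrL_EP u _ _ hX T (fun x => hT u x),
    TrL_EP u _ _ hX (-T) (fun x => by rw [Pi.neg_apply, Pi.neg_apply, hT])]

/-- translation invariance of `∑_v e^{-T} τ_v(k) e^T |0>` for translation invariant `T` -/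
theorem sum_Pv_tr (G : Finset (ℤ × ℤ)) (k : Matrix (G → Fin d) (G → Fin d) ℂ)
    (T : (Site L → Fin d) → ℂ) (hT : ∀ u x, T (tr u x) = T x) (u : Site L) (x : Site L → Fin d) :
    (∑ v : Site L, Pv (Wn L G v) (opL (localTerm L G k v)) T) (tr u x) =
      (∑ v : Site L, Pv (Wn L G v) (opL (localTerm L G k v)) T) x := by
  rw [sum_apply, sum_apply, ← Equiv.sum_comp (Equiv.addRight u)]
  refine Finset.sum_congr rfl fun v _ => ?_
  exact congrArg (fun g : Alg (Site L) d => g x) (TrL_Pv L G k T hT v u)

/-- number of windows through a site -/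
theorem card_Wn_through (G : Finset (ℤ × ℤ)) (u : Site L) :
    (Finset.univ.filter (fun v : Site L => u ∈ Wn L G v)).card ≤ G.card := by
  refine le_trans (Finset.card_le_card (t := G.image fun p : ℤ × ℤ =>
    ((u.1 - (p.1 : ZMod L), u.2 - (p.2 : ZMod L)) : Site L)) ?_) Finset.card_image_le
  intro v hv
  rw [Finset.mem_filter] at hv
  obtain ⟨p, hp⟩ := (mem_Wn L).1 hv.2
  rw [Finset.mem_image]
  refine ⟨p, p.2, ?_⟩
  rw [← hp]
  unfold place
  ext
  · show v.1 + ((p : ℤ × ℤ).1 : ZMod L) - ((p : ℤ × ℤ).1 : ZMod L) = v.1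
    ring
  · show v.2 + ((p : ℤ × ℤ).2 : ZMod L) - ((p : ℤ × ℤ).2 : ZMod L) = v.2
    ring

theorem card_Wn_le (G : Finset (ℤ × ℤ)) (v : Site L) : (Wn L G v).card ≤ G.card :=
  Finset.card_image_le

end Pool.Agent.WP
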