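import Pool.Agent.WP.Animals
import Pool.Agent.WP.TorusOp

/-!
The weight of the connected not allowed sets through a site.

PROOF.  If `K < ∑_{x ∈ U} m x` then `∏_U 2 ‖T x‖ ≤ e^{-c' K} ∏_U β x`, `β x = 2 ‖T x‖ e^{c' m x}`.
Sum over connected `U ∋ x` by `sum_connected_le` with `φ x = m x`, then over the `x ∈ X0` with
`w ∈ Y x`: `∑ β x e^{m x} = ∑ e^{-4 m x} f x`, `f x = 2 ‖T x‖ e^{(c' + 5) m x} ≤ 2 ‖T x‖ e^{c m x}`,
which is at most `2 * NT / 5 ≤ 2 / 5` by `sum_hull_le` and `sum_through`, `msz_translate`.  The same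
bound, summed over the `m x` sites `w` of `Y x`, is the hypothesis of `sum_connected_le`.
-/

set_option autoImplicit false

open scoped BigOperators Classical
open Pool.Agent.Hhelper96.PEPS

namespace Pool.Agent.WP

/-- union bound for sums -/
theorem eta_biUnion_le {α β : Type} [DecidableEq β] {f : β → ℝ} (hf : ∀ b, 0 ≤ f b)
    (s : Finset α) (t : α → Finset β) :
    ∑ b ∈ s.biUnion t, f b ≤ ∑ a ∈ s, ∑ b ∈ t a, f b := by
  induction s using Finset.induction_on with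
  | empty => simp
  | insert a s ha ih =>
    rw [Finset.biUnion_insert, Finset.sum_insert ha]
    have h1 := Finset.sum_union_inter (s₁ := t a) (s₂ := s.biUnion t) (f := f)
    have h0 : 0 ≤ ∑ b ∈ t a ∩ s.biUnion t, f b := Finset.sum_nonneg (fun b _ => hf b)
    linarith

/-- the sum over the configurations through a site of the weighted norm -/
theorem eta_site (L : ℕ) [NeZero L] (d : ℕ) [NeZero d] (T : (Site L → Fin d) → ℂ)
    (hT : ∀ u x, T (tr u x) = T x) (c b : ℝ) (hb : b ≤ c) (hN : NT (tadj L) c T ≤ 1) (u : Site L) :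
    ∑ x ∈ (X0 : Finset (Site L → Fin d)).filter (fun x => u ∈ supp x),
      (2 * ‖T x‖ * Real.exp (b * msz (tadj L) (supp x))) ≤ 2 := by
  have h1 : (X0 : Finset (Site L → Fin d)).filter (fun x => u ∈ supp x) =
      Finset.univ.filter (fun x => u ∈ supp x) := by
    ext x
    simp only [X0, Finset.mem_filter, Finset.mem_univ, true_and]
    constructor
    · exact fun h => h.2
    · intro h
      refine ⟨?_, h⟩
      rintro rfl
      exact (mem_supp.1 h) rfl
  rw [h1, sum_through (fun x : Site L → Fin d => 2 * ‖T x‖ * Real.exp (b * msz (tadj L) (supp x)))]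
  · have h2 : ∑ x : Site L → Fin d, ((supp x).card : ℝ) *
        (2 * ‖T x‖ * Real.exp (b * msz (tadj L) (supp x))) ≤
        2 * ∑ x : Site L → Fin d, ((supp x).card : ℝ) * Real.exp (c * msz (tadj L) (supp x)) * ‖T x‖ := by
      rw [Finset.mul_sum]
      refine Finset.sum_le_sum (fun x _ => ?_)
      have h3 : Real.exp (b * msz (tadj L) (supp x)) ≤ Real.exp (c * msz (tadj L) (supp x)) :=
        Real.exp_le_exp.2 (mul_le_mul_of_nonneg_right hb (Nat.cast_nonneg _))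
      have h4 : 0 ≤ ((supp x).card : ℝ) * (2 * ‖T x‖) := by positivity
      have h5 := mul_le_mul_of_nonneg_left h3 h4
      nlinarith [h5]
    have h6 : (0 : ℝ) ≤ (Fintype.card (Site L) : ℝ)⁻¹ := by positivity
    have h7 := mul_le_mul_of_nonneg_left h2 h6
    unfold NT at hN
    nlinarith [h7, hN]
  · intro v x
    rw [hT, supp_tr, msz_translate]

/-- the sum over the configurations whose hull passes through a site -/
theorem eta_hull (L : ℕ) [NeZero L] (d : ℕ) [NeZero d] (Y : (Site L → Fin d) → Finset (Site L))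
    (hY : ∀ x ∈ X0, RConn (tadj L) (Y x)) (hs : ∀ x ∈ X0, supp x ⊆ Y x)
    (hm : ∀ x ∈ X0, (Y x).card = msz (tadj L) (supp x)) (T : (Site L → Fin d) → ℂ)
    (hT : ∀ u x, T (tr u x) = T x) (c c' : ℝ) (hcc : c' + 5 ≤ c)
    (hN : NT (tadj L) c T ≤ 1) (w : Site L) :
    ∑ x ∈ (X0 : Finset (Site L → Fin d)).filter (fun x => w ∈ Y x),
      (2 * ‖T x‖ * Real.exp (c' * msz (tadj L) (supp x))) *
        Real.exp (msz (tadj L) (supp x) : ℝ) ≤ 2 / 5 := by
  have h := sum_hull_le L d Y (fun x => msz (tadj L) (supp x)) hY hs hm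
    (fun x => 2 * ‖T x‖ * Real.exp ((c' + 5) * msz (tadj L) (supp x)))
    (fun x => by positivity) (N := 2)
    (fun u => eta_site L d T hT c (c' + 5) hcc hN u) w
  refine le_trans (le_of_eq ?_) h
  refine Finset.sum_congr rfl (fun x _ => ?_)
  have h1 : Real.exp (c' * msz (tadj L) (supp x)) * Real.exp (msz (tadj L) (supp x) : ℝ) =
      Real.exp (-(4 * (msz (tadj L) (supp x) : ℝ))) *
        Real.exp ((c' + 5) * msz (tadj L) (supp x)) := by
    rw [← Real.exp_add, ← Real.exp_add]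
    congr 1
    ring
  calc (2 * ‖T x‖ * Real.exp (c' * msz (tadj L) (supp x))) * Real.exp (msz (tadj L) (supp x) : ℝ)
      = 2 * ‖T x‖ * (Real.exp (c' * msz (tadj L) (supp x)) *
          Real.exp (msz (tadj L) (supp x) : ℝ)) := by ring
    _ = _ := by rw [h1]; ring

theorem eta_le (L : ℕ) [NeZero L] (d : ℕ) [NeZero d] (Y : (Site L → Fin d) → Finset (Site L))
    (hY : ∀ x ∈ X0, RConn (tadj L) (Y x)) (hs : ∀ x ∈ X0, supp x ⊆ Y x)
    (hm : ∀ x ∈ X0, (Y x).card = msz (tadj L) (supp x)) (T : (Site L → Fin d) → ℂ)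
    (hT : ∀ u x, T (tr u x) = T x) (c c' : ℝ) (hc' : 0 ≤ c') (hcc : c' + 5 ≤ c)
    (hN : NT (tadj L) c T ≤ 1) (K : ℕ) (w : Site L) :
    ∑ U ∈ (X0 : Finset (Site L → Fin d)).powerset.filter
      (fun U => RConn (fun x y => ¬ Disjoint (Y x) (Y y)) U ∧ (∃ x ∈ U, w ∈ Y x) ∧
        K < ∑ x ∈ U, msz (tadj L) (supp x)), ∏ x ∈ U, (2 * ‖T x‖) ≤ Real.exp (-(c' * K)) := by
  set β : (Site L → Fin d) → ℝ := fun x => 2 * ‖T x‖ * Real.exp (c' * msz (tadj L) (supp x)) with hβ
  set φ : (Site L → Fin d) → ℝ := fun x => (msz (tadj L) (supp x) : ℝ) with hφ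
  have hβ0 : ∀ x, 0 ≤ β x := fun x => by simp only [hβ]; positivity
  have hhull : ∀ w : Site L, ∑ x ∈ (X0 : Finset (Site L → Fin d)).filter (fun x => w ∈ Y x),
      β x * Real.exp (φ x) ≤ 2 / 5 := fun w => eta_hull L d Y hY hs hm T hT c c' hcc hN w
  -- the sum over connected sets containing `p`
  have hconn : ∀ p ∈ (X0 : Finset (Site L → Fin d)),
      ∑ U ∈ (X0 : Finset (Site L → Fin d)).powerset.filter
        (fun U => RConn (fun x y => ¬ Disjoint (Y x) (Y y)) U ∧ p ∈ U), ∏ q ∈ U, β q ≤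
        β p * Real.exp (φ p) := by
    intro p hp
    refine sum_connected_le X0 (fun x y => ¬ Disjoint (Y x) (Y y))
      (fun a b hab h => hab h.symm) β φ (fun q _ => hβ0 q) ?_ p hp
    intro q hq
    have h1 : (X0 : Finset (Site L → Fin d)).filter (fun z => ¬ Disjoint (Y z) (Y q)) ⊆
        (Y q).biUnion (fun v => (X0 : Finset (Site L → Fin d)).filter (fun x => v ∈ Y x)) := by
      intro z hz
      rw [Finset.mem_filter] at hz
      obtain ⟨v, hv1, hv2⟩ := Finset.not_disjoint_iff.1 hz.2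
      rw [Finset.mem_biUnion]
      exact ⟨v, hv2, Finset.mem_filter.2 ⟨hz.1, hv1⟩⟩
    have h0 : ∀ z, 0 ≤ β z * Real.exp (φ z) := fun z => mul_nonneg (hβ0 z) (Real.exp_pos _).le
    have h2 : ∑ z ∈ (X0 : Finset (Site L → Fin d)).filter (fun z => ¬ Disjoint (Y z) (Y q)),
        β z * Real.exp (φ z) ≤ φ q := by
      calc ∑ z ∈ (X0 : Finset (Site L → Fin d)).filter (fun z => ¬ Disjoint (Y z) (Y q)),
          β z * Real.exp (φ z)
        ≤ ∑ z ∈ (Y q).biUnion (fun v => (X0 : Finset (Site L → Fin d)).filter (fun x => v ∈ Y x)),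
          β z * Real.exp (φ z) :=
          Finset.sum_le_sum_of_subset_of_nonneg h1 (fun z _ _ => h0 z)
      _ ≤ ∑ v ∈ Y q, ∑ z ∈ (X0 : Finset (Site L → Fin d)).filter (fun x => v ∈ Y x),
          β z * Real.exp (φ z) := eta_biUnion_le (fun z => h0 z) _ _
      _ ≤ ∑ _v ∈ Y q, (2 / 5 : ℝ) := Finset.sum_le_sum (fun v _ => hhull v)
      _ = (Y q).card * (2 / 5 : ℝ) := by rw [Finset.sum_const, nsmul_eq_mul]
      _ ≤ φ q := by
          rw [hm q hq]
          have : (0 : ℝ) ≤ (msz (tadj L) (supp q) : ℝ) := Nat.cast_nonneg _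
          simp only [hφ]
          nlinarith
    refine le_trans (le_of_eq ?_) h2
    refine Finset.sum_congr ?_ (fun _ _ => rfl)
    ext z
    simp only [Finset.mem_filter]
  -- comparison of the weights
  have hcmp : ∀ U ∈ (X0 : Finset (Site L → Fin d)).powerset.filter
      (fun U => RConn (fun x y => ¬ Disjoint (Y x) (Y y)) U ∧ (∃ x ∈ U, w ∈ Y x) ∧
        K < ∑ x ∈ U, msz (tadj L) (supp x)), ∏ x ∈ U, (2 * ‖T x‖) ≤
        Real.exp (-(c' * K)) * ∏ x ∈ U, β x := by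
    intro U hU
    rw [Finset.mem_filter] at hU
    have h1 : ∏ x ∈ U, β x = (∏ x ∈ U, (2 * ‖T x‖)) *
        Real.exp (c' * ((∑ x ∈ U, msz (tadj L) (supp x) : ℕ) : ℝ)) := by
      simp only [hβ]
      rw [Finset.prod_mul_distrib, ← Real.exp_sum, ← Finset.mul_sum]
      push_cast
      rfl
    have h2 : (0 : ℝ) ≤ ∏ x ∈ U, (2 * ‖T x‖) := Finset.prod_nonneg (fun x _ => by positivity)
    have h3 : (1 : ℝ) ≤ Real.exp (-(c' * K)) *
        Real.exp (c' * ((∑ x ∈ U, msz (tadj L) (supp x) : ℕ) : ℝ)) := by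
      rw [← Real.exp_add]
      refine Real.one_le_exp ?_
      have h4 : (K : ℝ) ≤ ((∑ x ∈ U, msz (tadj L) (supp x) : ℕ) : ℝ) := by
        exact_mod_cast hU.2.2.2.le
      nlinarith
    rw [h1]
    calc ∏ x ∈ U, (2 * ‖T x‖) = (∏ x ∈ U, (2 * ‖T x‖)) * 1 := by ring
      _ ≤ (∏ x ∈ U, (2 * ‖T x‖)) * (Real.exp (-(c' * K)) *
        Real.exp (c' * ((∑ x ∈ U, msz (tadj L) (supp x) : ℕ) : ℝ))) :=
          mul_le_mul_of_nonneg_left h3 h2
      _ = _ := by ring
  have hprod0 : ∀ U : Finset (Site L → Fin d), 0 ≤ ∏ x ∈ U, β x :=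
    fun U => Finset.prod_nonneg (fun x _ => hβ0 x)
  have hsub : (X0 : Finset (Site L → Fin d)).powerset.filter
      (fun U => RConn (fun x y => ¬ Disjoint (Y x) (Y y)) U ∧ (∃ x ∈ U, w ∈ Y x) ∧
        K < ∑ x ∈ U, msz (tadj L) (supp x)) ⊆
      ((X0 : Finset (Site L → Fin d)).filter (fun x => w ∈ Y x)).biUnion (fun p =>
        (X0 : Finset (Site L → Fin d)).powerset.filter
          (fun U => RConn (fun x y => ¬ Disjoint (Y x) (Y y)) U ∧ p ∈ U)) := by
    intro U hU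
    rw [Finset.mem_filter] at hU
    obtain ⟨x, hx, hwx⟩ := hU.2.2.1
    rw [Finset.mem_biUnion]
    exact ⟨x, Finset.mem_filter.2 ⟨Finset.mem_powerset.1 hU.1 hx, hwx⟩,
      Finset.mem_filter.2 ⟨hU.1, hU.2.1, hx⟩⟩
  have hexp : (0 : ℝ) < Real.exp (-(c' * K)) := Real.exp_pos _
  refine le_trans (Finset.sum_le_sum hcmp) ?_
  rw [← Finset.mul_sum]
  have hfin : ∑ U ∈ (X0 : Finset (Site L → Fin d)).powerset.filter
      (fun U => RConn (fun x y => ¬ Disjoint (Y x) (Y y)) U ∧ (∃ x ∈ U, w ∈ Y x) ∧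
        K < ∑ x ∈ U, msz (tadj L) (supp x)), ∏ x ∈ U, β x ≤ 2 / 5 := by
    refine le_trans (Finset.sum_le_sum_of_subset_of_nonneg hsub (fun U _ _ => hprod0 U)) ?_
    refine le_trans (eta_biUnion_le hprod0 _ _) ?_
    exact le_trans (Finset.sum_le_sum (fun p hp => hconn p (Finset.mem_filter.1 hp).1)) (hhull w)
  nlinarith [mul_le_mul_of_nonneg_left hfin hexp.le]

end Pool.Agent.WP
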