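import Mathlib

/-!
A fixed point theorem in `ℂ^n` with a weighted `ℓ¹` norm, on a closed set.
-/

set_option autoImplicit false

open scoped BigOperators

namespace Pool.Agent.WP

/-- Contraction on the part of the ball of radius `ρ` (weighted `ℓ¹` norm with positive weights `a`)
lying in the closed set `C`. -/
theorem exists_fixed_point {n : Type} [Fintype n] (a : n → ℝ) (ha : ∀ i, 0 < a i)
    (C : Set (n → ℂ)) (hC : IsClosed C) (h0 : (0 : n → ℂ) ∈ C) {ρ : ℝ} (hρ : 0 ≤ ρ)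
    (Φ : (n → ℂ) → (n → ℂ))
    (hmap : ∀ T ∈ C, ∑ i, a i * ‖T i‖ ≤ ρ → Φ T ∈ C)
    (hlip : ∀ T ∈ C, ∀ T' ∈ C, ∑ i, a i * ‖T i‖ ≤ ρ → ∑ i, a i * ‖T' i‖ ≤ ρ →
      ∑ i, a i * ‖Φ T i - Φ T' i‖ ≤ (1 / 2) * ∑ i, a i * ‖T i - T' i‖)
    (hzero : ∑ i, a i * ‖Φ 0 i‖ ≤ ρ / 2) :
    ∃ T ∈ C, ∑ i, a i * ‖T i‖ ≤ ρ ∧ Φ T = T := by
  -- the weighted norm
  set N : (n → ℂ) → ℝ := fun T => ∑ i, a i * ‖T i‖ with hN
  have hNcont : Continuous N := by
    rw [hN]
    fun_prop
  have hNnonneg : ∀ T, 0 ≤ N T := fun T =>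
    Finset.sum_nonneg fun i _ => mul_nonneg (ha i).le (norm_nonneg _)
  have hNtri : ∀ S T U : n → ℂ, N (S - U) ≤ N (S - T) + N (T - U) := by
    intro S T U
    rw [hN]
    simp only [Pi.sub_apply]
    rw [← Finset.sum_add_distrib]
    refine Finset.sum_le_sum fun i _ => ?_
    rw [← mul_add]
    exact mul_le_mul_of_nonneg_left (norm_sub_le_norm_sub_add_norm_sub _ _ _) (ha i).le
  have h0ρ : N 0 ≤ ρ := by
    rw [hN]
    simpa using hρ
  -- invariance of the closed set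
  have hinv : ∀ T ∈ C, N T ≤ ρ → Φ T ∈ C ∧ N (Φ T) ≤ ρ := by
    intro T hT hTρ
    refine ⟨hmap T hT hTρ, ?_⟩
    have h1 : N (Φ T - Φ 0) ≤ (1 / 2) * N (T - 0) := hlip T hT 0 h0 hTρ h0ρ
    have h2 := hNtri (Φ T) (Φ 0) 0
    rw [sub_zero, sub_zero] at h2
    rw [sub_zero] at h1
    have h3 : N (Φ 0) ≤ ρ / 2 := hzero
    linarith
  -- the iterates
  set u : ℕ → (n → ℂ) := fun k => Φ^[k] 0 with hu
  have hu0 : u 0 = 0 := rfl
  have husucc : ∀ k, u (k + 1) = Φ (u k) := fun k => Function.iterate_succ_apply' Φ k 0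
  have hmem : ∀ k, u k ∈ C ∧ N (u k) ≤ ρ := by
    intro k
    induction k with
    | zero => exact ⟨h0, h0ρ⟩
    | succ k ih =>
      rw [husucc]
      exact hinv _ ih.1 ih.2
  have hstep : ∀ k, N (u k - u (k + 1)) ≤ ρ * (1 / 2) ^ k := by
    intro k
    induction k with
    | zero =>
      have h3 : N (Φ 0) ≤ ρ / 2 := hzero
      have h4 : N (u 0 - u (0 + 1)) = N (Φ 0) := by
        rw [husucc, hu0, zero_sub, hN]
        simp
      rw [h4]
      simp only [pow_zero, mul_one]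
      linarith
    | succ k ih =>
      have h1 : N (Φ (u k) - Φ (u (k + 1))) ≤ (1 / 2) * N (u k - u (k + 1)) :=
        hlip _ (hmem k).1 _ (hmem (k + 1)).1 (hmem k).2 (hmem (k + 1)).2
      calc N (u (k + 1) - u (k + 1 + 1)) = N (Φ (u k) - Φ (u (k + 1))) := by
            rw [husucc k, husucc (k + 1), husucc k]
        _ ≤ (1 / 2) * N (u k - u (k + 1)) := h1
        _ ≤ (1 / 2) * (ρ * (1 / 2) ^ k) := by linarith
        _ = ρ * (1 / 2) ^ (k + 1) := by ring
  -- comparison with the sup norm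
  set K : ℝ := ∑ i, (a i)⁻¹ with hK
  have hKnonneg : 0 ≤ K := Finset.sum_nonneg fun i _ => inv_nonneg.mpr (ha i).le
  have hcomp : ∀ T : n → ℂ, ‖T‖ ≤ K * N T := by
    intro T
    rw [pi_norm_le_iff_of_nonneg (mul_nonneg hKnonneg (hNnonneg T))]
    intro i
    have h1 : a i * ‖T i‖ ≤ N T :=
      Finset.single_le_sum (f := fun i => a i * ‖T i‖)
        (fun j _ => mul_nonneg (ha j).le (norm_nonneg _)) (Finset.mem_univ i)
    have h2 : (a i)⁻¹ ≤ K :=
      Finset.single_le_sum (f := fun i => (a i)⁻¹)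
        (fun j _ => inv_nonneg.mpr (ha j).le) (Finset.mem_univ i)
    calc ‖T i‖ = (a i)⁻¹ * (a i * ‖T i‖) := by
          rw [← mul_assoc, inv_mul_cancel₀ (ha i).ne', one_mul]
      _ ≤ K * N T := mul_le_mul h2 h1 (mul_nonneg (ha i).le (norm_nonneg _)) hKnonneg
  have hcauchy : CauchySeq u := by
    refine cauchySeq_of_le_geometric (1 / 2) (K * ρ) (by norm_num) fun k => ?_
    rw [dist_eq_norm]
    calc ‖u k - u (k + 1)‖ ≤ K * N (u k - u (k + 1)) := hcomp _
      _ ≤ K * (ρ * (1 / 2) ^ k) := mul_le_mul_of_nonneg_left (hstep k) hKnonneg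
      _ = K * ρ * (1 / 2) ^ k := by ring
  obtain ⟨T, hT⟩ := cauchySeq_tendsto_of_complete hcauchy
  have hTC : T ∈ C := hC.mem_of_tendsto hT (Filter.Eventually.of_forall fun k => (hmem k).1)
  have hTρ : N T ≤ ρ :=
    le_of_tendsto ((hNcont.tendsto T).comp hT) (Filter.Eventually.of_forall fun k => (hmem k).2)
  refine ⟨T, hTC, hTρ, ?_⟩
  -- the limit is fixed
  have hlim1 : Filter.Tendsto (fun k => N (T - u k)) Filter.atTop (nhds 0) := by
    have h1 : Filter.Tendsto (fun k => T - u k) Filter.atTop (nhds (T - T)) :=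
      tendsto_const_nhds.sub hT
    have h2 := (hNcont.tendsto (T - T)).comp h1
    have h3 : N (T - T) = 0 := by
      rw [sub_self, hN]
      simp
    rw [h3] at h2
    exact h2
  have hlim2 : Filter.Tendsto (fun k => N (u (k + 1) - T)) Filter.atTop (nhds 0) := by
    have h1 : Filter.Tendsto (fun k => u (k + 1) - T) Filter.atTop (nhds (T - T)) :=
      (hT.comp (Filter.tendsto_add_atTop_nat 1)).sub tendsto_const_nhds
    have h2 := (hNcont.tendsto (T - T)).comp h1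
    have h3 : N (T - T) = 0 := by
      rw [sub_self, hN]
      simp
    rw [h3] at h2
    exact h2
  have hle : ∀ k, N (Φ T - T) ≤ (1 / 2) * N (T - u k) + N (u (k + 1) - T) := by
    intro k
    have h1 : N (Φ T - Φ (u k)) ≤ (1 / 2) * N (T - u k) :=
      hlip T hTC (u k) (hmem k).1 hTρ (hmem k).2
    have h2 := hNtri (Φ T) (Φ (u k)) T
    rw [husucc]
    linarith
  have hlim : Filter.Tendsto (fun k => (1 / 2) * N (T - u k) + N (u (k + 1) - T))
      Filter.atTop (nhds ((1 / 2) * 0 + 0)) := (hlim1.const_mul _).add hlim2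
  have hfin : N (Φ T - T) ≤ (1 / 2) * 0 + 0 :=
    ge_of_tendsto hlim (Filter.Eventually.of_forall hle)
  have hzero' : N (Φ T - T) = 0 := le_antisymm (by simpa using hfin) (hNnonneg _)
  have hnorm : ‖Φ T - T‖ ≤ K * N (Φ T - T) := hcomp _
  rw [hzero', mul_zero] at hnorm
  exact sub_eq_zero.mp (norm_le_zero_iff.mp hnorm)

end Pool.Agent.WP
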