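import Pool.Agent.WP.LocEst

/-!
Uniqueness of the ground state and the gap, by an `ℓ¹` argument.
-/

set_option autoImplicit false
set_option linter.unusedSectionVars false

open scoped BigOperators

namespace Pool.Agent.WP

open Alg

variable {S : Type} [Fintype S] [DecidableEq S] {d : ℕ} [NeZero d]

theorem gl_sn : SemiNormLike (wn (fun _ => 1) : Alg S d → ℝ) :=
  wn_seminorm (fun _ => zero_le_one)

theorem gl_z_mul_le (T : (S → Fin d) → ℂ) (x : S → Fin d) (φ : Alg S d) :
    wn (fun _ => 1) ((T x • e x) * φ) ≤ ‖T x‖ * wn (fun _ => 1) φ := by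
  rw [smul_mul_assoc, wn_smul]
  refine mul_le_mul_of_nonneg_left ?_ (norm_nonneg _)
  have := wn_e_mul_le (w := fun _ : S → Fin d => (1 : ℝ)) (fun _ => zero_le_one) x (θ := 1)
    zero_le_one (fun y _ => by simp) φ
  simpa using this

theorem gl_EP_bound (X : Finset (S → Fin d)) (T : (S → Fin d) → ℂ) {τ : ℝ}
    (hT : ∑ x ∈ X, ‖T x‖ ≤ τ) (φ : Alg S d) :
    wn (fun _ => 1) (EP X T * φ) ≤ Real.exp τ * wn (fun _ => 1) φ := by
  have h := prod_bound (p := wn (fun _ => 1)) gl_sn X (fun x => T x • (e x : Alg S d))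
    (fun x => ‖T x‖) (fun i _ => norm_nonneg _) (fun i _ φ => gl_z_mul_le T i φ) φ
  refine h.trans ?_
  exact mul_le_mul_of_nonneg_right (Real.exp_le_exp.2 hT) (gl_sn.nonneg φ)

theorem gl_EP_sub_one_bound (X : Finset (S → Fin d)) (T : (S → Fin d) → ℂ) {τ : ℝ}
    (hT : ∑ x ∈ X, ‖T x‖ ≤ τ) (φ : Alg S d) :
    wn (fun _ => 1) ((EP X T - 1) * φ) ≤ (Real.exp τ - 1) * wn (fun _ => 1) φ := by
  have h := prod_sub_one_bound (p := wn (fun _ => 1)) gl_sn X (fun x => T x • (e x : Alg S d))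
    (fun x => ‖T x‖) (fun i _ => norm_nonneg _) (fun i _ φ => gl_z_mul_le T i φ) φ
  refine h.trans ?_
  exact mul_le_mul_of_nonneg_right (sub_le_sub_right (Real.exp_le_exp.2 hT) 1) (gl_sn.nonneg φ)

theorem gl_wn_e (x : S → Fin d) : wn (fun _ => 1) (e x : Alg S d) = 1 := by
  unfold wn
  rw [Finset.sum_eq_single x]
  · simp [e_apply]
  · intro b _ hb; simp [e_apply, hb]
  · simp

theorem gl_wn_one : wn (fun _ => 1) (1 : Alg S d) = 1 := by
  rw [← e_zero]; exact gl_wn_e 0

/-- the local bound -/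
theorem gl_local {W : Finset S} (D K : Alg S d →ₗ[ℂ] Alg S d) (hD1 : D 1 = 0)
    (T : (S → Fin d) → ℂ) {μ κ τ : ℝ} (hμ : 0 ≤ μ) (hκ : 0 ≤ κ)
    (hDn : ∀ φ, wn (fun _ => 1) (D φ) ≤ μ * wn (fun _ => 1) φ)
    (hKn : ∀ φ, wn (fun _ => 1) (K φ) ≤ κ * wn (fun _ => 1) φ)
    (hT : ∑ x ∈ XW W, ‖T x‖ ≤ τ) (y : S → Fin d) :
    wn (fun _ => 1) (EP (XW W) (-T) * (D + K) (EP (XW W) T * e y) - D (e y) -
      e y * Pv W (D + K) T) ≤
      2 * (μ * (Real.exp (2 * τ) - 1) + κ * Real.exp (2 * τ)) := by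
  have hT' : ∑ x ∈ XW W, ‖(-T) x‖ ≤ τ := by simpa using hT
  have hτ : 0 ≤ τ := le_trans (Finset.sum_nonneg fun _ _ => norm_nonneg _) hT
  have he1 : 1 ≤ Real.exp τ := Real.one_le_exp hτ
  have he2 : Real.exp (2 * τ) = Real.exp τ * Real.exp τ := by rw [← Real.exp_add]; ring_nf
  have he0 := Real.exp_pos τ
  set f : Alg S d := EP (XW W) (-T) with hf
  set E : Alg S d := EP (XW W) T with hE
  have hK : ∀ q : Alg S d, wn (fun _ => 1) (f * K (E * q)) ≤
      κ * Real.exp (2 * τ) * wn (fun _ => 1) q := by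
    intro q
    have h1 := gl_EP_bound (XW W) (-T) hT' (K (E * q))
    have h2 := hKn (E * q)
    have h3 := gl_EP_bound (XW W) T hT q
    calc _ ≤ Real.exp τ * wn (fun _ => 1) (K (E * q)) := h1
      _ ≤ Real.exp τ * (κ * (Real.exp τ * wn (fun _ => 1) q)) := by
          refine mul_le_mul_of_nonneg_left (h2.trans ?_) he0.le
          exact mul_le_mul_of_nonneg_left h3 hκ
      _ = _ := by rw [he2]; ring
  have hwe := gl_wn_e y
  have hDa : wn (fun _ => 1) ((f - 1) * D (E * e y)) ≤ (Real.exp τ - 1) * (μ * Real.exp τ) := by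
    have h1 := gl_EP_sub_one_bound (XW W) (-T) hT' (D (E * e y))
    have h3 := gl_EP_bound (XW W) T hT (e y)
    rw [hwe, mul_one] at h3
    refine h1.trans (mul_le_mul_of_nonneg_left ((hDn _).trans ?_) (by linarith))
    exact mul_le_mul_of_nonneg_left h3 hμ
  have hDb : wn (fun _ => 1) (D ((E - 1) * e y)) ≤ μ * (Real.exp τ - 1) := by
    have h3 := gl_EP_sub_one_bound (XW W) T hT (e y)
    rw [hwe, mul_one] at h3
    exact (hDn _).trans (mul_le_mul_of_nonneg_left h3 hμ)
  have hDc : wn (fun _ => 1) (f * D ((E - 1) * 1)) ≤ Real.exp τ * (μ * (Real.exp τ - 1)) := by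
    have h1 := gl_EP_bound (XW W) (-T) hT' (D ((E - 1) * 1))
    have h3 : wn (fun _ => 1) ((E - 1) * 1) ≤ Real.exp τ - 1 := by
      have h4 := gl_EP_sub_one_bound (XW W) T hT 1
      rw [gl_wn_one] at h4
      linarith
    refine h1.trans (mul_le_mul_of_nonneg_left ((hDn _).trans ?_) he0.le)
    exact mul_le_mul_of_nonneg_left h3 hμ
  have hPv : Pv W (D + K) T = f * D ((E - 1) * 1) + f * K (E * 1) := by
    unfold Pv
    rw [← hf, ← hE, LinearMap.add_apply, mul_add, mul_one, mul_one, map_sub, hD1, sub_zero]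
  have hPvn : wn (fun _ => 1) (e y * Pv W (D + K) T) ≤
      Real.exp τ * (μ * (Real.exp τ - 1)) + κ * Real.exp (2 * τ) := by
    have h0 : wn (fun _ => 1) (e y * Pv W (D + K) T) ≤ wn (fun _ => 1) (Pv W (D + K) T) := by
      have := wn_e_mul_le (w := fun _ : S → Fin d => (1 : ℝ)) (fun _ => zero_le_one) y (θ := 1)
        zero_le_one (fun y _ => by simp) (Pv W (D + K) T)
      simpa using this
    refine h0.trans ?_
    rw [hPv]
    refine (gl_sn.add _ _).trans (add_le_add hDc ?_)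
    have := hK 1
    rw [gl_wn_one] at this
    linarith
  have hdec : f * (D + K) (E * e y) - D (e y) - e y * Pv W (D + K) T =
      (f - 1) * D (E * e y) + D ((E - 1) * e y) + f * K (E * e y) +
        (-(e y * Pv W (D + K) T)) := by
    have h1 : D ((E - 1) * e y) = D (E * e y) - D (e y) := by
      rw [sub_mul, one_mul, map_sub]
    rw [h1, LinearMap.add_apply, mul_add, sub_mul, one_mul]
    abel
  rw [hdec]
  have hKe := hK (e y)
  rw [hwe, mul_one] at hKe
  calc _ ≤ (Real.exp τ - 1) * (μ * Real.exp τ) + μ * (Real.exp τ - 1) + κ * Real.exp (2 * τ) +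
        (Real.exp τ * (μ * (Real.exp τ - 1)) + κ * Real.exp (2 * τ)) := by
        refine (gl_sn.add _ _).trans (add_le_add ((gl_sn.add _ _).trans (add_le_add
          ((gl_sn.add _ _).trans (add_le_add hDa hDb)) hKe)) ?_)
        rw [gl_sn.neg]
        exact hPvn
    _ ≤ _ := by
        rw [he2]
        nlinarith [mul_nonneg hμ (sub_nonneg.2 he1)]

theorem gl_gap_aux {J : Type} [Fintype J] (W : J → Finset S)
    (D K : J → (Alg S d →ₗ[ℂ] Alg S d))
    (Dd : J → (S → Fin d) → ℝ) (hD : ∀ j x, D j (e x) = (Dd j x : ℂ) • e x)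
    (hDd0 : ∀ j x, Disjoint (supp x) (W j) → Dd j x = 0)
    (hact : ∀ j, ActsOn (W j) (D j + K j))
    (T : (S → Fin d) → ℂ)
    (hfix : ∀ x ≠ 0, (∑ j, Pv (W j) (D j + K j) T) x = 0) (p : Alg S d) :
    ∑ j, EP (XW (W j)) (-T) * (D j + K j) (EP (XW (W j)) T * p) =
      ∑ y, (p y * ((∑ j, Pv (W j) (D j + K j) T) 0 + ∑ j, (Dd j y : ℂ))) • e y +
      ∑ y, p y • ∑ j ∈ Finset.univ.filter (fun j => ¬ Disjoint (supp y) (W j)),
        (EP (XW (W j)) (-T) * (D j + K j) (EP (XW (W j)) T * e y) - D j (e y) -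
          e y * Pv (W j) (D j + K j) T) := by
  set P : Alg S d := ∑ j, Pv (W j) (D j + K j) T with hP
  have hP1 : P = P 0 • (1 : Alg S d) := by
    ext x
    rw [Alg.smul_apply, one_apply]
    split_ifs with h
    · rw [h, mul_one]
    · rw [hfix x h, mul_zero]
  have hlin : ∀ j, EP (XW (W j)) (-T) * (D j + K j) (EP (XW (W j)) T * p) =
      ∑ y, p y • (EP (XW (W j)) (-T) * (D j + K j) (EP (XW (W j)) T * e y)) := by
    intro j
    conv_lhs => rw [eq_sum p]
    rw [Finset.mul_sum, map_sum, Finset.mul_sum]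
    refine Finset.sum_congr rfl (fun y _ => ?_)
    rw [mul_smul_comm, map_smul, mul_smul_comm]
  simp_rw [hlin]
  rw [Finset.sum_comm, ← Finset.sum_add_distrib]
  refine Finset.sum_congr rfl (fun y _ => ?_)
  rw [← Finset.smul_sum, ← smul_smul, ← smul_add]
  congr 1
  have hoff : ∀ j, Disjoint (supp y) (W j) →
      EP (XW (W j)) (-T) * (D j + K j) (EP (XW (W j)) T * e y) =
        e y * Pv (W j) (D j + K j) T := by
    intro j hj
    rw [mul_comm (EP (XW (W j)) T) (e y), hact j y hj]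
    unfold Pv
    ring
  rw [← Finset.sum_filter_add_sum_filter_not Finset.univ (fun j => Disjoint (supp y) (W j))]
  rw [Finset.sum_congr rfl (fun j hj => hoff j (Finset.mem_filter.1 hj).2)]
  rw [Finset.sum_sub_distrib, Finset.sum_sub_distrib]
  have hPs : ∑ j ∈ Finset.univ.filter (fun j => Disjoint (supp y) (W j)),
      e y * Pv (W j) (D j + K j) T +
      ∑ j ∈ Finset.univ.filter (fun j => ¬ Disjoint (supp y) (W j)),
      e y * Pv (W j) (D j + K j) T = P 0 • e y := by
    rw [Finset.sum_filter_add_sum_filter_not, ← Finset.mul_sum, ← hP]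
    conv_lhs => rw [hP1]
    rw [mul_smul_comm, mul_one]
  have hDs : ∑ j ∈ Finset.univ.filter (fun j => ¬ Disjoint (supp y) (W j)), D j (e y) =
      (∑ j, (Dd j y : ℂ)) • (e y : Alg S d) := by
    rw [Finset.sum_smul, ← Finset.sum_filter_add_sum_filter_not Finset.univ
      (fun j => Disjoint (supp y) (W j))]
    rw [Finset.sum_eq_zero (s := Finset.univ.filter (fun j => Disjoint (supp y) (W j))), zero_add]
    · exact Finset.sum_congr rfl (fun j _ => hD j y)
    · intro j hj
      rw [hDd0 j y (Finset.mem_filter.1 hj).2]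
      simp
  rw [hDs, add_smul, ← hPs]
  abel

/-- `∑_j (D j + K j)` with `T` solving the coupled cluster equations: `ψ = ∏ (1 + T x a_x) |0>` is an
eigenvector, and all eigenvectors with eigenvalue of real part less than `E + 1/2` are multiples
of it. -/
theorem gap_l1 {J : Type} [Fintype J] (W : J → Finset S) (D K : J → (Alg S d →ₗ[ℂ] Alg S d))
    (Dd : J → (S → Fin d) → ℝ) (hD : ∀ j x, D j (e x) = (Dd j x : ℂ) • e x)
    (hDd0 : ∀ j x, Disjoint (supp x) (W j) → Dd j x = 0)
    (hact : ∀ j, ActsOn (W j) (D j + K j))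
    (μ κ τ : J → ℝ) (hμ : ∀ j, 0 ≤ μ j) (hκ : ∀ j, 0 ≤ κ j)
    (hDn : ∀ j φ, wn (fun _ => 1) (D j φ) ≤ μ j * wn (fun _ => 1) φ)
    (hKn : ∀ j φ, wn (fun _ => 1) (K j φ) ≤ κ j * wn (fun _ => 1) φ)
    (hE0 : ∀ x : S → Fin d, ((supp x).card : ℝ) ≤ ∑ j, Dd j x)
    (T : (S → Fin d) → ℂ) (hT : ∀ j, ∑ x ∈ XW (W j), ‖T x‖ ≤ τ j)
    (hfix : ∀ x ≠ 0, (∑ j, Pv (W j) (D j + K j) T) x = 0)
    (hsmall : ∀ u : S, ∑ j ∈ Finset.univ.filter (fun j => u ∈ W j),
      2 * (μ j * (Real.exp (2 * τ j) - 1) + κ j * Real.exp (2 * τ j)) ≤ 1 / 4) :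
    (∑ j, (D j + K j)) (EP X0 T) = ((∑ j, Pv (W j) (D j + K j) T) 0) • EP X0 T ∧
      ∀ (z : ℂ) (φ : Alg S d), (∑ j, (D j + K j)) φ = z • φ →
        z.re < ((∑ j, Pv (W j) (D j + K j) T) 0).re + 1 / 2 → ∃ c : ℂ, φ = c • EP X0 T := by
  have hX0 : (0 : S → Fin d) ∉ X0 := by simp [X0]
  have hinv : (EP X0 (-T) : Alg S d) * EP X0 T = 1 := EP_neg_mul X0 hX0 T
  have hinv' : (EP X0 T : Alg S d) * EP X0 (-T) = 1 := by rw [mul_comm]; exact hinv
  set E : Alg S d := EP X0 T with hEdef
  set f : Alg S d := EP X0 (-T) with hfdef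
  set P : Alg S d := ∑ j, Pv (W j) (D j + K j) T with hP
  have hconj : ∀ q : Alg S d, f * (∑ j, (D j + K j)) (E * q) =
      ∑ j, EP (XW (W j)) (-T) * (D j + K j) (EP (XW (W j)) T * q) := by
    intro q
    rw [LinearMap.sum_apply, Finset.mul_sum]
    exact Finset.sum_congr rfl (fun j _ => conj_local (hact j) T q)
  have hP1 : P = P 0 • (1 : Alg S d) := by
    ext x
    rw [Alg.smul_apply, one_apply]
    split_ifs with h
    · rw [h, mul_one]
    · rw [hfix x h, mul_zero]
  refine ⟨?_, ?_⟩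
  · have h1 := hconj 1
    simp only [mul_one] at h1
    have h2 : f * (∑ j, (D j + K j)) E = P 0 • (1 : Alg S d) := by
      rw [h1, ← hP1]; rfl
    calc (∑ j, (D j + K j)) E = E * (f * (∑ j, (D j + K j)) E) := by
          rw [← mul_assoc, hinv', one_mul]
      _ = P 0 • E := by rw [h2, mul_smul_comm, mul_one]
  · intro z φ hφ hz
    set p : Alg S d := f * φ with hp
    have hφp : E * p = φ := by rw [hp, ← mul_assoc, hinv', one_mul]
    have hmain : z • p = ∑ y, (p y * (P 0 + ∑ j, (Dd j y : ℂ))) • e y +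
      ∑ y, p y • ∑ j ∈ Finset.univ.filter (fun j => ¬ Disjoint (supp y) (W j)),
        (EP (XW (W j)) (-T) * (D j + K j) (EP (XW (W j)) T * e y) - D j (e y) -
          e y * Pv (W j) (D j + K j) T) := by
      rw [← gl_gap_aux W D K Dd hD hDd0 hact T hfix p, ← hconj p, hφp, hφ, mul_smul_comm]
    set B : J → (S → Fin d) → Alg S d := fun j y =>
      EP (XW (W j)) (-T) * (D j + K j) (EP (XW (W j)) T * e y) - D j (e y) -
          e y * Pv (W j) (D j + K j) T with hB
    set b : J → ℝ := fun j => 2 * (μ j * (Real.exp (2 * τ j) - 1) + κ j * Real.exp (2 * τ j))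
      with hb
    have hτ : ∀ j, 0 ≤ τ j := fun j =>
      le_trans (Finset.sum_nonneg fun _ _ => norm_nonneg _) (hT j)
    have hb0 : ∀ j, 0 ≤ b j := by
      intro j
      have h1 : 1 ≤ Real.exp (2 * τ j) := Real.one_le_exp (by linarith [hτ j])
      have h2 := mul_nonneg (hμ j) (sub_nonneg.2 h1)
      have h3 := mul_nonneg (hκ j) (Real.exp_pos (2 * τ j)).le
      simp only [hb]
      linarith
    have hD1 : ∀ j, D j (1 : Alg S d) = 0 := by
      intro j
      rw [← e_zero, hD j 0, hDd0 j 0 (by rw [supp_zero]; exact Finset.disjoint_empty_left _)]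
      simp
    have hBn : ∀ j y, wn (fun _ => 1) (B j y) ≤ b j := fun j y =>
      gl_local (D j) (K j) (hD1 j) T (hμ j) (hκ j) (hDn j) (hKn j) (hT j) y
    -- pointwise
    have hpt : ∀ x, ‖P 0 + ∑ j, (Dd j x : ℂ) - z‖ * ‖p x‖ ≤
        ∑ y, ‖p y‖ * ∑ j ∈ Finset.univ.filter (fun j => ¬ Disjoint (supp y) (W j)),
          ‖(B j y) x‖ := by
      intro x
      have h1 : (z • p) x = (∑ y, (p y * (P 0 + ∑ j, (Dd j y : ℂ))) • (e y : Alg S d)) x +
          (∑ y, p y • ∑ j ∈ Finset.univ.filter (fun j => ¬ Disjoint (supp y) (W j)), B j y) x := by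
        rw [hmain]; rfl
      have h2 : (∑ y, (p y * (P 0 + ∑ j, (Dd j y : ℂ))) • (e y : Alg S d)) x =
          p x * (P 0 + ∑ j, (Dd j x : ℂ)) := by
        rw [sum_apply, Finset.sum_eq_single x]
        · simp [e_apply]
        · intro y _ hy
          simp [e_apply, Ne.symm hy]
        · simp
      rw [h2, Alg.smul_apply, sum_apply] at h1
      have h3 : (P 0 + ∑ j, (Dd j x : ℂ) - z) * p x =
          -∑ y, (p y • ∑ j ∈ Finset.univ.filter (fun j => ¬ Disjoint (supp y) (W j)), B j y) x := by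
        linear_combination (-1 : ℂ) * h1
      rw [← norm_mul, h3, norm_neg]
      refine (norm_sum_le _ _).trans (Finset.sum_le_sum (fun y _ => ?_))
      rw [Alg.smul_apply, norm_mul, sum_apply]
      exact mul_le_mul_of_nonneg_left (norm_sum_le _ _) (norm_nonneg _)
    have hsum : ∑ x, ‖P 0 + ∑ j, (Dd j x : ℂ) - z‖ * ‖p x‖ ≤
        ∑ y, ‖p y‖ * (((supp y).card : ℝ) / 4) := by
      refine (Finset.sum_le_sum (fun x _ => hpt x)).trans ?_
      rw [Finset.sum_comm]
      refine Finset.sum_le_sum (fun y _ => ?_)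
      rw [← Finset.mul_sum]
      refine mul_le_mul_of_nonneg_left ?_ (norm_nonneg _)
      rw [Finset.sum_comm]
      have h4 : ∑ j ∈ Finset.univ.filter (fun j => ¬ Disjoint (supp y) (W j)),
          ∑ x, ‖(B j y) x‖ ≤
          ∑ j ∈ Finset.univ.filter (fun j => ¬ Disjoint (supp y) (W j)), b j := by
        refine Finset.sum_le_sum (fun j _ => ?_)
        have := hBn j y
        simpa [wn] using this
      refine h4.trans ?_
      have h5 : ∑ j ∈ Finset.univ.filter (fun j => ¬ Disjoint (supp y) (W j)), b j ≤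
          ∑ u ∈ supp y, ∑ j ∈ Finset.univ.filter (fun j => u ∈ W j), b j := by
        have h6 : ∀ u ∈ supp y, ∑ j ∈ Finset.univ.filter (fun j => u ∈ W j), b j =
            ∑ j, if u ∈ W j then b j else 0 := fun u _ => by rw [Finset.sum_filter]
        rw [Finset.sum_congr rfl h6, Finset.sum_comm, Finset.sum_filter]
        refine Finset.sum_le_sum (fun j _ => ?_)
        have hnn : ∀ u ∈ supp y, (0 : ℝ) ≤ (fun u => if u ∈ W j then b j else 0) u := by
          intro u _
          by_cases hu : u ∈ W j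
          · simp only [if_pos hu]; exact hb0 j
          · simp only [if_neg hu]; exact le_rfl
        by_cases hj : Disjoint (supp y) (W j)
        · rw [if_neg (not_not.2 hj)]
          exact Finset.sum_nonneg hnn
        · rw [if_pos hj]
          obtain ⟨u, hu, huW⟩ := Finset.not_disjoint_iff.1 hj
          calc b j = (fun u => if u ∈ W j then b j else 0) u := by simp only [if_pos huW]
            _ ≤ _ := Finset.single_le_sum hnn hu
      refine h5.trans ?_
      calc _ ≤ ∑ u ∈ supp y, (1 / 4 : ℝ) := Finset.sum_le_sum (fun u _ => hsmall u)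
        _ = _ := by rw [Finset.sum_const, nsmul_eq_mul]; ring
    have hlow : ∀ x, ‖p x‖ * (((supp x).card : ℝ) / 2) ≤
        ‖P 0 + ∑ j, (Dd j x : ℂ) - z‖ * ‖p x‖ := by
      intro x
      rw [mul_comm]
      refine mul_le_mul_of_nonneg_right ?_ (norm_nonneg _)
      by_cases hx : x = 0
      · rw [hx, supp_zero]; simp
      · have hc : (1 : ℝ) ≤ ((supp x).card : ℝ) := by
          have : (supp x).Nonempty := by
            rw [Finset.nonempty_iff_ne_empty]
            intro h; exact hx (supp_eq_empty.1 h)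
          exact_mod_cast this.card_pos
        refine le_trans ?_ (Complex.re_le_norm _)
        rw [Complex.sub_re, Complex.add_re, Complex.re_sum]
        simp only [Complex.ofReal_re]
        have := hE0 x
        linarith
    have hfin : ∑ y, ‖p y‖ * (((supp y).card : ℝ) / 4) ≤ 0 := by
      have h7 := (Finset.sum_le_sum (fun x (_ : x ∈ Finset.univ) => hlow x)).trans hsum
      have h8 : ∑ x, ‖p x‖ * (((supp x).card : ℝ) / 2) =
          2 * ∑ y, ‖p y‖ * (((supp y).card : ℝ) / 4) := by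
        rw [Finset.mul_sum]
        exact Finset.sum_congr rfl (fun y _ => by ring)
      linarith
    have hp0 : ∀ y, y ≠ 0 → p y = 0 := by
      intro y hy
      have hnn : ∀ y ∈ (Finset.univ : Finset (S → Fin d)),
          0 ≤ ‖p y‖ * (((supp y).card : ℝ) / 4) := fun y _ =>
            mul_nonneg (norm_nonneg _) (div_nonneg (Nat.cast_nonneg _) (by norm_num))
      have h9 := (Finset.sum_eq_zero_iff_of_nonneg hnn).1
        (le_antisymm hfin (Finset.sum_nonneg hnn)) y (Finset.mem_univ y)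
      have hc : (0 : ℝ) < ((supp y).card : ℝ) / 4 := by
        have : (supp y).Nonempty := by
          rw [Finset.nonempty_iff_ne_empty]
          intro h; exact hy (supp_eq_empty.1 h)
        exact div_pos (Nat.cast_pos.2 this.card_pos) (by norm_num)
      rcases mul_eq_zero.1 h9 with h | h
      · exact norm_eq_zero.1 h
      · exact absurd h hc.ne'
    refine ⟨p 0, ?_⟩
    have hp1 : p = p 0 • (1 : Alg S d) := by
      ext x
      rw [Alg.smul_apply, one_apply]
      split_ifs with h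
      · rw [h, mul_one]
      · rw [hp0 x h, mul_zero]
    rw [← hφp]
    conv_lhs => rw [hp1]
    rw [mul_smul_comm, mul_one]

theorem EP_ne_zero (T : (S → Fin d) → ℂ) : (EP X0 T : Alg S d) ≠ 0 := by
  intro h
  have hX0 : (0 : S → Fin d) ∉ X0 := by simp [X0]
  have h1 : (EP X0 (-T) : Alg S d) * EP X0 T = 1 := EP_neg_mul X0 hX0 T
  rw [h, mul_zero] at h1
  have h2 : (0 : Alg S d) 0 = (1 : Alg S d) 0 := by rw [h1]
  rw [zero_apply, one_apply, if_pos rfl] at h2
  exact zero_ne_one h2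

end Pool.Agent.WP
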