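import Pool.Agent.WP.TorusOp
import Pool.Agent.WP.FixPt
import Pool.Agent.WP.GapL1

/-!
The ground state of `∑ τ_v(h) + s ∑ τ_v(k)` on the torus is `∏ (1 + T x a_x) |0>` with a small
translation invariant `T`, and the gap above it is at least `1/2`.

PROOF.  Let `J = Site L × Bool`, windows `W (v, false) = Wn L F v`, `W (v, true) = Wn L R v`;
`D (v, false) = opL (localTerm L F (diagonal (h0 x - h0 0)) v)`,
`K (v, false) = opL (localTerm L F (h - diagonal h0) v)`, `D (v, true) = 0`,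
`K (v, true) = s • opL (localTerm L R k v)`.  Then `∑_j (D j + K j)` is
`opL (hamiltonian L F h + s • hamiltonian L R k)` minus the constant `L ^ 2 * h0 0`, and
`Dd (v, false) x = h0 (x ∘ place L v) - h0 0` (zero if `supp x` does not meet the window),
`∑_j Dd j x ≥ |supp x|` by the Peierls condition.
Weights: for the window `W j`: `w x = exp (c * msz (supp x ∪ W j))`, `θ x = exp (c * msz (supp x))`;
submultiplicative for `x ∈ XW (W j)` by `msz_union_le` (`supp x` meets `supp y ∪ W j`) and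
`supp (join x y) = supp x ∪ supp y`; `w` does not change if `x` is changed inside the window; `w 0 =
exp (c * msz (W j)) ≤ exp (c * C)` with `C` from `msz_place_le`.
For translation invariant `T`: `∑_{x ∈ XW (W j)} θ x ‖T x‖ ≤ |W j| * NT (tadj L) c T` (union bound
over the sites of the window and `sum_through`, `msz_translate`).
Fixed point (`exists_fixed_point`) of `Φ T x = - (∑_j Dd j x)⁻¹ * (∑_j (Pv (W j) (D j + K j) T -
D j (LP (XW (W j)) T))) x` for `x ≠ 0`, `Φ T 0 = 0`, on `C = {T | T 0 = 0, translation invariant}`,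
with the weights `a x = L⁻² |supp x| exp (c * msz (supp x))` for `x ≠ 0`, `a 0 = 1` (so the norm is
`NT` on `C`) and a radius `ρ' ≤ ρ`.  As `∑_j Dd j x ≥ |supp x|`, `NT (Φ T - Φ T') ≤ L⁻² ∑_j wn w_j
(...)`, bounded by `loc_est` for each `j`: in total at most `[e^{c C_F} (μ (e^{2τ} - 1)(2 e^{2τ} + 1) +
2 κ_F e^{4τ}) |F| + e^{c C_R} 2 κ_R e^{4 τ_R} |R|] * NT (T - T')` with `μ = ∑_b |h0 b - h0 0|`, `τ =
|F| ρ'`, `τ_R = |R| ρ'`, `κ_F = λ d^|F|`, `κ_R = |s| ∑ ‖k a b‖`.  Choose `ρ'` (depending on `F, h0, c,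
ρ`), then `λ`, then (for given `R, k`) `η`.  The diagonal part of the fixed point equation:
`(∑_j D j (LP (XW (W j)) T)) x = (∑_j Dd j x) * T x` for `x ≠ 0`; hence `(∑_j Pv ..) x = 0` for
`x ≠ 0`.  `gap_l1` then gives the eigenvector and the gap (weight `1` versions of the bounds from
`wn_localTerm_le`; `∑_{x ∈ XW} ‖T x‖ ≤ τ_j` as `θ ≥ 1`; `card_Wn_through`); the eigenvalue is real
because the Hamiltonian is Hermitian and the eigenvector is nonzero (`EP_ne_zero`). -/

set_option autoImplicit false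

open scoped BigOperators
open Pool.Agent.Hhelper96.PEPS

namespace Pool.Agent.WP

open Alg
open scoped ComplexOrder

section matr

variable {L : ℕ} {d : ℕ}

private theorem Ground_lt_add (G : Finset (ℤ × ℤ)) (k k' : Matrix (G → Fin d) (G → Fin d) ℂ)
    (v : Site L) : localTerm L G (k + k') v = localTerm L G k v + localTerm L G k' v := by
  ext s s'
  simp only [localTerm, Matrix.add_apply]
  split_ifs <;> simp

private theorem Ground_lt_smul (G : Finset (ℤ × ℤ)) (c : ℂ) (k : Matrix (G → Fin d) (G → Fin d) ℂ)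
    (v : Site L) : localTerm L G (c • k) v = c • localTerm L G k v := by
  ext s s'
  simp only [localTerm, Matrix.smul_apply]
  split_ifs <;> simp

private theorem Ground_lt_zero (G : Finset (ℤ × ℤ)) 
    (v : Site L) : localTerm L G (0 : Matrix (G → Fin d) (G → Fin d) ℂ) v = 0 := by
  ext s s'
  simp only [localTerm, Matrix.zero_apply]
  split_ifs <;> simp

private theorem Ground_lt_one [NeZero L] (G : Finset (ℤ × ℤ)) (v : Site L) :
    localTerm L G (1 : Matrix (G → Fin d) (G → Fin d) ℂ) v = 1 := by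
  ext s s'
  simp only [localTerm, Matrix.one_apply]
  by_cases h : s = s'
  · subst h; simp
  · rw [if_neg h]
    split_ifs with h1 h2
    · exfalso
      apply h
      funext u
      by_cases hu : ∀ p : G, place L v p ≠ u
      · exact h1 u hu
      · push Not at hu
        obtain ⟨p, hp⟩ := hu
        rw [← hp]
        exact congrFun h2 p
    · rfl
    · rfl

private theorem Ground_lt_herm (G : Finset (ℤ × ℤ)) {k : Matrix (G → Fin d) (G → Fin d) ℂ}
    (hk : k.IsHermitian) (v : Site L) : (localTerm L G k v).IsHermitian := by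
  ext s s'
  simp only [localTerm, Matrix.conjTranspose_apply]
  have hc : (∀ u, (∀ p : G, place L v p ≠ u) → s' u = s u) ↔
      ∀ u, (∀ p : G, place L v p ≠ u) → s u = s' u :=
    ⟨fun h u hu => (h u hu).symm, fun h u hu => (h u hu).symm⟩
  by_cases h : ∀ u, (∀ p : G, place L v p ≠ u) → s u = s' u
  · rw [if_pos h, if_pos (hc.2 h)]
    exact hk.apply _ _
  · rw [if_neg h, if_neg (fun h' => h (hc.1 h'))]
    simp

private theorem Ground_ham_herm [NeZero L] (G : Finset (ℤ × ℤ))
    {k : Matrix (G → Fin d) (G → Fin d) ℂ} (hk : k.IsHermitian) :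
    (hamiltonian L G k).IsHermitian := by
  unfold hamiltonian Matrix.IsHermitian
  rw [Matrix.conjTranspose_sum]
  exact Finset.sum_congr rfl (fun v _ => Ground_lt_herm G hk v)

end matr

/-- eigenvalues of Hermitian matrices are real -/
private theorem Ground_real {n : Type} [Fintype n] {H : Matrix n n ℂ} (hH : H.IsHermitian)
    {ψ : n → ℂ} (hψ : ψ ≠ 0) {z : ℂ} (h : H.mulVec ψ = z • ψ) : z = (z.re : ℂ) := by
  have h1 : dotProduct (star ψ) (H.mulVec ψ) = z * dotProduct (star ψ) ψ := by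
    rw [h, dotProduct_smul, smul_eq_mul]
  have h2 : dotProduct (star ψ) (H.mulVec ψ) = star z * dotProduct (star ψ) ψ := by
    rw [Matrix.dotProduct_mulVec]
    have h3 : Matrix.vecMul (star ψ) H = star (H.mulVec ψ) := by
      rw [Matrix.star_mulVec, hH.eq]
    rw [h3, h, star_smul, smul_dotProduct, smul_eq_mul]
  have h4 : dotProduct (star ψ) ψ ≠ 0 := by
    rw [Ne, dotProduct_star_self_eq_zero]
    exact hψ
  have h5 : z = star z := mul_right_cancel₀ h4 (h1.symm.trans h2)
  have h6 : (starRingEnd ℂ) z = z := h5.symm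
  exact (Complex.conj_eq_iff_re.1 h6).symm

section opers

variable {L : ℕ} [NeZero L] {d : ℕ} [NeZero d]

private theorem Ground_opL_one : opL (1 : Matrix (Site L → Fin d) (Site L → Fin d) ℂ) =
    (LinearMap.id : Alg (Site L) d →ₗ[ℂ] Alg (Site L) d) := by
  apply LinearMap.ext
  intro f
  apply Alg.ext
  intro x
  rw [opL_apply, Matrix.one_mulVec]
  rfl

private theorem Ground_opL_zero : opL (0 : Matrix (Site L → Fin d) (Site L → Fin d) ℂ) =
    (0 : Alg (Site L) d →ₗ[ℂ] Alg (Site L) d) := by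
  apply LinearMap.ext
  intro f
  apply Alg.ext
  intro x
  rw [opL_apply, Matrix.zero_mulVec]
  rfl

/-- the windows -/
private noncomputable def gW (L : ℕ) [NeZero L] (F R : Finset (ℤ × ℤ)) :
    Site L × Bool → Finset (Site L)
  | (v, false) => Wn L F v
  | (v, true) => Wn L R v

/-- the diagonal part -/
private noncomputable def gDm (F : Finset (ℤ × ℤ)) (h0 : (F → Fin d) → ℝ) :
    Matrix (F → Fin d) (F → Fin d) ℂ :=
  Matrix.diagonal (fun x => (h0 x : ℂ) - (h0 0 : ℂ))

/-- the off-diagonal part -/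
private noncomputable def gKm (F : Finset (ℤ × ℤ)) (h0 : (F → Fin d) → ℝ)
    (h : Matrix (F → Fin d) (F → Fin d) ℂ) : Matrix (F → Fin d) (F → Fin d) ℂ :=
  h - Matrix.diagonal (fun x => (h0 x : ℂ))

private noncomputable def gD (L : ℕ) [NeZero L] (F : Finset (ℤ × ℤ)) (h0 : (F → Fin d) → ℝ) :
    Site L × Bool → (Alg (Site L) d →ₗ[ℂ] Alg (Site L) d)
  | (v, false) => opL (localTerm L F (gDm F h0) v)
  | (_, true) => 0

private noncomputable def gK (L : ℕ) [NeZero L] (F R : Finset (ℤ × ℤ)) (h0 : (F → Fin d) → ℝ)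
    (h : Matrix (F → Fin d) (F → Fin d) ℂ) (s : ℝ) (k : Matrix (R → Fin d) (R → Fin d) ℂ) :
    Site L × Bool → (Alg (Site L) d →ₗ[ℂ] Alg (Site L) d)
  | (v, false) => opL (localTerm L F (gKm F h0 h) v)
  | (v, true) => opL (localTerm L R ((s : ℂ) • k) v)

private noncomputable def gE (L : ℕ) [NeZero L] (F : Finset (ℤ × ℤ)) (h0 : (F → Fin d) → ℝ) :
    Site L × Bool → (Site L → Fin d) → ℝ
  | (v, false) => fun x => h0 (fun p => x (place L v p)) - h0 0
  | (_, true) => fun _ => 0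

variable {F R : Finset (ℤ × ℤ)} {h0 : (F → Fin d) → ℝ} {h : Matrix (F → Fin d) (F → Fin d) ℂ}
  {s : ℝ} {k : Matrix (R → Fin d) (R → Fin d) ℂ}

private theorem Ground_DK_false (v : Site L) : gD L F h0 (v, false) + gK L F R h0 h s k (v, false) =
    opL (localTerm L F (gDm F h0 + gKm F h0 h) v) := by
  rw [Ground_lt_add, opL_add]
  rfl

private theorem Ground_DK_true (v : Site L) : gD L F h0 (v, true) + gK L F R h0 h s k (v, true) =
    opL (localTerm L R ((s : ℂ) • k) v) := by
  show (0 : Alg (Site L) d →ₗ[ℂ] Alg (Site L) d) + _ = _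
  rw [zero_add]
  rfl

private theorem Ground_act (j : Site L × Bool) :
    ActsOn (gW L F R j) (gD L F h0 j + gK L F R h0 h s k j) := by
  obtain ⟨v, b⟩ := j
  cases b
  · rw [Ground_DK_false]
    exact actsOn_localTerm L F _ v
  · rw [Ground_DK_true]
    exact actsOn_localTerm L R _ v

private theorem Ground_diag (j : Site L × Bool) (x : Site L → Fin d) :
    gD L F h0 j (e x) = (gE L F h0 j x : ℂ) • e x := by
  obtain ⟨v, b⟩ := j
  cases b
  · show opL (localTerm L F (gDm F h0) v) (e x) = _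
    unfold gDm
    rw [localTerm_diagonal]
    simp only [gE]
    push_cast
    rfl
  · show (0 : Alg (Site L) d →ₗ[ℂ] Alg (Site L) d) (e x) = _
    simp [gE]

private theorem Ground_E0 (j : Site L × Bool) (x : Site L → Fin d)
    (hx : Disjoint (supp x) (gW L F R j)) : gE L F h0 j x = 0 := by
  obtain ⟨v, b⟩ := j
  cases b
  · show h0 (fun p => x (place L v p)) - h0 0 = 0
    have : (fun p : F => x (place L v p)) = 0 := by
      funext p
      by_contra hp
      have h1 : place L v p ∈ supp x := mem_supp.2 hp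
      have h2 : place L v p ∈ gW L F R (v, false) := by
        show place L v p ∈ Wn L F v
        exact Finset.mem_image_of_mem _ p.2
      exact Finset.disjoint_left.1 hx h1 h2
    rw [this, sub_self]
  · rfl

private theorem Ground_sumE (x : Site L → Fin d) : ∑ j, gE L F h0 j x =
    ∑ v : Site L, h0 (fun p => x (place L v p)) - (L : ℝ) ^ 2 * h0 0 := by
  rw [Fintype.sum_prod_type]
  simp only [Fintype.sum_bool, gE, zero_add]
  rw [Finset.sum_sub_distrib, Finset.sum_const, Finset.card_univ, nsmul_eq_mul]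
  congr 2
  rw [Fintype.card_prod, ZMod.card]
  push_cast
  ring

/-- the Hamiltonian -/
private theorem Ground_sum : opL (hamiltonian L F h + (s : ℂ) • hamiltonian L R k) =
    ∑ j, (gD L F h0 j + gK L F R h0 h s k j) + (((L : ℝ) ^ 2 * h0 0 : ℝ) : ℂ) • LinearMap.id := by
  have h1 : gDm F h0 + gKm F h0 h = h + (-(h0 0 : ℂ)) • (1 : Matrix (F → Fin d) (F → Fin d) ℂ) := by
    unfold gDm gKm
    ext a b
    simp only [Matrix.add_apply, Matrix.sub_apply, Matrix.smul_apply, Matrix.diagonal_apply,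
      Matrix.one_apply, smul_eq_mul]
    split_ifs <;> ring
  rw [Fintype.sum_prod_type]
  simp only [Fintype.sum_bool, Ground_DK_false, Ground_DK_true, h1, Ground_lt_add, Ground_lt_smul,
    Ground_lt_one, opL_add, opL_smul, Ground_opL_one]
  unfold hamiltonian
  rw [opL_sum, opL_sum, Finset.sum_add_distrib, Finset.sum_add_distrib, Finset.sum_const,
    Finset.card_univ, Fintype.card_prod, ZMod.card, Finset.smul_sum]
  push_cast
  have h2 : ∀ a b c : Alg (Site L) d →ₗ[ℂ] Alg (Site L) d, a + b =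
      b + (a + (L * L) • (-(h0 0 : ℂ)) • c) + ((L : ℂ) ^ 2 * (h0 0 : ℂ)) • c := by
    intro a b c
    have h3 : (L * L) • (-(h0 0 : ℂ)) • c = (-((L : ℂ) ^ 2 * (h0 0 : ℂ))) • c := by
      rw [← Nat.cast_smul_eq_nsmul ℂ, smul_smul]
      congr 1
      push_cast
      ring
    rw [h3, neg_smul]
    abel
  exact h2 _ _ _

end opers

section norms

variable {L : ℕ} [NeZero L] {d : ℕ} [NeZero d]
variable {F R : Finset (ℤ × ℤ)} {h0 : (F → Fin d) → ℝ} {h : Matrix (F → Fin d) (F → Fin d) ℂ}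
  {s : ℝ} {k : Matrix (R → Fin d) (R → Fin d) ℂ}

/-- constants depending on the type of the window only -/
private def sel {A : Type} (a b : ℝ) (j : A × Bool) : ℝ := if j.2 then b else a

private theorem Ground_nD (w : (Site L → Fin d) → ℝ) (hw : ∀ x, 0 ≤ w x) (j : Site L × Bool)
    (hW : ∀ x y : Site L → Fin d, (∀ u, u ∉ gW L F R j → x u = y u) → w x = w y)
    (φ : Alg (Site L) d) :
    wn w (gD L F h0 j φ) ≤ sel (∑ b, |h0 b - h0 0|) 0 j * wn w φ := by
  obtain ⟨v, b⟩ := j
  cases b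
  · refine wn_localTerm_le L F (gDm F h0) v w hw hW _ ?_ φ
    intro b
    unfold gDm
    rw [Finset.sum_eq_single b]
    · rw [Matrix.diagonal_apply_eq, ← Complex.ofReal_sub, Complex.norm_real, Real.norm_eq_abs]
      exact Finset.single_le_sum (f := fun b => |h0 b - h0 0|) (fun _ _ => abs_nonneg _)
        (Finset.mem_univ b)
    · intro a _ ha
      rw [Matrix.diagonal_apply_ne _ ha, norm_zero]
    · simp
  · show wn w (0 : Alg (Site L) d) ≤ 0 * wn w φ
    rw [zero_mul]
    unfold wn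
    simp

private theorem Ground_nK (w : (Site L → Fin d) → ℝ) (hw : ∀ x, 0 ≤ w x) (j : Site L × Bool)
    (hW : ∀ x y : Site L → Fin d, (∀ u, u ∉ gW L F R j → x u = y u) → w x = w y) {lam : ℝ}
    (hlam : ∀ a b, ‖h a b - Matrix.diagonal (fun x => (h0 x : ℂ)) a b‖ ≤ lam)
    (φ : Alg (Site L) d) :
    wn w (gK L F R h0 h s k j φ) ≤
      sel (lam * Fintype.card (F → Fin d)) (|s| * ∑ a, ∑ b, ‖k a b‖) j * wn w φ := by
  obtain ⟨v, b⟩ := j
  cases b
  · refine wn_localTerm_le L F (gKm F h0 h) v w hw hW _ ?_ φ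
    intro b
    calc ∑ a, ‖gKm F h0 h a b‖ ≤ ∑ _a : F → Fin d, lam := by
          refine Finset.sum_le_sum (fun a _ => ?_)
          exact hlam a b
      _ = _ := by
          rw [Finset.sum_const, Finset.card_univ, nsmul_eq_mul]
          simp [sel, mul_comm]
  · refine wn_localTerm_le L R ((s : ℂ) • k) v w hw hW _ ?_ φ
    intro b
    simp only [Matrix.smul_apply, smul_eq_mul, norm_mul, Complex.norm_real, Real.norm_eq_abs]
    rw [← Finset.mul_sum]
    refine mul_le_mul_of_nonneg_left ?_ (abs_nonneg s)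
    exact Finset.sum_le_sum (fun a _ =>
      Finset.single_le_sum (f := fun b => ‖k a b‖) (fun _ _ => norm_nonneg _) (Finset.mem_univ b))

/-- the weight of a window -/
private noncomputable def ww (c : ℝ) (W : Finset (Site L)) (x : Site L → Fin d) : ℝ :=
  Real.exp (c * msz (tadj L) (supp x ∪ W))

private noncomputable def th (c : ℝ) (x : Site L → Fin d) : ℝ :=
  Real.exp (c * msz (tadj L) (supp x))

private theorem ww_inv (c : ℝ) (W : Finset (Site L)) (x y : Site L → Fin d)
    (h : ∀ u, u ∉ W → x u = y u) : ww c W x = ww c W y := by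
  have : supp x ∪ W = supp y ∪ W := by
    ext u
    simp only [Finset.mem_union, mem_supp]
    by_cases hu : u ∈ W
    · simp [hu]
    · simp [hu, h u hu]
  unfold ww
  rw [this]

private theorem ww_sub {c : ℝ} (hc : 0 ≤ c) (W : Finset (Site L)) (x : Site L → Fin d)
    (hx : x ∈ XW W) (y : Site L → Fin d) (_ : Disj x y) :
    ww c W (join x y) ≤ th c x * ww c W y := by
  unfold ww th
  rw [← Real.exp_add, ← mul_add]
  refine Real.exp_le_exp.2 (mul_le_mul_of_nonneg_left ?_ hc)
  rw [supp_join, Finset.union_assoc]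
  have h1 : ¬ Disjoint (supp x) (supp y ∪ W) := by
    intro h2
    rw [Finset.disjoint_union_right] at h2
    exact (Finset.mem_filter.1 hx).2 h2.2
  exact_mod_cast msz_union_le h1 (exists_conn L _) (exists_conn L _)

private theorem th_le_ww {c : ℝ} (hc : 0 ≤ c) (W : Finset (Site L)) (x : Site L → Fin d) :
    th c x ≤ ww c W x := by
  unfold ww th
  refine Real.exp_le_exp.2 (mul_le_mul_of_nonneg_left ?_ hc)
  exact_mod_cast msz_mono Finset.subset_union_left (exists_conn L _)

private theorem ww_zero {c : ℝ} (hc : 0 ≤ c) {G : Finset (ℤ × ℤ)} {C : ℕ}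
    (hC : ∀ (L : ℕ) [NeZero L] (v : Site L), msz (tadj L) (G.image (place L v)) ≤ C) (v : Site L) :
    ww c (Wn L G v) (0 : Site L → Fin d) ≤ Real.exp (c * C) := by
  unfold ww
  refine Real.exp_le_exp.2 (mul_le_mul_of_nonneg_left ?_ hc)
  rw [supp_zero, Finset.empty_union]
  exact_mod_cast hC L v

private theorem th_tr (c : ℝ) (u : Site L) (x : Site L → Fin d) : th c (tr u x) = th c x := by
  unfold th
  rw [supp_tr, msz_translate]

private theorem Ground_card : (Fintype.card (Site L) : ℝ) = (L : ℝ) ^ 2 := by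
  rw [Fintype.card_prod, ZMod.card]
  push_cast
  ring

private theorem NT_eq (c : ℝ) (T : (Site L → Fin d) → ℂ) : NT (tadj L) c T =
    ((L : ℝ) ^ 2)⁻¹ * ∑ x : Site L → Fin d, (supp x).card * (th c x * ‖T x‖) := by
  unfold NT th
  rw [Ground_card]
  congr 1
  exact Finset.sum_congr rfl (fun x _ => by ring)

private theorem NT_nonneg (c : ℝ) (T : (Site L → Fin d) → ℂ) : 0 ≤ NT (tadj L) c T := by
  unfold NT
  positivity

private theorem Ground_window {c : ℝ} (W : Finset (Site L)) (T : (Site L → Fin d) → ℂ)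
    (hT : ∀ u x, ‖T (tr u x)‖ = ‖T x‖) :
    ∑ x ∈ XW W, th c x * ‖T x‖ ≤ W.card * NT (tadj L) c T := by
  classical
  have h1 : ∑ x ∈ XW W, th c x * ‖T x‖ ≤ ∑ u ∈ W,
      ∑ x ∈ Finset.univ.filter (fun x : Site L → Fin d => u ∈ supp x), th c x * ‖T x‖ := by
    have h2 : ∀ x : Site L → Fin d, 0 ≤ th c x * ‖T x‖ := fun x =>
      mul_nonneg (Real.exp_pos _).le (norm_nonneg _)
    have h3 : ∀ u ∈ W, ∑ x ∈ Finset.univ.filter (fun x : Site L → Fin d => u ∈ supp x),
        th c x * ‖T x‖ = ∑ x : Site L → Fin d, if u ∈ supp x then th c x * ‖T x‖ else 0 :=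
      fun u _ => Finset.sum_filter _ _
    rw [Finset.sum_congr rfl h3, Finset.sum_comm]
    refine le_trans ?_ (Finset.sum_le_sum_of_subset_of_nonneg (Finset.subset_univ (XW W))
      (fun x _ _ => Finset.sum_nonneg (fun u _ => by split_ifs; exacts [h2 x, le_rfl])))
    refine Finset.sum_le_sum (fun x hx => ?_)
    have h4 : ¬ Disjoint (supp x) W := (Finset.mem_filter.1 hx).2
    rw [Finset.not_disjoint_iff] at h4
    obtain ⟨u, hu1, hu2⟩ := h4
    refine le_trans (le_of_eq ?_) (Finset.single_le_sum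
      (f := fun u => if u ∈ supp x then th c x * ‖T x‖ else 0)
      (fun u _ => by split_ifs; exacts [h2 x, le_rfl]) hu2)
    simp only [if_pos hu1]
  refine h1.trans ?_
  have h5 : ∀ u ∈ W, ∑ x ∈ Finset.univ.filter (fun x : Site L → Fin d => u ∈ supp x),
      th c x * ‖T x‖ = NT (tadj L) c T := by
    intro u _
    rw [sum_through (fun x : Site L → Fin d => th c x * ‖T x‖) (fun u x => by rw [th_tr, hT]) u,
      NT_eq, Ground_card]
  rw [Finset.sum_congr rfl h5, Finset.sum_const, nsmul_eq_mul]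

private theorem gW_card (j : Site L × Bool) :
    ((gW L F R j).card : ℝ) ≤ sel (F.card : ℝ) (R.card : ℝ) j := by
  obtain ⟨v, b⟩ := j
  cases b
  · show ((Wn L F v).card : ℝ) ≤ F.card
    exact_mod_cast card_Wn_le L F v
  · show ((Wn L R v).card : ℝ) ≤ R.card
    exact_mod_cast card_Wn_le L R v

private theorem sum_sel (a b : ℝ) : ∑ j : Site L × Bool, sel a b j = (L : ℝ) ^ 2 * (a + b) := by
  rw [Fintype.sum_prod_type]
  simp only [Fintype.sum_bool, sel, if_true, Bool.false_eq_true, if_false]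
  rw [Finset.sum_const, Finset.card_univ, nsmul_eq_mul, Ground_card]
  ring

end norms

section fixed

variable {L : ℕ} [NeZero L] {d : ℕ} [NeZero d]
variable (F R : Finset (ℤ × ℤ)) (h0 : (F → Fin d) → ℝ) (h : Matrix (F → Fin d) (F → Fin d) ℂ)
  (s : ℝ) (k : Matrix (R → Fin d) (R → Fin d) ℂ)

private theorem Ground_D1 (j : Site L × Bool) : gD L F h0 j 1 = 0 := by
  have h1 := Ground_diag (F := F) (h0 := h0) j 0
  rw [e_zero, Ground_E0 (R := ∅) j 0 (by rw [supp_zero]; exact Finset.disjoint_empty_left _)] at h1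
  simpa using h1

/-- the off-diagonal part of the equations -/
private noncomputable def gG (T : (Site L → Fin d) → ℂ) : Alg (Site L) d :=
  ∑ j, (Pv (gW L F R j) (gD L F h0 j + gK L F R h0 h s k j) T -
    gD L F h0 j (LP (XW (gW L F R j)) T))

private noncomputable def gPhi (T : (Site L → Fin d) → ℂ) : (Site L → Fin d) → ℂ :=
  fun x => if x = 0 then 0 else -((∑ j, gE L F h0 j x : ℝ) : ℂ)⁻¹ * gG F R h0 h s k T x

private theorem Ground_DLP (T : (Site L → Fin d) → ℂ) (x : Site L → Fin d) :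
    (∑ j, gD L F h0 j (LP (XW (gW L F R j)) T)) x = ((∑ j, gE L F h0 j x : ℝ) : ℂ) * T x := by
  rw [sum_apply, Complex.ofReal_sum, Finset.sum_mul]
  refine Finset.sum_congr rfl (fun j _ => ?_)
  unfold LP
  rw [map_sum, sum_apply]
  have h1 : ∀ y ∈ XW (gW L F R j), (gD L F h0 j (T y • e y)) x =
      if y = x then T x * (gE L F h0 j x : ℂ) else 0 := by
    intro y _
    rw [map_smul, Ground_diag, smul_apply, smul_apply, e_apply]
    by_cases hxy : y = x
    · subst hxy
      simp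
    · rw [if_neg (fun h => hxy h.symm), if_neg hxy]
      ring
  rw [Finset.sum_congr rfl h1, Finset.sum_ite_eq']
  split_ifs with hx
  · ring
  · rw [Ground_E0 (R := R) j x, Complex.ofReal_zero, zero_mul]
    by_contra h2
    exact hx (Finset.mem_filter.2 ⟨Finset.mem_univ _, h2⟩)

private theorem Ground_sumE_tr (u : Site L) (x : Site L → Fin d) :
    ∑ j, gE L F h0 j (tr u x) = ∑ j, gE L F h0 j x := by
  rw [Ground_sumE, Ground_sumE]
  congr 1
  have h1 : ∀ v : Site L, h0 (fun p => (tr u x) (place L v p)) =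
      h0 (fun p => x (place L (v - u) p)) := by
    intro v
    congr 1
    funext p
    unfold tr
    congr 1
    apply Prod.ext
    · simp only [place, Prod.fst_sub]
      ring
    · simp only [place, Prod.snd_sub]
      ring
  rw [Finset.sum_congr rfl (fun v _ => h1 v)]
  exact (Equiv.subRight u).sum_comp (fun v => h0 (fun p => x (place L v p)))

private theorem Ground_sumPv (T : (Site L → Fin d) → ℂ) :
    ∑ j, Pv (gW L F R j) (gD L F h0 j + gK L F R h0 h s k j) T =
      ∑ v : Site L, Pv (Wn L R v) (opL (localTerm L R ((s : ℂ) • k) v)) T +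
      ∑ v : Site L, Pv (Wn L F v) (opL (localTerm L F (gDm F h0 + gKm F h0 h) v)) T := by
  rw [Fintype.sum_prod_type, ← Finset.sum_add_distrib]
  refine Finset.sum_congr rfl (fun v _ => ?_)
  rw [Fintype.sum_bool, Ground_DK_false, Ground_DK_true]
  rfl

private theorem Ground_Pv_tr (T : (Site L → Fin d) → ℂ) (hT : ∀ u x, T (tr u x) = T x)
    (u : Site L) (x : Site L → Fin d) :
    (∑ j, Pv (gW L F R j) (gD L F h0 j + gK L F R h0 h s k j) T) (tr u x) =
      (∑ j, Pv (gW L F R j) (gD L F h0 j + gK L F R h0 h s k j) T) x := by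
  rw [Ground_sumPv, add_apply, add_apply, sum_Pv_tr L R _ T hT u x, sum_Pv_tr L F _ T hT u x]

private theorem Ground_G_apply (T : (Site L → Fin d) → ℂ) (x : Site L → Fin d) :
    gG F R h0 h s k T x = (∑ j, Pv (gW L F R j) (gD L F h0 j + gK L F R h0 h s k j) T) x -
      ((∑ j, gE L F h0 j x : ℝ) : ℂ) * T x := by
  unfold gG
  rw [Finset.sum_sub_distrib, sub_apply, Ground_DLP]

omit [NeZero L] in
private theorem tr_eq_zero (u : Site L) (x : Site L → Fin d) : tr u x = 0 ↔ x = 0 := by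
  constructor
  · intro h
    funext w
    have := congrFun h (w + u)
    simpa [tr] using this
  · rintro rfl
    rfl

private theorem Ground_map (T : (Site L → Fin d) → ℂ) (hT : ∀ u x, T (tr u x) = T x)
    (u : Site L) (x : Site L → Fin d) :
    gPhi F R h0 h s k T (tr u x) = gPhi F R h0 h s k T x := by
  unfold gPhi
  by_cases hx : x = 0
  · rw [if_pos hx, if_pos ((tr_eq_zero u x).2 hx)]
  · rw [if_neg hx, if_neg (fun h => hx ((tr_eq_zero u x).1 h)), Ground_G_apply, Ground_G_apply,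
      Ground_sumE_tr, Ground_Pv_tr F R h0 h s k T hT, hT]

variable {F R h0 h s k}

/-- Lipschitz estimate -/
private theorem Ground_lip {c : ℝ} (hc : 0 ≤ c) {CF CR : ℕ}
    (hCF : ∀ (L : ℕ) [NeZero L] (v : Site L), msz (tadj L) (F.image (place L v)) ≤ CF)
    (hCR : ∀ (L : ℕ) [NeZero L] (v : Site L), msz (tadj L) (R.image (place L v)) ≤ CR) {lam : ℝ}
    (hlam0 : 0 ≤ lam)
    (hlam : ∀ a b, ‖h a b - Matrix.diagonal (fun x => (h0 x : ℂ)) a b‖ ≤ lam) {r : ℝ}
    (hr : 0 ≤ r)
    (T T' : (Site L → Fin d) → ℂ) (hT : ∀ u x, T (tr u x) = T x) (hT' : ∀ u x, T' (tr u x) = T' x)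
    (hTr : NT (tadj L) c T ≤ r) (hTr' : NT (tadj L) c T' ≤ r) (j : Site L × Bool) :
    wn (ww c (gW L F R j)) ((Pv (gW L F R j) (gD L F h0 j + gK L F R h0 h s k j) T -
        gD L F h0 j (LP (XW (gW L F R j)) T)) -
      (Pv (gW L F R j) (gD L F h0 j + gK L F R h0 h s k j) T' -
        gD L F h0 j (LP (XW (gW L F R j)) T'))) ≤
      sel (Real.exp (c * CF) * ((∑ b, |h0 b - h0 0|) * (Real.exp (2 * (F.card * r)) - 1) *
          (2 * Real.exp (2 * (F.card * r)) + 1) +
          2 * (lam * Fintype.card (F → Fin d)) * Real.exp (4 * (F.card * r))) * F.card)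
        (Real.exp (c * CR) * (2 * (|s| * ∑ a, ∑ b, ‖k a b‖) * Real.exp (4 * (R.card * r))) *
          R.card) j *
      NT (tadj L) c (T - T') := by
  have hw : ∀ x : Site L → Fin d, 0 ≤ ww c (gW L F R j) x := fun x => (Real.exp_pos _).le
  have hwinv := ww_inv (d := d) c (gW L F R j)
  have hwin : ∀ S : (Site L → Fin d) → ℂ, (∀ u x, S (tr u x) = S x) →
      ∑ x ∈ XW (gW L F R j), th c x * ‖S x‖ ≤ sel (F.card : ℝ) (R.card : ℝ) j *
        NT (tadj L) c S := by
    intro S hS
    refine (Ground_window (c := c) (gW L F R j) S (fun u x => by rw [hS])).trans ?_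
    exact mul_le_mul_of_nonneg_right (gW_card j) (NT_nonneg _ _)
  have hselc : 0 ≤ sel (F.card : ℝ) (R.card : ℝ) j := by
    unfold sel; split_ifs <;> positivity
  have hτ : ∀ S : (Site L → Fin d) → ℂ, (∀ u x, S (tr u x) = S x) → NT (tadj L) c S ≤ r →
      ∑ x ∈ XW (gW L F R j), th c x * ‖S x‖ ≤ sel (F.card : ℝ) (R.card : ℝ) j * r := by
    intro S hS hSr
    exact (hwin S hS).trans (mul_le_mul_of_nonneg_left hSr hselc)
  have hμ : 0 ≤ sel (∑ b, |h0 b - h0 0|) 0 j := by
    unfold sel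
    split_ifs
    · exact le_rfl
    · exact Finset.sum_nonneg (fun _ _ => abs_nonneg _)
  have hκ : 0 ≤ sel (lam * Fintype.card (F → Fin d)) (|s| * ∑ a, ∑ b, ‖k a b‖) j := by
    unfold sel
    split_ifs <;> positivity
  have key := loc_est (W := gW L F R j) (w := ww c (gW L F R j)) hw (th c)
    (fun x => (Real.exp_pos _).le) (fun x hx y hxy => ww_sub hc _ x hx y hxy)
    (gD L F h0 j) (gK L F R h0 h s k j) hμ hκ (Ground_D1 F h0 j)
    (Ground_nD _ hw j hwinv) (Ground_nK _ hw j hwinv hlam) T T' (hτ T hT hTr) (hτ T' hT' hTr')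
  refine key.trans ?_
  have hsub : ∑ x ∈ XW (gW L F R j), th c x * ‖T x - T' x‖ ≤
      sel (F.card : ℝ) (R.card : ℝ) j * NT (tadj L) c (T - T') :=
    hwin (T - T') (fun u x => by simp only [Pi.sub_apply, hT, hT'])
  have hw0 : ww c (gW L F R j) (0 : Site L → Fin d) ≤
      sel (Real.exp (c * CF)) (Real.exp (c * CR)) j := by
    obtain ⟨v, b⟩ := j
    cases b
    · exact ww_zero hc hCF v
    · exact ww_zero hc hCR v
  have hsum0 : 0 ≤ ∑ x ∈ XW (gW L F R j), th c x * ‖T x - T' x‖ :=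
    Finset.sum_nonneg (fun x _ => mul_nonneg (Real.exp_pos _).le (norm_nonneg _))
  have hfac : 0 ≤ sel (∑ b, |h0 b - h0 0|) 0 j *
      (Real.exp (2 * (sel (F.card : ℝ) (R.card : ℝ) j * r)) - 1) *
      (2 * Real.exp (2 * (sel (F.card : ℝ) (R.card : ℝ) j * r)) + 1) +
      2 * sel (lam * Fintype.card (F → Fin d)) (|s| * ∑ a, ∑ b, ‖k a b‖) j *
        Real.exp (4 * (sel (F.card : ℝ) (R.card : ℝ) j * r)) := by
    have h1 : 0 ≤ Real.exp (2 * (sel (F.card : ℝ) (R.card : ℝ) j * r)) - 1 := by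
      have := Real.add_one_le_exp (2 * (sel (F.card : ℝ) (R.card : ℝ) j * r))
      have h2 : 0 ≤ 2 * (sel (F.card : ℝ) (R.card : ℝ) j * r) := by positivity
      linarith
    positivity
  calc _ ≤ sel (Real.exp (c * CF)) (Real.exp (c * CR)) j *
        (sel (∑ b, |h0 b - h0 0|) 0 j *
      (Real.exp (2 * (sel (F.card : ℝ) (R.card : ℝ) j * r)) - 1) *
      (2 * Real.exp (2 * (sel (F.card : ℝ) (R.card : ℝ) j * r)) + 1) +
      2 * sel (lam * Fintype.card (F → Fin d)) (|s| * ∑ a, ∑ b, ‖k a b‖) j *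
        Real.exp (4 * (sel (F.card : ℝ) (R.card : ℝ) j * r))) *
        (sel (F.card : ℝ) (R.card : ℝ) j * NT (tadj L) c (T - T')) := by
        refine mul_le_mul (mul_le_mul_of_nonneg_right hw0 hfac) hsub hsum0 ?_
        exact mul_nonneg ((Real.exp_pos _).le.trans hw0) hfac
    _ = _ := by
        obtain ⟨v, b⟩ := j
        cases b <;> simp only [sel, if_true, Bool.false_eq_true, if_false] <;> ring

private theorem Ground_zero {c : ℝ} (hc : 0 ≤ c) {CF CR : ℕ}
    (hCF : ∀ (L : ℕ) [NeZero L] (v : Site L), msz (tadj L) (F.image (place L v)) ≤ CF)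
    (hCR : ∀ (L : ℕ) [NeZero L] (v : Site L), msz (tadj L) (R.image (place L v)) ≤ CR) {lam : ℝ}
    (hlam0 : 0 ≤ lam)
    (hlam : ∀ a b, ‖h a b - Matrix.diagonal (fun x => (h0 x : ℂ)) a b‖ ≤ lam) (j : Site L × Bool) :
    wn (ww c (gW L F R j)) (Pv (gW L F R j) (gD L F h0 j + gK L F R h0 h s k j) 0 -
        gD L F h0 j (LP (XW (gW L F R j)) 0)) ≤
      sel (Real.exp (c * CF) * (lam * Fintype.card (F → Fin d)))
        (Real.exp (c * CR) * (|s| * ∑ a, ∑ b, ‖k a b‖)) j := by
  have hw : ∀ x : Site L → Fin d, 0 ≤ ww c (gW L F R j) x := fun x => (Real.exp_pos _).le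
  have hwinv := ww_inv (d := d) c (gW L F R j)
  have hκ : 0 ≤ sel (lam * Fintype.card (F → Fin d)) (|s| * ∑ a, ∑ b, ‖k a b‖) j := by
    unfold sel
    split_ifs <;> positivity
  refine (loc_est_zero (W := gW L F R j) (w := ww c (gW L F R j)) (gD L F h0 j)
    (gK L F R h0 h s k j) (Ground_D1 F h0 j) (Ground_nK _ hw j hwinv hlam)).trans ?_
  have hw0 : ww c (gW L F R j) (0 : Site L → Fin d) ≤
      sel (Real.exp (c * CF)) (Real.exp (c * CR)) j := by
    obtain ⟨v, b⟩ := j
    cases b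
    · exact ww_zero hc hCF v
    · exact ww_zero hc hCR v
  refine (mul_le_mul_of_nonneg_left hw0 hκ).trans (le_of_eq ?_)
  obtain ⟨v, b⟩ := j
  cases b <;> simp only [sel, if_true, Bool.false_eq_true, if_false] <;> ring

end fixed

section final

variable {L : ℕ} [NeZero L] {d : ℕ} [NeZero d]

/-- the weights of the norm -/
private noncomputable def ga (c : ℝ) (x : Site L → Fin d) : ℝ :=
  if x = 0 then 1 else ((L : ℝ) ^ 2)⁻¹ * ((supp x).card * th c x)

private theorem supp_card_pos {x : Site L → Fin d} (hx : x ≠ 0) : (1 : ℝ) ≤ (supp x).card := by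
  have : (supp x).Nonempty := by
    rw [Finset.nonempty_iff_ne_empty]
    exact fun h => hx (supp_eq_empty.1 h)
  exact_mod_cast this.card_pos

private theorem ga_pos (c : ℝ) (x : Site L → Fin d) : 0 < ga c x := by
  unfold ga
  split_ifs with h
  · exact one_pos
  · have h1 := supp_card_pos h
    have h2 : (0 : ℝ) < L := by exact_mod_cast Nat.pos_of_ne_zero (NeZero.ne L)
    have h3 : 0 < th c x := Real.exp_pos _
    positivity

private theorem ga_sum (c : ℝ) (T : (Site L → Fin d) → ℂ) (hT : T 0 = 0) :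
    ∑ x, ga c x * ‖T x‖ = NT (tadj L) c T := by
  rw [NT_eq, Finset.mul_sum]
  refine Finset.sum_congr rfl (fun x _ => ?_)
  unfold ga
  split_ifs with h
  · subst h
    rw [hT, norm_zero]
    ring
  · ring

private theorem ga_phi (c : ℝ) (E : (Site L → Fin d) → ℝ)
    (hE : ∀ x, ((supp x).card : ℝ) ≤ E x) (g : (Site L → Fin d) → ℂ) :
    ∑ x, ga c x * ‖if x = 0 then 0 else -((E x : ℝ) : ℂ)⁻¹ * g x‖ ≤
      ((L : ℝ) ^ 2)⁻¹ * ∑ x, th c x * ‖g x‖ := by
  rw [Finset.mul_sum]
  refine Finset.sum_le_sum (fun x _ => ?_)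
  have h3 : 0 < th c x := Real.exp_pos _
  by_cases h : x = 0
  · rw [if_pos h, norm_zero, mul_zero]
    positivity
  · have h1 := supp_card_pos h
    have h2 := hE x
    have h4 : 0 < E x := by linarith
    unfold ga
    rw [if_neg h, if_neg h, norm_mul, norm_neg, norm_inv, Complex.norm_real, Real.norm_eq_abs,
      abs_of_pos h4]
    have h5 : ((supp x).card : ℝ) * (E x)⁻¹ ≤ 1 := by
      rw [← div_eq_mul_inv, div_le_one h4]
      exact h2
    calc ((L : ℝ) ^ 2)⁻¹ * ((supp x).card * th c x) * ((E x)⁻¹ * ‖g x‖)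
        = ((L : ℝ) ^ 2)⁻¹ * (th c x * ‖g x‖) * ((supp x).card * (E x)⁻¹) := by ring
      _ ≤ ((L : ℝ) ^ 2)⁻¹ * (th c x * ‖g x‖) * 1 := by
          refine mul_le_mul_of_nonneg_left h5 ?_
          positivity
      _ = _ := by ring

private theorem th_sum_le {J : Type} [Fintype J] {c : ℝ} (hc : 0 ≤ c) (W : J → Finset (Site L))
    (f : J → Alg (Site L) d) :
    ∑ x, th c x * ‖(∑ j, f j) x‖ ≤ ∑ j, wn (ww c (W j)) (f j) := by
  unfold wn
  rw [Finset.sum_comm]
  refine Finset.sum_le_sum (fun x _ => ?_)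
  rw [sum_apply]
  calc th c x * ‖∑ j, f j x‖ ≤ th c x * ∑ j, ‖f j x‖ :=
        mul_le_mul_of_nonneg_left (norm_sum_le _ _) (Real.exp_pos _).le
    _ = ∑ j, th c x * ‖f j x‖ := Finset.mul_sum _ _ _
    _ ≤ _ := Finset.sum_le_sum (fun j _ =>
        mul_le_mul_of_nonneg_right (th_le_ww hc (W j) x) (norm_nonneg _))

variable {F R : Finset (ℤ × ℤ)} {h0 : (F → Fin d) → ℝ} {h : Matrix (F → Fin d) (F → Fin d) ℂ}
  {s : ℝ} {k : Matrix (R → Fin d) (R → Fin d) ℂ}

private theorem ga_diff (c : ℝ) (hE : ∀ x : Site L → Fin d, ((supp x).card : ℝ) ≤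
    ∑ j, gE L F h0 j x) (hc : 0 ≤ c) (T T' : (Site L → Fin d) → ℂ) :
    ∑ x, ga c x * ‖gPhi F R h0 h s k T x - gPhi F R h0 h s k T' x‖ ≤
      ((L : ℝ) ^ 2)⁻¹ * ∑ j, wn (ww c (gW L F R j))
        ((Pv (gW L F R j) (gD L F h0 j + gK L F R h0 h s k j) T -
          gD L F h0 j (LP (XW (gW L F R j)) T)) -
        (Pv (gW L F R j) (gD L F h0 j + gK L F R h0 h s k j) T' -
          gD L F h0 j (LP (XW (gW L F R j)) T'))) := by
  have h1 : ∀ x, gPhi F R h0 h s k T x - gPhi F R h0 h s k T' x =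
      if x = 0 then 0 else -((∑ j, gE L F h0 j x : ℝ) : ℂ)⁻¹ *
        (gG F R h0 h s k T - gG F R h0 h s k T') x := by
    intro x
    unfold gPhi
    split_ifs with hx
    · ring
    · rw [sub_apply]
      ring
  rw [Finset.sum_congr rfl (fun x _ => by rw [h1 x])]
  refine (ga_phi c (fun x => ∑ j, gE L F h0 j x) hE _).trans ?_
  refine mul_le_mul_of_nonneg_left ?_ (by positivity)
  unfold gG
  rw [← Finset.sum_sub_distrib]
  exact th_sum_le hc (gW L F R) _

private theorem ga_nil (c : ℝ) (hE : ∀ x : Site L → Fin d, ((supp x).card : ℝ) ≤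
    ∑ j, gE L F h0 j x) (hc : 0 ≤ c) (T : (Site L → Fin d) → ℂ) :
    ∑ x, ga c x * ‖gPhi F R h0 h s k T x‖ ≤
      ((L : ℝ) ^ 2)⁻¹ * ∑ j, wn (ww c (gW L F R j))
        (Pv (gW L F R j) (gD L F h0 j + gK L F R h0 h s k j) T -
          gD L F h0 j (LP (XW (gW L F R j)) T)) := by
  unfold gPhi
  refine (ga_phi c (fun x => ∑ j, gE L F h0 j x) hE _).trans ?_
  refine mul_le_mul_of_nonneg_left ?_ (by positivity)
  unfold gG
  exact th_sum_le hc (gW L F R) _

/-- existence of the fixed point and its consequences -/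
private theorem Ground_core {c : ℝ} (hc : 0 ≤ c) {CF CR : ℕ}
    (hCF : ∀ (L : ℕ) [NeZero L] (v : Site L), msz (tadj L) (F.image (place L v)) ≤ CF)
    (hCR : ∀ (L : ℕ) [NeZero L] (v : Site L), msz (tadj L) (R.image (place L v)) ≤ CR) {lam : ℝ}
    (hlam0 : 0 ≤ lam)
    (hlam : ∀ a b, ‖h a b - Matrix.diagonal (fun x => (h0 x : ℂ)) a b‖ ≤ lam) {r : ℝ}
    (hr : 0 ≤ r) (hh : h.IsHermitian) (hk : k.IsHermitian)
    (hA : Real.exp (c * CF) * ((∑ b, |h0 b - h0 0|) * (Real.exp (2 * (F.card * r)) - 1) *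
          (2 * Real.exp (2 * (F.card * r)) + 1) +
          2 * (lam * Fintype.card (F → Fin d)) * Real.exp (4 * (F.card * r))) * F.card +
        Real.exp (c * CR) * (2 * (|s| * ∑ a, ∑ b, ‖k a b‖) * Real.exp (4 * (R.card * r))) *
          R.card ≤ 1 / 2)
    (hB : Real.exp (c * CF) * (lam * Fintype.card (F → Fin d)) +
        Real.exp (c * CR) * (|s| * ∑ a, ∑ b, ‖k a b‖) ≤ r / 2)
    (hC : F.card * (2 * ((∑ b, |h0 b - h0 0|) * (Real.exp (2 * (F.card * r)) - 1) +
          (lam * Fintype.card (F → Fin d)) * Real.exp (2 * (F.card * r)))) +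
        R.card * (2 * ((|s| * ∑ a, ∑ b, ‖k a b‖) * Real.exp (2 * (R.card * r)))) ≤ 1 / 4)
    (hP : ∀ x : Site L → Fin d, (L : ℝ) ^ 2 * h0 0 + (supp x).card ≤
          ∑ v : Site L, h0 (fun p => x (place L v p))) :
    ∃ T : (Site L → Fin d) → ℂ, (∀ u x, T (tr u x) = T x) ∧ NT (tadj L) c T ≤ r ∧
      IsGappedGround (hamiltonian L F h + (s : ℂ) • hamiltonian L R k) (1 / 2)
        (fun x => (EP X0 T : Alg (Site L) d) x) := by
  have hE : ∀ x : Site L → Fin d, ((supp x).card : ℝ) ≤ ∑ j, gE L F h0 j x := by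
    intro x
    rw [Ground_sumE]
    linarith [hP x]
  have hL : (L : ℝ) ^ 2 ≠ 0 := by
    have h2 : (0 : ℝ) < L := by exact_mod_cast Nat.pos_of_ne_zero (NeZero.ne L)
    positivity
  have hsum : ∀ a b m : ℝ, ((L : ℝ) ^ 2)⁻¹ * ∑ j : Site L × Bool, sel a b j * m = (a + b) * m := by
    intro a b m
    rw [← Finset.sum_mul, sum_sel, mul_assoc, inv_mul_cancel_left₀ hL]
  let C : Set ((Site L → Fin d) → ℂ) := {T | T 0 = 0 ∧ ∀ u x, T (tr u x) = T x}
  have hCcl : IsClosed C := by
    have h1 : C = {T | T 0 = 0} ∩ ⋂ u : Site L, ⋂ x : Site L → Fin d, {T | T (tr u x) = T x} := by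
      ext T
      simp [C]
    rw [h1]
    refine IsClosed.inter (isClosed_eq (continuous_apply _) continuous_const) ?_
    exact isClosed_iInter fun u => isClosed_iInter fun x =>
      isClosed_eq (continuous_apply _) (continuous_apply _)
  obtain ⟨T, hTC, hTr, hfix⟩ := exists_fixed_point (ga c) (ga_pos c) C hCcl ⟨rfl, fun _ _ => rfl⟩
    hr (gPhi F R h0 h s k) (by
      intro T hT _
      refine ⟨?_, fun u x => Ground_map F R h0 h s k T hT.2 u x⟩
      unfold gPhi
      rw [if_pos rfl]) (by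
      intro T hT T' hT' hr1 hr2
      rw [ga_sum c T hT.1] at hr1
      rw [ga_sum c T' hT'.1] at hr2
      have h2 : ∑ x, ga c x * ‖T x - T' x‖ = NT (tadj L) c (T - T') :=
        ga_sum c (T - T') (by simp [hT.1, hT'.1])
      rw [h2]
      refine (ga_diff c hE hc T T').trans ?_
      refine (mul_le_mul_of_nonneg_left (Finset.sum_le_sum (fun j _ =>
        Ground_lip hc hCF hCR hlam0 hlam hr T T' hT.2 hT'.2 hr1 hr2 j)) (by positivity)).trans ?_
      rw [hsum]
      exact mul_le_mul_of_nonneg_right hA (NT_nonneg _ _)) (by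
      refine (ga_nil c hE hc 0).trans ?_
      refine (mul_le_mul_of_nonneg_left (Finset.sum_le_sum (fun j _ =>
        Ground_zero hc hCF hCR hlam0 hlam j)) (by positivity)).trans ?_
      have h3 := hsum (Real.exp (c * CF) * (lam * Fintype.card (F → Fin d)))
        (Real.exp (c * CR) * (|s| * ∑ a, ∑ b, ‖k a b‖)) 1
      simp only [mul_one] at h3
      rw [h3]
      exact hB)
  have hNT : NT (tadj L) c T ≤ r := by rw [← ga_sum c T hTC.1]; exact hTr
  refine ⟨T, hTC.2, hNT, ?_⟩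
  -- the equations
  have heq : ∀ x ≠ 0, (∑ j, Pv (gW L F R j) (gD L F h0 j + gK L F R h0 h s k j) T) x = 0 := by
    intro x hx
    have h1 := congrFun hfix x
    unfold gPhi at h1
    rw [if_neg hx, Ground_G_apply] at h1
    have h2 : ((∑ j, gE L F h0 j x : ℝ) : ℂ) ≠ 0 := by
      have h3 := supp_card_pos hx
      have h4 := hE x
      exact_mod_cast (by linarith : (0 : ℝ) < ∑ j, gE L F h0 j x).ne'
    have h5 : ((∑ j, gE L F h0 j x : ℝ) : ℂ) * T x = -((∑ j, Pv (gW L F R j)
        (gD L F h0 j + gK L F R h0 h s k j) T) x - ((∑ j, gE L F h0 j x : ℝ) : ℂ) * T x) := by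
      conv_lhs => rw [← h1]
      field_simp
    linear_combination h5
  have hwin : ∀ j : Site L × Bool, ∑ x ∈ XW (gW L F R j), ‖T x‖ ≤
      sel (F.card * r : ℝ) (R.card * r : ℝ) j := by
    intro j
    have h1 : ∑ x ∈ XW (gW L F R j), ‖T x‖ ≤ ∑ x ∈ XW (gW L F R j), th c x * ‖T x‖ := by
      refine Finset.sum_le_sum (fun x _ => ?_)
      refine le_mul_of_one_le_left (norm_nonneg _) ?_
      unfold th
      exact Real.one_le_exp (by positivity)
    refine h1.trans ((Ground_window (c := c) (gW L F R j) T (fun u x => by rw [hTC.2])).trans ?_)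
    have h2 := gW_card (L := L) (F := F) (R := R) j
    have h3 : sel (F.card * r : ℝ) (R.card * r : ℝ) j = sel (F.card : ℝ) (R.card : ℝ) j * r := by
      unfold sel
      split_ifs <;> rfl
    rw [h3]
    exact mul_le_mul h2 hNT (NT_nonneg _ _) (le_trans (Nat.cast_nonneg _) h2)
  have hw1 : ∀ x : Site L → Fin d, (0 : ℝ) ≤ (fun _ => (1 : ℝ)) x := fun _ => zero_le_one
  have hμ : ∀ j : Site L × Bool, 0 ≤ sel (∑ b, |h0 b - h0 0|) 0 j := by
    intro j
    unfold sel
    split_ifs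
    · exact le_rfl
    · exact Finset.sum_nonneg (fun _ _ => abs_nonneg _)
  have hκ : ∀ j : Site L × Bool,
      0 ≤ sel (lam * Fintype.card (F → Fin d)) (|s| * ∑ a, ∑ b, ‖k a b‖) j := by
    intro j
    unfold sel
    split_ifs <;> positivity
  have hsmall : ∀ u : Site L, ∑ j ∈ Finset.univ.filter (fun j => u ∈ gW L F R j),
      2 * (sel (∑ b, |h0 b - h0 0|) 0 j *
        (Real.exp (2 * sel (F.card * r : ℝ) (R.card * r : ℝ) j) - 1) +
        sel (lam * Fintype.card (F → Fin d)) (|s| * ∑ a, ∑ b, ‖k a b‖) j *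
          Real.exp (2 * sel (F.card * r : ℝ) (R.card * r : ℝ) j)) ≤ 1 / 4 := by
    intro u
    rw [Finset.sum_filter, Fintype.sum_prod_type]
    simp only [Fintype.sum_bool]
    rw [Finset.sum_add_distrib]
    have h1 : ∑ v : Site L, (if u ∈ gW L F R (v, true) then
        2 * (sel (∑ b, |h0 b - h0 0|) 0 (v, true) *
        (Real.exp (2 * sel (F.card * r : ℝ) (R.card * r : ℝ) (v, true)) - 1) +
        sel (lam * Fintype.card (F → Fin d)) (|s| * ∑ a, ∑ b, ‖k a b‖) (v, true) *
          Real.exp (2 * sel (F.card * r : ℝ) (R.card * r : ℝ) (v, true))) else 0) ≤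
        R.card * (2 * ((|s| * ∑ a, ∑ b, ‖k a b‖) * Real.exp (2 * (R.card * r)))) := by
      rw [← Finset.sum_filter]
      simp only [sel, if_true, zero_mul, zero_add]
      rw [Finset.sum_const, nsmul_eq_mul]
      refine mul_le_mul_of_nonneg_right ?_ (by positivity)
      exact_mod_cast card_Wn_through L R u
    have h2 : ∑ v : Site L, (if u ∈ gW L F R (v, false) then
        2 * (sel (∑ b, |h0 b - h0 0|) 0 (v, false) *
        (Real.exp (2 * sel (F.card * r : ℝ) (R.card * r : ℝ) (v, false)) - 1) +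
        sel (lam * Fintype.card (F → Fin d)) (|s| * ∑ a, ∑ b, ‖k a b‖) (v, false) *
          Real.exp (2 * sel (F.card * r : ℝ) (R.card * r : ℝ) (v, false))) else 0) ≤
        F.card * (2 * ((∑ b, |h0 b - h0 0|) * (Real.exp (2 * (F.card * r)) - 1) +
          (lam * Fintype.card (F → Fin d)) * Real.exp (2 * (F.card * r)))) := by
      rw [← Finset.sum_filter]
      simp only [sel, Bool.false_eq_true, if_false]
      rw [Finset.sum_const, nsmul_eq_mul]
      have h3 : 0 ≤ Real.exp (2 * (F.card * r)) - 1 := by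
        have := Real.add_one_le_exp (2 * (F.card * r : ℝ))
        have h2 : 0 ≤ 2 * (F.card * r : ℝ) := by positivity
        linarith
      have h4 : 0 ≤ ∑ b, |h0 b - h0 0| := Finset.sum_nonneg (fun _ _ => abs_nonneg _)
      refine mul_le_mul_of_nonneg_right ?_ (by positivity)
      exact_mod_cast card_Wn_through L F u
    linarith
  obtain ⟨hev, hgap⟩ := gap_l1 (gW L F R) (gD L F h0) (gK L F R h0 h s k) (gE L F h0)
    Ground_diag Ground_E0 Ground_act (sel (∑ b, |h0 b - h0 0|) 0)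
    (sel (lam * Fintype.card (F → Fin d)) (|s| * ∑ a, ∑ b, ‖k a b‖))
    (sel (F.card * r : ℝ) (R.card * r : ℝ)) hμ hκ
    (fun j φ => Ground_nD (R := R) _ hw1 j (fun _ _ _ => rfl) φ)
    (fun j φ => Ground_nK _ hw1 j (fun _ _ _ => rfl) hlam φ) hE T hwin heq hsmall
  set E1 : ℂ := (∑ j, Pv (gW L F R j) (gD L F h0 j + gK L F R h0 h s k j) T) 0 with hE1
  set H := hamiltonian L F h + (s : ℂ) • hamiltonian L R k with hH
  set e0 : ℝ := (L : ℝ) ^ 2 * h0 0 with he0
  have hHop : ∀ φ : Alg (Site L) d, opL H φ =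
      (∑ j, (gD L F h0 j + gK L F R h0 h s k j)) φ + (e0 : ℂ) • φ := by
    intro φ
    rw [hH, Ground_sum (F := F) (R := R) (h0 := h0) (h := h) (s := s) (k := k)]
    rfl
  have hherm : H.IsHermitian := by
    refine (Ground_ham_herm F hh).add ?_
    refine Matrix.IsHermitian.smul (Ground_ham_herm R hk) ?_
    exact Complex.conj_ofReal s
  have hψ0 : (fun x => (EP X0 T : Alg (Site L) d) x) ≠ 0 := by
    intro h1
    exact EP_ne_zero T (Alg.ext (fun x => congrFun h1 x))
  have hev' : H.mulVec (fun x => (EP X0 T : Alg (Site L) d) x) =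
      (E1 + (e0 : ℂ)) • (fun x => (EP X0 T : Alg (Site L) d) x) := by
    funext x
    have h1 : H.mulVec (fun x => (EP X0 T : Alg (Site L) d) x) x =
        (opL H (EP X0 T : Alg (Site L) d)) x := rfl
    rw [h1, hHop, hev, Alg.add_apply, Alg.smul_apply, Alg.smul_apply, Pi.smul_apply, smul_eq_mul]
    ring
  have hreal := Ground_real hherm hψ0 hev'
  refine ⟨hψ0, (E1 + (e0 : ℂ)).re, ?_, ?_⟩
  · rw [← hreal]
    exact hev'
  · intro E φ hφ hHφ
    by_cases hlt : (E1 + (e0 : ℂ)).re + 1 / 2 ≤ E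
    · exact Or.inr hlt
    · left
      rw [not_le] at hlt
      let φ' : Alg (Site L) d := φ
      have h1 : (∑ j, (gD L F h0 j + gK L F R h0 h s k j)) φ' = ((E : ℂ) - (e0 : ℂ)) • φ' := by
        have h2 : opL H φ' = (E : ℂ) • φ' := by
          apply Alg.ext
          intro x
          rw [opL_apply]
          exact congrFun hHφ x
        rw [hHop] at h2
        rw [sub_smul, ← h2]
        abel
      obtain ⟨a, ha⟩ := hgap _ φ' h1 (by
        rw [Complex.sub_re, Complex.ofReal_re, Complex.ofReal_re]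
        rw [Complex.add_re, Complex.ofReal_re] at hlt
        linarith)
      refine ⟨a, ?_⟩
      funext x
      have h3 : φ' x = (a • (EP X0 T : Alg (Site L) d)) x := by rw [ha]
      rw [Alg.smul_apply] at h3
      exact h3

end final

theorem exists_ground (d : ℕ) [NeZero d] (F : Finset (ℤ × ℤ)) (h0 : (F → Fin d) → ℝ) (c ρ : ℝ)
    (hc : 0 ≤ c) (hρ : 0 < ρ) :
    ∃ lam > 0, ∀ (R : Finset (ℤ × ℤ)) (k : Matrix (R → Fin d) (R → Fin d) ℂ), k.IsHermitian →
      ∃ η > 0, ∀ (L : ℕ) [NeZero L] (h : Matrix (F → Fin d) (F → Fin d) ℂ) (s : ℝ),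
        h.IsHermitian →
        (∀ a b, ‖h a b - Matrix.diagonal (fun x => (h0 x : ℂ)) a b‖ ≤ lam) → |s| ≤ η →
        (∀ x : Site L → Fin d, (L : ℝ) ^ 2 * h0 0 + (supp x).card ≤
          ∑ v : Site L, h0 (fun p => x (place L v p))) →
        ∃ T : (Site L → Fin d) → ℂ, (∀ u x, T (tr u x) = T x) ∧ NT (tadj L) c T ≤ ρ ∧
          IsGappedGround (hamiltonian L F h + (s : ℂ) • hamiltonian L R k) (1 / 2)
            (fun x => (EP X0 T : Alg (Site L) d) x) := by
  obtain ⟨CF, hCF⟩ := msz_place_le F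
  obtain ⟨μ, hμdef⟩ : ∃ μ, μ = ∑ b, |h0 b - h0 0| := ⟨_, rfl⟩
  have hμ : 0 ≤ μ := by rw [hμdef]; exact Finset.sum_nonneg (fun _ _ => abs_nonneg _)
  obtain ⟨M, hMdef⟩ : ∃ M, M = Real.exp (c * CF) := ⟨_, rfl⟩
  have hM : 1 ≤ M := by rw [hMdef]; exact Real.one_le_exp (by positivity)
  obtain ⟨n, hndef⟩ : ∃ n, n = (F.card : ℝ) := ⟨_, rfl⟩
  have hn : 0 ≤ n := by rw [hndef]; positivity
  obtain ⟨N, hNdef⟩ : ∃ N, N = (Fintype.card (F → Fin d) : ℝ) := ⟨_, rfl⟩
  have hN : 0 < N := by rw [hNdef]; exact_mod_cast Fintype.card_pos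
  obtain ⟨B, hB⟩ : ∃ B, B = 160 * (M * (μ + 1)) * (n + 1) ^ 2 := ⟨_, rfl⟩
  have hBpos : 0 < B := by rw [hB]; positivity
  obtain ⟨r, hrdef⟩ : ∃ r, r = min ρ (1 / B) := ⟨_, rfl⟩
  have hr : 0 < r := by rw [hrdef]; exact lt_min hρ (by positivity)
  have hrρ : r ≤ ρ := by rw [hrdef]; exact min_le_left _ _
  have hrB : r * B ≤ 1 := by
    rw [hrdef]
    calc min ρ (1 / B) * B ≤ (1 / B) * B := mul_le_mul_of_nonneg_right (min_le_right _ _) hBpos.le
      _ = 1 := by field_simp
  obtain ⟨κ, hκdef⟩ : ∃ κ, κ = min (1 / (64 * (M * (n + 1)))) (r / (4 * M)) := ⟨_, rfl⟩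
  have hMpos : 0 < M := by linarith
  have hκ : 0 < κ := by rw [hκdef]; exact lt_min (by positivity) (by positivity)
  have hκ1 : κ * (M * (n + 1)) ≤ 1 / 64 := by
    have : κ ≤ 1 / (64 * (M * (n + 1))) := by rw [hκdef]; exact min_le_left _ _
    rw [le_div_iff₀ (by positivity)] at this
    linarith
  have hκ2 : κ * M ≤ r / 4 := by
    have : κ ≤ r / (4 * M) := by rw [hκdef]; exact min_le_right _ _
    rw [le_div_iff₀ (by positivity)] at this
    linarith
  -- exponentials
  have hτ : n * r ≤ 1 / 160 := by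
    have h1 : r * (160 * (n + 1) ^ 2) ≤ r * B := by
      refine mul_le_mul_of_nonneg_left ?_ hr.le
      rw [hB]
      have h2 : 1 ≤ M * (μ + 1) := by nlinarith
      nlinarith [sq_nonneg (n + 1)]
    nlinarith [mul_nonneg hn hr.le, mul_nonneg (mul_nonneg hn hn) hr.le]
  have hnr : 0 ≤ n * r := mul_nonneg hn hr.le
  have he2 : Real.exp (2 * (n * r)) - 1 ≤ 4 * (n * r) := by
    have h1 : Real.exp (2 * (n * r)) ≤ 1 / (1 - 2 * (n * r)) := by
      have h2 := Real.add_one_le_exp (-(2 * (n * r)))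
      rw [Real.exp_neg] at h2
      have h3 : 0 < 1 - 2 * (n * r) := by linarith
      rw [le_div_iff₀ h3]
      have h4 : 0 < Real.exp (2 * (n * r)) := Real.exp_pos _
      calc Real.exp (2 * (n * r)) * (1 - 2 * (n * r))
          ≤ Real.exp (2 * (n * r)) * (Real.exp (2 * (n * r)))⁻¹ :=
            mul_le_mul_of_nonneg_left (by linarith) h4.le
        _ = 1 := mul_inv_cancel₀ h4.ne'
    have h3 : 0 < 1 - 2 * (n * r) := by linarith
    have h5 : 1 / (1 - 2 * (n * r)) ≤ 1 + 4 * (n * r) := by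
      rw [div_le_iff₀ h3]
      nlinarith
    linarith
  have he2' : Real.exp (2 * (n * r)) ≤ 2 := by linarith
  have he2'' : 0 ≤ Real.exp (2 * (n * r)) - 1 := by
    have := Real.add_one_le_exp (2 * (n * r))
    linarith
  have he4 : Real.exp (4 * (n * r)) ≤ 4 := by
    have : Real.exp (4 * (n * r)) = Real.exp (2 * (n * r)) * Real.exp (2 * (n * r)) := by
      rw [← Real.exp_add]; congr 1; ring
    rw [this]
    nlinarith [Real.exp_pos (2 * (n * r))]
  -- the numerical conditions for `F`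
  have hM0 : 0 ≤ M := hMpos.le
  have hbig : M * μ * n ^ 2 * r * 160 ≤ 1 := by
    refine le_trans ?_ hrB
    rw [hB]
    have h1 : M * μ * n ^ 2 ≤ M * (μ + 1) * (n + 1) ^ 2 := by
      have h2 : M * μ ≤ M * (μ + 1) := by nlinarith
      have h3 : n ^ 2 ≤ (n + 1) ^ 2 := by nlinarith
      exact mul_le_mul h2 h3 (sq_nonneg _) (by positivity)
    nlinarith [mul_le_mul_of_nonneg_right h1 hr.le]
  have hF1 : M * (μ * (Real.exp (2 * (n * r)) - 1) * (2 * Real.exp (2 * (n * r)) + 1) +
      2 * κ * Real.exp (4 * (n * r))) * n ≤ 1 / 4 := by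
    have h1 : μ * (Real.exp (2 * (n * r)) - 1) * (2 * Real.exp (2 * (n * r)) + 1) ≤
        μ * (4 * (n * r)) * 5 := by
      refine mul_le_mul (mul_le_mul_of_nonneg_left he2 hμ) (by linarith) ?_ (by positivity)
      have := Real.exp_pos (2 * (n * r))
      linarith
    have h2 : 2 * κ * Real.exp (4 * (n * r)) ≤ 2 * κ * 4 :=
      mul_le_mul_of_nonneg_left he4 (by positivity)
    have h3 : M * (μ * (Real.exp (2 * (n * r)) - 1) * (2 * Real.exp (2 * (n * r)) + 1) +
      2 * κ * Real.exp (4 * (n * r))) * n ≤ M * (μ * (4 * (n * r)) * 5 + 2 * κ * 4) * n :=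
      mul_le_mul_of_nonneg_right (mul_le_mul_of_nonneg_left (add_le_add h1 h2) hM0) hn
    have h4 : κ * (M * n) ≤ 1 / 64 := by
      refine le_trans (mul_le_mul_of_nonneg_left ?_ hκ.le) hκ1
      nlinarith
    calc _ ≤ _ := h3
      _ = 20 * (M * μ * n ^ 2 * r) + 8 * (κ * (M * n)) := by ring
      _ ≤ 1 / 4 := by linarith
  have hF3 : n * (2 * (μ * (Real.exp (2 * (n * r)) - 1) + κ * Real.exp (2 * (n * r)))) ≤
      1 / 8 := by
    have h1 : μ * (Real.exp (2 * (n * r)) - 1) ≤ μ * (4 * (n * r)) :=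
      mul_le_mul_of_nonneg_left he2 hμ
    have h2 : κ * Real.exp (2 * (n * r)) ≤ κ * 2 := mul_le_mul_of_nonneg_left he2' hκ.le
    have h3 : n * (2 * (μ * (Real.exp (2 * (n * r)) - 1) + κ * Real.exp (2 * (n * r)))) ≤
        n * (2 * (μ * (4 * (n * r)) + κ * 2)) :=
      mul_le_mul_of_nonneg_left (by linarith) hn
    have h4 : κ * n ≤ 1 / 64 := by
      refine le_trans ?_ hκ1
      refine mul_le_mul_of_nonneg_left ?_ hκ.le
      nlinarith
    have h5 : μ * n ^ 2 * r * 160 ≤ 1 := by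
      refine le_trans ?_ hbig
      have : μ * n ^ 2 * r ≤ M * (μ * n ^ 2 * r) :=
        le_mul_of_one_le_left (by positivity) hM
      calc μ * n ^ 2 * r * 160 ≤ M * (μ * n ^ 2 * r) * 160 := by linarith
        _ = M * μ * n ^ 2 * r * 160 := by ring
    calc _ ≤ _ := h3
      _ = 8 * (μ * n ^ 2 * r) + 4 * (κ * n) := by ring
      _ ≤ 1 / 8 := by linarith
  refine ⟨κ / N, by positivity, ?_⟩
  intro R k hk
  obtain ⟨CR, hCR⟩ := msz_place_le R
  obtain ⟨M', hM'def⟩ : ∃ M', M' = Real.exp (c * CR) := ⟨_, rfl⟩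
  have hM' : 1 ≤ M' := by rw [hM'def]; exact Real.one_le_exp (by positivity)
  obtain ⟨n', hn'def⟩ : ∃ n', n' = (R.card : ℝ) := ⟨_, rfl⟩
  have hn' : 0 ≤ n' := by rw [hn'def]; positivity
  obtain ⟨q, hqdef⟩ : ∃ q, q = ∑ a, ∑ b, ‖k a b‖ := ⟨_, rfl⟩
  have hq : 0 ≤ q := by
    rw [hqdef]
    exact Finset.sum_nonneg (fun _ _ => Finset.sum_nonneg (fun _ _ => norm_nonneg _))
  obtain ⟨Q, hQdef⟩ : ∃ Q, Q = Real.exp (4 * (n' * r)) := ⟨_, rfl⟩
  have hQ : 1 ≤ Q := by rw [hQdef]; exact Real.one_le_exp (by positivity)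
  have hQ2 : Real.exp (2 * (n' * r)) ≤ Q := by
    rw [hQdef]
    refine Real.exp_le_exp.2 ?_
    nlinarith [mul_nonneg hn' hr.le]
  have hM'pos : 0 < M' := by linarith
  have hQpos : 0 < Q := by linarith
  obtain ⟨κ', hκ'def⟩ : ∃ κ', κ' = min (1 / (32 * (M' * Q * (n' + 1)))) (r / (4 * M')) :=
    ⟨_, rfl⟩
  have hκ' : 0 < κ' := by rw [hκ'def]; exact lt_min (by positivity) (by positivity)
  have hκ'1 : κ' * (M' * Q * (n' + 1)) ≤ 1 / 32 := by
    have : κ' ≤ 1 / (32 * (M' * Q * (n' + 1))) := by rw [hκ'def]; exact min_le_left _ _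
    rw [le_div_iff₀ (by positivity)] at this
    linarith
  have hκ'2 : κ' * M' ≤ r / 4 := by
    have : κ' ≤ r / (4 * M') := by rw [hκ'def]; exact min_le_right _ _
    rw [le_div_iff₀ (by positivity)] at this
    linarith
  refine ⟨κ' / (q + 1), by positivity, ?_⟩
  intro L _ h s hh hlam hs hP
  have hsq : |s| * q ≤ κ' := by
    rw [le_div_iff₀ (by positivity)] at hs
    have := abs_nonneg s
    nlinarith
  have hsq0 : 0 ≤ |s| * q := mul_nonneg (abs_nonneg s) hq
  have hκN : κ / N * (Fintype.card (F → Fin d) : ℝ) = κ := by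
    rw [← hNdef]
    field_simp
  have hx1 : |s| * q * (M' * Q * n') ≤ 1 / 32 := by
    refine le_trans (mul_le_mul hsq ?_ (by positivity) hκ'.le) hκ'1
    refine mul_le_mul_of_nonneg_left (by linarith) (by positivity)
  obtain ⟨T, hT1, hT2, hT3⟩ := Ground_core (F := F) (R := R) (h0 := h0) (h := h) (s := s) (k := k)
    hc hCF hCR (lam := κ / N) (by positivity) hlam (r := r) hr.le hh hk
    (by
      rw [hκN, ← hμdef, ← hMdef, ← hndef, ← hM'def, ← hn'def, ← hqdef, ← hQdef]
      have h1 : M' * (2 * (|s| * q) * Q) * n' = 2 * (|s| * q * (M' * Q * n')) := by ring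
      linarith)
    (by
      rw [hκN, ← hMdef, ← hM'def, ← hqdef]
      have h1 : M' * (|s| * q) ≤ M' * κ' := mul_le_mul_of_nonneg_left hsq hM'pos.le
      linarith [mul_comm M' κ', mul_comm M κ])
    (by
      rw [hκN, ← hμdef, ← hndef, ← hn'def, ← hqdef]
      have h1 : n' * (2 * (|s| * q * Real.exp (2 * (n' * r)))) ≤ n' * (2 * (|s| * q * Q)) := by
        refine mul_le_mul_of_nonneg_left ?_ hn'
        have := mul_le_mul_of_nonneg_left hQ2 hsq0
        linarith
      have h2 : |s| * q * (Q * n') ≤ 1 / 32 := by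
        refine le_trans ?_ hx1
        refine mul_le_mul_of_nonneg_left ?_ hsq0
        have : 1 * (Q * n') ≤ M' * (Q * n') := mul_le_mul_of_nonneg_right hM' (by positivity)
        linarith [mul_assoc M' Q n']
      have h3 : n' * (2 * (|s| * q * Q)) = 2 * (|s| * q * (Q * n')) := by ring
      linarith) hP
  exact ⟨T, hT1, hT2.trans hrρ, hT3⟩

end Pool.Agent.WP
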