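import Pool.Agent.WP.Defs

/-!
Sums over connected sets.
-/

set_option autoImplicit false

open scoped BigOperators Classical

namespace Pool.Agent.WP

/-- the component of `q` in `V` -/
noncomputable def cmp {ι : Type} (r : ι → ι → Prop) (V : Finset ι) (q : ι) : Finset ι :=
  V.filter (fun x => Relation.ReflTransGen (fun a b => a ∈ V ∧ b ∈ V ∧ r a b) q x)

theorem cmp_subset {ι : Type} (r : ι → ι → Prop) (V : Finset ι) (q : ι) : cmp r V q ⊆ V :=
  Finset.filter_subset _ _

theorem mem_cmp_self {ι : Type} (r : ι → ι → Prop) {V : Finset ι} {q : ι} (hq : q ∈ V) :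
    q ∈ cmp r V q :=
  Finset.mem_filter.2 ⟨hq, Relation.ReflTransGen.refl⟩

theorem mem_cmp {ι : Type} {r : ι → ι → Prop} {V : Finset ι} {q x : ι} :
    x ∈ cmp r V q ↔ x ∈ V ∧ Relation.ReflTransGen (fun a b => a ∈ V ∧ b ∈ V ∧ r a b) q x :=
  Finset.mem_filter

theorem rtg_symm {ι : Type} {r : ι → ι → Prop} (hr : ∀ a b, r a b → r b a) (V : Finset ι)
    {x y : ι} (h : Relation.ReflTransGen (fun a b => a ∈ V ∧ b ∈ V ∧ r a b) x y) :
    Relation.ReflTransGen (fun a b => a ∈ V ∧ b ∈ V ∧ r a b) y x := by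
  induction h with
  | refl => exact Relation.ReflTransGen.refl
  | tail _ hbc ih =>
    exact Relation.ReflTransGen.head ⟨hbc.2.1, hbc.1, hr _ _ hbc.2.2⟩ ih

theorem cmp_path {ι : Type} (r : ι → ι → Prop) {V : Finset ι} {q x : ι}
    (h : Relation.ReflTransGen (fun a b => a ∈ V ∧ b ∈ V ∧ r a b) q x) :
    Relation.ReflTransGen (fun a b => a ∈ cmp r V q ∧ b ∈ cmp r V q ∧ r a b) q x := by
  induction h with
  | refl => exact Relation.ReflTransGen.refl
  | tail hab hbc ih =>
    refine Relation.ReflTransGen.tail ih ⟨?_, ?_, hbc.2.2⟩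
    · exact mem_cmp.2 ⟨hbc.1, hab⟩
    · exact mem_cmp.2 ⟨hbc.2.1, hab.tail hbc⟩

theorem cmp_conn {ι : Type} (r : ι → ι → Prop) (hr : ∀ a b, r a b → r b a) {V : Finset ι} {q : ι}
    (hq : q ∈ V) : RConn r (cmp r V q) := by
  refine ⟨⟨q, mem_cmp_self r hq⟩, ?_⟩
  intro x hx y hy
  exact (rtg_symm hr _ (cmp_path r (mem_cmp.1 hx).2)).trans (cmp_path r (mem_cmp.1 hy).2)

theorem cmp_eq {ι : Type} (r : ι → ι → Prop) (hr : ∀ a b, r a b → r b a) {V : Finset ι} {q x : ι}
    (hx : x ∈ cmp r V q) : cmp r V x = cmp r V q := by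
  ext y
  rw [mem_cmp, mem_cmp]
  constructor
  · rintro ⟨h1, h2⟩
    exact ⟨h1, (mem_cmp.1 hx).2.trans h2⟩
  · rintro ⟨h1, h2⟩
    exact ⟨h1, (rtg_symm hr _ (mem_cmp.1 hx).2).trans h2⟩

/-- in a connected set, removing `p`, every component contains a neighbour of `p` -/
theorem exists_nbr {ι : Type} [DecidableEq ι] (r : ι → ι → Prop) {U : Finset ι} {p x : ι}
    (h : Relation.ReflTransGen (fun a b => a ∈ U ∧ b ∈ U ∧ r a b) x p) :
    x ∈ U.erase p → ∃ q ∈ cmp r (U.erase p) x, r q p := by
  induction h using Relation.ReflTransGen.head_induction_on with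
  | refl => intro h; exact absurd rfl (Finset.ne_of_mem_erase h)
  | head hab hcb ih =>
    rename_i a c
    intro ha
    by_cases hc : c = p
    · subst hc
      exact ⟨a, mem_cmp_self r ha, hab.2.2⟩
    · have hc' : c ∈ U.erase p := Finset.mem_erase.2 ⟨hc, hab.2.1⟩
      obtain ⟨q, hq, hqp⟩ := ih hc'
      refine ⟨q, ?_, hqp⟩
      rw [mem_cmp] at hq ⊢
      exact ⟨hq.1, Relation.ReflTransGen.head ⟨ha, hc', hab.2.2⟩ hq.2⟩

/-- a choice of a point of every nonempty set -/
noncomputable def rep {ι : Type} (p : ι) (s : Finset ι) : ι := if h : s.Nonempty then h.choose else p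

theorem rep_mem {ι : Type} (p : ι) {s : Finset ι} (h : s.Nonempty) : rep p s ∈ s := by
  unfold rep
  rw [dif_pos h]
  exact h.choose_spec

/-- the component of `U \ {p}` assigned to `q` -/
noncomputable def FU {ι : Type} [DecidableEq ι] (r : ι → ι → Prop) (p : ι) (N U : Finset ι)
    (q : ι) : Finset ι :=
  if q ∈ U.erase p ∧ rep p (cmp r (U.erase p) q ∩ N) = q then cmp r (U.erase p) q else ∅

theorem FU_disj {ι : Type} [DecidableEq ι] (r : ι → ι → Prop) (hr : ∀ a b, r a b → r b a) (p : ι)
    (N U : Finset ι) (q q' : ι) (hne : q ≠ q') : Disjoint (FU r p N U q) (FU r p N U q') := by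
  rw [Finset.disjoint_left]
  intro x hx hx'
  unfold FU at hx hx'
  split_ifs at hx with h1
  · split_ifs at hx' with h2
    · have e1 := cmp_eq r hr hx
      have e2 := cmp_eq r hr hx'
      apply hne
      rw [← h1.2, ← e1, e2, h2.2]
    · simp at hx'
  · simp at hx

theorem FU_biUnion {ι : Type} [DecidableEq ι] (r : ι → ι → Prop) (hr : ∀ a b, r a b → r b a)
    (X : Finset ι) (p : ι) (U : Finset ι) (hUX : U ⊆ X) (hU : RConn r U) (hp : p ∈ U) :
    (X.filter (fun q => r q p)).biUnion (FU r p (X.filter (fun q => r q p)) U) = U.erase p := by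
  set N := X.filter (fun q => r q p) with hN
  ext x
  rw [Finset.mem_biUnion]
  constructor
  · rintro ⟨q, _, hx⟩
    unfold FU at hx
    split_ifs at hx with h1
    · exact cmp_subset _ _ _ hx
    · simp at hx
  · intro hx
    have hxU : x ∈ U := Finset.mem_of_mem_erase hx
    obtain ⟨q0, hq0, hq0p⟩ := exists_nbr r (hU.2 x hxU p hp) hx
    have hq0N : q0 ∈ N := by
      rw [hN, Finset.mem_filter]
      exact ⟨hUX (Finset.mem_of_mem_erase (cmp_subset _ _ _ hq0)), hq0p⟩
    have hne : (cmp r (U.erase p) x ∩ N).Nonempty := ⟨q0, Finset.mem_inter.2 ⟨hq0, hq0N⟩⟩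
    have hm := rep_mem p hne
    set q := rep p (cmp r (U.erase p) x ∩ N) with hq
    rw [Finset.mem_inter] at hm
    have hce : cmp r (U.erase p) q = cmp r (U.erase p) x := cmp_eq r hr hm.1
    refine ⟨q, hm.2, ?_⟩
    unfold FU
    rw [if_pos]
    · rw [hce]
      exact mem_cmp_self r hx
    · refine ⟨cmp_subset _ _ _ hm.1, ?_⟩
      rw [hce]

/-- Sum over connected sets containing a point.  Induct on a bound for the cardinality; remove `p`,
assign to every component of the rest one of the neighbours of `p` it contains. -/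
theorem sum_connected_le {ι : Type} [DecidableEq ι] (X : Finset ι) (r : ι → ι → Prop)
    (hr : ∀ a b, r a b → r b a) (β φ : ι → ℝ) (hβ : ∀ p ∈ X, 0 ≤ β p)
    (h : ∀ p ∈ X, ∑ q ∈ X.filter (fun q => r q p), β q * Real.exp (φ q) ≤ φ p) (p : ι)
    (hp : p ∈ X) :
    ∑ U ∈ X.powerset.filter (fun U => RConn r U ∧ p ∈ U), ∏ q ∈ U, β q ≤ β p * Real.exp (φ p) := by
  have key : ∀ n : ℕ, ∀ p ∈ X,
      ∑ U ∈ X.powerset.filter (fun U => (RConn r U ∧ p ∈ U) ∧ U.card ≤ n), ∏ q ∈ U, β q
        ≤ β p * Real.exp (φ p) := by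
    intro n
    induction n with
    | zero =>
      intro p hp
      rw [Finset.sum_eq_zero]
      · exact mul_nonneg (hβ p hp) (Real.exp_pos _).le
      · intro U hU
        rw [Finset.mem_filter] at hU
        obtain ⟨_, ⟨_, hpU⟩, hc⟩ := hU
        have : U = ∅ := Finset.card_eq_zero.1 (Nat.le_zero.1 hc)
        rw [this] at hpU
        simp at hpU
    | succ n ih =>
      intro p hp
      set N := X.filter (fun q => r q p) with hN
      set S : ι → Finset (Finset ι) := fun q =>
        X.powerset.filter (fun U => (RConn r U ∧ q ∈ U) ∧ U.card ≤ n) with hS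
      set O : ι → Finset (Finset ι) := fun q => insert ∅ (S q) with hO
      set D := X.powerset.filter (fun U => (RConn r U ∧ p ∈ U) ∧ U.card ≤ n + 1) with hD
      have hw : ∀ C : Finset ι, C ⊆ X → 0 ≤ ∏ x ∈ C, β x := fun C hC =>
        Finset.prod_nonneg (fun x hx => hβ x (hC hx))
      have hOX : ∀ q, ∀ C ∈ O q, C ⊆ X := by
        intro q C hC
        rw [hO] at hC
        rcases Finset.mem_insert.1 hC with h1 | h1
        · rw [h1]; exact Finset.empty_subset _
        · exact Finset.mem_powerset.1 (Finset.mem_filter.1 h1).1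
      have hOsum : ∀ q, ∑ C ∈ O q, ∏ x ∈ C, β x = 1 + ∑ C ∈ S q, ∏ x ∈ C, β x := by
        intro q
        rw [hO]
        rw [Finset.sum_insert]
        · simp
        · intro hmem
          have := (Finset.mem_filter.1 hmem).2.1.2
          simp at this
      -- the map
      let F : Finset ι → (∀ q ∈ N, Finset ι) := fun U q _ => FU r p N U q
      have hprod : ∀ U ∈ D, ∏ x ∈ U, β x
          = β p * ∏ x ∈ N.attach, ∏ y ∈ F U x.1 x.2, β y := by
        intro U hU
        rw [hD, Finset.mem_filter, Finset.mem_powerset] at hU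
        have hb := FU_biUnion r hr X p U hU.1 hU.2.1.1 hU.2.1.2
        have h1 : ∏ x ∈ N.attach, ∏ y ∈ F U x.1 x.2, β y = ∏ x ∈ U.erase p, β x := by
          rw [← hb, Finset.prod_biUnion]
          · exact Finset.prod_attach N (fun q => ∏ y ∈ FU r p N U q, β y)
          · intro a _ b _ hab
            exact FU_disj r hr p _ U a b hab
        rw [h1, Finset.mul_prod_erase U β hU.2.1.2]
      have hinj : Set.InjOn F D := by
        intro U hU U' hU' hUU'
        have hU1 := hU
        have hU1' := hU'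
        rw [Finset.mem_coe, hD, Finset.mem_filter, Finset.mem_powerset] at hU1 hU1'
        have hb := FU_biUnion r hr X p U hU1.1 hU1.2.1.1 hU1.2.1.2
        have hb' := FU_biUnion r hr X p U' hU1'.1 hU1'.2.1.1 hU1'.2.1.2
        have he : U.erase p = U'.erase p := by
          rw [← hb, ← hb']
          apply Finset.biUnion_congr rfl
          intro q hq
          have := congrFun (congrFun hUU' q) hq
          exact this
        rw [← Finset.insert_erase hU1.2.1.2, ← Finset.insert_erase hU1'.2.1.2, he]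
      have hmaps : ∀ U ∈ D, F U ∈ N.pi O := by
        intro U hU
        rw [hD, Finset.mem_filter, Finset.mem_powerset] at hU
        rw [Finset.mem_pi]
        intro q hq
        show FU r p N U q ∈ O q
        unfold FU
        split_ifs with h1
        · rw [hO]
          refine Finset.mem_insert_of_mem ?_
          rw [hS]
          simp only [Finset.mem_filter, Finset.mem_powerset]
          refine ⟨?_, ⟨cmp_conn r hr h1.1, mem_cmp_self r h1.1⟩, ?_⟩
          · exact ((cmp_subset _ _ _).trans (Finset.erase_subset _ _)).trans hU.1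
          · have h2 := Finset.card_le_card (cmp_subset r (U.erase p) q)
            rw [Finset.card_erase_of_mem hU.2.1.2] at h2
            have h3 := hU.2.2
            omega
        · rw [hO]
          exact Finset.mem_insert_self _ _
      calc ∑ U ∈ D, ∏ q ∈ U, β q
          = ∑ U ∈ D, β p * ∏ x ∈ N.attach, ∏ y ∈ F U x.1 x.2, β y :=
            Finset.sum_congr rfl hprod
        _ = β p * ∑ U ∈ D, ∏ x ∈ N.attach, ∏ y ∈ F U x.1 x.2, β y := by
            rw [Finset.mul_sum]
        _ = β p * ∑ g ∈ D.image F, ∏ x ∈ N.attach, ∏ y ∈ g x.1 x.2, β y := by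
            rw [Finset.sum_image hinj]
        _ ≤ β p * ∑ g ∈ N.pi O, ∏ x ∈ N.attach, ∏ y ∈ g x.1 x.2, β y := by
            apply mul_le_mul_of_nonneg_left _ (hβ p hp)
            apply Finset.sum_le_sum_of_subset_of_nonneg
            · intro g hg
              obtain ⟨U, hU, rfl⟩ := Finset.mem_image.1 hg
              exact hmaps U hU
            · intro g hg _
              apply Finset.prod_nonneg
              intro x _
              apply hw
              exact hOX x.1 _ (Finset.mem_pi.1 hg x.1 x.2)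
        _ = β p * ∏ q ∈ N, ∑ C ∈ O q, ∏ x ∈ C, β x := by
            rw [Finset.prod_sum]
        _ = β p * ∏ q ∈ N, (1 + ∑ C ∈ S q, ∏ x ∈ C, β x) := by
            congr 1
            exact Finset.prod_congr rfl (fun q _ => hOsum q)
        _ ≤ β p * ∏ q ∈ N, Real.exp (β q * Real.exp (φ q)) := by
            apply mul_le_mul_of_nonneg_left _ (hβ p hp)
            apply Finset.prod_le_prod
            · intro q _
              have : 0 ≤ ∑ C ∈ S q, ∏ x ∈ C, β x := by
                apply Finset.sum_nonneg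
                intro C hC
                exact hw C (Finset.mem_powerset.1 (Finset.mem_filter.1 hC).1)
              linarith
            · intro q hq
              have h1 := ih q (Finset.mem_filter.1 hq).1
              have h2 := Real.add_one_le_exp (β q * Real.exp (φ q))
              have h3 : ∑ C ∈ S q, ∏ x ∈ C, β x ≤ β q * Real.exp (φ q) := h1
              linarith
        _ = β p * Real.exp (∑ q ∈ N, β q * Real.exp (φ q)) := by
            rw [Real.exp_sum]
        _ ≤ β p * Real.exp (φ p) := by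
            apply mul_le_mul_of_nonneg_left _ (hβ p hp)
            exact Real.exp_le_exp.2 (h p hp)
  have hk := key X.card p hp
  refine le_trans (le_of_eq ?_) hk
  apply Finset.sum_congr _ (fun _ _ => rfl)
  ext U
  simp only [Finset.mem_filter, Finset.mem_powerset]
  constructor
  · rintro ⟨h1, h2⟩
    exact ⟨h1, h2, Finset.card_le_card h1⟩
  · rintro ⟨h1, h2, _⟩
    exact ⟨h1, h2⟩

/-- components: a nonempty subset `A` of `U` whose points are pairwise related lies in a connected
set `U₁ ⊆ U` without relations to the rest -/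
theorem exists_component {ι : Type} [DecidableEq ι] (r : ι → ι → Prop)
    (hr : ∀ a b, r a b → r b a) (U A : Finset ι) (hA : A.Nonempty) (hAU : A ⊆ U)
    (h : ∀ a ∈ A, ∀ b ∈ A, r a b) :
    ∃ U₁ ⊆ U, A ⊆ U₁ ∧ RConn r U₁ ∧ ∀ a ∈ U₁, ∀ b ∈ U \ U₁, ¬ r a b := by
  obtain ⟨a, ha⟩ := hA
  refine ⟨cmp r U a, cmp_subset _ _ _, ?_, cmp_conn r hr (hAU ha), ?_⟩
  · intro b hb
    exact mem_cmp.2 ⟨hAU hb, Relation.ReflTransGen.single ⟨hAU ha, hAU hb, h a ha b hb⟩⟩
  · intro x hx b hb hxb
    rw [Finset.mem_sdiff] at hb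
    apply hb.2
    rw [mem_cmp] at hx ⊢
    exact ⟨hb.1, hx.2.tail ⟨hx.1, hb.1, hxb⟩⟩

end Pool.Agent.WP
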