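import Mathlib

/-!
Estimates for products `∏ (1 + z i)` in a commutative ring with respect to a seminorm `p`, in terms
of operator-type bounds `p (z i * φ) ≤ t i * p φ`.
-/

set_option autoImplicit false

open scoped BigOperators

namespace Pool.Agent.WP

variable {ι R : Type} [DecidableEq ι] [CommRing R] (p : R → ℝ)

structure SemiNormLike (p : R → ℝ) : Prop where
  zero : p 0 = 0
  add : ∀ a b, p (a + b) ≤ p a + p b
  neg : ∀ a, p (-a) = p a
  nonneg : ∀ a, 0 ≤ p a

variable {p} (hp : SemiNormLike p) (s : Finset ι) (z z' : ι → R) (t δ : ι → ℝ)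
  (ht : ∀ i ∈ s, 0 ≤ t i) (hδ : ∀ i ∈ s, 0 ≤ δ i)
  (hz : ∀ i ∈ s, ∀ φ, p (z i * φ) ≤ t i * p φ) (hz' : ∀ i ∈ s, ∀ φ, p (z' i * φ) ≤ t i * p φ)
  (hd : ∀ i ∈ s, ∀ φ, p ((z i - z' i) * φ) ≤ δ i * p φ)

include hp ht hz in
theorem prod_bound (φ : R) :
    p ((∏ i ∈ s, (1 + z i)) * φ) ≤ Real.exp (∑ i ∈ s, t i) * p φ := by
  induction s using Finset.induction_on with
  | empty => simp
  | insert a s ha ih =>
    have ih' := ih (fun i hi => ht i (Finset.mem_insert_of_mem hi))
      (fun i hi => hz i (Finset.mem_insert_of_mem hi))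
    have hta := ht a (Finset.mem_insert_self a s)
    rw [Finset.prod_insert ha, Finset.sum_insert ha, Real.exp_add]
    have e1 : (1 + z a) * (∏ i ∈ s, (1 + z i)) * φ
        = (∏ i ∈ s, (1 + z i)) * φ + z a * ((∏ i ∈ s, (1 + z i)) * φ) := by ring
    rw [e1]
    have h1 := hp.add ((∏ i ∈ s, (1 + z i)) * φ) (z a * ((∏ i ∈ s, (1 + z i)) * φ))
    have h2 := hz a (Finset.mem_insert_self a s) ((∏ i ∈ s, (1 + z i)) * φ)
    have h3 := hp.nonneg ((∏ i ∈ s, (1 + z i)) * φ)
    have h4 : 1 + t a ≤ Real.exp (t a) := by linarith [Real.add_one_le_exp (t a)]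
    calc p ((∏ i ∈ s, (1 + z i)) * φ + z a * ((∏ i ∈ s, (1 + z i)) * φ))
        ≤ (1 + t a) * p ((∏ i ∈ s, (1 + z i)) * φ) := by nlinarith
      _ ≤ Real.exp (t a) * p ((∏ i ∈ s, (1 + z i)) * φ) :=
          mul_le_mul_of_nonneg_right h4 h3
      _ ≤ Real.exp (t a) * (Real.exp (∑ i ∈ s, t i) * p φ) :=
          mul_le_mul_of_nonneg_left ih' (Real.exp_pos _).le
      _ = Real.exp (t a) * Real.exp (∑ i ∈ s, t i) * p φ := by ring

include hp ht hz in
theorem prod_sub_one_bound (φ : R) :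
    p ((∏ i ∈ s, (1 + z i) - 1) * φ) ≤ (Real.exp (∑ i ∈ s, t i) - 1) * p φ := by
  induction s using Finset.induction_on with
  | empty => simp [hp.zero]
  | insert a s ha ih =>
    have ht' : ∀ i ∈ s, 0 ≤ t i := fun i hi => ht i (Finset.mem_insert_of_mem hi)
    have hz1 : ∀ i ∈ s, ∀ φ, p (z i * φ) ≤ t i * p φ :=
      fun i hi => hz i (Finset.mem_insert_of_mem hi)
    have ih' := ih ht' hz1
    have hta := ht a (Finset.mem_insert_self a s)
    rw [Finset.prod_insert ha, Finset.sum_insert ha, Real.exp_add]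
    have e1 : ((1 + z a) * (∏ i ∈ s, (1 + z i)) - 1) * φ
        = (∏ i ∈ s, (1 + z i) - 1) * φ + z a * ((∏ i ∈ s, (1 + z i)) * φ) := by ring
    rw [e1]
    have h1 := hp.add ((∏ i ∈ s, (1 + z i) - 1) * φ) (z a * ((∏ i ∈ s, (1 + z i)) * φ))
    have h2 := hz a (Finset.mem_insert_self a s) ((∏ i ∈ s, (1 + z i)) * φ)
    have h3 := prod_bound hp s z t ht' hz1 φ
    have h4 : 1 + t a ≤ Real.exp (t a) := by linarith [Real.add_one_le_exp (t a)]
    have h5 := hp.nonneg φ
    have h6 : t a * p ((∏ i ∈ s, (1 + z i)) * φ)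
        ≤ t a * (Real.exp (∑ i ∈ s, t i) * p φ) := mul_le_mul_of_nonneg_left h3 hta
    have h7 : (1 + t a) * (Real.exp (∑ i ∈ s, t i) * p φ)
        ≤ Real.exp (t a) * (Real.exp (∑ i ∈ s, t i) * p φ) :=
      mul_le_mul_of_nonneg_right h4 (mul_nonneg (Real.exp_pos _).le h5)
    nlinarith

include hp ht hδ hz hz' hd in
theorem prod_sub_prod_bound (φ : R) :
    p ((∏ i ∈ s, (1 + z i) - ∏ i ∈ s, (1 + z' i)) * φ) ≤
      (∑ i ∈ s, δ i) * Real.exp (∑ i ∈ s, t i) * p φ := by
  induction s using Finset.induction_on with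
  | empty => simp [hp.zero]
  | insert a s ha ih =>
    have ht' : ∀ i ∈ s, 0 ≤ t i := fun i hi => ht i (Finset.mem_insert_of_mem hi)
    have hδ' : ∀ i ∈ s, 0 ≤ δ i := fun i hi => hδ i (Finset.mem_insert_of_mem hi)
    have hz1 : ∀ i ∈ s, ∀ φ, p (z i * φ) ≤ t i * p φ :=
      fun i hi => hz i (Finset.mem_insert_of_mem hi)
    have hz2 : ∀ i ∈ s, ∀ φ, p (z' i * φ) ≤ t i * p φ :=
      fun i hi => hz' i (Finset.mem_insert_of_mem hi)
    have hd' : ∀ i ∈ s, ∀ φ, p ((z i - z' i) * φ) ≤ δ i * p φ :=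
      fun i hi => hd i (Finset.mem_insert_of_mem hi)
    have ih' := ih ht' hδ' hz1 hz2 hd'
    have hta := ht a (Finset.mem_insert_self a s)
    have hδa := hδ a (Finset.mem_insert_self a s)
    rw [Finset.prod_insert ha, Finset.prod_insert ha, Finset.sum_insert ha, Finset.sum_insert ha,
      Real.exp_add]
    have hD : 0 ≤ ∑ i ∈ s, δ i := Finset.sum_nonneg hδ'
    set P := ∏ i ∈ s, (1 + z i) with hP
    set P' := ∏ i ∈ s, (1 + z' i) with hP'
    set D := ∑ i ∈ s, δ i with hDdef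
    set T := ∑ i ∈ s, t i with hT
    have e1 : ((1 + z a) * P - (1 + z' a) * P') * φ
        = ((P - P') * φ + z' a * ((P - P') * φ)) + (z a - z' a) * (P * φ) := by ring
    rw [e1]
    have h1 := hp.add ((P - P') * φ + z' a * ((P - P') * φ)) ((z a - z' a) * (P * φ))
    have h1' := hp.add ((P - P') * φ) (z' a * ((P - P') * φ))
    have h2 := hz' a (Finset.mem_insert_self a s) ((P - P') * φ)
    have h3 := hd a (Finset.mem_insert_self a s) (P * φ)
    have h4 : p (P * φ) ≤ Real.exp T * p φ := prod_bound hp s z t ht' hz1 φ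
    have h5 : 1 + t a ≤ Real.exp (t a) := by linarith [Real.add_one_le_exp (t a)]
    have h5' : 1 ≤ Real.exp (t a) := by linarith
    have h6 := hp.nonneg φ
    have hE := (Real.exp_pos T).le
    have hX : 0 ≤ Real.exp T * p φ := mul_nonneg hE h6
    have a1 : (1 + t a) * p ((P - P') * φ) ≤ Real.exp (t a) * (D * Real.exp T * p φ) :=
      mul_le_mul h5 ih' (hp.nonneg _) (Real.exp_pos _).le
    have a2 : δ a * p (P * φ) ≤ δ a * (Real.exp T * p φ) := mul_le_mul_of_nonneg_left h4 hδa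
    have a3 : δ a * (Real.exp T * p φ) ≤ Real.exp (t a) * (δ a * (Real.exp T * p φ)) :=
      le_mul_of_one_le_left (mul_nonneg hδa hX) h5'
    calc p ((P - P') * φ + z' a * ((P - P') * φ) + (z a - z' a) * (P * φ))
        ≤ (1 + t a) * p ((P - P') * φ) + δ a * p (P * φ) := by linarith
      _ ≤ Real.exp (t a) * (D * Real.exp T * p φ)
          + Real.exp (t a) * (δ a * (Real.exp T * p φ)) := by linarith
      _ = (δ a + D) * (Real.exp (t a) * Real.exp T) * p φ := by ring

include hp ht hδ hz hz' hd in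
/-- second order remainder; induction: for `insert a s` the difference of the remainders is
`(rem s - rem' s) + (z a - z' a) * (∏ (1 + z) - 1) + z' a * (∏ (1 + z) - ∏ (1 + z'))` -/
theorem prod_quad_bound (φ : R) :
    p (((∏ i ∈ s, (1 + z i) - 1 - ∑ i ∈ s, z i) - (∏ i ∈ s, (1 + z' i) - 1 - ∑ i ∈ s, z' i)) * φ) ≤
      (∑ i ∈ s, δ i) * (Real.exp (∑ i ∈ s, t i) - 1) * p φ := by
  induction s using Finset.induction_on with
  | empty => simp [hp.zero]
  | insert a s ha ih =>
    have ht' : ∀ i ∈ s, 0 ≤ t i := fun i hi => ht i (Finset.mem_insert_of_mem hi)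
    have hδ' : ∀ i ∈ s, 0 ≤ δ i := fun i hi => hδ i (Finset.mem_insert_of_mem hi)
    have hz1 : ∀ i ∈ s, ∀ φ, p (z i * φ) ≤ t i * p φ :=
      fun i hi => hz i (Finset.mem_insert_of_mem hi)
    have hz2 : ∀ i ∈ s, ∀ φ, p (z' i * φ) ≤ t i * p φ :=
      fun i hi => hz' i (Finset.mem_insert_of_mem hi)
    have hd' : ∀ i ∈ s, ∀ φ, p ((z i - z' i) * φ) ≤ δ i * p φ :=
      fun i hi => hd i (Finset.mem_insert_of_mem hi)
    have ih' := ih ht' hδ' hz1 hz2 hd'
    have hta := ht a (Finset.mem_insert_self a s)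
    have hδa := hδ a (Finset.mem_insert_self a s)
    have hD : 0 ≤ ∑ i ∈ s, δ i := Finset.sum_nonneg hδ'
    have h3 := prod_sub_one_bound hp s z t ht' hz1 φ
    have h4 := prod_sub_prod_bound hp s z z' t δ ht' hδ' hz1 hz2 hd' φ
    rw [Finset.prod_insert ha, Finset.prod_insert ha, Finset.sum_insert ha, Finset.sum_insert ha,
      Finset.sum_insert ha, Finset.sum_insert ha, Real.exp_add]
    set P := ∏ i ∈ s, (1 + z i) with hP
    set P' := ∏ i ∈ s, (1 + z' i) with hP'
    set S := ∑ i ∈ s, z i with hS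
    set S' := ∑ i ∈ s, z' i with hS'
    set D := ∑ i ∈ s, δ i with hDdef
    set T := ∑ i ∈ s, t i with hT
    have e1 : ((1 + z a) * P - 1 - (z a + S) - ((1 + z' a) * P' - 1 - (z' a + S'))) * φ
        = ((P - 1 - S - (P' - 1 - S')) * φ + (z a - z' a) * ((P - 1) * φ))
          + z' a * ((P - P') * φ) := by ring
    rw [e1]
    have b1 := hp.add ((P - 1 - S - (P' - 1 - S')) * φ + (z a - z' a) * ((P - 1) * φ))
      (z' a * ((P - P') * φ))
    have b2 := hp.add ((P - 1 - S - (P' - 1 - S')) * φ) ((z a - z' a) * ((P - 1) * φ))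
    have b3 := hd a (Finset.mem_insert_self a s) ((P - 1) * φ)
    have b4 := hz' a (Finset.mem_insert_self a s) ((P - P') * φ)
    have h5 : 1 + t a ≤ Real.exp (t a) := by linarith [Real.add_one_le_exp (t a)]
    have h5' : 1 ≤ Real.exp (t a) := by linarith
    have h6 := hp.nonneg φ
    have hE := (Real.exp_pos T).le
    have hX : 0 ≤ Real.exp T * p φ := mul_nonneg hE h6
    have a1 : δ a * p ((P - 1) * φ) ≤ δ a * ((Real.exp T - 1) * p φ) :=
      mul_le_mul_of_nonneg_left h3 hδa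
    have a2 : t a * p ((P - P') * φ) ≤ t a * (D * Real.exp T * p φ) :=
      mul_le_mul_of_nonneg_left h4 hta
    have a3 : (1 + t a) * (D * (Real.exp T * p φ)) ≤ Real.exp (t a) * (D * (Real.exp T * p φ)) :=
      mul_le_mul_of_nonneg_right h5 (mul_nonneg hD hX)
    have a4 : 1 * (δ a * (Real.exp T * p φ)) ≤ Real.exp (t a) * (δ a * (Real.exp T * p φ)) :=
      mul_le_mul_of_nonneg_right h5' (mul_nonneg hδa hX)
    have e2 : (δ a + D) * (Real.exp (t a) * Real.exp T - 1) * p φ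
        = Real.exp (t a) * (δ a * (Real.exp T * p φ)) + Real.exp (t a) * (D * (Real.exp T * p φ))
          - (δ a + D) * p φ := by ring
    rw [e2]
    have e3 : D * (Real.exp T - 1) * p φ = D * (Real.exp T * p φ) - D * p φ := by ring
    have e4 : δ a * ((Real.exp T - 1) * p φ) = δ a * (Real.exp T * p φ) - δ a * p φ := by ring
    have e5 : t a * (D * Real.exp T * p φ) = t a * (D * (Real.exp T * p φ)) := by ring
    rw [e3] at ih'
    rw [e4] at a1
    rw [e5] at a2
    have e6 : (1 + t a) * (D * (Real.exp T * p φ))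
        = D * (Real.exp T * p φ) + t a * (D * (Real.exp T * p φ)) := by ring
    rw [e6] at a3
    have e7 : (δ a + D) * p φ = δ a * p φ + D * p φ := by ring
    rw [e7]
    linarith

end Pool.Agent.WP
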