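import Pool.Agent.WP.Defs
import Pool.Agent.WP.ProdEst

/-!
Local estimates: `Pv W M T = e^{-T_W} M e^{T_W} |0>` in the weighted `ℓ¹` norm.
-/

set_option autoImplicit false

open scoped BigOperators

namespace Pool.Agent.WP

open Alg

variable {S : Type} [Fintype S] [DecidableEq S] {d : ℕ} [NeZero d]

theorem wn_seminorm {w : (S → Fin d) → ℝ} (hw : ∀ x, 0 ≤ w x) :
    SemiNormLike (wn w : Alg S d → ℝ) where
  zero := by simp [wn]
  add := by
    intro a b
    unfold wn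
    rw [← Finset.sum_add_distrib]
    refine Finset.sum_le_sum (fun x _ => ?_)
    rw [add_apply, ← mul_add]
    exact mul_le_mul_of_nonneg_left (norm_add_le _ _) (hw x)
  neg := by
    intro a
    unfold wn
    refine Finset.sum_congr rfl (fun x _ => ?_)
    rw [neg_apply, norm_neg]
  nonneg := fun a => Finset.sum_nonneg (fun x _ => mul_nonneg (hw x) (norm_nonneg _))

theorem wn_smul (w : (S → Fin d) → ℝ) (a : ℂ) (f : Alg S d) : wn w (a • f) = ‖a‖ * wn w f := by
  unfold wn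
  rw [Finset.mul_sum]
  refine Finset.sum_congr rfl (fun x _ => ?_)
  rw [smul_apply, norm_mul]
  ring

private theorem wn_e (w : (S → Fin d) → ℝ) (x : S → Fin d) : wn w (e x : Alg S d) = w x := by
  unfold wn
  rw [Finset.sum_eq_single x]
  · simp [e_apply]
  · intro b _ hb
    simp [e_apply, hb]
  · simp

private theorem wn_one (w : (S → Fin d) → ℝ) : wn w (1 : Alg S d) = w 0 := by
  rw [← e_zero, wn_e]

private theorem wn_zero (w : (S → Fin d) → ℝ) : wn w (0 : Alg S d) = 0 := by simp [wn]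

private theorem wn_sum_le {w : (S → Fin d) → ℝ} (hw : ∀ x, 0 ≤ w x) {ι : Type*} (s : Finset ι)
    (f : ι → Alg S d) : wn w (∑ i ∈ s, f i) ≤ ∑ i ∈ s, wn w (f i) := by
  classical
  induction s using Finset.induction_on with
  | empty => simp [wn_zero]
  | insert a s ha ih =>
    rw [Finset.sum_insert ha, Finset.sum_insert ha]
    have := (wn_seminorm hw).add (f a) (∑ i ∈ s, f i)
    linarith

/-- a linear map bounded on basis vectors -/
theorem wn_map_le {w : (S → Fin d) → ℝ} (hw : ∀ x, 0 ≤ w x) (M : Alg S d →ₗ[ℂ] Alg S d) {C : ℝ}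
    (h : ∀ y, wn w (M (e y)) ≤ C * w y) (f : Alg S d) : wn w (M f) ≤ C * wn w f := by
  have e1 : M f = ∑ y : S → Fin d, f y • M (e y) := by
    conv_lhs => rw [eq_sum f]
    rw [map_sum]
    exact Finset.sum_congr rfl (fun y _ => map_smul _ _ _)
  rw [e1]
  refine (wn_sum_le hw _ _).trans ?_
  unfold wn
  rw [Finset.mul_sum]
  refine Finset.sum_le_sum (fun y _ => ?_)
  have e2 := wn_smul w (f y) (M (e y))
  unfold wn at e2
  rw [e2]
  have h1 := h y
  unfold wn at h1
  have h2 := mul_le_mul_of_nonneg_left h1 (norm_nonneg (f y))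
  linarith

/-- multiplication by a basis element in a weighted norm -/
theorem wn_e_mul_le {w : (S → Fin d) → ℝ} (hw : ∀ x, 0 ≤ w x) (x : S → Fin d) {θ : ℝ} (hθ : 0 ≤ θ)
    (h : ∀ y, Disj x y → w (join x y) ≤ θ * w y) (f : Alg S d) : wn w (e x * f) ≤ θ * wn w f := by
  have h1 := wn_map_le hw (LinearMap.mulLeft ℂ (e x : Alg S d)) (C := θ) (fun y => by
    rw [LinearMap.mulLeft_apply, e_mul_e]
    split_ifs with hd
    · rw [wn_e]; exact h y hd
    · rw [wn_zero]; exact mul_nonneg hθ (hw y)) f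
  simpa using h1

/-- squares vanish, so `EP X (-T)` is the inverse of `EP X T` -/
theorem EP_neg_mul (X : Finset (S → Fin d)) (hX : (0 : S → Fin d) ∉ X) (T : (S → Fin d) → ℂ) :
    EP X (-T) * EP X T = 1 := by
  unfold EP
  rw [← Finset.prod_mul_distrib]
  refine Finset.prod_eq_one (fun x hx => ?_)
  have hx0 : x ≠ 0 := fun h => hX (h ▸ hx)
  have e1 : (e x : Alg S d) * e x = 0 := e_sq hx0
  have e2 : (-T) x • (e x : Alg S d) = -(T x • e x) := by
    rw [Pi.neg_apply, neg_smul]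
  have e3 : (T x • (e x : Alg S d)) * (T x • e x) = 0 := by
    rw [smul_mul_smul_comm, e1, smul_zero]
  rw [e2]
  linear_combination -e3

private theorem acts_EP {W : Finset S} {M : Alg S d →ₗ[ℂ] Alg S d} (hM : ActsOn W M)
    (T : (S → Fin d) → ℂ) (X : Finset (S → Fin d)) (hX : ∀ x ∈ X, Disjoint (supp x) W)
    (φ : Alg S d) : M (EP X T * φ) = EP X T * M φ := by
  classical
  induction X using Finset.induction_on generalizing φ with
  | empty => simp [EP]
  | insert a s ha ih =>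
    have ih' := ih (fun x hx => hX x (Finset.mem_insert_of_mem hx))
    have e1 : EP (insert a s) T = (1 + T a • e a) * EP s T := by
      unfold EP
      rw [Finset.prod_insert ha]
    have e2 : (1 + T a • e a) * EP s T * φ = EP s T * φ + T a • (e a * (EP s T * φ)) := by
      rw [add_mul, add_mul, one_mul, smul_mul_assoc, smul_mul_assoc, mul_assoc]
    have e3 : (1 + T a • e a) * EP s T * M φ = EP s T * M φ + T a • (e a * (EP s T * M φ)) := by
      rw [add_mul, add_mul, one_mul, smul_mul_assoc, smul_mul_assoc, mul_assoc]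
    rw [e1, e2, e3, map_add, map_smul, hM a (hX a (Finset.mem_insert_self a s)), ih']

/-- factors off the window cancel in the conjugation of an operator acting on the window -/
theorem conj_local {W : Finset S} {M : Alg S d →ₗ[ℂ] Alg S d} (hM : ActsOn W M)
    (T : (S → Fin d) → ℂ) (φ : Alg S d) :
    EP X0 (-T) * M (EP X0 T * φ) = EP (XW W) (-T) * M (EP (XW W) T * φ) := by
  classical
  have hsub : (XW W : Finset (S → Fin d)) ⊆ X0 := by
    intro x hx
    rw [XW, Finset.mem_filter] at hx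
    rw [X0, Finset.mem_filter]
    refine ⟨Finset.mem_univ _, fun h => hx.2 ?_⟩
    rw [h, supp_zero]
    exact Finset.disjoint_empty_left _
  set R : Finset (S → Fin d) := X0 \ XW W with hR
  have hRd : ∀ x ∈ R, Disjoint (supp x) W := by
    intro x hx
    rw [hR, Finset.mem_sdiff] at hx
    by_contra hc
    exact hx.2 (by rw [XW, Finset.mem_filter]; exact ⟨Finset.mem_univ _, hc⟩)
  have hR0 : (0 : S → Fin d) ∉ R := by
    intro h
    rw [hR, Finset.mem_sdiff, X0, Finset.mem_filter] at h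
    exact h.1.2 rfl
  have hsplit : ∀ U : (S → Fin d) → ℂ, (EP X0 U : Alg S d) = EP R U * EP (XW W) U := by
    intro U
    unfold EP
    rw [hR, Finset.prod_sdiff hsub]
  rw [hsplit T, hsplit (-T), mul_assoc (EP R T), acts_EP hM T R hRd]
  have h1 := EP_neg_mul R hR0 T
  calc EP R (-T) * EP (XW W) (-T) * (EP R T * M (EP (XW W) T * φ))
      = (EP R (-T) * EP R T) * (EP (XW W) (-T) * M (EP (XW W) T * φ)) := by ring
    _ = _ := by rw [h1, one_mul]

/-- `Pv` of a sum of operators with the plain `ℓ¹` norm or any weight `w` which is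
submultiplicative for the elements of `XW W` -/
theorem loc_est {W : Finset S} {w : (S → Fin d) → ℝ} (hw : ∀ x, 0 ≤ w x) (θ : (S → Fin d) → ℝ)
    (hθ : ∀ x, 0 ≤ θ x) (hsub : ∀ x ∈ XW W, ∀ y, Disj x y → w (join x y) ≤ θ x * w y)
    (D K : Alg S d →ₗ[ℂ] Alg S d) {μ κ : ℝ} (hμ : 0 ≤ μ) (hκ : 0 ≤ κ) (hD1 : D 1 = 0)
    (hD : ∀ φ, wn w (D φ) ≤ μ * wn w φ) (hK : ∀ φ, wn w (K φ) ≤ κ * wn w φ)
    (T T' : (S → Fin d) → ℂ) {τ : ℝ} (hT : ∑ x ∈ XW W, θ x * ‖T x‖ ≤ τ)
    (hT' : ∑ x ∈ XW W, θ x * ‖T' x‖ ≤ τ) :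
    wn w ((Pv W (D + K) T - D (LP (XW W) T)) - (Pv W (D + K) T' - D (LP (XW W) T'))) ≤
      w 0 * (μ * (Real.exp (2 * τ) - 1) * (2 * Real.exp (2 * τ) + 1) + 2 * κ * Real.exp (4 * τ)) *
        ∑ x ∈ XW W, θ x * ‖T x - T' x‖ := by
  classical
  have hp := wn_seminorm (S := S) (d := d) hw
  set t : (S → Fin d) → ℝ := fun x => θ x * (‖T x‖ + ‖T' x‖) with ht
  set δ : (S → Fin d) → ℝ := fun x => θ x * ‖T x - T' x‖ with hδ
  have ht0 : ∀ x ∈ XW W, 0 ≤ t x := fun x _ => mul_nonneg (hθ x) (by positivity)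
  have hδ0 : ∀ x ∈ XW W, 0 ≤ δ x := fun x _ => mul_nonneg (hθ x) (norm_nonneg _)
  have hts : ∑ x ∈ XW W, t x ≤ 2 * τ := by
    have : ∑ x ∈ XW W, t x = ∑ x ∈ XW W, θ x * ‖T x‖ + ∑ x ∈ XW W, θ x * ‖T' x‖ := by
      rw [← Finset.sum_add_distrib]
      exact Finset.sum_congr rfl (fun x _ => by rw [ht]; ring)
    linarith
  -- multiplication by `a • e x`
  have hmul : ∀ x ∈ XW W, ∀ (a : ℂ) (φ : Alg S d),
      wn w ((a • e x) * φ) ≤ θ x * ‖a‖ * wn w φ := by
    intro x hx a φ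
    rw [smul_mul_assoc, wn_smul]
    have h1 := wn_e_mul_le hw x (hθ x) (hsub x hx) φ
    have h2 := mul_le_mul_of_nonneg_left h1 (norm_nonneg a)
    linarith
  have hz : ∀ (U : (S → Fin d) → ℂ), (∀ x, ‖U x‖ ≤ ‖T x‖ + ‖T' x‖) →
      ∀ x ∈ XW W, ∀ φ : Alg S d, wn w ((U x • e x) * φ) ≤ t x * wn w φ := by
    intro U hU x hx φ
    refine (hmul x hx (U x) φ).trans ?_
    exact mul_le_mul_of_nonneg_right (mul_le_mul_of_nonneg_left (hU x) (hθ x)) (hp.nonneg φ)
  have hzT := hz T (fun x => by linarith [norm_nonneg (T' x)])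
  have hzT' := hz T' (fun x => by linarith [norm_nonneg (T x)])
  have hzN := hz (-T) (fun x => by rw [Pi.neg_apply, norm_neg]; linarith [norm_nonneg (T' x)])
  have hzN' := hz (-T') (fun x => by rw [Pi.neg_apply, norm_neg]; linarith [norm_nonneg (T x)])
  have hd : ∀ x ∈ XW W, ∀ φ : Alg S d,
      wn w ((T x • e x - T' x • e x) * φ) ≤ δ x * wn w φ := by
    intro x hx φ
    rw [← sub_smul]
    exact hmul x hx _ φ
  have hdN : ∀ x ∈ XW W, ∀ φ : Alg S d,
      wn w (((-T) x • e x - (-T') x • e x) * φ) ≤ δ x * wn w φ := by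
    intro x hx φ
    rw [← sub_smul]
    refine (hmul x hx _ φ).trans (le_of_eq ?_)
    have : ‖(-T) x - (-T') x‖ = ‖T x - T' x‖ := by
      rw [Pi.neg_apply, Pi.neg_apply, ← norm_neg]
      congr 1
      ring
    rw [this]
  set E : Alg S d := EP (XW W) T with hE
  set E' : Alg S d := EP (XW W) T' with hE'
  set f : Alg S d := EP (XW W) (-T) with hf
  set f' : Alg S d := EP (XW W) (-T') with hf'
  set Δ : ℝ := ∑ x ∈ XW W, θ x * ‖T x - T' x‖ with hΔ
  set St : ℝ := ∑ x ∈ XW W, t x with hSt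
  have hΔ0 : 0 ≤ Δ := Finset.sum_nonneg hδ0
  have hS0 : 0 ≤ St := Finset.sum_nonneg ht0
  have hexp : Real.exp St ≤ Real.exp (2 * τ) := Real.exp_le_exp.2 hts
  have hexp1 : 1 ≤ Real.exp St := Real.one_le_exp hS0
  set X : ℝ := Real.exp (2 * τ) with hX
  have hX1 : 1 ≤ X := hexp1.trans hexp
  have hX4 : Real.exp (4 * τ) = X * X := by
    rw [hX, ← Real.exp_add]; congr 1; ring
  have hw0 : 0 ≤ w 0 := hw 0
  -- the basic estimates
  have bE : ∀ φ, wn w (E * φ) ≤ X * wn w φ := fun φ =>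
    (prod_bound hp (XW W) (fun x => T x • e x) t ht0 hzT φ).trans
      (mul_le_mul_of_nonneg_right hexp (hp.nonneg φ))
  have bf' : ∀ φ, wn w (f' * φ) ≤ X * wn w φ := fun φ =>
    (prod_bound hp (XW W) (fun x => (-T') x • e x) t ht0 hzN' φ).trans
      (mul_le_mul_of_nonneg_right hexp (hp.nonneg φ))
  have bE1 : ∀ φ, wn w ((E - 1) * φ) ≤ (X - 1) * wn w φ := fun φ =>
    (prod_sub_one_bound hp (XW W) (fun x => T x • e x) t ht0 hzT φ).trans
      (mul_le_mul_of_nonneg_right (by linarith) (hp.nonneg φ))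
  have bf'1 : ∀ φ, wn w ((f' - 1) * φ) ≤ (X - 1) * wn w φ := fun φ =>
    (prod_sub_one_bound hp (XW W) (fun x => (-T') x • e x) t ht0 hzN' φ).trans
      (mul_le_mul_of_nonneg_right (by linarith) (hp.nonneg φ))
  have bEE : ∀ φ, wn w ((E - E') * φ) ≤ Δ * X * wn w φ := fun φ =>
    (prod_sub_prod_bound hp (XW W) (fun x => T x • e x) (fun x => T' x • e x) t δ ht0 hδ0
      hzT hzT' hd φ).trans
      (mul_le_mul_of_nonneg_right (mul_le_mul_of_nonneg_left hexp hΔ0) (hp.nonneg φ))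
  have bff : ∀ φ, wn w ((f - f') * φ) ≤ Δ * X * wn w φ := fun φ =>
    (prod_sub_prod_bound hp (XW W) (fun x => (-T) x • e x) (fun x => (-T') x • e x) t δ ht0 hδ0
      hzN hzN' hdN φ).trans
      (mul_le_mul_of_nonneg_right (mul_le_mul_of_nonneg_left hexp hΔ0) (hp.nonneg φ))
  have bq : wn w ((E - 1 - LP (XW W) T) - (E' - 1 - LP (XW W) T')) ≤ Δ * (X - 1) * w 0 := by
    have h1 := prod_quad_bound hp (XW W) (fun x => T x • e x) (fun x => T' x • e x) t δ ht0 hδ0
      hzT hzT' hd 1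
    rw [mul_one, wn_one] at h1
    refine h1.trans (mul_le_mul_of_nonneg_right (mul_le_mul_of_nonneg_left ?_ hΔ0) hw0)
    linarith
  -- decomposition
  have hDE : D E = D (E - 1) := by rw [map_sub, hD1, sub_zero]
  have hDE' : D E' = D (E' - 1) := by rw [map_sub, hD1, sub_zero]
  have key : (Pv W (D + K) T - D (LP (XW W) T)) - (Pv W (D + K) T' - D (LP (XW W) T'))
      = (((f - f') * D (E - 1) + (f' - 1) * D (E - E'))
        + D ((E - 1 - LP (XW W) T) - (E' - 1 - LP (XW W) T')))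
        + ((f - f') * K E + f' * K (E - E')) := by
    unfold Pv
    simp only [LinearMap.add_apply, map_sub, hD1]
    rw [← hE, ← hE', ← hf, ← hf']
    ring
  rw [key]
  have n1 := hp.add (((f - f') * D (E - 1) + (f' - 1) * D (E - E'))
        + D ((E - 1 - LP (XW W) T) - (E' - 1 - LP (XW W) T')))
        ((f - f') * K E + f' * K (E - E'))
  have n2 := hp.add ((f - f') * D (E - 1) + (f' - 1) * D (E - E'))
        (D ((E - 1 - LP (XW W) T) - (E' - 1 - LP (XW W) T')))
  have n3 := hp.add ((f - f') * D (E - 1)) ((f' - 1) * D (E - E'))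
  have n4 := hp.add ((f - f') * K E) (f' * K (E - E'))
  have wE1 : wn w (E - 1) ≤ (X - 1) * w 0 := by
    have := bE1 1
    rwa [mul_one, wn_one] at this
  have wE : wn w E ≤ X * w 0 := by
    have := bE 1
    rwa [mul_one, wn_one] at this
  have wEE : wn w (E - E') ≤ Δ * X * w 0 := by
    have := bEE 1
    rwa [mul_one, wn_one] at this
  have hX0 : 0 ≤ X := by linarith
  have hXm : 0 ≤ X - 1 := by linarith
  have hΔX : 0 ≤ Δ * X := mul_nonneg hΔ0 hX0
  have m1 : wn w ((f - f') * D (E - 1)) ≤ Δ * X * (μ * ((X - 1) * w 0)) :=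
    (bff _).trans (mul_le_mul_of_nonneg_left
      ((hD _).trans (mul_le_mul_of_nonneg_left wE1 hμ)) hΔX)
  have m2 : wn w ((f' - 1) * D (E - E')) ≤ (X - 1) * (μ * (Δ * X * w 0)) :=
    (bf'1 _).trans (mul_le_mul_of_nonneg_left
      ((hD _).trans (mul_le_mul_of_nonneg_left wEE hμ)) hXm)
  have m3 : wn w (D ((E - 1 - LP (XW W) T) - (E' - 1 - LP (XW W) T'))) ≤
      μ * (Δ * (X - 1) * w 0) := (hD _).trans (mul_le_mul_of_nonneg_left bq hμ)
  have m4 : wn w ((f - f') * K E) ≤ Δ * X * (κ * (X * w 0)) :=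
    (bff _).trans (mul_le_mul_of_nonneg_left
      ((hK _).trans (mul_le_mul_of_nonneg_left wE hκ)) hΔX)
  have m5 : wn w (f' * K (E - E')) ≤ X * (κ * (Δ * X * w 0)) :=
    (bf' _).trans (mul_le_mul_of_nonneg_left
      ((hK _).trans (mul_le_mul_of_nonneg_left wEE hκ)) hX0)
  rw [hX4]
  have fin : Δ * X * (μ * ((X - 1) * w 0)) + (X - 1) * (μ * (Δ * X * w 0))
      + μ * (Δ * (X - 1) * w 0) + Δ * X * (κ * (X * w 0)) + X * (κ * (Δ * X * w 0))
      = w 0 * (μ * (X - 1) * (2 * X + 1) + 2 * κ * (X * X)) * Δ := by ring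
  rw [← fin]
  linarith

theorem loc_est_zero {W : Finset S} {w : (S → Fin d) → ℝ}
    (D K : Alg S d →ₗ[ℂ] Alg S d) {κ : ℝ} (hD1 : D 1 = 0)
    (hK : ∀ φ, wn w (K φ) ≤ κ * wn w φ) :
    wn w (Pv W (D + K) 0 - D (LP (XW W) 0)) ≤ κ * w 0 := by
  have h1 : ∀ X : Finset (S → Fin d), (EP X 0 : Alg S d) = 1 := by
    intro X
    simp [EP]
  have h2 : (LP (XW W) 0 : Alg S d) = 0 := by simp [LP]
  have h3 : Pv W (D + K) 0 - D (LP (XW W) 0) = K 1 := by
    unfold Pv
    rw [h2, neg_zero, h1, map_zero, sub_zero, one_mul, LinearMap.add_apply, hD1, zero_add]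
  rw [h3, ← wn_one w]
  exact hK 1

end Pool.Agent.WP
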